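import Pool.Agent.UD.Defs

/-!
# MP_65787c_al, Block D : basic facts on the sets `Y`
-/

open Module

namespace Pool.Agent.UD

namespace YB

variable {F V : Type*} [Field F] [AddCommGroup V] [Module F V]
variable {ω : LinearMap.BilinForm F V}

lemma swap (hω : IsSymp ω) (x y : V) : ω x y = - ω y x := by
  have h := hω.alt (x + y)
  simp only [map_add, LinearMap.add_apply, hω.alt, zero_add, add_zero] at h
  linear_combination h

lemma nd' (hω : IsSymp ω) (x : V) (h : ∀ y, ω y x = 0) : x = 0 := by
  refine hω.nd x fun y => ?_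
  rw [swap hω, h, neg_zero]

lemma isRefl (hω : IsSymp ω) : ω.IsRefl := by
  intro x y h
  rw [swap hω, h, neg_zero]

lemma nondeg (hω : IsSymp ω) : ω.Nondegenerate := by
  refine ⟨fun x hx => hω.nd x hx, fun x hx => nd' hω x hx⟩

/-- the norm form represents everything -/
lemma norm_form [Finite F] (h2 : (2 : F) ≠ 0) {ν : F} (hν : ν ≠ 0) (c : F) :
    ∃ a b : F, a ^ 2 - ν * b ^ 2 = c := by
  classical
  haveI := Fintype.ofFinite F
  have hodd : Fintype.card F % 2 = 1 := by
    apply FiniteField.odd_card_of_char_ne_two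
    intro h
    apply h2
    have := ringChar.Nat.cast_ringChar (R := F)
    rw [h] at this
    exact_mod_cast this
  open Polynomial in
  obtain ⟨a, b, hab⟩ := FiniteField.exists_root_sum_quadratic (R := F)
    (f := (X ^ 2 - C c : F[X])) (g := (C (-ν) * X ^ 2 : F[X]))
    (degree_X_pow_sub_C (by decide) _)
    (by rw [degree_C_mul (neg_ne_zero.mpr hν), degree_X_pow]; rfl) hodd
  refine ⟨a, b, ?_⟩
  simp only [Polynomial.eval_sub, Polynomial.eval_pow, Polynomial.eval_X, Polynomial.eval_C,
    Polynomial.eval_mul] at hab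
  linear_combination hab

lemma ne_zero_of_nonsq {ν : F} (hν : ¬ IsSquare ν) : ν ≠ 0 := by
  rintro rfl
  exact hν (IsSquare.zero)

/-- `J`-frames. -/
def IsFrame (ω : LinearMap.BilinForm F V) (J : Module.End F V) {k : ℕ} (w : Fin k → V) : Prop :=
  (∀ i j, ω (w i) (J (w j)) = if i = j then 1 else 0) ∧ ∀ i j, ω (w i) (w j) = 0

lemma frame_JJ {ν : F} {J : Module.End F V} (hJ : J ∈ Y ω ν) {k : ℕ} {w : Fin k → V}
    (hw : IsFrame ω J w) (i j : Fin k) : ω (J (w i)) (J (w j)) = 0 := by
  rw [hJ.1, hJ.2, map_smul, hw.2, smul_zero, neg_zero]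

lemma frame_J1 {ν : F} {J : Module.End F V} (hJ : J ∈ Y ω ν) {k : ℕ} {w : Fin k → V}
    (hw : IsFrame ω J w) (i j : Fin k) : ω (J (w i)) (w j) = if i = j then -1 else 0 := by
  rw [hJ.1, hw.1]
  split_ifs <;> simp

lemma frame_indep {ν : F} {J : Module.End F V} (hJ : J ∈ Y ω ν) {k : ℕ}
    {w : Fin k → V} (hw : IsFrame ω J w) :
    LinearIndependent F (Sum.elim w (fun i => J (w i))) := by
  rw [Fintype.linearIndependent_iff]
  intro g hg
  rw [Fintype.sum_sum_type] at hg
  simp only [Sum.elim_inl, Sum.elim_inr] at hg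
  rintro (i | i)
  · have h := congrArg (fun x => ω (J (w i)) x) hg
    simp only [map_add, map_sum, map_smul, frame_JJ hJ hw, frame_J1 hJ hw, map_zero,
      smul_eq_mul, mul_zero, Finset.sum_const_zero, add_zero, mul_ite, mul_neg, mul_one,
      Finset.sum_ite_eq, Finset.mem_univ, if_true] at h
    simpa using h
  · have h := congrArg (fun x => ω (w i) x) hg
    simp only [map_add, map_sum, map_smul, hw.1, hw.2, map_zero,
      smul_eq_mul, mul_zero, Finset.sum_const_zero, zero_add, mul_ite, mul_one,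
      Finset.sum_ite_eq, Finset.mem_univ, if_true] at h
    simpa using h

lemma frame_step [Finite F] [Finite V] (hω : IsSymp ω) (h2 : (2 : F) ≠ 0) {ν : F}
    (hν : ¬ IsSquare ν) {J : Module.End F V} (hJ : J ∈ Y ω ν) {k : ℕ} {w : Fin k → V}
    (hw : IsFrame ω J w) (hk : 2 * k < finrank F V) :
    ∃ w' : Fin (k + 1) → V, IsFrame ω J w' := by
  classical
  have hν0 := ne_zero_of_nonsq hν
  -- the projection
  let p : V → V := fun x => x - ∑ i, ω x (J (w i)) • w i + ∑ i, ω x (w i) • J (w i)
  have hp1 : ∀ x j, ω (w j) (p x) = 0 := by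
    intro x j
    simp only [p, map_add, map_sub, map_sum, map_smul, hw.1, hw.2, smul_eq_mul, mul_zero,
      Finset.sum_const_zero, sub_zero, mul_ite, mul_one, Finset.sum_ite_eq, Finset.mem_univ,
      if_true]
    rw [swap hω x (w j)]; ring
  have hp2 : ∀ x j, ω (J (w j)) (p x) = 0 := by
    intro x j
    simp only [p, map_add, map_sub, map_sum, map_smul, frame_JJ hJ hw, frame_J1 hJ hw,
      smul_eq_mul, mul_zero,
      Finset.sum_const_zero, add_zero, mul_ite, mul_neg, mul_one, Finset.sum_ite_eq,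
      Finset.mem_univ, if_true]
    rw [swap hω x (J (w j))]; ring
  -- existence of y ≠ 0 orthogonal to the frame
  obtain ⟨y, hy0, hy1, hy2⟩ : ∃ y : V, y ≠ 0 ∧ (∀ j, ω (w j) y = 0) ∧
      ∀ j, ω (J (w j)) y = 0 := by
    by_contra hcon
    push Not at hcon
    have hp0 : ∀ x, p x = 0 := by
      intro x
      by_contra hx
      obtain ⟨j, hj⟩ := hcon (p x) hx (hp1 x)
      exact hj (hp2 x j)
    have hspan : (⊤ : Submodule F V) ≤
        Submodule.span F (Set.range (Sum.elim w (fun i => J (w i)))) := by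
      intro x _
      have hx := hp0 x
      have : x = ∑ i, ω x (J (w i)) • w i - ∑ i, ω x (w i) • J (w i) := by
        simp only [p] at hx
        rw [← sub_eq_zero, ← hx]; abel
      rw [this]
      apply Submodule.sub_mem
      · exact Submodule.sum_mem _ fun i _ => Submodule.smul_mem _ _
          (Submodule.subset_span ⟨Sum.inl i, rfl⟩)
      · exact Submodule.sum_mem _ fun i _ => Submodule.smul_mem _ _
          (Submodule.subset_span ⟨Sum.inr i, rfl⟩)
    have hle := finrank_range_le_card (R := F) (b := Sum.elim w (fun i => J (w i)))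
    rw [Set.finrank, top_le_iff.mp hspan, finrank_top, Fintype.card_sum, Fintype.card_fin] at hle
    omega
  -- a vector with ω w (J w) ≠ 0
  obtain ⟨u, hu0, hu1, hu2⟩ : ∃ u : V, ω u (J u) ≠ 0 ∧ (∀ j, ω (w j) u = 0) ∧
      ∀ j, ω (J (w j)) u = 0 := by
    by_contra hcon
    push Not at hcon
    have hz : ∀ u : V, (∀ j, ω (w j) u = 0) → (∀ j, ω (J (w j)) u = 0) → ω u (J u) = 0 := by
      intro u h1 h2
      by_contra h3
      obtain ⟨j, hj⟩ := hcon u h3 h1
      exact hj (h2 j)
    have hpol : ∀ x, ω (p x) (J y) = 0 := by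
      intro x
      have e1 := hz (p x) (hp1 x) (hp2 x)
      have e2 := hz y hy1 hy2
      have e3 := hz (p x + y) (fun j => by rw [map_add, hp1, hy1, add_zero])
        (fun j => by rw [map_add, hp2, hy2, add_zero])
      simp only [map_add, LinearMap.add_apply, e1, e2, zero_add, add_zero] at e3
      have e4 : ω y (J (p x)) = ω (p x) (J y) := by
        rw [swap hω y, hJ.1, neg_neg]
      rw [e4] at e3
      have : 2 * ω (p x) (J y) = 0 := by linear_combination e3
      exact (mul_eq_zero.mp this).resolve_left h2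
    have hJy : J y = 0 := by
      apply nd' hω
      intro x
      have hx : x = p x + ∑ i, ω x (J (w i)) • w i - ∑ i, ω x (w i) • J (w i) := by
        simp only [p]; abel
      rw [hx]
      simp only [map_add, map_sub, LinearMap.add_apply, LinearMap.sub_apply, hpol, map_sum,
        LinearMap.sum_apply, map_smul, LinearMap.smul_apply, hJ.1 _ (J y), hJ.2 y, hy1, smul_zero,
        neg_zero, Finset.sum_const_zero, sub_zero, zero_add]
      apply Finset.sum_eq_zero
      intro i _
      have : ω (w i) (J y) = 0 := by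
        have := hJ.1 (w i) y
        rw [hy2] at this
        linear_combination this
      rw [this, smul_zero]
    have := hJ.2 y
    rw [hJy, map_zero] at this
    exact hy0 ((smul_eq_zero.mp this.symm).resolve_left hν0)
  obtain ⟨a, b, hab⟩ := norm_form h2 hν0 (ω u (J u))⁻¹
  set v : V := a • u + b • J u with hv
  have hJv : J v = a • J u + (b * ν) • u := by
    rw [hv, map_add, map_smul, map_smul, hJ.2, smul_smul]
  have hv1 : ∀ j, ω (w j) v = 0 := by
    intro j
    have h3 : ω (w j) (J u) = 0 := by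
      have := hJ.1 (w j) u
      rw [hu2] at this
      linear_combination this
    rw [hv, map_add, map_smul, map_smul, hu1, h3, smul_zero, smul_zero, add_zero]
  have hv2 : ∀ j, ω (J (w j)) v = 0 := by
    intro j
    have h3 : ω (J (w j)) (J u) = 0 := by
      rw [hJ.1, hJ.2, map_smul, hu1, smul_zero, neg_zero]
    rw [hv, map_add, map_smul, map_smul, hu2, h3, smul_zero, smul_zero, add_zero]
  have hv3 : ω v (J v) = 1 := by
    have h4 : ω (J u) u = - ω u (J u) := swap hω _ _
    rw [hJv]
    simp only [hv, map_add, map_smul, LinearMap.add_apply, LinearMap.smul_apply, hω.alt, h4,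
      smul_eq_mul]
    have h5 : (a ^ 2 - ν * b ^ 2) * ω u (J u) = 1 := by
      rw [hab, inv_mul_cancel₀ hu0]
    linear_combination h5
  have hv4 : ω v v = 0 := hω.alt v
  refine ⟨Fin.snoc w v, ?_, ?_⟩
  · intro i j
    refine Fin.lastCases ?_ (fun i => ?_) i <;> refine Fin.lastCases ?_ (fun j => ?_) j
    · simp [hv3]
    · have h5 : ω v (J (w j)) = 0 := by rw [swap hω, hv2, neg_zero]
      have h6 : Fin.last k ≠ j.castSucc := (Fin.castSucc_lt_last j).ne'
      simp only [Fin.snoc_last, Fin.snoc_castSucc, h5, if_neg h6]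
    · have h5 : ω (w i) (J v) = 0 := by
        have := hJ.1 (w i) v
        rw [hv2] at this
        linear_combination this
      have h6 : i.castSucc ≠ Fin.last k := (Fin.castSucc_lt_last i).ne
      simp only [Fin.snoc_last, Fin.snoc_castSucc, h5, if_neg h6]
    · simp only [Fin.snoc_castSucc, hw.1, Fin.castSucc_inj]
  · intro i j
    refine Fin.lastCases ?_ (fun i => ?_) i <;> refine Fin.lastCases ?_ (fun j => ?_) j
    · simp [hv4]
    · have h5 : ω v (w j) = 0 := by rw [swap hω, hv1, neg_zero]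
      simp only [Fin.snoc_last, Fin.snoc_castSucc, h5]
    · simp only [Fin.snoc_last, Fin.snoc_castSucc, hv1]
    · simp only [Fin.snoc_castSucc, hw.2]

lemma exists_frame [Finite F] [Finite V] (hω : IsSymp ω) (h2 : (2 : F) ≠ 0) {ν : F}
    (hν : ¬ IsSquare ν) {J : Module.End F V} (hJ : J ∈ Y ω ν) :
    ∃ m : ℕ, finrank F V = 2 * m ∧ ∃ w : Fin m → V, IsFrame ω J w := by
  have key : ∀ k : ℕ, (∃ w : Fin k → V, IsFrame ω J w) ∨
      ∃ m : ℕ, finrank F V = 2 * m ∧ ∃ w : Fin m → V, IsFrame ω J w := by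
    intro k
    induction k with
    | zero => exact Or.inl ⟨Fin.elim0, fun i => i.elim0, fun i => i.elim0⟩
    | succ k ih =>
      rcases ih with ⟨w, hw⟩ | h
      · by_cases hk : 2 * k < finrank F V
        · exact Or.inl (frame_step hω h2 hν hJ hw hk)
        · right
          refine ⟨k, ?_, w, hw⟩
          have := (frame_indep hJ hw).fintype_card_le_finrank
          rw [Fintype.card_sum, Fintype.card_fin] at this
          omega
      · exact Or.inr h
  rcases key (finrank F V + 1) with ⟨w, hw⟩ | h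
  · exfalso
    have := (frame_indep hJ hw).fintype_card_le_finrank
    rw [Fintype.card_sum, Fintype.card_fin] at this
    omega
  · exact h

end YB

open YB

variable {F V : Type*} [Field F] [Finite F] [AddCommGroup V] [Module F V] [Finite V]
variable {ω : LinearMap.BilinForm F V}

/-- D1 : transitivity. -/
theorem Y_trans (hω : IsSymp ω) (h2 : (2 : F) ≠ 0) {ν : F} (hν : ¬ IsSquare ν)
    {J J' : Module.End F V} (hJ : J ∈ Y ω ν) (hJ' : J' ∈ Y ω ν) : ∃ g ∈ Sp ω, cj g J = J' := by
  classical
  obtain ⟨m, hm, w, hw⟩ := exists_frame hω h2 hν hJ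
  obtain ⟨m', hm', w', hw'⟩ := exists_frame hω h2 hν hJ'
  obtain rfl : m = m' := by omega
  have hc : Fintype.card (Fin m ⊕ Fin m) = finrank F V := by
    rw [Fintype.card_sum, Fintype.card_fin]; omega
  by_cases hm0 : m = 0
  · subst hm0
    have hV : Subsingleton V := by
      have : finrank F V = 0 := by omega
      exact finrank_zero_iff.mp this
    exact ⟨1, Subgroup.one_mem _, by ext x; exact Subsingleton.elim _ _⟩
  haveI : Nonempty (Fin m ⊕ Fin m) := ⟨Sum.inl ⟨0, Nat.pos_of_ne_zero hm0⟩⟩
  let b := basisOfLinearIndependentOfCardEqFinrank (frame_indep hJ hw) hc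
  let b' := basisOfLinearIndependentOfCardEqFinrank (frame_indep hJ' hw') hc
  have hb : ∀ i, b i = Sum.elim w (fun i => J (w i)) i := by
    intro i; simp [b]
  have hb' : ∀ i, b' i = Sum.elim w' (fun i => J' (w' i)) i := by
    intro i; simp [b']
  let g : V ≃ₗ[F] V := b.equiv b' (Equiv.refl _)
  have hg : ∀ i, g (b i) = b' i := by
    intro i; simp [g, Basis.equiv_apply]
  have hgw : ∀ i, g (w i) = w' i := by
    intro i
    have := hg (Sum.inl i)
    rwa [hb, hb'] at this
  have hgJ : ∀ i, g (J (w i)) = J' (w' i) := by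
    intro i
    have := hg (Sum.inr i)
    rwa [hb, hb'] at this
  refine ⟨g, ?_, ?_⟩
  · rw [mem_Sp]
    have : ω.comp (g : V →ₗ[F] V) (g : V →ₗ[F] V) = ω := by
      apply LinearMap.BilinForm.ext_basis b
      intro i j
      rw [LinearMap.BilinForm.comp_apply, LinearEquiv.coe_coe]
      rcases i with i | i <;> rcases j with j | j <;>
        simp only [hb, Sum.elim_inl, Sum.elim_inr, hgw, hgJ]
      · rw [hw.2, hw'.2]
      · rw [hw.1, hw'.1]
      · rw [frame_J1 hJ hw, frame_J1 hJ' hw']
      · rw [frame_JJ hJ hw, frame_JJ hJ' hw']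
    intro x y
    have := congrArg (fun B : LinearMap.BilinForm F V => B x y) this
    simpa using this
  · have hcomm : (g : V →ₗ[F] V) ∘ₗ J = J' ∘ₗ (g : V →ₗ[F] V) := by
      apply b.ext
      intro i
      rw [hb]
      rcases i with i | i <;>
        simp only [Sum.elim_inl, Sum.elim_inr, LinearMap.comp_apply, LinearEquiv.coe_coe,
          hgw, hgJ]
      rw [hJ.2, hJ'.2, map_smul, hgw]
    ext x
    have := congrArg (fun T : V →ₗ[F] V => T (g.symm x)) hcomm
    simp only [LinearMap.comp_apply, LinearEquiv.coe_coe, LinearEquiv.apply_symm_apply] at this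
    rw [cj_apply, this]

/-- D4 : no self-adjoint operator has a nonsquare scalar square if `m` is odd. -/
theorem not_SA_sq (hω : IsSymp ω) (h2 : (2 : F) ≠ 0) {m : ℕ} (hm : finrank F V = 2 * m)
    (hodd : Odd m) {ν : F} (hν : ¬ IsSquare ν) (s : Module.End F V) (hs : IsSA ω s)
    (hs2 : ∀ x, s (s x) = ν • x) : False := by
  classical
  have hν0 := ne_zero_of_nonsq hν
  haveI : Finite (Submodule F V) := Finite.of_injective (fun U : Submodule F V => (U : Set V))
    SetLike.coe_injective
  -- maximal stable totally isotropic subspace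
  let S : Set (Submodule F V) := {W | (∀ x ∈ W, s x ∈ W) ∧ TI ω W}
  have hS0 : (⊥ : Submodule F V) ∈ S := by
    refine ⟨?_, ?_⟩
    · intro x hx
      rw [Submodule.mem_bot] at hx
      rw [hx, map_zero]; exact Submodule.zero_mem _
    · intro x hx y _
      rw [Submodule.mem_bot] at hx
      rw [hx]; simp
  obtain ⟨W, hW⟩ := (Set.toFinite S).exists_maximal ⟨_, hS0⟩
  obtain ⟨⟨hWs, hWt⟩, hmax⟩ := hW
  have hxs : ∀ x, ω x (s x) = 0 := by
    intro x
    have h1 : ω (s x) x = ω x (s x) := hs x x
    have h3 := swap hω x (s x)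
    rw [h1] at h3
    have : 2 * ω x (s x) = 0 := by linear_combination h3
    exact (mul_eq_zero.mp this).resolve_left h2
  have hperp : ω.orthogonal W ≤ W := by
    intro x hx
    rw [LinearMap.BilinForm.mem_orthogonal_iff] at hx
    have hx1 : ∀ y ∈ W, ω y x = 0 := fun y hy => hx y hy
    have hx2 : ∀ y ∈ W, ω x y = 0 := fun y hy => by rw [swap hω, hx1 y hy, neg_zero]
    have hx3 : ∀ y ∈ W, ω y (s x) = 0 := fun y hy => by rw [← hs, hx1 _ (hWs y hy)]
    have hx4 : ∀ y ∈ W, ω (s x) y = 0 := fun y hy => by rw [swap hω, hx3 y hy, neg_zero]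
    have hx5 : ω (s x) (s x) = 0 := hω.alt _
    have hx6 : ω (s x) x = 0 := by rw [hs, hxs]
    let W' : Submodule F V := W ⊔ (Submodule.span F {x} ⊔ Submodule.span F {s x})
    have hmem : ∀ z, z ∈ W' ↔ ∃ y ∈ W, ∃ a b : F, z = y + (a • x + b • s x) := by
      intro z
      simp only [W', Submodule.mem_sup, Submodule.mem_span_singleton]
      constructor
      · rintro ⟨y, hy, _, ⟨_, ⟨a, rfl⟩, _, ⟨b, rfl⟩, rfl⟩, rfl⟩
        exact ⟨y, hy, a, b, rfl⟩
      · rintro ⟨y, hy, a, b, rfl⟩
        exact ⟨y, hy, _, ⟨_, ⟨a, rfl⟩, _, ⟨b, rfl⟩, rfl⟩, rfl⟩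
    have hW' : W' ∈ S := by
      refine ⟨?_, ?_⟩
      · intro z hz
        rw [hmem] at hz ⊢
        obtain ⟨y, hy, a, b, rfl⟩ := hz
        refine ⟨s y, hWs y hy, b * ν, a, ?_⟩
        rw [map_add, map_add, map_smul, map_smul, hs2, smul_smul]
        abel
      · intro z hz z' hz'
        rw [hmem] at hz hz'
        obtain ⟨y, hy, a, b, rfl⟩ := hz
        obtain ⟨y', hy', a', b', rfl⟩ := hz'
        simp only [map_add, map_smul, LinearMap.add_apply, LinearMap.smul_apply, hWt y hy y' hy',
          hx1 y hy, hx2 y' hy', hx3 y hy, hx4 y' hy', hx5, hx6, hxs, hω.alt x, smul_zero,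
          add_zero]
    have hle : W ≤ W' := le_sup_left
    have : W' ≤ W := hmax hW' hle
    apply this
    rw [hmem]
    exact ⟨0, Submodule.zero_mem _, 1, 0, by simp⟩
  have hperp' : W ≤ ω.orthogonal W := by
    intro x hx
    rw [LinearMap.BilinForm.mem_orthogonal_iff]
    intro y hy
    exact hWt y hy x hx
  have hWe : ω.orthogonal W = W := le_antisymm hperp hperp'
  have hfr := LinearMap.BilinForm.finrank_orthogonal (nondeg hω) W
  rw [hWe, hm] at hfr
  have hle := Submodule.finrank_le W
  have hWm : finrank F W = m := by omega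
  -- determinant
  let sW : W →ₗ[F] W := s.restrict hWs
  have hsq : sW ∘ₗ sW = ν • LinearMap.id := by
    ext x
    simp [sW, hs2]
  have hdet : LinearMap.det sW * LinearMap.det sW = ν ^ m := by
    rw [← LinearMap.det_comp, hsq, LinearMap.det_smul, LinearMap.det_id, mul_one, hWm]
  obtain ⟨k, hk⟩ := hodd
  apply hν
  refine ⟨LinearMap.det sW / ν ^ k, ?_⟩
  have hk0 : ν ^ k ≠ 0 := pow_ne_zero _ hν0
  have hd2 : LinearMap.det sW ^ 2 = ν ^ (2 * k + 1) := by rw [sq, hdet, hk]
  field_simp
  rw [hd2]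
  ring

/-- D3 : elements of `Y ω ν` anticommuting with an element `z` of `Y ω δ`, `δ ≠ 0`. -/
theorem card_Y_anti_le (hω : IsSymp ω) (h2 : (2 : F) ≠ 0) {ν δ : F} (hν : ν ≠ 0) (hδ : δ ≠ 0)
    {m : ℕ} (hm : finrank F V = 2 * m) {z : Module.End F V} (hz : z ∈ Y ω δ) :
    Nat.card {J : Y ω ν // ∀ x, J.1 (z x) = - z (J.1 x)} ≤
      Nat.card {U : Submodule F V // finrank F U = m ∧ TI ω U} := by
  classical
  haveI : Finite (Submodule F V) := Finite.of_injective (fun U : Submodule F V => (U : Set V))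
    SetLike.coe_injective
  obtain ⟨a, b, hab⟩ := norm_form h2 hδ ν⁻¹
  -- the involution attached to `J`
  let yy : Module.End F V → Module.End F V := fun J => a • J + b • (z ∘ₗ J)
  have yy_apply : ∀ J x, yy J x = a • J x + b • z (J x) := fun J x => rfl
  -- basic facts
  have hyy2 : ∀ J ∈ Y ω ν, (∀ x, J (z x) = - z (J x)) → ∀ x, yy J (yy J x) = x := by
    intro J hJ hJz x
    have e1 : J (J x) = ν • x := hJ.2 x
    have e2 : z (z x) = δ • x := hz.2 x
    simp only [yy_apply, map_add, map_smul, hJz, e1, map_neg, hz.2, smul_add, smul_neg, smul_smul]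
    have e3 : a * a * ν - b * b * ν * δ = 1 := by
      have : (a ^ 2 - δ * b ^ 2) * ν = 1 := by rw [hab, inv_mul_cancel₀ hν]
      linear_combination this
    have e4 : x = (a * a * ν - b * b * ν * δ) • x := by rw [e3, one_smul]
    conv_rhs => rw [e4]
    rw [sub_smul]
    module
  have hyysk : ∀ J ∈ Y ω ν, (∀ x, J (z x) = - z (J x)) → ∀ x y, ω (yy J x) y = - ω x (yy J y) := by
    intro J hJ hJz x y
    simp only [yy_apply, map_add, map_smul, LinearMap.add_apply, LinearMap.smul_apply, smul_eq_mul]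
    have e1 : ω (J x) y = - ω x (J y) := hJ.1 x y
    have e2 : ω (z (J x)) y = - ω x (z (J y)) := by
      rw [hz.1, hJ.1, neg_neg, hJz, map_neg]
    rw [e1, e2]; ring
  have hyyz : ∀ J ∈ Y ω ν, (∀ x, J (z x) = - z (J x)) → ∀ x, yy J (z x) = - z (yy J x) := by
    intro J hJ hJz x
    simp only [yy_apply, hJz, map_add, map_smul, map_neg, smul_neg]
    abel
  have hJyy : ∀ J ∈ Y ω ν, ∀ x, J x = ν • (a • yy J x - b • z (yy J x)) := by
    intro J hJ x
    simp only [yy_apply, map_add, map_smul, hz.2, smul_add, smul_sub, smul_smul]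
    have : (a ^ 2 - δ * b ^ 2) * ν = 1 := by rw [hab, inv_mul_cancel₀ hν]
    have e4 : J x = ((a ^ 2 - δ * b ^ 2) * ν) • J x := by rw [this, one_smul]
    conv_lhs => rw [e4]
    module
  let UU : Module.End F V → Submodule F V := fun J => LinearMap.ker (yy J - 1)
  have hUU : ∀ J x, x ∈ UU J ↔ yy J x = x := by
    intro J x
    simp only [UU, LinearMap.mem_ker, LinearMap.sub_apply, Module.End.one_apply, sub_eq_zero]
  have hTI : ∀ J ∈ Y ω ν, (∀ x, J (z x) = - z (J x)) → TI ω (UU J) := by
    intro J hJ hJz x hx y hy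
    rw [hUU] at hx hy
    have := hyysk J hJ hJz x y
    rw [hx, hy] at this
    have h3 : 2 * ω x y = 0 := by linear_combination this
    exact (mul_eq_zero.mp h3).resolve_left h2
  have hle : ∀ U : Submodule F V, TI ω U → finrank F U ≤ m := by
    intro U hU
    have h1 : U ≤ ω.orthogonal U := by
      intro x hx
      rw [LinearMap.BilinForm.mem_orthogonal_iff]
      intro y hy
      exact hU y hy x hx
    have h3 := LinearMap.BilinForm.finrank_orthogonal (nondeg hω) U
    have h4 := Submodule.finrank_mono h1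
    have h5 := Submodule.finrank_le U
    omega
  have hfin : ∀ J ∈ Y ω ν, (∀ x, J (z x) = - z (J x)) → finrank F (UU J) = m := by
    intro J hJ hJz
    let U' : Submodule F V := LinearMap.ker (yy J + 1)
    have hU' : ∀ x, x ∈ U' ↔ yy J x = -x := by
      intro x
      simp only [U', LinearMap.mem_ker, LinearMap.add_apply, Module.End.one_apply,
        add_eq_zero_iff_eq_neg]
    have hTI' : TI ω U' := by
      intro x hx y hy
      rw [hU'] at hx hy
      have := hyysk J hJ hJz x y
      rw [hx, hy] at this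
      simp only [map_neg, LinearMap.neg_apply] at this
      have h3 : 2 * ω x y = 0 := by linear_combination -this
      exact (mul_eq_zero.mp h3).resolve_left h2
    have hsup : UU J ⊔ U' = ⊤ := by
      rw [eq_top_iff]
      intro x _
      have hx : x = (2 : F)⁻¹ • (x + yy J x) + (2 : F)⁻¹ • (x - yy J x) := by
        rw [← smul_add]
        have : x + yy J x + (x - yy J x) = (2 : F) • x := by rw [two_smul]; abel
        rw [this, smul_smul, inv_mul_cancel₀ h2, one_smul]
      rw [hx]
      apply Submodule.add_mem_sup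
      · apply Submodule.smul_mem
        rw [hUU, map_add, hyy2 J hJ hJz]; abel
      · apply Submodule.smul_mem
        rw [hU', map_sub, hyy2 J hJ hJz]; abel
    have h1 := hle _ (hTI J hJ hJz)
    have h3 := hle _ hTI'
    have h4 := Submodule.finrank_add_le_finrank_add_finrank (UU J) U'
    rw [hsup, finrank_top] at h4
    omega
  refine Nat.card_le_card_of_injective
    (fun J : {J : Y ω ν // ∀ x, J.1 (z x) = - z (J.1 x)} =>
      (⟨UU J.1.1, hfin _ J.1.2 J.2, hTI _ J.1.2 J.2⟩ :
        {U : Submodule F V // finrank F U = m ∧ TI ω U})) ?_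
  rintro ⟨⟨J, hJ⟩, hJz⟩ ⟨⟨J', hJ'⟩, hJz'⟩ hEq
  have hU : UU J = UU J' := congrArg Subtype.val hEq
  simp only [Subtype.mk.injEq]
  have hy : ∀ x, yy J x = yy J' x := by
    intro x
    have hp : yy J' (x + yy J x) = x + yy J x := by
      rw [← hUU, ← hU, hUU, map_add, hyy2 J hJ hJz]; abel
    have hn1 : yy J (x - yy J x) = - (x - yy J x) := by
      rw [map_sub, hyy2 J hJ hJz]; abel
    have hn2 : yy J' (z (x - yy J x)) = z (x - yy J x) := by
      rw [← hUU, ← hU, hUU, hyyz J hJ hJz, hn1, map_neg, neg_neg]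
    rw [hyyz J' hJ' hJz'] at hn2
    have hn3 : δ • yy J' (x - yy J x) = δ • (- (x - yy J x)) := by
      rw [← hz.2, ← hz.2]
      have : z (yy J' (x - yy J x)) = - z (x - yy J x) := by rw [← hn2, neg_neg]
      rw [this, map_neg, map_neg, map_neg]
    have hn4 : yy J' (x - yy J x) = - (x - yy J x) := by
      have := congrArg (fun v => δ⁻¹ • v) hn3
      simpa only [smul_smul, inv_mul_cancel₀ hδ, one_smul] using this
    have h5 : yy J' ((x + yy J x) + (x - yy J x)) = (x + yy J x) - (x - yy J x) := by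
      rw [map_add, hp, hn4]; abel
    have h6 : (x + yy J x) + (x - yy J x) = (2 : F) • x := by rw [two_smul]; abel
    have h7 : (x + yy J x) - (x - yy J x) = (2 : F) • yy J x := by rw [two_smul]; abel
    rw [h6, h7, map_smul] at h5
    have := congrArg (fun v => (2 : F)⁻¹ • v) h5
    simp only [smul_smul, inv_mul_cancel₀ h2, one_smul] at this
    exact this.symm
  ext x
  rw [hJyy J hJ, hJyy J' hJ', hy]

namespace YB

section ext

variable {F V : Type*} [Field F] [AddCommGroup V] [Module F V]
variable (ω : LinearMap.BilinForm F V)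

/-- the orthogonal of the plane `⟨w, u⟩` -/
def Wsub (w u : V) : Submodule F V := LinearMap.ker (ω w) ⊓ LinearMap.ker (ω u)

variable {ω}

lemma fl (u x : V) : ω.flip u x = ω x u := rfl

lemma finite_End [Finite V] : Finite (Module.End F V) :=
  Finite.of_injective (fun f : Module.End F V => (f : V → V)) DFunLike.coe_injective

lemma mem_Wsub {w u x : V} : x ∈ Wsub ω w u ↔ ω w x = 0 ∧ ω u x = 0 := Iff.rfl

/-- the projection to the orthogonal of the plane `⟨w, u⟩` -/
def proj (hω : IsSymp ω) (w u : V) (hc : ω w u ≠ 0) : V →ₗ[F] Wsub ω w u :=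
  LinearMap.codRestrict (Wsub ω w u)
    (LinearMap.id - (ω w u)⁻¹ • (ω.flip u).smulRight w + (ω w u)⁻¹ • (ω.flip w).smulRight u) (by
      intro x
      rw [mem_Wsub]
      simp only [LinearMap.add_apply, LinearMap.sub_apply, LinearMap.id_apply,
        LinearMap.smul_apply, LinearMap.smulRight_apply, fl, map_add, map_sub,
        map_smul, hω.alt, smul_eq_mul, mul_zero, sub_zero, add_zero]
      rw [swap hω x w, swap hω x u, swap hω u w]
      constructor <;> field_simp <;> ring)

lemma proj_apply (hω : IsSymp ω) (w u : V) (hc : ω w u ≠ 0) (x : V) :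
    (proj hω w u hc x : V) = x - ((ω w u)⁻¹ * ω x u) • w + ((ω w u)⁻¹ * ω x w) • u := by
  simp only [proj, LinearMap.codRestrict_apply, LinearMap.add_apply, LinearMap.sub_apply,
    LinearMap.id_apply, LinearMap.smul_apply, LinearMap.smulRight_apply, fl, smul_smul]

lemma proj_w (hω : IsSymp ω) (w u : V) (hc : ω w u ≠ 0) : proj hω w u hc w = 0 := by
  apply Subtype.ext
  rw [proj_apply, inv_mul_cancel₀ hc, hω.alt]
  simp

lemma proj_u (hω : IsSymp ω) (w u : V) (hc : ω w u ≠ 0) : proj hω w u hc u = 0 := by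
  apply Subtype.ext
  rw [proj_apply, swap hω u w, mul_neg, inv_mul_cancel₀ hc, hω.alt]
  simp

lemma proj_W (hω : IsSymp ω) (w u : V) (hc : ω w u ≠ 0) (x : Wsub ω w u) :
    proj hω w u hc x = x := by
  apply Subtype.ext
  rw [proj_apply, swap hω x w, swap hω x u, (mem_Wsub.mp x.2).1, (mem_Wsub.mp x.2).2]
  simp

lemma decomp (hω : IsSymp ω) (w u : V) (hc : ω w u ≠ 0) (x : V) :
    ∃ (a b : F) (x' : Wsub ω w u), x = a • w + b • u + x' := by
  refine ⟨(ω w u)⁻¹ * ω x u, - ((ω w u)⁻¹ * ω x w), proj hω w u hc x, ?_⟩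
  rw [proj_apply]
  module

/-- extension of an operator on the orthogonal of the plane `⟨w, u⟩` by `w ↦ u ↦ δ w` -/
def extJ (hω : IsSymp ω) (w u : V) (hc : ω w u ≠ 0) (δ : F) (J' : Module.End F (Wsub ω w u)) :
    Module.End F V :=
  (ω w u)⁻¹ • (ω.flip u).smulRight u - ((ω w u)⁻¹ * δ) • (ω.flip w).smulRight w +
    (Wsub ω w u).subtype ∘ₗ J' ∘ₗ proj hω w u hc

lemma extJ_w (hω : IsSymp ω) (w u : V) (hc : ω w u ≠ 0) (δ : F)
    (J' : Module.End F (Wsub ω w u)) : extJ hω w u hc δ J' w = u := by
  simp [extJ, proj_w, hω.alt, smul_smul, inv_mul_cancel₀ hc]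

lemma extJ_u (hω : IsSymp ω) (w u : V) (hc : ω w u ≠ 0) (δ : F)
    (J' : Module.End F (Wsub ω w u)) : extJ hω w u hc δ J' u = δ • w := by
  simp only [extJ, LinearMap.add_apply, LinearMap.sub_apply, LinearMap.smul_apply,
    LinearMap.smulRight_apply, fl, hω.alt, LinearMap.comp_apply, proj_u,
    map_zero, swap hω u w, zero_smul, smul_zero, add_zero, zero_sub, smul_smul]
  rw [← neg_smul]
  congr 1
  field_simp

lemma extJ_W (hω : IsSymp ω) (w u : V) (hc : ω w u ≠ 0) (δ : F)
    (J' : Module.End F (Wsub ω w u)) (x : Wsub ω w u) :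
    extJ hω w u hc δ J' x = J' x := by
  simp only [extJ, LinearMap.add_apply, LinearMap.sub_apply, LinearMap.smul_apply,
    LinearMap.smulRight_apply, fl, LinearMap.comp_apply, proj_W,
    swap hω x w, swap hω x u, (mem_Wsub.mp x.2).1, (mem_Wsub.mp x.2).2, Submodule.coe_subtype]
  simp

lemma restrict_isSymp (hω : IsSymp ω) (w u : V) (hc : ω w u ≠ 0) :
    IsSymp (ω.restrict (Wsub ω w u)) := by
  refine ⟨fun x => hω.alt _, fun x hx => ?_⟩
  apply Subtype.ext
  apply hω.nd
  intro y
  obtain ⟨a, b, y', rfl⟩ := decomp hω w u hc y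
  have h1 : ω x w = 0 := by rw [swap hω, (mem_Wsub.mp x.2).1, neg_zero]
  have h2 : ω x u = 0 := by rw [swap hω, (mem_Wsub.mp x.2).2, neg_zero]
  have h3 : ω x y' = 0 := hx y'
  simp [h1, h2, h3]

lemma extJ_mem (hω : IsSymp ω) (w u : V) (hc : ω w u ≠ 0) (δ : F)
    (J' : Module.End F (Wsub ω w u)) (hJ' : J' ∈ Y (ω.restrict (Wsub ω w u)) δ) :
    extJ hω w u hc δ J' ∈ Y ω δ := by
  refine ⟨?_, ?_⟩
  · intro x y
    obtain ⟨a, b, x', rfl⟩ := decomp hω w u hc x
    obtain ⟨a', b', y', rfl⟩ := decomp hω w u hc y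
    have h1 : ∀ x : Wsub ω w u, ω x w = 0 := fun x => by
      rw [swap hω, (mem_Wsub.mp x.2).1, neg_zero]
    have h2 : ∀ x : Wsub ω w u, ω x u = 0 := fun x => by
      rw [swap hω, (mem_Wsub.mp x.2).2, neg_zero]
    have h3 : ∀ x : Wsub ω w u, ω w x = 0 := fun x => (mem_Wsub.mp x.2).1
    have h4 : ∀ x : Wsub ω w u, ω u x = 0 := fun x => (mem_Wsub.mp x.2).2
    have h5 : ω (J' x') y' = - ω x' (J' y') := hJ'.1 x' y'
    simp only [map_add, map_smul, LinearMap.add_apply, LinearMap.smul_apply, extJ_w, extJ_u,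
      extJ_W, hω.alt, h1, h2, h3, h4, h5, smul_eq_mul, mul_zero, zero_add, add_zero,
      swap hω u w]
    ring
  · intro x
    obtain ⟨a, b, x', rfl⟩ := decomp hω w u hc x
    have h5 : (J' (J' x') : V) = δ • (x' : V) := congrArg Subtype.val (hJ'.2 x')
    simp only [map_add, map_smul, extJ_w, extJ_u, extJ_W, h5, smul_add]
    rw [smul_comm a δ w, smul_comm b δ u]

lemma finrank_Wsub [FiniteDimensional F V] (hω : IsSymp ω) (w u : V) (hc : ω w u ≠ 0) :
    finrank F (Wsub ω w u) + 2 = finrank F V := by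
  have hker : LinearMap.ker ((ω w).prod (ω u)) = Wsub ω w u := LinearMap.ker_prod _ _
  have hsurj : LinearMap.range ((ω w).prod (ω u)) = ⊤ := by
    rw [LinearMap.range_eq_top]
    rintro ⟨s, t⟩
    refine ⟨(-(ω w u)⁻¹ * t) • w + ((ω w u)⁻¹ * s) • u, ?_⟩
    apply Prod.ext
    · change ω w _ = s
      simp only [map_add, map_smul, hω.alt, smul_eq_mul, mul_zero, zero_add]
      field_simp
    · change ω u _ = t
      simp only [map_add, map_smul, hω.alt, smul_eq_mul, mul_zero, add_zero, swap hω u w]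
      field_simp
  have := LinearMap.finrank_range_add_finrank_ker ((ω w).prod (ω u))
  rw [hker, hsurj, finrank_top, Module.finrank_prod, Module.finrank_self] at this
  omega

end ext

universe u v

lemma card_Y_ge_aux {F : Type u} [Field F] [Finite F] (δ : F) :
    ∀ (m : ℕ) (V : Type v) [AddCommGroup V] [Module F V] [Finite V]
      (ω : LinearMap.BilinForm F V), IsSymp ω → finrank F V = 2 * m →
      ∏ i ∈ Finset.range m, ((Nat.card F) ^ (2 * (i + 1)) - (Nat.card F) ^ (2 * i + 1)) ≤
        Nat.card (Y ω δ) := by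
  intro m
  induction m with
  | zero =>
    intro V _ _ _ ω hω hm
    have hV : Subsingleton V := finrank_zero_iff.mp (by omega)
    have h0 : (0 : Module.End F V) ∈ Y ω δ :=
      ⟨fun x y => by simp, fun x => Subsingleton.elim _ _⟩
    haveI : Nonempty (Y ω δ) := ⟨⟨0, h0⟩⟩
    haveI : Finite (Module.End F V) := finite_End
    have := Nat.card_pos (α := Y ω δ)
    simpa using this
  | succ m ih =>
    intro V _ _ _ ω hω hm
    classical
    haveI : Nontrivial V := by
      apply Module.nontrivial_of_finrank_pos (R := F); omega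
    obtain ⟨w, hw⟩ := exists_ne (0 : V)
    have hcard : Nat.card {u : V // ω w u ≠ 0} =
        (Nat.card F) ^ (2 * (m + 1)) - (Nat.card F) ^ (2 * m + 1) := by
      have h1 : Nat.card {u : V // ω w u = 0} + Nat.card {u : V // ¬ ω w u = 0} = Nat.card V := by
        rw [← Nat.card_sum]
        exact Nat.card_congr (Equiv.sumCompl _)
      have h2 : Nat.card V = (Nat.card F) ^ (2 * (m + 1)) := by
        rw [Module.natCard_eq_pow_finrank (K := F) (V := V), hm]
      have h3 : Nat.card {u : V // ω w u = 0} = (Nat.card F) ^ (2 * m + 1) := by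
        have h4 : finrank F (LinearMap.ker (ω w)) = 2 * m + 1 := by
          have h5 := LinearMap.finrank_range_add_finrank_ker (ω w)
          have h6 : LinearMap.range (ω w) = ⊤ := by
            apply LinearMap.range_eq_top.mpr
            apply LinearMap.surjective
            intro h7
            apply hw
            apply hω.nd
            intro y
            rw [h7]; rfl
          rw [h6, finrank_top, Module.finrank_self] at h5
          omega
        have h5 := Module.natCard_eq_pow_finrank (K := F) (V := LinearMap.ker (ω w))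
        rw [h4] at h5
        rw [← h5]
        rfl
      have h4 : Nat.card {u : V // ω w u ≠ 0} = Nat.card {u : V // ¬ ω w u = 0} := rfl
      rw [← h2, ← h1, h3, h4]
      omega
    let f : (Σ u : {u : V // ω w u ≠ 0}, Y (ω.restrict (Wsub ω w u.1)) δ) → Y ω δ :=
      fun p => ⟨extJ hω w p.1.1 p.1.2 δ p.2.1, extJ_mem hω w p.1.1 p.1.2 δ p.2.1 p.2.2⟩
    have hf : Function.Injective f := by
      rintro ⟨⟨u, hu⟩, ⟨J, hJ⟩⟩ ⟨⟨u', hu'⟩, ⟨J', hJ'⟩⟩ h
      have h1 : extJ hω w u hu δ J = extJ hω w u' hu' δ J' := congrArg Subtype.val h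
      have h2 : u = u' := by
        rw [← extJ_w hω w u hu δ J, h1, extJ_w]
      subst h2
      have h3 : J = J' := by
        ext x
        rw [← extJ_W hω w u hu δ J, h1, extJ_W]
      subst h3
      rfl
    haveI : Finite (Module.End F V) := finite_End
    have hfinW : ∀ W : Submodule F V, Finite (Module.End F W) := fun W => finite_End
    have hle := Nat.card_le_card_of_injective f hf
    refine le_trans ?_ hle
    haveI : Fintype {u : V // ω w u ≠ 0} := Fintype.ofFinite _
    haveI : ∀ u : {u : V // ω w u ≠ 0}, Finite (Y (ω.restrict (Wsub ω w u.1)) δ) := fun u =>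
      haveI := hfinW (Wsub ω w u.1)
      inferInstance
    rw [Nat.card_sigma, Finset.prod_range_succ, ← hcard, mul_comm,
      Nat.card_eq_fintype_card (α := {u : V // ω w u ≠ 0}), ← Finset.card_univ, ← smul_eq_mul,
      ← Finset.sum_const]
    apply Finset.sum_le_sum
    rintro ⟨u, hu⟩ _
    apply ih
    · exact restrict_isSymp hω w u hu
    · have := finrank_Wsub hω w u hu
      simp only
      omega

end YB

/-- D2 : lower bound. -/
theorem card_Y_ge (hω : IsSymp ω) {m : ℕ} (hm : finrank F V = 2 * m) (δ : F) :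
    ∏ i ∈ Finset.range m, (Nat.card F ^ (2 * (i + 1)) - Nat.card F ^ (2 * i + 1)) ≤
      Nat.card (Y ω δ) :=
  YB.card_Y_ge_aux δ m V ω hω hm

end Pool.Agent.UD
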