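import Pool.Agent.UD.Defs2
import Pool.Agent.UD.YBasic

/-!
# The algebra step (block J)
-/

open Module

namespace Pool.Agent.UD

variable {F V : Type*} [Field F] [Finite F] [AddCommGroup V] [Module F V] [Finite V]
variable {ω : LinearMap.BilinForm F V}

namespace AlgStep

omit [Finite F] [Finite V] in
theorem sw (hω : IsSymp ω) (x y : V) : ω x y = - ω y x := by
  have h := hω.alt (x + y)
  simp only [map_add, LinearMap.add_apply, hω.alt, zero_add, add_zero] at h
  exact eq_neg_of_add_eq_zero_right h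

omit [Finite F] [Finite V] in
theorem nondeg (hω : IsSymp ω) : ω.Nondegenerate := by
  refine ⟨fun x h => hω.nd x h, fun x h => hω.nd x fun y => ?_⟩
  rw [sw hω, h y, neg_zero]

omit [Finite F] [Finite V] in
theorem isRefl (hω : IsSymp ω) : ω.IsRefl := by
  intro x y h
  rw [sw hω, h, neg_zero]

omit [Finite F] in
theorem finite_end : Finite (Module.End F V) :=
  Finite.of_injective (fun f : Module.End F V => (f : V → V)) DFunLike.coe_injective

omit [Finite F] in
theorem exists_adj (hω : IsSymp ω) (T : Module.End F V) :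
    ∃ S : Module.End F V, ∀ x y, ω (T x) y = ω x (S y) := by
  refine ⟨ω.leftAdjointOfNondegenerate (nondeg hω) T, fun x y => ?_⟩
  have h := ω.isAdjointPairLeftAdjointOfNondegenerate (nondeg hω) T y x
  rw [sw hω, ← h, sw hω x]

omit [Finite F] [Finite V] in
theorem adj_symm (hω : IsSymp ω) {T S : Module.End F V} (h : ∀ x y, ω (T x) y = ω x (S y)) :
    ∀ x y, ω (S x) y = ω x (T y) := by
  intro x y
  rw [sw hω, ← h, sw hω x]

omit [Finite F] [Finite V] in
theorem adj_unique (hω : IsSymp ω) {T S S' : Module.End F V}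
    (h : ∀ x y, ω (T x) y = ω x (S y)) (h' : ∀ x y, ω (T x) y = ω x (S' y)) : S = S' := by
  ext y
  rw [← sub_eq_zero]
  apply hω.nd
  intro x
  rw [sw hω, map_sub, ← h, ← h', sub_self, neg_zero]

omit [Finite F] in
theorem finrank_orth (hω : IsSymp ω) (U : Submodule F V) :
    finrank F (ω.orthogonal U) = finrank F V - finrank F U :=
  LinearMap.BilinForm.finrank_orthogonal (nondeg hω) U

omit [Finite F] [Finite V] in
theorem stab_orth (hω : IsSymp ω) {A : Subalgebra F (Module.End F V)} (hA : StarStable ω A)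
    {U : Submodule F V} (hU : Stab A U) : Stab A (ω.orthogonal U) := by
  intro a ha y hy n hn
  obtain ⟨b, hb, hab⟩ := hA a ha
  have h1 := hy (b n) (hU b hb n hn)
  change ω (b n) y = 0 at h1
  change ω n (a y) = 0
  rw [← adj_symm hω hab]
  exact h1

omit [Finite F] in
/-- a proper nonzero stable subspace gives a small one which is totally isotropic or
nondegenerate -/
theorem stable_sub (hω : IsSymp ω) {m : ℕ} (hm : finrank F V = 2 * m)
    (A B : Subalgebra F (Module.End F V)) (hA : StarStable ω A) (hB : StarStable ω B)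
    {W : Submodule F V} (hW : W ≠ ⊥) (hW' : W ≠ ⊤) (hWA : Stab A W) (hWB : Stab B W) :
    ∃ U : Submodule F V, U ≠ ⊥ ∧ finrank F U ≤ m ∧ (TI ω U ∨ ND ω U) ∧ Stab A U ∧ Stab B U := by
  obtain ⟨U, ⟨hU, hU', hUA, hUB⟩, hmin⟩ := (wellFounded_lt (α := Submodule F V)).has_min
    {U | U ≠ ⊥ ∧ U ≠ ⊤ ∧ Stab A U ∧ Stab B U} ⟨W, hW, hW', hWA, hWB⟩
  have hOA := stab_orth hω hA hUA
  have hOB := stab_orth hω hB hUB
  have hfr := finrank_orth hω U
  have hlt : finrank F U < 2 * m := by
    rw [← hm]
    exact Submodule.finrank_lt hU'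
  by_cases hD : U ⊓ ω.orthogonal U = ⊥
  · have hnd : ND ω U := by
      intro x hx h
      have h1 : x ∈ U ⊓ ω.orthogonal U := ⟨hx, fun n hn => by
        change ω n x = 0
        rw [sw hω, h n hn, neg_zero]⟩
      rw [hD] at h1
      exact (Submodule.mem_bot F).1 h1
    by_cases hle : finrank F U ≤ m
    · exact ⟨U, hU, hle, Or.inr hnd, hUA, hUB⟩
    · refine ⟨ω.orthogonal U, ?_, ?_, Or.inr ?_, hOA, hOB⟩
      · intro h
        rw [h, finrank_bot] at hfr
        omega
      · omega
      · intro x hx h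
        have h1 : x ∈ ω.orthogonal (ω.orthogonal U) := fun n hn => by
          change ω n x = 0
          rw [sw hω, h n hn, neg_zero]
        rw [LinearMap.BilinForm.orthogonal_orthogonal (nondeg hω) (isRefl hω)] at h1
        have h2 : x ∈ U ⊓ ω.orthogonal U := ⟨h1, hx⟩
        rw [hD] at h2
        exact (Submodule.mem_bot F).1 h2
  · have h1 : U ⊓ ω.orthogonal U = U := by
      by_contra hne
      apply hmin (U ⊓ ω.orthogonal U) ⟨hD, ?_, ?_, ?_⟩
      · exact lt_of_le_of_ne inf_le_left hne
      · intro h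
        apply hU'
        rw [eq_top_iff, ← h]
        exact inf_le_left
      · intro a ha x hx
        exact ⟨hUA a ha x hx.1, hOA a ha x hx.2⟩
      · intro a ha x hx
        exact ⟨hUB a ha x hx.1, hOB a ha x hx.2⟩
    have h2 : U ≤ ω.orthogonal U := by
      rw [← h1]
      exact le_trans inf_le_right (by rw [h1])
    refine ⟨U, hU, ?_, Or.inl ?_, hUA, hUB⟩
    · have h3 := Submodule.finrank_mono h2
      omega
    · intro x hx y hy
      exact h2 hy x hx

/-- the quotient of two nonsquares is a square -/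
theorem exists_sq {K : Type*} [Ring K] [Finite K] (hK : IsField K) (h2 : (2 : K) ≠ 0) {a b : K}
    (ha : ¬ IsSquare a) (hb : ¬ IsSquare b) : ∃ y z : K, y * z = 1 ∧ a = b * (y * y) := by
  classical
  let _ := hK.toField
  have := Fintype.ofFinite K
  have hc : ringChar K ≠ 2 := by
    intro h
    apply h2
    have := ringChar.spec K 2
    have h3 : ((2 : ℕ) : K) = 0 := this.2 (by rw [h])
    exact_mod_cast h3
  have hb0 : b ≠ 0 := by
    rintro rfl
    exact hb (IsSquare.zero)
  have ha0 : a ≠ 0 := by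
    rintro rfl
    exact ha (IsSquare.zero)
  have h1 : quadraticChar K a = -1 := quadraticChar_neg_one_iff_not_isSquare.2 ha
  have h3 : quadraticChar K b = -1 := quadraticChar_neg_one_iff_not_isSquare.2 hb
  have h4 : quadraticChar K (a * b) = 1 := by rw [map_mul, h1, h3]; norm_num
  obtain ⟨r, hr⟩ := (quadraticChar_one_iff_isSquare (mul_ne_zero ha0 hb0)).1 h4
  have hr0 : r ≠ 0 := by
    rintro rfl
    rw [mul_zero] at hr
    exact mul_ne_zero ha0 hb0 hr
  refine ⟨r / b, b / r, ?_, ?_⟩
  · field_simp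
  · field_simp
    rw [hr, sq]

omit [Finite V] in
theorem comm_aux (hω : IsSymp ω) (h2 : (2 : F) ≠ 0) {m : ℕ} (hm : finrank F V = 2 * m)
    (hodd : Odd m) {ν : F} (hν : ¬ IsSquare ν) [Finite V]
    (C : Subalgebra F (Module.End F V)) (hC : ∀ c ∈ C, c ≠ 0 → Function.Injective c)
    {x : V ≃ₗ[F] V} (hx : x ∈ Sp ω) (hxC : (x : Module.End F V) ∈ C)
    (hxC' : (x.symm : Module.End F V) ∈ C) (hne : ¬ Triv x) : ∃ J' ∈ C, J' ∈ Y ω ν := by
  classical
  have hfin := finite_end (F := F) (V := V)
  have hnt : Nontrivial V := by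
    apply Module.nontrivial_of_finrank_pos (R := F)
    rw [hm]
    have := hodd.pos
    omega
  have hdom : IsDomain C := by
    have : NoZeroDivisors C := by
      refine ⟨fun {c d} h => ?_⟩
      by_cases hc : c = 0
      · exact Or.inl hc
      · right
        have hc' : (c : Module.End F V) ≠ 0 := fun h0 => hc (Subtype.ext h0)
        have hinj := hC c c.2 hc'
        apply Subtype.ext
        ext v
        apply hinj
        have h1 : ((c * d : C) : Module.End F V) v = 0 := by rw [h]; rfl
        rw [Subalgebra.coe_mul, Module.End.mul_apply] at h1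
        rw [h1]
        change 0 = (c : Module.End F V) 0
        rw [map_zero]
    exact NoZeroDivisors.to_isDomain C
  have hfC : Finite C := inferInstance
  have hF : IsField C := Finite.isDomain_to_isField C
  have hcomm : ∀ c ∈ C, ∀ d ∈ C, c * d = d * c := by
    intro c hc d hd
    exact congrArg Subtype.val (hF.mul_comm ⟨c, hc⟩ ⟨d, hd⟩)
  -- the field of self-adjoint elements
  let K : Subalgebra F (Module.End F V) :=
    { carrier := {c | c ∈ C ∧ IsSA ω c}
      mul_mem' := by
        rintro c d ⟨hc, hc'⟩ ⟨hd, hd'⟩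
        refine ⟨C.mul_mem hc hd, fun u v => ?_⟩
        rw [Module.End.mul_apply, hc', hd', ← Module.End.mul_apply, hcomm d hd c hc]
      add_mem' := by
        rintro c d ⟨hc, hc'⟩ ⟨hd, hd'⟩
        refine ⟨C.add_mem hc hd, fun u v => ?_⟩
        rw [LinearMap.add_apply, LinearMap.add_apply, map_add, map_add, LinearMap.add_apply, hc',
          hd']
      algebraMap_mem' := by
        intro r
        refine ⟨C.algebraMap_mem r, fun u v => ?_⟩
        rw [Module.algebraMap_end_apply, Module.algebraMap_end_apply, map_smul, map_smul,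
          LinearMap.smul_apply] }
  have hKC : ∀ c ∈ K, c ∈ C := fun c hc => hc.1
  have hKdom : IsDomain K := by
    have : NoZeroDivisors K := by
      refine ⟨fun {c d} h => ?_⟩
      by_cases hc : c = 0
      · exact Or.inl hc
      · right
        have hc' : (c : Module.End F V) ≠ 0 := fun h0 => hc (Subtype.ext h0)
        have hinj := hC c c.2.1 hc'
        apply Subtype.ext
        ext v
        apply hinj
        have h1 : ((c * d : K) : Module.End F V) v = 0 := by rw [h]; rfl
        rw [Subalgebra.coe_mul, Module.End.mul_apply] at h1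
        rw [h1]
        change 0 = (c : Module.End F V) 0
        rw [map_zero]
    exact NoZeroDivisors.to_isDomain K
  have hfK : Finite K := inferInstance
  have hKF : IsField K := Finite.isDomain_to_isField K
  -- the skew element `z`
  set z : Module.End F V := (x : Module.End F V) - (x.symm : Module.End F V) with hz
  have hzC : z ∈ C := C.sub_mem hxC hxC'
  have hxs : ∀ u v, ω (x u) v = ω u (x.symm v) := by
    intro u v
    rw [← hx u (x.symm v), LinearEquiv.apply_symm_apply]
  have hxs' : ∀ u v, ω (x.symm u) v = ω u (x v) := by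
    intro u v
    rw [← hx (x.symm u) v, LinearEquiv.apply_symm_apply]
  have hzs : IsSK ω z := by
    intro u v
    simp only [hz, LinearMap.sub_apply, map_sub, LinearEquiv.coe_coe, hxs, hxs']
    ring
  have h2V : ∀ v : V, v + v = 0 → v = 0 := by
    intro v hv
    rw [← two_smul F] at hv
    exact (smul_eq_zero.1 hv).resolve_left h2
  have hz0 : z ≠ 0 := by
    intro h0
    apply hne
    have h1 : ((x : Module.End F V) - 1) * ((x : Module.End F V) + 1) = 0 := by
      ext v
      have h3 : x (x v) = v := by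
        have h4 := congrArg (fun T : Module.End F V => T (x v)) h0
        simp only [hz, LinearMap.sub_apply, LinearEquiv.coe_coe, LinearEquiv.symm_apply_apply,
          LinearMap.zero_apply] at h4
        exact sub_eq_zero.1 h4
      simp only [Module.End.mul_apply, LinearMap.sub_apply, LinearMap.add_apply,
        Module.End.one_apply, LinearEquiv.coe_coe, map_add, h3, LinearMap.zero_apply]
      abel
    have h1C : (1 : Module.End F V) ∈ C := C.one_mem
    by_cases h3 : (x : Module.End F V) - 1 = 0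
    · left
      intro v
      have h4 := congrArg (fun T : Module.End F V => T v) h3
      simp only [LinearMap.sub_apply, LinearEquiv.coe_coe, Module.End.one_apply,
        LinearMap.zero_apply] at h4
      exact sub_eq_zero.1 h4
    · right
      intro v
      have hinj := hC _ (C.sub_mem hxC h1C) h3
      have h4 : ((x : Module.End F V) + 1) v = 0 := by
        apply hinj
        rw [map_zero, ← Module.End.mul_apply, h1, LinearMap.zero_apply]
      simp only [LinearMap.add_apply, LinearEquiv.coe_coe, Module.End.one_apply] at h4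
      exact eq_neg_of_add_eq_zero_left h4
  have hzzK : z * z ∈ K := by
    refine ⟨C.mul_mem hzC hzC, fun u v => ?_⟩
    rw [Module.End.mul_apply, Module.End.mul_apply, hzs, hzs, neg_neg]
  have hνK : algebraMap F (Module.End F V) ν ∈ K := K.algebraMap_mem ν
  have hns1 : ¬ IsSquare (⟨z * z, hzzK⟩ : K) := by
    rintro ⟨y, hy⟩
    have hy' : z * z = (y : Module.End F V) * y := congrArg Subtype.val hy
    have hyC : (y : Module.End F V) ∈ C := y.2.1
    have h3 : (z - y) * (z + y) = 0 := by
      rw [sub_mul, mul_add, mul_add, hy', hcomm _ hyC z hzC]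
      abel
    have h4 : IsSA ω z := by
      by_cases h5 : z - (y : Module.End F V) = 0
      · rw [sub_eq_zero.1 h5]
        exact y.2.2
      · have h6 : z + (y : Module.End F V) = 0 := by
          ext v
          apply hC _ (C.sub_mem hzC hyC) h5
          rw [← Module.End.mul_apply, h3]
          simp
        have h7 : z = - (y : Module.End F V) := eq_neg_of_add_eq_zero_left h6
        intro u v
        rw [h7, LinearMap.neg_apply, LinearMap.neg_apply, map_neg, map_neg, LinearMap.neg_apply,
          y.2.2]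
    apply hz0
    ext v
    apply hω.nd
    intro u
    have h5 := h4 v u
    rw [hzs] at h5
    have h6 : ω v (z u) + ω v (z u) = 0 := by
      nth_rewrite 1 [← h5]
      ring
    have h7 : ω v (z u) = 0 := by
      rw [← two_mul] at h6
      exact (mul_eq_zero.1 h6).resolve_left h2
    rw [hzs, h7, neg_zero]
  have hns2 : ¬ IsSquare (⟨algebraMap F (Module.End F V) ν, hνK⟩ : K) := by
    rintro ⟨y, hy⟩
    have hy' : algebraMap F (Module.End F V) ν = (y : Module.End F V) * y :=
      congrArg Subtype.val hy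
    apply not_SA_sq hω h2 hm hodd hν (y : Module.End F V) y.2.2
    intro v
    rw [← Module.End.mul_apply, ← hy', Module.algebraMap_end_apply]
  have h2K : (2 : K) ≠ 0 := by
    intro h0
    have h1 : (2 : Module.End F V) = 0 := congrArg Subtype.val h0
    obtain ⟨v, hv⟩ := exists_ne (0 : V)
    apply hv
    apply h2V
    have h3 := congrArg (fun T : Module.End F V => T v) h1
    have h4 : (2 : Module.End F V) = 1 + 1 := by norm_num
    rw [h4] at h3
    simpa using h3
  obtain ⟨y, w, hyw, hzy⟩ := exists_sq hKF h2K hns1 hns2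
  have hyw' : (y : Module.End F V) * w = 1 := congrArg Subtype.val hyw
  have hwy' : (w : Module.End F V) * y = 1 := by
    rw [hcomm _ w.2.1 _ y.2.1, hyw']
  have hzy' : z * z = algebraMap F (Module.End F V) ν * ((y : Module.End F V) * y) :=
    congrArg Subtype.val hzy
  refine ⟨z * w, C.mul_mem hzC w.2.1, ?_, ?_⟩
  · intro u v
    rw [Module.End.mul_apply, hzs, w.2.2, ← Module.End.mul_apply, hcomm _ w.2.1 z hzC]
  · intro v
    rw [← Module.End.mul_apply]
    have h3 : z * (w : Module.End F V) * (z * w) = algebraMap F (Module.End F V) ν := by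
      rw [mul_assoc, ← mul_assoc (w : Module.End F V) z, hcomm _ w.2.1 z hzC, mul_assoc z,
        ← mul_assoc z z, hzy', mul_assoc, mul_assoc, ← mul_assoc (y : Module.End F V) w, hyw',
        one_mul, hyw', mul_one]
    rw [h3, Module.algebraMap_end_apply]

end AlgStep

theorem comm_case (hω : IsSymp ω) (h2 : (2 : F) ≠ 0) {m : ℕ} (hm : finrank F V = 2 * m)
    (hodd : Odd m) {ν : F} (hν : ¬ IsSquare ν) (A B : Subalgebra F (Module.End F V))
    (hA : StarStable ω A) (hB : StarStable ω B) {x : V ≃ₗ[F] V} (hx : x ∈ Sp ω)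
    (hxA : ∀ a ∈ A, Cm x a) (hxB : ∀ b ∈ B, Cm x b) (hne : ¬ Triv x) :
    (∃ U : Submodule F V, U ≠ ⊥ ∧ finrank F U ≤ m ∧ (TI ω U ∨ ND ω U) ∧ Stab A U ∧ Stab B U) ∨
      ∃ J' ∈ Y ω ν, (∀ a ∈ A, Cm J' a) ∧ ∀ b ∈ B, Cm J' b := by
  classical
  let C : Subalgebra F (Module.End F V) :=
    Subalgebra.centralizer F ((A : Set (Module.End F V)) ∪ B)
  have hmem : ∀ c, c ∈ C ↔ (∀ a ∈ A, a * c = c * a) ∧ ∀ b ∈ B, b * c = c * b := by
    intro c
    rw [Subalgebra.mem_centralizer_iff]
    constructor
    · intro h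
      exact ⟨fun a ha => h a (Or.inl ha), fun b hb => h b (Or.inr hb)⟩
    · rintro ⟨h1, h3⟩ g (hg | hg)
      · exact h1 g hg
      · exact h3 g hg
  by_cases hC : ∃ c ∈ C, c ≠ 0 ∧ ¬ Function.Injective c
  · left
    obtain ⟨c, hc, hc0, hinj⟩ := hC
    rw [hmem] at hc
    apply AlgStep.stable_sub hω hm A B hA hB (W := LinearMap.ker c)
    · intro h
      exact hinj (LinearMap.ker_eq_bot.1 h)
    · intro h
      exact hc0 (LinearMap.ker_eq_top.1 h)
    · intro a ha v hv
      rw [LinearMap.mem_ker] at hv ⊢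
      rw [← Module.End.mul_apply, ← hc.1 a ha, Module.End.mul_apply, hv, map_zero]
    · intro a ha v hv
      rw [LinearMap.mem_ker] at hv ⊢
      rw [← Module.End.mul_apply, ← hc.2 a ha, Module.End.mul_apply, hv, map_zero]
  · right
    push Not at hC
    have hxC : (x : Module.End F V) ∈ C := by
      rw [hmem]
      refine ⟨fun a ha => ?_, fun b hb => ?_⟩
      · ext v; exact (hxA a ha v).symm
      · ext v; exact (hxB b hb v).symm
    have hxC' : (x.symm : Module.End F V) ∈ C := by
      rw [hmem]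
      refine ⟨fun a ha => ?_, fun b hb => ?_⟩
      · ext v
        apply x.injective
        have := hxA a ha (x.symm v)
        simp only [Module.End.mul_apply, LinearEquiv.coe_coe, LinearEquiv.apply_symm_apply] at this ⊢
        exact this
      · ext v
        apply x.injective
        have := hxB b hb (x.symm v)
        simp only [Module.End.mul_apply, LinearEquiv.coe_coe, LinearEquiv.apply_symm_apply] at this ⊢
        exact this
    obtain ⟨J', hJ', hJY⟩ := AlgStep.comm_aux hω h2 hm hodd hν C hC hx hxC hxC' hne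
    rw [hmem] at hJ'
    refine ⟨J', hJY, fun a ha v => ?_, fun b hb v => ?_⟩
    · rw [← Module.End.mul_apply, ← hJ'.1 a ha, Module.End.mul_apply]
    · rw [← Module.End.mul_apply, ← hJ'.2 b hb, Module.End.mul_apply]

namespace AlgStep

omit [Finite F] [Finite V] in
theorem pow_cj (x : V ≃ₗ[F] V) (n : ℕ) (T : Module.End F V) : cj (x ^ n) T = (cj x)^[n] T := by
  induction n with
  | zero => exact one_cj T
  | succ n ih => rw [pow_succ', mul_cj, ih, Function.iterate_succ_apply']

omit [Finite F] in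
/-- `x ^ r` centralises the field `B` of degree `r` normalised by `x` -/
theorem nrm_pow {B : Subalgebra F (Module.End F V)} (hB : IsField B) {x : V ≃ₗ[F] V}
    (hx : Nrm x B) : ∀ b ∈ B, cj (x ^ finrank F B) b = b := by
  classical
  have hfin := finite_end (F := F) (V := V)
  let _ := hB.toField
  let σ : B →ₐ[F] B := ((cjHom x).comp B.val).codRestrict B (fun b => hx b b.2)
  have hσ : ∀ b : B, ((σ b : B) : Module.End F V) = cj x b := fun b => rfl
  have hinj : Function.Injective σ := by
    intro a b h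
    apply Subtype.ext
    apply cj_inj x
    rw [← hσ, ← hσ, h]
  have hbij : Function.Bijective σ := Finite.injective_iff_bijective.1 hinj
  let τ : B ≃ₐ[F] B := AlgEquiv.ofBijective σ hbij
  have hτ : ∀ b : B, ((τ b : B) : Module.End F V) = cj x b := fun b => rfl
  have h1 : τ ^ finrank F B = 1 := by
    rw [← IsGalois.card_aut_eq_finrank F B]
    exact pow_card_eq_one'
  have h2 : ∀ (n : ℕ) (b : B), (((τ ^ n) b : B) : Module.End F V) = cj (x ^ n) b := by
    intro n
    induction n with
    | zero => intro b; rw [pow_zero, pow_zero, one_cj]; rfl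
    | succ n ih =>
      intro b
      rw [pow_succ', pow_succ', mul_cj, ← ih, ← hτ]
      rfl
  intro b hb
  have h3 := h2 (finrank F B) ⟨b, hb⟩
  rw [h1] at h3
  exact h3.symm

omit [Finite F] [Finite V] in
theorem starStable_of_SA {B : Subalgebra F (Module.End F V)} (h : ∀ b ∈ B, IsSA ω b) :
    StarStable ω B := fun a ha => ⟨a, ha, h a ha⟩

omit [Finite F] [Finite V] in
theorem starStable_adjoin {J : Module.End F V} (hJ : IsSK ω J) :
    StarStable ω (Algebra.adjoin F {J}) := by
  intro a ha
  induction ha using Algebra.adjoin_induction with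
  | mem a ha =>
    rw [Set.mem_singleton_iff.1 ha]
    refine ⟨-J, neg_mem (Algebra.subset_adjoin rfl), fun u v => ?_⟩
    rw [hJ, LinearMap.neg_apply, map_neg]
  | algebraMap c =>
    refine ⟨algebraMap F _ c, Subalgebra.algebraMap_mem _ c, fun u v => ?_⟩
    rw [Module.algebraMap_end_apply, Module.algebraMap_end_apply, map_smul, map_smul,
      LinearMap.smul_apply]
  | add a b _ _ iha ihb =>
    obtain ⟨a', ha', h1⟩ := iha
    obtain ⟨b', hb', h3⟩ := ihb
    refine ⟨a' + b', add_mem ha' hb', fun u v => ?_⟩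
    rw [LinearMap.add_apply, LinearMap.add_apply, map_add, map_add, LinearMap.add_apply, h1, h3]
  | mul a b _ _ iha ihb =>
    obtain ⟨a', ha', h1⟩ := iha
    obtain ⟨b', hb', h3⟩ := ihb
    refine ⟨b' * a', mul_mem hb' ha', fun u v => ?_⟩
    rw [Module.End.mul_apply, Module.End.mul_apply, h1, h3]

omit [Finite F] [Finite V] in
theorem cm_of_cj {x : V ≃ₗ[F] V} {T : Module.End F V} (h : cj x T = T) : Cm x T := by
  intro v
  have h1 := congrArg (fun S : Module.End F V => S (x v)) h
  simp only [cj_apply, LinearEquiv.symm_apply_apply] at h1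
  exact h1

omit [Finite F] [Finite V] in
theorem cj_of_cm {x : V ≃ₗ[F] V} {T : Module.End F V} (h : Cm x T) : cj x T = T := by
  ext v
  rw [cj_apply, h, LinearEquiv.apply_symm_apply]

omit [Finite F] [Finite V] in
theorem cm_adjoin {x : V ≃ₗ[F] V} {J : Module.End F V} (h : cj x J = J) :
    ∀ a ∈ Algebra.adjoin F {J}, Cm x a := by
  intro a ha
  apply cm_of_cj
  induction ha using Algebra.adjoin_induction with
  | mem a ha =>
    rw [Set.mem_singleton_iff.1 ha]
    exact h
  | algebraMap c => exact (cjHom x).commutes c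
  | add a b _ _ iha ihb =>
    change cjHom x (a + b) = a + b
    rw [map_add, cjHom_apply, cjHom_apply, iha, ihb]
  | mul a b _ _ iha ihb => rw [cj_mul, iha, ihb]

omit [Finite F] [Finite V] in
theorem cj_neg (x : V ≃ₗ[F] V) (T : Module.End F V) : cj x (-T) = - cj x T := by
  change cjHom x (-T) = - cjHom x T
  rw [map_neg]

omit [Finite F] [Finite V] in
theorem cj_eq_of_triv {x : V ≃ₗ[F] V} (h : Triv x) (T : Module.End F V) : cj x T = T := by
  apply cj_of_cm
  rcases h with h | h
  · intro v
    rw [h, h]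
  · intro v
    rw [h, h, map_neg]

omit [Finite F] in
theorem even_of_ND (hω : IsSymp ω) (h2 : (2 : F) ≠ 0) (U : Submodule F V) (hU : ND ω U) :
    Even (finrank F U) := by
  classical
  let b := Module.finBasis F U
  have hsep : ∀ x : U, (∀ y : U, (ω.restrict U) x y = 0) → x = 0 := by
    intro x hx
    apply Subtype.ext
    exact hU x x.2 fun y hy => hx ⟨y, hy⟩
  have hnd : (ω.restrict U).Nondegenerate := by
    refine ⟨hsep, fun x hx => hsep x fun y => ?_⟩
    have h1 := hx y
    change ω (y : V) (x : V) = 0 at h1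
    change ω (x : V) (y : V) = 0
    rw [sw hω, h1, neg_zero]
  have hdet := (LinearMap.BilinForm.nondegenerate_iff_det_ne_zero b).1 hnd
  set M := LinearMap.BilinForm.toMatrix b (ω.restrict U) with hMdef
  have hM : M.transpose = -M := by
    ext i j
    rw [Matrix.transpose_apply, Matrix.neg_apply, hMdef, LinearMap.BilinForm.toMatrix_apply,
      LinearMap.BilinForm.toMatrix_apply]
    exact sw hω _ _
  by_contra hne
  rw [Nat.not_even_iff_odd] at hne
  have h1 : M.det = - M.det := by
    calc M.det = M.transpose.det := (Matrix.det_transpose M).symm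
      _ = (-M).det := by rw [hM]
      _ = (-1) ^ Fintype.card (Fin (finrank F U)) * M.det := Matrix.det_neg M
      _ = - M.det := by rw [Fintype.card_fin, hne.neg_one_pow, neg_one_mul]
  apply hdet
  have h3 : 2 * M.det = 0 := by
    rw [two_mul]
    nth_rewrite 1 [h1]
    ring
  exact (mul_eq_zero.1 h3).resolve_left h2

omit [Finite F] in
theorem no_inv (hω : IsSymp ω) (h2 : (2 : F) ≠ 0) {m : ℕ} (hm : finrank F V = 2 * m)
    (hodd : Odd m) {ν : F} (hν : ¬ IsSquare ν) {J : Module.End F V} (hJ : J ∈ Y ω ν)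
    {x : V ≃ₗ[F] V} (hx : x ∈ Sp ω) (hxJ : cj x J = -J) (h1 : ∀ v, x (x v) = v) : False := by
  have hν0 : ν ≠ 0 := by
    rintro rfl
    exact hν IsSquare.zero
  have hJx : ∀ v, x (J v) = - J (x v) := by
    intro v
    have h3 := congrArg (fun S : Module.End F V => S (x v)) hxJ
    simpa only [cj_apply, LinearEquiv.symm_apply_apply, LinearMap.neg_apply] using h3
  have hJinj : Function.Injective J := by
    intro u v huv
    have h3 := congrArg J huv
    rw [hJ.2, hJ.2] at h3
    exact smul_right_injective V hν0 h3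
  let P : Submodule F V := LinearMap.ker ((x : Module.End F V) - 1)
  let Q : Submodule F V := LinearMap.ker ((x : Module.End F V) + 1)
  have hP : ∀ v, v ∈ P ↔ x v = v := by
    intro v
    rw [LinearMap.mem_ker, LinearMap.sub_apply, sub_eq_zero]
    rfl
  have hQ : ∀ v, v ∈ Q ↔ x v = -v := by
    intro v
    rw [LinearMap.mem_ker, LinearMap.add_apply, add_eq_zero_iff_eq_neg]
    rfl
  have hPQ : P ⊓ Q = ⊥ := by
    rw [eq_bot_iff]
    rintro v ⟨hv, hv'⟩
    rw [SetLike.mem_coe, hP] at hv
    rw [SetLike.mem_coe, hQ, hv] at hv'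
    rw [Submodule.mem_bot]
    have h3 : (2 : F) • v = 0 := by
      rw [two_smul]
      nth_rewrite 1 [hv']
      abel
    exact (smul_eq_zero.1 h3).resolve_left h2
  have hdec : ∀ v : V, ∃ p ∈ P, ∃ w ∈ Q, v = p + w := by
    intro v
    refine ⟨(2 : F)⁻¹ • (v + x v), ?_, (2 : F)⁻¹ • (v - x v), ?_, ?_⟩
    · rw [hP, map_smul, map_add, h1, add_comm]
    · rw [hQ, map_smul, map_sub, h1, ← smul_neg, neg_sub]
    · rw [← smul_add, add_add_sub_cancel, ← two_smul F v, smul_smul, inv_mul_cancel₀ h2, one_smul]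
  have hsup : P ⊔ Q = ⊤ := by
    rw [eq_top_iff]
    intro v _
    obtain ⟨p, hp, w, hw, rfl⟩ := hdec v
    exact Submodule.add_mem_sup hp hw
  have hsum : finrank F P + finrank F Q = 2 * m := by
    have h3 := Submodule.finrank_sup_add_finrank_inf_eq P Q
    rw [hPQ, hsup, finrank_bot, finrank_top, hm] at h3
    omega
  have hle1 : finrank F P ≤ finrank F Q := by
    rw [(Submodule.equivMapOfInjective J hJinj P).finrank_eq]
    apply Submodule.finrank_mono
    rintro _ ⟨v, hv, rfl⟩
    rw [hQ, hJx, (hP v).1 hv]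
  have hle2 : finrank F Q ≤ finrank F P := by
    rw [(Submodule.equivMapOfInjective J hJinj Q).finrank_eq]
    apply Submodule.finrank_mono
    rintro _ ⟨v, hv, rfl⟩
    rw [hP, hJx, (hQ v).1 hv, map_neg, neg_neg]
  have hndP : ND ω P := by
    intro v hv h
    apply hω.nd
    intro u
    obtain ⟨p, hp, w, hw, rfl⟩ := hdec u
    rw [map_add, h p hp, zero_add]
    have h3 := hx v w
    rw [(hP v).1 hv, (hQ w).1 hw, map_neg] at h3
    have h4 : 2 * ω v w = 0 := by
      rw [two_mul]
      nth_rewrite 1 [← h3]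
      ring
    exact (mul_eq_zero.1 h4).resolve_left h2
  have h3 := even_of_ND hω h2 P hndP
  have h4 : finrank F P = m := by omega
  rw [h4] at h3
  exact (Nat.not_even_iff_odd.2 hodd) h3

theorem two_aux (hω : IsSymp ω) (h2 : (2 : F) ≠ 0) {m : ℕ} (hm : finrank F V = 2 * m)
    (hodd : Odd m) {ν : F} (hν : ¬ IsSquare ν) {J : Module.End F V} (hJ : J ∈ Y ω ν)
    (B : Subalgebra F (Module.End F V)) (hsb : ∀ b ∈ B, IsSA ω b)
    {x : V ≃ₗ[F] V} (hx : x ∈ Sp ω) (hxJ : cj x J = J ∨ cj x J = -J)
    (hxB : ∀ b ∈ B, cj x b = b) (hne : ¬ Triv x) :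
    (∃ U : Submodule F V, U ≠ ⊥ ∧ finrank F U ≤ m ∧ (TI ω U ∨ ND ω U) ∧
        Stab (Algebra.adjoin F {J}) U ∧ Stab B U) ∨
      (∃ J' ∈ Y ω ν, Cm J' J ∧ ∀ b ∈ B, Cm J' b) ∨
      (∃ z ∈ Y ω (-1 : F), (∀ v, J (z v) = - z (J v)) ∧ ∀ b ∈ B, Cm z b) := by
  have hD := starStable_adjoin (ω := ω) hJ.1
  have hBs := starStable_of_SA hsb
  have hJD : J ∈ Algebra.adjoin F {J} := Algebra.subset_adjoin rfl
  rcases hxJ with hxJ | hxJ
  · rcases comm_case hω h2 hm hodd hν _ B hD hBs hx (cm_adjoin hxJ)
      (fun b hb => cm_of_cj (hxB b hb)) hne with h | ⟨J', hJ', h1, h3⟩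
    · exact Or.inl h
    · exact Or.inr (Or.inl ⟨J', hJ', h1 J hJD, h3⟩)
  · have hyJ : cj (x * x) J = J := by rw [mul_cj, hxJ, cj_neg, hxJ, neg_neg]
    have hyB : ∀ b ∈ B, cj (x * x) b = b := by
      intro b hb
      rw [mul_cj, hxB b hb, hxB b hb]
    by_cases hy : Triv (x * x)
    · rcases hy with hy | hy
      · exact (no_inv hω h2 hm hodd hν hJ hx hxJ hy).elim
      · right; right
        have hy' : ∀ v, x (x v) = -v := hy
        have hsymm : ∀ v, x.symm v = - x v := by
          intro v
          apply x.injective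
          rw [LinearEquiv.apply_symm_apply, map_neg, hy', neg_neg]
        refine ⟨(x : Module.End F V), ⟨?_, ?_⟩, ?_, ?_⟩
        · intro u v
          change ω (x u) v = - ω u (x v)
          rw [← hx u (x v), hy', map_neg, neg_neg]
        · intro v
          change x (x v) = _
          rw [hy', neg_one_smul]
        · intro v
          change J (x v) = - x (J v)
          have h3 := congrArg (fun S : Module.End F V => S (x v)) hxJ
          simp only [cj_apply, LinearEquiv.symm_apply_apply, LinearMap.neg_apply] at h3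
          rw [h3, neg_neg]
        · intro b hb
          exact cm_of_cj (hxB b hb)
    · rcases comm_case hω h2 hm hodd hν _ B hD hBs (mul_mem hx hx) (cm_adjoin hyJ)
        (fun b hb => cm_of_cj (hyB b hb)) hy with h | ⟨J', hJ', h1, h3⟩
      · exact Or.inl h
      · exact Or.inr (Or.inl ⟨J', hJ', h1 J hJD, h3⟩)

omit [Finite F] [Finite V] in
/-- change of sign -/
theorem norm_sign {x : V ≃ₗ[F] V} (hx : x ∈ Sp ω) {n : ℕ} (hn : Odd n) (hT : Triv (x ^ n)) :
    ∃ x' ∈ Sp ω, x' ^ n = 1 ∧ ∀ T : Module.End F V, cj x' T = cj x T := by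
  rcases hT with hT | hT
  · exact ⟨x, hx, LinearEquiv.ext hT, fun T => rfl⟩
  · let e : V ≃ₗ[F] V := LinearEquiv.neg F
    have he : ∀ v, e v = -v := fun v => rfl
    have hes : ∀ v, e.symm v = -v := fun v => rfl
    refine ⟨e * x, ?_, ?_, ?_⟩
    · intro u v
      rw [LinearEquiv.mul_apply, LinearEquiv.mul_apply, he, he, map_neg, map_neg,
        LinearMap.neg_apply, neg_neg, hx]
    · have hcomm : Commute e x := by
        apply LinearEquiv.ext
        intro v
        rw [LinearEquiv.mul_apply, LinearEquiv.mul_apply, he, he, map_neg]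
      have he2 : e ^ 2 = 1 := by
        apply LinearEquiv.ext
        intro v
        rw [sq, LinearEquiv.mul_apply, he, he, neg_neg]
        rfl
      have hen : e ^ n = e := by
        obtain ⟨k, rfl⟩ := hn
        rw [pow_succ, pow_mul, he2, one_pow, one_mul]
      rw [hcomm.mul_pow, hen]
      apply LinearEquiv.ext
      intro v
      rw [LinearEquiv.mul_apply, hT, he, neg_neg]
      rfl
    · intro T
      ext v
      rw [cj_apply, cj_apply]
      have h3 : (e * x).symm v = - x.symm v := by
        apply (e * x).injective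
        rw [LinearEquiv.apply_symm_apply, LinearEquiv.mul_apply, map_neg,
          LinearEquiv.apply_symm_apply, he, neg_neg]
      rw [h3, LinearEquiv.mul_apply, he, map_neg, map_neg, neg_neg]

end AlgStep

open AlgStep

theorem bad_two (hω : IsSymp ω) (h2 : (2 : F) ≠ 0) {m : ℕ} (hm : finrank F V = 2 * m)
    (hodd : Odd m) {ν : F} (hν : ¬ IsSquare ν) {J : Module.End F V} (hJ : J ∈ Y ω ν)
    (B : Subalgebra F (Module.End F V)) (hB : IsField B) (hsb : ∀ b ∈ B, IsSA ω b)
    {r : ℕ} (hr : r.Prime) (hro : Odd r) (hBr : finrank F B = r)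
    {x : V ≃ₗ[F] V} (hx : x ∈ Sp ω) (hxJ : cj x J = J ∨ cj x J = -J) (hxB : Nrm x B)
    (hne : ¬ Triv x) :
    (∃ U : Submodule F V, U ≠ ⊥ ∧ finrank F U ≤ m ∧ (TI ω U ∨ ND ω U) ∧
        Stab (Algebra.adjoin F {J}) U ∧ Stab B U) ∨
      (∃ J' ∈ Y ω ν, Cm J' J ∧ ∀ b ∈ B, Cm J' b) ∨
      (∃ z ∈ Y ω (-1 : F), (∀ v, J (z v) = - z (J v)) ∧ ∀ b ∈ B, Cm z b) ∨
      (∃ x' ∈ Gal ω B r, Cm x' J) := by
  have hν0 : ν ≠ 0 := by
    rintro rfl
    exact hν IsSquare.zero
  by_cases hc : ∀ b ∈ B, cj x b = b
  · rcases two_aux hω h2 hm hodd hν hJ B hsb hx hxJ hc hne with h | h | h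
    · exact Or.inl h
    · exact Or.inr (Or.inl h)
    · exact Or.inr (Or.inr (Or.inl h))
  · push Not at hc
    obtain ⟨a, ha, haa⟩ := hc
    have hyB : ∀ b ∈ B, cj (x ^ r) b = b := by
      rw [← hBr]
      exact nrm_pow hB hxB
    have hyJ' : (cj x J = J → cj (x ^ r) J = J) ∧ (cj x J = -J → cj (x ^ r) J = -J) := by
      constructor
      · intro h
        rw [pow_cj]
        exact Function.iterate_fixed h r
      · intro h
        obtain ⟨k, rfl⟩ := hro
        have h3 : cj (x ^ 2) J = J := by rw [sq, mul_cj, h, cj_neg, h, neg_neg]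
        have h4 : cj (x ^ (2 * k)) J = J := by
          rw [pow_mul, pow_cj]
          exact Function.iterate_fixed h3 k
        rw [pow_succ', mul_cj, h4, h]
    have hyJ : cj (x ^ r) J = J ∨ cj (x ^ r) J = -J := hxJ.imp hyJ'.1 hyJ'.2
    by_cases hT : Triv (x ^ r)
    · right; right; right
      obtain ⟨x', hx', hx'1, hcj⟩ := norm_sign hx hro hT
      refine ⟨x', ⟨hx', hx'1, fun b hb => ?_, a, ha, ?_⟩, cm_of_cj ?_⟩
      · rw [hcj]
        exact hxB b hb
      · rw [hcj]
        exact haa
      · rw [hcj]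
        rcases hxJ with h | h
        · exact h
        · exfalso
          have h3 := hyJ'.2 h
          rw [cj_eq_of_triv hT] at h3
          obtain ⟨v, hv⟩ : ∃ v : V, v ≠ 0 := by
            have : Nontrivial V := by
              apply Module.nontrivial_of_finrank_pos (R := F)
              rw [hm]
              have := hodd.pos
              omega
            exact exists_ne 0
          apply hv
          have h4 : (2 : F) • J (J v) = 0 := by
            rw [two_smul]
            nth_rewrite 1 [h3]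
            simp
          rw [hJ.2, smul_smul] at h4
          exact (smul_eq_zero.1 h4).resolve_left (mul_ne_zero h2 hν0)
    · rcases two_aux hω h2 hm hodd hν hJ B hsb (pow_mem hx r) hyJ hyB hT with h | h | h
      · exact Or.inl h
      · exact Or.inr (Or.inl h)
      · exact Or.inr (Or.inr (Or.inl h))

namespace AlgStep

theorem odd_aux (hω : IsSymp ω) (h2 : (2 : F) ≠ 0) {m : ℕ} (hm : finrank F V = 2 * m)
    (hodd : Odd m) {ν : F} (hν : ¬ IsSquare ν)
    (A B : Subalgebra F (Module.End F V)) (hsa : ∀ a ∈ A, IsSA ω a)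
    (hB : IsField B) (hsb : ∀ b ∈ B, IsSA ω b)
    {r : ℕ} (hro : Odd r) (hBr : finrank F B = r)
    {x : V ≃ₗ[F] V} (hx : x ∈ Sp ω) (hxA : ∀ a ∈ A, cj x a = a) (hxB : Nrm x B)
    (hne : ¬ Triv x) :
    (∃ U : Submodule F V, U ≠ ⊥ ∧ finrank F U ≤ m ∧ (TI ω U ∨ ND ω U) ∧ Stab A U ∧ Stab B U) ∨
      (∃ J' ∈ Y ω ν, (∀ a ∈ A, Cm J' a) ∧ ∀ b ∈ B, Cm J' b) ∨
      (∃ x' ∈ Gal ω B r, ∀ a ∈ A, Cm x' a) := by
  have hAs := starStable_of_SA hsa
  have hBs := starStable_of_SA hsb
  by_cases hc : ∀ b ∈ B, cj x b = b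
  · rcases comm_case hω h2 hm hodd hν A B hAs hBs hx (fun a ha => cm_of_cj (hxA a ha))
      (fun b hb => cm_of_cj (hc b hb)) hne with h | h
    · exact Or.inl h
    · exact Or.inr (Or.inl h)
  · push Not at hc
    obtain ⟨b₀, hb₀, hbb⟩ := hc
    have hyB : ∀ b ∈ B, cj (x ^ r) b = b := by
      rw [← hBr]
      exact nrm_pow hB hxB
    have hyA : ∀ a ∈ A, cj (x ^ r) a = a := by
      intro a ha
      rw [pow_cj]
      exact Function.iterate_fixed (hxA a ha) r
    by_cases hT : Triv (x ^ r)
    · right; right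
      obtain ⟨x', hx', hx'1, hcj⟩ := norm_sign hx hro hT
      refine ⟨x', ⟨hx', hx'1, fun b hb => ?_, b₀, hb₀, ?_⟩, fun a ha => cm_of_cj ?_⟩
      · rw [hcj]
        exact hxB b hb
      · rw [hcj]
        exact hbb
      · rw [hcj]
        exact hxA a ha
    · rcases comm_case hω h2 hm hodd hν A B hAs hBs (pow_mem hx r)
        (fun a ha => cm_of_cj (hyA a ha)) (fun b hb => cm_of_cj (hyB b hb)) hT with h | h
      · exact Or.inl h
      · exact Or.inr (Or.inl h)

end AlgStep

theorem bad_odd (hω : IsSymp ω) (h2 : (2 : F) ≠ 0) {m : ℕ} (hm : finrank F V = 2 * m)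
    (hodd : Odd m) {ν : F} (hν : ¬ IsSquare ν)
    (A B : Subalgebra F (Module.End F V)) (hA : IsField A) (hsa : ∀ a ∈ A, IsSA ω a)
    (hB : IsField B) (hsb : ∀ b ∈ B, IsSA ω b)
    {t r : ℕ} (ht : t.Prime) (hto : Odd t) (hAt : finrank F A = t)
    (hr : r.Prime) (hro : Odd r) (hBr : finrank F B = r)
    {x : V ≃ₗ[F] V} (hx : x ∈ Sp ω) (hxA : Nrm x A) (hxB : Nrm x B) (hne : ¬ Triv x) :
    (∃ U : Submodule F V, U ≠ ⊥ ∧ finrank F U ≤ m ∧ (TI ω U ∨ ND ω U) ∧ Stab A U ∧ Stab B U) ∨
      (∃ J' ∈ Y ω ν, (∀ a ∈ A, Cm J' a) ∧ ∀ b ∈ B, Cm J' b) ∨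
      (∃ x' ∈ Gal ω A t, ∀ b ∈ B, Cm x' b) ∨
      (∃ x' ∈ Gal ω B r, ∀ a ∈ A, Cm x' a) ∨
      (t = r ∧ ∃ x', x' ∈ Gal ω A t ∧ x' ∈ Gal ω B r) := by
  have hAs := starStable_of_SA hsa
  have hBs := starStable_of_SA hsb
  by_cases hcA : ∀ a ∈ A, cj x a = a
  · rcases odd_aux hω h2 hm hodd hν A B hsa hB hsb hro hBr hx hcA hxB hne with h | h | h
    · exact Or.inl h
    · exact Or.inr (Or.inl h)
    · exact Or.inr (Or.inr (Or.inr (Or.inl h)))
  by_cases hcB : ∀ b ∈ B, cj x b = b
  · rcases odd_aux hω h2 hm hodd hν B A hsb hA hsa hto hAt hx hcB hxA hne with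
      ⟨U, h1, h3, h4, h5, h6⟩ | ⟨J', h1, h3, h4⟩ | h
    · exact Or.inl ⟨U, h1, h3, h4, h6, h5⟩
    · exact Or.inr (Or.inl ⟨J', h1, h4, h3⟩)
    · exact Or.inr (Or.inr (Or.inl h))
  have hyA : ∀ a ∈ A, cj (x ^ t) a = a := by
    rw [← hAt]
    exact nrm_pow hA hxA
  have hyB : ∀ b ∈ B, cj (x ^ r) b = b := by
    rw [← hBr]
    exact nrm_pow hB hxB
  by_cases htr : t = r
  · subst htr
    by_cases hT : Triv (x ^ t)
    · right; right; right; right
      refine ⟨rfl, ?_⟩
      push Not at hcA hcB
      obtain ⟨a, ha, haa⟩ := hcA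
      obtain ⟨b, hb, hbb⟩ := hcB
      obtain ⟨x', hx', hx'1, hcj⟩ := norm_sign hx hro hT
      refine ⟨x', ⟨hx', hx'1, fun c hc => ?_, a, ha, ?_⟩, ⟨hx', hx'1, fun c hc => ?_, b, hb, ?_⟩⟩
      · rw [hcj]
        exact hxA c hc
      · rw [hcj]
        exact haa
      · rw [hcj]
        exact hxB c hc
      · rw [hcj]
        exact hbb
    · rcases comm_case hω h2 hm hodd hν A B hAs hBs (pow_mem hx t)
        (fun a ha => cm_of_cj (hyA a ha)) (fun b hb => cm_of_cj (hyB b hb)) hT with h | h
      · exact Or.inl h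
      · exact Or.inr (Or.inl h)
  · have hyB' : Nrm (x ^ t) B := by
      intro b hb
      rw [pow_cj]
      clear hne hx hxA hcA hcB hyA hyB hAt hto ht htr
      induction t with
      | zero => exact hb
      | succ n ih =>
        rw [Function.iterate_succ_apply']
        exact hxB _ ih
    have hncB : ¬ ∀ b ∈ B, cj (x ^ t) b = b := by
      intro h
      apply hcB
      intro b hb
      have hcop : IsCoprime (t : ℤ) (r : ℤ) :=
        Nat.isCoprime_iff_coprime.2 ((Nat.coprime_primes ht hr).2 htr)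
      have h3 : ∀ (k : ℕ) (y : V ≃ₗ[F] V), cj y b = b → cj (y ^ k) b = b := by
        intro k y hy
        rw [pow_cj]
        exact Function.iterate_fixed hy k
      have h4 : ∀ y : V ≃ₗ[F] V, cj y b = b → cj y⁻¹ b = b := by
        intro y hy
        apply cj_inj y
        rw [← mul_cj, mul_inv_cancel, one_cj, hy]
      have h5 : ∀ (k : ℤ) (y : V ≃ₗ[F] V), cj y b = b → cj (y ^ k) b = b := by
        intro k y hy
        cases k with
        | ofNat k => exact h3 k y hy
        | negSucc k =>
          rw [zpow_negSucc]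
          exact h4 _ (h3 _ y hy)
      obtain ⟨u, w, huw⟩ := hcop
      have h6 : x = (x ^ t) ^ u * (x ^ r) ^ w := by
        rw [← zpow_natCast, ← zpow_natCast, ← zpow_mul, ← zpow_mul, ← zpow_add, mul_comm (t : ℤ),
          mul_comm (r : ℤ), huw, zpow_one]
      rw [h6, mul_cj, h5 w _ (hyB b hb), h5 u _ (h b hb)]
    have hT : ¬ Triv (x ^ t) := fun hT => hncB fun b _ => cj_eq_of_triv hT b
    rcases odd_aux hω h2 hm hodd hν A B hsa hB hsb hro hBr (pow_mem hx t) hyA hyB' hT with
      h | h | h
    · exact Or.inl h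
    · exact Or.inr (Or.inl h)
    · exact Or.inr (Or.inr (Or.inr (Or.inl h)))

end Pool.Agent.UD
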