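import Pool.Agent.UD.Defs

/-!
# Block A : counting tools and Witt's theorem for alternating forms
-/

open Module

namespace Pool.Agent.UD

/-- A0 (tree counting). -/
theorem card_le_tree {S X : Type*} [Finite S] [Finite X] (k : ℕ) (f : ℕ → S → X) (N : ℕ → ℕ)
    (h : ∀ l < k, ∀ x : S,
      Nat.card {v : X // ∃ y : S, (∀ i < l, f i y = f i x) ∧ f l y = v} ≤ N l)
    (hinj : ∀ x y : S, (∀ i < k, f i x = f i y) → x = y) :
    Nat.card S ≤ ∏ l ∈ Finset.range k, N l := by
  classical
  have := Fintype.ofFinite S
  have := Fintype.ofFinite X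
  let P : (l : ℕ) → S → (Fin l → X) := fun l x i => f i x
  have key : ∀ l ≤ k, (Finset.univ.image (P l)).card ≤ ∏ i ∈ Finset.range l, N i := by
    intro l
    induction l with
    | zero =>
      intro _
      simp only [Finset.range_zero, Finset.prod_empty]
      exact Finset.card_le_one_of_subsingleton _
    | succ l ih =>
      intro hl
      have hl' : l < k := hl
      rw [Finset.prod_range_succ, mul_comm]
      let res : (Fin (l + 1) → X) → (Fin l → X) := fun p i => p (Fin.castSucc i)
      have himg : (Finset.univ.image (P (l + 1))).image res = Finset.univ.image (P l) := by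
        rw [Finset.image_image]
        rfl
      have h1 := Finset.card_le_mul_card_image (f := res) (Finset.univ.image (P (l + 1))) (N l) ?_
      · rw [himg] at h1
        exact h1.trans (Nat.mul_le_mul_left _ (ih hl'.le))
      · intro a ha
        rw [himg] at ha
        obtain ⟨x, -, rfl⟩ := Finset.mem_image.1 ha
        refine le_trans ?_ (h l hl' x)
        rw [Nat.card_eq_fintype_card, Fintype.card_subtype]
        apply Finset.card_le_card_of_injOn (fun p => p (Fin.last l))
        · intro p hp
          simp only [Finset.coe_filter, Finset.mem_image, Finset.mem_univ, true_and,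
            Set.mem_ofPred_eq] at hp ⊢
          obtain ⟨⟨y, rfl⟩, hy⟩ := hp
          refine ⟨y, fun i hi => congrFun hy ⟨i, hi⟩, rfl⟩
        · intro p hp p' hp' hpp
          simp only [Finset.coe_filter, Finset.mem_image, Finset.mem_univ, true_and,
            Set.mem_ofPred_eq] at hp hp'
          funext i
          refine Fin.lastCases ?_ (fun j => ?_) i
          · exact hpp
          · have := congrFun (hp.2.trans hp'.2.symm) j
            exact this
  have hP : Function.Injective (P k) := by
    intro x y hxy
    apply hinj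
    intro i hi
    exact congrFun hxy ⟨i, hi⟩
  have := key k le_rfl
  rw [Finset.card_image_of_injective _ hP] at this
  rw [Nat.card_eq_fintype_card]
  exact this

variable {F V : Type*} [Field F] [Finite F] [AddCommGroup V] [Module F V] [Finite V]
variable {ω : LinearMap.BilinForm F V}


omit [Finite F] [Finite V] in
/-- Functionals given by independent vectors are jointly surjective. -/
theorem solve_all (hω : IsSymp ω) {ι : Type*} [Finite ι] (u : ι → V)
    (hu : LinearIndependent F u) (c : ι → F) : ∃ y, ∀ i, ω (u i) y = c i := by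
  classical
  have := Fintype.ofFinite ι
  let L : V →ₗ[F] (ι → F) := LinearMap.pi fun i => ω (u i)
  have hL : LinearMap.range L = ⊤ := by
    by_contra hne
    obtain ⟨φ, hφ, hφ'⟩ := Submodule.exists_le_ker_of_lt_top _ (lt_top_iff_ne_top.2 hne)
    apply hφ
    have hz : ∀ y, φ (L y) = 0 := fun y => hφ' ⟨y, rfl⟩
    have h2 : ∑ i, φ (Pi.single i 1) • u i = 0 := by
      apply hω.nd
      intro y
      have := hz y
      rw [map_sum, LinearMap.sum_apply]
      rw [← this]
      conv_rhs => rw [← LinearMap.sum_single_apply (fun _ : ι => F) (L y), map_sum]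
      refine Finset.sum_congr rfl fun i _ => ?_
      have h3 : (Pi.single i (L y i) : ι → F) = L y i • Pi.single i 1 := by
        rw [← Pi.single_smul, smul_eq_mul, mul_one]
      rw [h3, map_smul, map_smul]
      simp [L, mul_comm]
    have h3 := Fintype.linearIndependent_iff.1 hu _ h2
    apply LinearMap.pi_ext
    intro i x
    have h4 : (Pi.single i x : ι → F) = x • Pi.single i 1 := by
      rw [← Pi.single_smul, smul_eq_mul, mul_one]
    rw [h4, map_smul, h3 i, smul_zero, LinearMap.zero_apply]
  have : c ∈ LinearMap.range L := by rw [hL]; trivial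
  obtain ⟨y, hy⟩ := this
  exact ⟨y, fun i => congrFun hy i⟩

omit [Finite F] in
/-- A1. -/
theorem card_solutions (hω : IsSymp ω) {ι : Type*} [Fintype ι] (u : ι → V)
    (hu : LinearIndependent F u) (c : ι → F) :
    Nat.card {y : V // ∀ i, ω (u i) y = c i} = Nat.card F ^ (finrank F V - Fintype.card ι) := by
  classical
  let L : V →ₗ[F] (ι → F) := LinearMap.pi fun i => ω (u i)
  have hsurj : LinearMap.range L = ⊤ := by
    rw [LinearMap.range_eq_top]
    intro c
    obtain ⟨y, hy⟩ := solve_all hω u hu c
    exact ⟨y, funext hy⟩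
  have hker : finrank F (LinearMap.ker L) = finrank F V - Fintype.card ι := by
    have h1 := LinearMap.finrank_range_add_finrank_ker L
    rw [hsurj, finrank_top, finrank_fintype_fun_eq_card] at h1
    omega
  obtain ⟨y0, hy0⟩ := solve_all hω u hu c
  have e : {y : V // ∀ i, ω (u i) y = c i} ≃ LinearMap.ker L :=
    { toFun := fun y => ⟨y.1 - y0, by
        rw [LinearMap.mem_ker]
        funext i
        simp [L, y.2 i, hy0 i]⟩
      invFun := fun z => ⟨z.1 + y0, fun i => by
        have := congrFun (LinearMap.mem_ker.1 z.2) i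
        simp only [L, LinearMap.pi_apply, Pi.zero_apply] at this
        rw [map_add, this, hy0 i, zero_add]⟩
      left_inv := fun y => by simp
      right_inv := fun z => by simp }
  rw [Nat.card_congr e, Module.natCard_eq_pow_finrank (K := F), hker]

omit [Finite F] in
/-- A2 (greedy count). -/
theorem card_tuples_le (hω : IsSymp ω) {ι : Type*} [Fintype ι] (r : ι → Module.End F V) (k : ℕ)
    (Γ : Fin k → Fin k → ι → F) :
    Nat.card {w : Fin k → V // LinearIndependent F (fun p : Fin k × ι => r p.2 (w p.1)) ∧
      ∀ i l, i < l → ∀ j, ω (r j (w i)) (w l) = Γ i l j} ≤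
    ∏ i ∈ Finset.range k, Nat.card F ^ (finrank F V - Fintype.card ι * i) := by
  classical
  refine card_le_tree (X := V) k (fun l w => if h : l < k then w.1 ⟨l, h⟩ else 0) _ ?_ ?_
  · intro l hl x
    simp only [hl, dif_pos]
    have hLI : LinearIndependent F
        (fun p : Fin l × ι => r p.2 (x.1 (Fin.castLE hl.le p.1))) := by
      have := x.2.1.comp (fun p : Fin l × ι => ((Fin.castLE hl.le p.1 : Fin k), p.2)) ?_
      · exact this
      · rintro ⟨a, b⟩ ⟨a', b'⟩ hab
        simpa using hab
    have h1 := card_solutions hω _ hLI (fun p => Γ (Fin.castLE hl.le p.1) ⟨l, hl⟩ p.2)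
    rw [Fintype.card_prod, Fintype.card_fin, mul_comm l] at h1
    rw [← h1]
    apply Nat.card_le_card_of_injective
      (f := fun v : {v : V // ∃ y : {w : Fin k → V //
        LinearIndependent F (fun p : Fin k × ι => r p.2 (w p.1)) ∧
        ∀ i l, i < l → ∀ j, ω (r j (w i)) (w l) = Γ i l j},
        (∀ i < l, (if h : i < k then y.1 ⟨i, h⟩ else 0) = if h : i < k then x.1 ⟨i, h⟩ else 0) ∧
          y.1 ⟨l, hl⟩ = v} => (⟨v.1, by
            obtain ⟨v, y, hy, rfl⟩ := v
            rintro ⟨i, j⟩
            have h2 := hy i.1 i.2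
            rw [dif_pos (i.2.trans hl), dif_pos (i.2.trans hl)] at h2
            have h3 := y.2.2 (Fin.castLE hl.le i) ⟨l, hl⟩ (by exact i.2) j
            rw [← h3]
            congr 3
            exact h2.symm⟩ : {y : V // ∀ i : Fin l × ι,
              ω (r i.2 (x.1 (Fin.castLE hl.le i.1))) y = Γ (Fin.castLE hl.le i.1) ⟨l, hl⟩ i.2}))
    intro v v' hvv
    dsimp only at hvv
    apply Subtype.ext
    simpa using congrArg Subtype.val hvv
  · intro x y hxy
    apply Subtype.ext
    funext i
    have := hxy i.1 i.2
    simpa using this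

omit [Finite F] [Finite V] in
theorem neg_symm (hω : IsSymp ω) (x y : V) : ω y x = -ω x y := by
  have h := hω.alt (x + y)
  rw [map_add ω, LinearMap.add_apply, map_add, map_add, hω.alt, hω.alt, zero_add, add_zero] at h
  exact eq_neg_of_add_eq_zero_right h

omit [Finite F] in
theorem witt_step (hω : IsSymp ω) {ι : Type*} [Finite ι] (u w : ι → V)
    (hu : LinearIndependent F u) (hw : LinearIndependent F w)
    (h : ∀ i j, ω (u i) (u j) = ω (w i) (w j)) (u' : V)
    (hu' : u' ∉ Submodule.span F (Set.range u)) :
    ∃ w', w' ∉ Submodule.span F (Set.range w) ∧ ∀ i, ω (w i) w' = ω (u i) u' := by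
  classical
  have := Fintype.ofFinite ι
  by_contra hcon
  push Not at hcon
  have hcon' : ∀ w', (∀ i, ω (w i) w' = ω (u i) u') → w' ∈ Submodule.span F (Set.range w) := by
    intro w' hw'
    by_contra hn
    obtain ⟨i, hi⟩ := hcon w' hn
    exact hi (hw' i)
  obtain ⟨w0, hw0⟩ := solve_all hω w hw (fun i => ω (u i) u')
  have hw0s := hcon' w0 hw0
  -- the orthogonal of `span w` lies in `span w`
  have hperp : ∀ z, (∀ i, ω (w i) z = 0) → ∃ a : ι → F, ∑ i, a i • w i = z := by
    intro z hz
    have h1 : w0 + z ∈ Submodule.span F (Set.range w) := by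
      apply hcon'
      intro i
      rw [map_add, hw0, hz, add_zero]
    have h2 : z ∈ Submodule.span F (Set.range w) := by
      have := Submodule.sub_mem _ h1 hw0s
      simpa using this
    exact (Submodule.mem_span_range_iff_exists_fun F).1 h2
  choose! a ha using hperp
  have hT : ∀ z, (∀ i, ω (w i) z = 0) → ∀ i, ω (u i) (∑ j, a z j • u j) = 0 := by
    intro z hz i
    have h1 := hz i
    rw [← ha z hz] at h1
    simp only [map_sum, map_smul] at h1 ⊢
    simp only [h]
    rw [← h1]
  let T : {z : V // ∀ i, ω (w i) z = 0} → {z : V // ∀ i, ω (u i) z = 0} :=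
    fun z => ⟨∑ j, a z.1 j • u j, hT z.1 z.2⟩
  have hTinj : Function.Injective T := by
    intro z z' hzz
    have h1 : ∑ j, a z.1 j • u j = ∑ j, a z'.1 j • u j := congrArg Subtype.val hzz
    have h2 : ∀ j, a z.1 j = a z'.1 j := by
      have h3 : ∑ j, (a z.1 j - a z'.1 j) • u j = 0 := by
        simp only [sub_smul, Finset.sum_sub_distrib, h1, sub_self]
      intro j
      exact sub_eq_zero.1 (Fintype.linearIndependent_iff.1 hu _ h3 j)
    apply Subtype.ext
    rw [← ha z.1 z.2, ← ha z'.1 z'.2]
    exact Finset.sum_congr rfl fun j _ => by rw [h2 j]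
  have hTsurj : Function.Surjective T := by
    refine (Function.Injective.bijective_of_nat_card_le hTinj ?_).2
    rw [card_solutions hω u hu (fun _ => 0), card_solutions hω w hw (fun _ => 0)]
  obtain ⟨b, hb⟩ := (Submodule.mem_span_range_iff_exists_fun F).1 hw0s
  have hz : ∀ i, ω (u i) ((∑ j, b j • u j) - u') = 0 := by
    intro i
    have h1 := hw0 i
    rw [← hb] at h1
    rw [map_sub, ← h1]
    simp only [map_sum, map_smul, h, sub_self]
  obtain ⟨z, hz'⟩ := hTsurj ⟨_, hz⟩
  have h5 : ∑ j, a z.1 j • u j = (∑ j, b j • u j) - u' := congrArg Subtype.val hz'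
  apply hu'
  have h6 : u' = (∑ j, b j • u j) - ∑ j, a z.1 j • u j := by rw [h5]; abel
  rw [h6]
  refine Submodule.sub_mem _ ?_ ?_ <;>
  exact Submodule.sum_mem _ fun j _ => Submodule.smul_mem _ _ (Submodule.subset_span ⟨j, rfl⟩)

omit [Finite F] in
theorem witt_aux (hω : IsSymp ω) (d : ℕ) : ∀ {ι : Type*} [Finite ι] (u w : ι → V)
    (_ : LinearIndependent F u) (_ : LinearIndependent F w)
    (_ : ∀ i j, ω (u i) (u j) = ω (w i) (w j)), finrank F V - Nat.card ι = d →
    ∃ g ∈ Sp ω, ∀ i, g (u i) = w i := by
  classical
  induction d with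
  | zero =>
    intro ι _ u w hu hw h hd
    have := Fintype.ofFinite ι
    rw [Nat.card_eq_fintype_card] at hd
    have hc : Fintype.card ι = finrank F V :=
      le_antisymm hu.fintype_card_le_finrank (by omega)
    let bu := basisOfLinearIndependentOfCardEqFinrank' u hu hc
    let bw := basisOfLinearIndependentOfCardEqFinrank' w hw hc
    have hbu : ∀ i, bu i = u i := fun i => by simp [bu]
    have hbw : ∀ i, bw i = w i := fun i => by simp [bw]
    let g : V ≃ₗ[F] V := bu.equiv bw (Equiv.refl ι)
    have hg : ∀ i, g (u i) = w i := by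
      intro i
      have := bu.equiv_apply i bw (Equiv.refl ι)
      rw [hbu] at this
      rw [this, Equiv.refl_apply, hbw]
    refine ⟨g, ?_, hg⟩
    intro x y
    have h1 : ω.compl₁₂ (g : V →ₗ[F] V) (g : V →ₗ[F] V) = ω := by
      refine LinearMap.ext_basis bu bu fun i j => ?_
      simp only [LinearMap.compl₁₂_apply, LinearEquiv.coe_coe, hbu, hg]
      exact (h i j).symm
    exact LinearMap.congr_fun₂ h1 x y
  | succ d ih =>
    intro ι _ u w hu hw h hd
    have := Fintype.ofFinite ι
    rw [Nat.card_eq_fintype_card] at hd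
    obtain ⟨u', hu'⟩ : ∃ u', u' ∉ Submodule.span F (Set.range u) := by
      by_contra hcon
      push Not at hcon
      have h1 : Submodule.span F (Set.range u) = ⊤ := by
        rw [eq_top_iff]
        exact fun x _ => hcon x
      have h2 := finrank_span_eq_card hu
      rw [h1, finrank_top] at h2
      omega
    obtain ⟨w', hw', hww⟩ := witt_step hω u w hu hw h u' hu'
    have hu2 : LinearIndependent F (fun o : Option ι => Option.casesOn' o u' u) :=
      linearIndependent_option'.2 ⟨hu, hu'⟩
    have hw2 : LinearIndependent F (fun o : Option ι => Option.casesOn' o w' w) :=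
      linearIndependent_option'.2 ⟨hw, hw'⟩
    obtain ⟨g, hg, hg'⟩ := ih _ _ hu2 hw2 (by
      rintro (_ | i) (_ | j)
      · simp only [Option.casesOn'_none, hω.alt]
      · simp only [Option.casesOn'_none, Option.casesOn'_some]
        rw [neg_symm hω (u j) u', neg_symm hω (w j) w', hww]
      · simp only [Option.casesOn'_none, Option.casesOn'_some]
        exact (hww i).symm
      · simp only [Option.casesOn'_some]
        exact h i j) (by
      rw [Nat.card_eq_fintype_card, Fintype.card_option]
      omega)
    exact ⟨g, hg, fun i => hg' (some i)⟩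

omit [Finite F] in
/-- A3 (Witt). -/
theorem witt (hω : IsSymp ω) {ι : Type*} [Finite ι] (u w : ι → V)
    (hu : LinearIndependent F u) (hw : LinearIndependent F w)
    (h : ∀ i j, ω (u i) (u j) = ω (w i) (w j)) : ∃ g ∈ Sp ω, ∀ i, g (u i) = w i := by
  obtain ⟨d, hd⟩ : ∃ d, finrank F V - Nat.card ι = d := ⟨_, rfl⟩
  exact witt_aux hω d u w hu hw h hd

end Pool.Agent.UD
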