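import Pool.Agent.UD.Defs
import Pool.Agent.UD.LinAlg

/-!
# Block H : centralisers
-/

open Module

namespace Pool.Agent.UD

namespace Central

variable {F V : Type*} [Field F] [AddCommGroup V] [Module F V]
variable {ω : LinearMap.BilinForm F V}

lemma sum_exp (t k : ℕ) :
    ∑ i ∈ Finset.range (2 * k), (2 * t * k - t * i) = t * k * (2 * k + 1) := by
  have h : ∀ n : ℕ, 2 * ∑ i ∈ Finset.range n, (t * n - t * i) = t * n * (n + 1) := by
    intro n
    induction n with
    | zero => simp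
    | succ n ih =>
      rw [Finset.sum_range_succ]
      have h1 : ∑ i ∈ Finset.range n, (t * (n + 1) - t * i) =
          ∑ i ∈ Finset.range n, ((t * n - t * i) + t) := by
        refine Finset.sum_congr rfl fun i hi => ?_
        have h2 : t * i ≤ t * n := Nat.mul_le_mul_left _ (Finset.mem_range.mp hi).le
        have h3 : t * (n + 1) = t * n + t := by ring
        omega
      rw [h1, Finset.sum_add_distrib, mul_add, mul_add, ih, Finset.sum_const, Finset.card_range,
        smul_eq_mul]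
      have h3 : t * (n + 1) - t * n = t := by
        have : t * (n + 1) = t * n + t := by ring
        omega
      rw [h3]
      ring
  have h1 := h (2 * k)
  have h2 : ∀ i, 2 * t * k - t * i = t * (2 * k) - t * i := fun i => by
    have : 2 * t * k = t * (2 * k) := by ring
    rw [this]
  simp only [h2]
  have h3 : t * (2 * k) * (2 * k + 1) = 2 * (t * k * (2 * k + 1)) := by ring
  omega

lemma antisymm (hω : IsSymp ω) (a b : V) : ω a b = - ω b a := by
  have h := hω.alt (a + b)
  simp only [map_add, LinearMap.add_apply, hω.alt] at h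
  linear_combination h

lemma Sp_pow {x : V ≃ₗ[F] V} (hx : x ∈ Sp ω) (m : ℕ) (a b : V) :
    ω ((x ^ m) a) ((x ^ m) b) = ω a b :=
  mem_Sp.mp ((Sp ω).pow_mem hx m) a b

lemma comm_pow {x : V ≃ₗ[F] V} {b : Module.End F V} (hb : ∀ y, b (x y) = x (b y)) (m : ℕ)
    (y : V) : b ((x ^ m) y) = (x ^ m) (b y) := by
  induction m generalizing y with
  | zero => simp
  | succ m ih => rw [pow_succ, LinearEquiv.mul_apply, LinearEquiv.mul_apply, ih, hb]

/-- Swapping relation. -/
lemma swap_SA (hω : IsSymp ω) {t : ℕ} {x : V ≃ₗ[F] V} (hx : x ∈ Sp ω) (hxt : x ^ t = 1)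
    {b : Module.End F V} (hb : IsSA ω b) (hbx : ∀ y, b (x y) = x (b y)) (j m : ℕ)
    (hjm : j + m = t ∨ j + m = 0) (u w : V) :
    ω ((x ^ j) u) (b w) = - ω ((x ^ m) w) (b u) := by
  have h1 : x ^ (m + j) = 1 := by
    rw [add_comm]
    rcases hjm with h | h
    · rw [h, hxt]
    · rw [h, pow_zero]
  rw [← hb, comm_pow hbx, ← Sp_pow hx m, ← LinearEquiv.mul_apply, ← pow_add, h1,
    antisymm hω]
  simp

lemma swap_SK (hω : IsSymp ω) {t : ℕ} {x : V ≃ₗ[F] V} (hx : x ∈ Sp ω) (hxt : x ^ t = 1)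
    {b : Module.End F V} (hb : IsSK ω b) (hbx : ∀ y, b (x y) = x (b y)) (j m : ℕ)
    (hjm : j + m = t ∨ j + m = 0) (u w : V) :
    ω ((x ^ j) u) (b w) = ω ((x ^ m) w) (b u) := by
  have h1 : x ^ (m + j) = 1 := by
    rw [add_comm]
    rcases hjm with h | h
    · rw [h, hxt]
    · rw [h, pow_zero]
  have h2 : ω ((x ^ j) u) (b w) = - ω (b ((x ^ j) u)) w := by rw [hb, neg_neg]
  rw [h2, comm_pow hbx, ← Sp_pow hx m, ← LinearEquiv.mul_apply, ← pow_add, h1,
    antisymm hω]
  simp

/-- If all products vanish the operator is zero. -/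
lemma zero_of_products (hω : IsSymp ω) {t k : ℕ} {x : V ≃ₗ[F] V}
    {v : Fin (2 * k) → V}
    (hspan : Submodule.span F (Set.range
      (fun p : Fin (2 * k) × Fin t => (x ^ (p.2 : ℕ)) (v p.1))) = ⊤)
    {b : Module.End F V} (hbx : ∀ y, b (x y) = x (b y))
    (h : ∀ i l, ∀ j < t, ω ((x ^ j) (v i)) (b (v l)) = 0) : b = 0 := by
  have h1 : ∀ l, b (v l) = 0 := by
    intro l
    apply hω.nd
    intro y
    rw [antisymm hω, neg_eq_zero]
    have hy : y ∈ Submodule.span F (Set.range
      (fun p : Fin (2 * k) × Fin t => (x ^ (p.2 : ℕ)) (v p.1))) := by rw [hspan]; trivial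
    induction hy using Submodule.span_induction with
    | mem z hz =>
      obtain ⟨p, rfl⟩ := hz
      exact h p.1 l p.2 p.2.2
    | zero => simp
    | add a c _ _ ha hc => simp [ha, hc]
    | smul a c _ hc => simp [hc]
  ext y
  have hy : y ∈ Submodule.span F (Set.range
      (fun p : Fin (2 * k) × Fin t => (x ^ (p.2 : ℕ)) (v p.1))) := by rw [hspan]; trivial
  rw [LinearMap.zero_apply]
  induction hy using Submodule.span_induction with
  | mem z hz =>
    obtain ⟨p, rfl⟩ := hz
    rw [comm_pow hbx, h1, map_zero]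
  | zero => simp
  | add a c _ _ ha hc => simp [ha, hc]
  | smul a c _ hc => simp [hc]

lemma card_T (k : ℕ) : Fintype.card (Σ i : Fin (2 * k), Fin (i : ℕ)) = k * (2 * k - 1) := by
  rw [Fintype.card_sigma]
  simp only [Fintype.card_fin]
  rw [Fin.sum_univ_eq_sum_range (fun i => i)]
  have h := Finset.sum_range_id_mul_two (2 * k)
  have h2 : 2 * k * (2 * k - 1) = (k * (2 * k - 1)) * 2 := by ring
  omega

lemma finite_LE [Finite V] : Finite (V ≃ₗ[F] V) :=
  Finite.of_injective (fun f : V ≃ₗ[F] V => (f : V → V)) DFunLike.coe_injective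

end Central

variable {F V : Type*} [Field F] [Finite F] [AddCommGroup V] [Module F V] [Finite V]
variable {ω : LinearMap.BilinForm F V}


/-- H1 : centraliser of operators `r j` such that `r j (v i)` is a basis. -/
theorem card_CSp_le (hω : IsSymp ω) {ι : Type*} [Fintype ι] (r : ι → Module.End F V) {k : ℕ}
    (hV : finrank F V = 2 * Fintype.card ι * k) (v : Fin (2 * k) → V)
    (hv : LinearIndependent F (fun p : Fin (2 * k) × ι => r p.2 (v p.1))) :
    Nat.card (CSp ω (Set.range r)) ≤ (Nat.card F) ^ (Fintype.card ι * k * (2 * k + 1)) := by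
  have hspan : Submodule.span F (Set.range
      (fun p : Fin (2 * k) × ι => r p.2 (v p.1))) = ⊤ := by
    apply hv.span_eq_top_of_card_eq_finrank'
    simp [hV]
    ring
  have hA := card_tuples_le hω r (2 * k) (fun i l j => ω (r j (v i)) (v l))
  have hE : ∏ i ∈ Finset.range (2 * k), (Nat.card F) ^ (finrank F V - Fintype.card ι * i) =
      (Nat.card F) ^ (Fintype.card ι * k * (2 * k + 1)) := by
    rw [Finset.prod_pow_eq_pow_sum, hV, Central.sum_exp]
  rw [hE] at hA
  refine le_trans ?_ hA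
  refine Nat.card_le_card_of_injective (fun g : CSp ω (Set.range r) =>
    (⟨fun i => g.1 (v i), ?_, ?_⟩ : {w : Fin (2 * k) → V //
      LinearIndependent F (fun p : Fin (2 * k) × ι => r p.2 (w p.1)) ∧
      ∀ i l, i < l → ∀ j, ω (r j (w i)) (w l) = ω (r j (v i)) (v l)})) ?_
  · have h1 : (fun p : Fin (2 * k) × ι => r p.2 (g.1 (v p.1))) =
        (g.1 : V →ₗ[F] V) ∘ (fun p : Fin (2 * k) × ι => r p.2 (v p.1)) := by
      ext p
      exact (g.2.2 (r p.2) ⟨_, rfl⟩ (v p.1)).symm
    rw [h1]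
    exact hv.map' _ g.1.ker
  · intro i l _ j
    rw [← g.2.2 (r j) ⟨_, rfl⟩ (v i)]
    exact g.2.1 _ _
  · intro g g' h
    apply Subtype.ext
    have h1 : ∀ i, g.1 (v i) = g'.1 (v i) := fun i => congrFun (congrArg Subtype.val h) i
    ext y
    have hy : y ∈ Submodule.span F (Set.range
      (fun p : Fin (2 * k) × ι => r p.2 (v p.1))) := by rw [hspan]; trivial
    induction hy using Submodule.span_induction with
    | mem z hz =>
      obtain ⟨p, rfl⟩ := hz
      change g.1 (r p.2 (v p.1)) = g'.1 (r p.2 (v p.1))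
      rw [g.2.2 (r p.2) ⟨_, rfl⟩, g'.2.2 (r p.2) ⟨_, rfl⟩, h1]
    | zero => simp
    | add a c _ _ ha hc => simp [ha, hc]
    | smul a c _ hc => simp [hc]

/-- H2 : centraliser of a field. -/
theorem card_CSp_field_le (hω : IsSymp ω) (A : Subalgebra F (Module.End F V)) (hA : IsField A)
    {t k : ℕ} (he : finrank F A = t) (hV : finrank F V = 2 * t * k) :
    Nat.card (CSp ω (A : Set (Module.End F V))) ≤ (Nat.card F) ^ (t * k * (2 * k + 1)) := by
  subst he
  let : Field A := hA.toField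
  have hfinLE : Finite (V ≃ₗ[F] V) := Central.finite_LE
  have hfin : FiniteDimensional F (Module.End F V) := inferInstance
  have hfA : FiniteDimensional F A := inferInstance
  have hAV : FiniteDimensional A V := Module.Finite.of_restrictScalars_finite F A V
  have htpos : 0 < finrank F A := finrank_pos
  have hmul := Module.finrank_mul_finrank F A V
  have hrk : finrank A V = 2 * k := by
    rw [hV] at hmul
    have : finrank F A * finrank A V = finrank F A * (2 * k) := by rw [hmul]; ring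
    exact Nat.eq_of_mul_eq_mul_left htpos this
  let b := Module.finBasis F A
  let c := (Module.finBasis A V).reindex (finCongr hrk)
  let bc := b.smulTower c
  have hind : LinearIndependent F (fun p : Fin (2 * k) × Fin (finrank F A) =>
      ((b p.2 : A) : Module.End F V) (c p.1)) := by
    have h1 := bc.linearIndependent
    have h2 := h1.comp (fun p : Fin (2 * k) × Fin (finrank F A) => (p.2, p.1))
      (fun p p' h => by
        simp only [Prod.mk.injEq] at h
        exact Prod.ext h.2 h.1)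
    have h3 : (bc ∘ fun p : Fin (2 * k) × Fin (finrank F A) => (p.2, p.1)) =
        (fun p : Fin (2 * k) × Fin (finrank F A) => ((b p.2 : A) : Module.End F V) (c p.1)) := by
      ext p
      simp only [Function.comp_apply, bc, Basis.smulTower_apply]
      rfl
    rw [h3] at h2
    exact h2
  have h := card_CSp_le hω (fun i : Fin (finrank F A) => ((b i : A) : Module.End F V))
    (k := k) (by rw [Fintype.card_fin, hV]) c hind
  rw [Fintype.card_fin] at h
  refine le_trans (Nat.card_mono (Set.toFinite _) ?_) h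
  intro g hg
  refine ⟨hg.1, ?_⟩
  rintro _ ⟨i, rfl⟩ y
  exact hg.2 _ (b i).2 y

/-- H3 : centraliser of an element acting freely. -/
theorem card_CSp_free_le (hω : IsSymp ω) {t k : ℕ} (hV : finrank F V = 2 * t * k)
    {x : V ≃ₗ[F] V} (v : Fin (2 * k) → V)
    (hv : LinearIndependent F (fun p : Fin (2 * k) × Fin t => (x ^ (p.2 : ℕ)) (v p.1))) :
    Nat.card (CSp ω {(x : V →ₗ[F] V)}) ≤ (Nat.card F) ^ (t * k * (2 * k + 1)) := by
  have hfinLE : Finite (V ≃ₗ[F] V) := Central.finite_LE
  have h := card_CSp_le hω (fun i : Fin t => ((x ^ (i : ℕ) : V ≃ₗ[F] V) : Module.End F V))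
    (k := k) (by rw [Fintype.card_fin, hV]) v hv
  rw [Fintype.card_fin] at h
  refine le_trans (Nat.card_mono (Set.toFinite _) ?_) h
  intro g hg
  refine ⟨hg.1, ?_⟩
  rintro _ ⟨i, rfl⟩ y
  exact Central.comm_pow (b := (g : V →ₗ[F] V)) (fun z => hg.2 (x : V →ₗ[F] V) rfl z) i y

/-- H4 : self-adjoint operators commuting with an element acting freely. -/
theorem card_SA_free_le (hω : IsSymp ω) (h2 : (2 : F) ≠ 0) {t k : ℕ} (ht : Odd t)
    (hV : finrank F V = 2 * t * k)
    {x : V ≃ₗ[F] V} (hx : x ∈ Sp ω) (hxt : x ^ t = 1) (v : Fin (2 * k) → V)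
    (hv : LinearIndependent F (fun p : Fin (2 * k) × Fin t => (x ^ (p.2 : ℕ)) (v p.1))) :
    Nat.card {b : Module.End F V // IsSA ω b ∧ ∀ y, b (x y) = x (b y)} ≤
      (Nat.card F) ^ (k * (2 * t * k - 1)) := by
  obtain ⟨s, rfl⟩ := ht
  have hspan : Submodule.span F (Set.range
      (fun p : Fin (2 * k) × Fin (2 * s + 1) => (x ^ (p.2 : ℕ)) (v p.1))) = ⊤ := by
    apply hv.span_eq_top_of_card_eq_finrank'
    simp [hV]
    ring
  let T := ((Σ i : Fin (2 * k), Fin (i : ℕ)) × Fin (2 * s + 1)) ⊕ (Fin (2 * k) × Fin s)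
  have hT : Nat.card (T → F) = (Nat.card F) ^ (k * (2 * (2 * s + 1) * k - 1)) := by
    rw [Nat.card_fun]
    congr 1
    rw [Nat.card_eq_fintype_card]
    simp only [T, Fintype.card_sum, Fintype.card_prod, Central.card_T, Fintype.card_fin]
    rcases Nat.eq_zero_or_pos k with rfl | hk
    · simp
    · obtain ⟨n, rfl⟩ : ∃ n, k = n + 1 := ⟨k - 1, by omega⟩
      have e1 : 2 * (n + 1) - 1 = 2 * n + 1 := by omega
      have e2 : 2 * (2 * s + 1) * (n + 1) - 1 = 4 * s * n + 4 * s + 2 * n + 1 := by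
        have : 2 * (2 * s + 1) * (n + 1) = 4 * s * n + 4 * s + 2 * n + 2 := by ring
        omega
      rw [e1, e2]
      ring
  rw [← hT]
  let Φ : {b : Module.End F V // IsSA ω b ∧ ∀ y, b (x y) = x (b y)} → (T → F) := fun b =>
    Sum.elim (fun p => ω ((x ^ (p.2 : ℕ)) (v p.1.1)) (b.1 (v ⟨p.1.2, p.1.2.2.trans p.1.1.2⟩)))
      (fun p => ω ((x ^ ((p.2 : ℕ) + 1)) (v p.1)) (b.1 (v p.1)))
  refine Nat.card_le_card_of_injective Φ ?_
  intro b b' h
  apply Subtype.ext
  rw [← sub_eq_zero]
  set c := b.1 - b'.1 with hc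
  have hcSA : IsSA ω c := by
    intro y z
    simp only [hc, LinearMap.sub_apply, map_sub, b.2.1 y z, b'.2.1 y z]
  have hcx : ∀ y, c (x y) = x (c y) := by
    intro y
    simp only [hc, LinearMap.sub_apply, map_sub, b.2.2 y, b'.2.2 y]
  have hgt : ∀ i l : Fin (2 * k), l < i → ∀ j < 2 * s + 1, ω ((x ^ j) (v i)) (c (v l)) = 0 := by
    intro i l hil j hj
    have h1 := congrFun h (Sum.inl (⟨i, ⟨l, hil⟩⟩, ⟨j, hj⟩))
    simp only [Φ, Sum.elim_inl, Fin.eta] at h1
    rw [hc, LinearMap.sub_apply, map_sub, h1, sub_self]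
  have hdg : ∀ l : Fin (2 * k), ∀ j, 1 ≤ j → j ≤ s → ω ((x ^ j) (v l)) (c (v l)) = 0 := by
    intro l j hj1 hj2
    have h1 := congrFun h (Sum.inr (l, ⟨j - 1, by omega⟩))
    simp only [Φ, Sum.elim_inr] at h1
    have h3 : j - 1 + 1 = j := by omega
    rw [h3] at h1
    rw [hc, LinearMap.sub_apply, map_sub, h1, sub_self]
  apply Central.zero_of_products hω hspan hcx
  intro i l j hj
  rcases lt_trichotomy i l with hil | rfl | hil
  · rcases Nat.eq_zero_or_pos j with rfl | hj0
    · rw [Central.swap_SA hω hx hxt hcSA hcx 0 0 (Or.inr rfl), hgt l i hil 0 (by omega), neg_zero]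
    · rw [Central.swap_SA hω hx hxt hcSA hcx j (2 * s + 1 - j) (Or.inl (by omega)),
        hgt l i hil _ (by omega), neg_zero]
  · rcases Nat.eq_zero_or_pos j with rfl | hj0
    · have h3 := Central.swap_SA hω hx hxt hcSA hcx 0 0 (Or.inr rfl) (v i) (v i)
      have h4 : (2 : F) * ω ((x ^ 0) (v i)) (c (v i)) = 0 := by linear_combination h3
      exact (mul_eq_zero.mp h4).resolve_left h2
    · rcases Nat.lt_or_ge s j with hsj | hsj
      · rw [Central.swap_SA hω hx hxt hcSA hcx j (2 * s + 1 - j) (Or.inl (by omega)),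
          hdg i _ (by omega) (by omega), neg_zero]
      · exact hdg i j hj0 hsj
  · exact hgt i l hil j hj

/-- H5 : skew operators commuting with an element acting freely. -/
theorem card_SK_free_le (hω : IsSymp ω) {t k : ℕ} (ht : Odd t)
    (hV : finrank F V = 2 * t * k)
    {x : V ≃ₗ[F] V} (hx : x ∈ Sp ω) (hxt : x ^ t = 1) (v : Fin (2 * k) → V)
    (hv : LinearIndependent F (fun p : Fin (2 * k) × Fin t => (x ^ (p.2 : ℕ)) (v p.1))) :
    Nat.card {b : Module.End F V // IsSK ω b ∧ ∀ y, b (x y) = x (b y)} ≤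
      (Nat.card F) ^ (k * (2 * t * k + 1)) := by
  obtain ⟨s, rfl⟩ := ht
  have hspan : Submodule.span F (Set.range
      (fun p : Fin (2 * k) × Fin (2 * s + 1) => (x ^ (p.2 : ℕ)) (v p.1))) = ⊤ := by
    apply hv.span_eq_top_of_card_eq_finrank'
    simp [hV]
    ring
  let T := ((Σ i : Fin (2 * k), Fin (i : ℕ)) × Fin (2 * s + 1)) ⊕ (Fin (2 * k) × Fin (s + 1))
  have hT : Nat.card (T → F) = (Nat.card F) ^ (k * (2 * (2 * s + 1) * k + 1)) := by
    rw [Nat.card_fun]
    congr 1
    rw [Nat.card_eq_fintype_card]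
    simp only [T, Fintype.card_sum, Fintype.card_prod, Central.card_T, Fintype.card_fin]
    rcases Nat.eq_zero_or_pos k with rfl | hk
    · simp
    · obtain ⟨n, rfl⟩ : ∃ n, k = n + 1 := ⟨k - 1, by omega⟩
      have e1 : 2 * (n + 1) - 1 = 2 * n + 1 := by omega
      rw [e1]
      ring
  rw [← hT]
  let Φ : {b : Module.End F V // IsSK ω b ∧ ∀ y, b (x y) = x (b y)} → (T → F) := fun b =>
    Sum.elim (fun p => ω ((x ^ (p.2 : ℕ)) (v p.1.1)) (b.1 (v ⟨p.1.2, p.1.2.2.trans p.1.1.2⟩)))
      (fun p => ω ((x ^ (p.2 : ℕ)) (v p.1)) (b.1 (v p.1)))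
  refine Nat.card_le_card_of_injective Φ ?_
  intro b b' h
  apply Subtype.ext
  rw [← sub_eq_zero]
  set c := b.1 - b'.1 with hc
  have hcSK : IsSK ω c := by
    intro y z
    simp only [hc, LinearMap.sub_apply, map_sub, b.2.1 y z, b'.2.1 y z]
    ring
  have hcx : ∀ y, c (x y) = x (c y) := by
    intro y
    simp only [hc, LinearMap.sub_apply, map_sub, b.2.2 y, b'.2.2 y]
  have hgt : ∀ i l : Fin (2 * k), l < i → ∀ j < 2 * s + 1, ω ((x ^ j) (v i)) (c (v l)) = 0 := by
    intro i l hil j hj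
    have h1 := congrFun h (Sum.inl (⟨i, ⟨l, hil⟩⟩, ⟨j, hj⟩))
    simp only [Φ, Sum.elim_inl, Fin.eta] at h1
    rw [hc, LinearMap.sub_apply, map_sub, h1, sub_self]
  have hdg : ∀ l : Fin (2 * k), ∀ j, j ≤ s → ω ((x ^ j) (v l)) (c (v l)) = 0 := by
    intro l j hj2
    have h1 := congrFun h (Sum.inr (l, ⟨j, by omega⟩))
    simp only [Φ, Sum.elim_inr] at h1
    rw [hc, LinearMap.sub_apply, map_sub, h1, sub_self]
  apply Central.zero_of_products hω hspan hcx
  intro i l j hj
  rcases lt_trichotomy i l with hil | rfl | hil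
  · rcases Nat.eq_zero_or_pos j with rfl | hj0
    · rw [Central.swap_SK hω hx hxt hcSK hcx 0 0 (Or.inr rfl), hgt l i hil 0 (by omega)]
    · rw [Central.swap_SK hω hx hxt hcSK hcx j (2 * s + 1 - j) (Or.inl (by omega)),
        hgt l i hil _ (by omega)]
  · rcases Nat.lt_or_ge s j with hsj | hsj
    · rw [Central.swap_SK hω hx hxt hcSK hcx j (2 * s + 1 - j) (Or.inl (by omega)),
        hdg i _ (by omega)]
    · exact hdg i j hsj
  · exact hgt i l hil j hj

end Pool.Agent.UD
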