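import Mathlib

/-!
# Definitions for MP_65787c_al (uniform domination number of PSp(2m,q), m and q odd)

`V` is a vector space over a finite field `F` with a nondegenerate alternating form `ω`.
-/

open Module

namespace Pool.Agent.UD

variable {F V : Type*} [Field F] [AddCommGroup V] [Module F V]

/-- A nondegenerate alternating bilinear form. -/
structure IsSymp (ω : LinearMap.BilinForm F V) : Prop where
  alt : ∀ x, ω x x = 0
  nd : ∀ x, (∀ y, ω x y = 0) → x = 0

/-- Self-adjoint operators. -/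
def IsSA (ω : LinearMap.BilinForm F V) (T : Module.End F V) : Prop :=
  ∀ x y, ω (T x) y = ω x (T y)

/-- Skew operators. -/
def IsSK (ω : LinearMap.BilinForm F V) (T : Module.End F V) : Prop :=
  ∀ x y, ω (T x) y = -ω x (T y)

/-- The symplectic group. -/
def Sp (ω : LinearMap.BilinForm F V) : Subgroup (V ≃ₗ[F] V) where
  carrier := {g | ∀ x y, ω (g x) (g y) = ω x y}
  mul_mem' := by
    intro a b ha hb x y
    simp only [Set.mem_setOf_eq] at ha hb ⊢
    rw [LinearEquiv.mul_apply, LinearEquiv.mul_apply, ha, hb]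
  one_mem' := by intro x y; rfl
  inv_mem' := by
    intro a ha x y
    simp only [Set.mem_setOf_eq] at ha ⊢
    have := ha (a⁻¹ x) (a⁻¹ y)
    rw [← this]
    simp only [← LinearEquiv.mul_apply, mul_inv_cancel, LinearEquiv.coe_one, id]

/-- Conjugation of operators by an invertible linear map. -/
def cj (g : V ≃ₗ[F] V) (T : Module.End F V) : Module.End F V :=
  (g : V →ₗ[F] V) ∘ₗ T ∘ₗ (g.symm : V →ₗ[F] V)

/-- Skew operators with square `δ`. -/
def Y (ω : LinearMap.BilinForm F V) (δ : F) : Set (Module.End F V) :=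
  {J | IsSK ω J ∧ ∀ x, J (J x) = δ • x}

/-- `U` is stable under all operators in `A`. -/
def Stab (A : Subalgebra F (Module.End F V)) (U : Submodule F V) : Prop :=
  ∀ a ∈ A, ∀ x ∈ U, a x ∈ U

/-- Totally isotropic subspaces. -/
def TI (ω : LinearMap.BilinForm F V) (U : Submodule F V) : Prop :=
  ∀ x ∈ U, ∀ y ∈ U, ω x y = 0

/-- Nondegenerate subspaces. -/
def ND (ω : LinearMap.BilinForm F V) (U : Submodule F V) : Prop :=
  ∀ x ∈ U, (∀ y ∈ U, ω x y = 0) → x = 0

/-- Hyperbolic `k`-frames: pairs of families `(e, f)` with `ω(e i, f j) = δ_ij` and all other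
products zero. -/
def HypFrame (ω : LinearMap.BilinForm F V) (k : ℕ) : Set ((Fin k → V) × (Fin k → V)) :=
  {p | (∀ i j, ω (p.1 i) (p.1 j) = 0) ∧ (∀ i j, ω (p.2 i) (p.2 j) = 0) ∧
    ∀ i j, ω (p.1 i) (p.2 j) = if i = j then 1 else 0}

/-- Symplectic transformations commuting with all operators in `A`. -/
def CSp (ω : LinearMap.BilinForm F V) (A : Set (Module.End F V)) : Set (V ≃ₗ[F] V) :=
  {g | g ∈ Sp ω ∧ ∀ a ∈ A, ∀ x, g (a x) = a (g x)}

/-- `Gal ω A t`: symplectic transformations `x` with `x ^ t = 1` that normalise the algebra `A`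
without centralising it. -/
def Gal (ω : LinearMap.BilinForm F V) (A : Subalgebra F (Module.End F V)) (t : ℕ) :
    Set (V ≃ₗ[F] V) :=
  {x | x ∈ Sp ω ∧ x ^ t = 1 ∧ (∀ a ∈ A, cj x a ∈ A) ∧ ∃ a ∈ A, cj x a ≠ a}

@[simp] lemma cj_apply (g : V ≃ₗ[F] V) (T : Module.End F V) (x : V) :
    cj g T x = g (T (g.symm x)) := rfl

lemma mem_Sp {ω : LinearMap.BilinForm F V} {g : V ≃ₗ[F] V} :
    g ∈ Sp ω ↔ ∀ x y, ω (g x) (g y) = ω x y := Iff.rfl

lemma cj_mul (g : V ≃ₗ[F] V) (S T : Module.End F V) : cj g (S * T) = cj g S * cj g T := by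
  ext x
  simp [cj]

lemma cj_one (g : V ≃ₗ[F] V) : cj g (1 : Module.End F V) = 1 := by
  ext x; simp [cj]

lemma one_cj (T : Module.End F V) : cj (1 : V ≃ₗ[F] V) T = T := by
  ext x; rfl

lemma mul_cj (g h : V ≃ₗ[F] V) (T : Module.End F V) : cj (g * h) T = cj g (cj h T) := by
  ext x; rfl

lemma cj_inj (g : V ≃ₗ[F] V) : Function.Injective (cj g) := by
  intro S T h
  have : cj g⁻¹ (cj g S) = cj g⁻¹ (cj g T) := by rw [h]
  rwa [← mul_cj, ← mul_cj, inv_mul_cancel, one_cj, one_cj] at this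

end Pool.Agent.UD
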