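import Pool.Agent.UD.Defs

/-!
# Further definitions for MP_65787c_al
-/

open Module

namespace Pool.Agent.UD

variable {F V : Type*} [Field F] [AddCommGroup V] [Module F V]

/-- The algebra `A` is stable under taking adjoints. -/
def StarStable (ω : LinearMap.BilinForm F V) (A : Subalgebra F (Module.End F V)) : Prop :=
  ∀ a ∈ A, ∃ b ∈ A, ∀ x y, ω (a x) y = ω x (b y)

/-- Conjugation as an algebra homomorphism. -/
def cjHom (g : V ≃ₗ[F] V) : Module.End F V →ₐ[F] Module.End F V where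
  toFun := cj g
  map_one' := cj_one g
  map_mul' := cj_mul g
  map_zero' := by ext x; simp
  map_add' S T := by ext x; simp
  commutes' c := by ext x; simp [Module.algebraMap_end_apply]

@[simp] lemma cjHom_apply (g : V ≃ₗ[F] V) (T : Module.End F V) : cjHom g T = cj g T := rfl

/-- The conjugate `g B g⁻¹` of a subalgebra. -/
def cjA (g : V ≃ₗ[F] V) (B : Subalgebra F (Module.End F V)) : Subalgebra F (Module.End F V) :=
  B.map (cjHom g)

lemma mem_cjA {g : V ≃ₗ[F] V} {B : Subalgebra F (Module.End F V)} {T : Module.End F V} :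
    T ∈ cjA g B ↔ ∃ b ∈ B, cj g b = T := by
  simp [cjA, Subalgebra.mem_map]

/-- `x = ± 1`. -/
def Triv (x : V ≃ₗ[F] V) : Prop := (∀ v, x v = v) ∨ ∀ v, x v = -v

/-- `x` normalises the algebra `A`. -/
def Nrm (x : V ≃ₗ[F] V) (A : Subalgebra F (Module.End F V)) : Prop := ∀ a ∈ A, cj x a ∈ A

/-- The element `g` is good for `J`: only `± 1` sends `J` to `± J` and `gJg⁻¹` to `± gJg⁻¹`. -/
def Good (ω : LinearMap.BilinForm F V) (J : Module.End F V) : Set (Sp ω) :=
  {g | ∀ x ∈ Sp ω, (cj x J = J ∨ cj x J = -J) →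
    (cj x (cj g.1 J) = cj g.1 J ∨ cj x (cj g.1 J) = -cj g.1 J) → Triv x}

/-- The elements `g` such that `N(A) ∩ g N(B) g⁻¹` is larger than `± 1`. -/
def Bad (ω : LinearMap.BilinForm F V) (A B : Subalgebra F (Module.End F V)) : Set (Sp ω) :=
  {g | ∃ x ∈ Sp ω, Nrm x A ∧ Nrm x (cjA g.1 B) ∧ ¬ Triv x}

/-- Two operators commute (pointwise form). -/
def Cm (S T : V → V) : Prop := ∀ x, S (T x) = T (S x)

end Pool.Agent.UD
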