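import Pool.Agent.UD.Defs2

/-!
# Definitions for the final statement of MP_65787c_al
-/

open Module

namespace Pool.Agent.UD

variable {F V : Type*} [Field F] [AddCommGroup V] [Module F V]

/-- The subgroup `{1, -1}` of the symplectic group. -/
def PM (ω : LinearMap.BilinForm F V) : Subgroup (Sp ω) where
  carrier := {g | Triv g.1}
  mul_mem' := by
    rintro ⟨a, ha⟩ ⟨b, hb⟩ h1 h2
    rcases h1 with h1 | h1 <;> rcases h2 with h2 | h2
    · left; intro v; simp only at h1 h2 ⊢
      rw [Subgroup.coe_mul, LinearEquiv.mul_apply, h2, h1]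
    · right; intro v; simp only at h1 h2 ⊢
      rw [Subgroup.coe_mul, LinearEquiv.mul_apply, h2, h1]
    · right; intro v; simp only at h1 h2 ⊢
      rw [Subgroup.coe_mul, LinearEquiv.mul_apply, h2, h1]
    · left; intro v; simp only at h1 h2 ⊢
      rw [Subgroup.coe_mul, LinearEquiv.mul_apply, h2, h1, neg_neg]
  one_mem' := Or.inl fun _ => rfl
  inv_mem' := by
    rintro ⟨a, ha⟩ h1
    rcases h1 with h1 | h1
    · left; intro v
      change a⁻¹ v = v
      have h := h1 (a⁻¹ v)
      simp only at h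
      rw [← LinearEquiv.mul_apply, mul_inv_cancel, LinearEquiv.coe_one, id] at h
      exact h.symm
    · right; intro v
      change a⁻¹ v = -v
      have h := h1 (a⁻¹ v)
      simp only at h
      rw [← LinearEquiv.mul_apply, mul_inv_cancel, LinearEquiv.coe_one, id] at h
      exact (neg_eq_iff_eq_neg.mpr h).symm

instance (ω : LinearMap.BilinForm F V) : (PM ω).Normal where
  conj_mem := by
    rintro ⟨n, hn⟩ h ⟨g, hg⟩
    have key : ∀ v, (g * n * g⁻¹) v = g (n (g⁻¹ v)) := fun v => rfl
    have key2 : ∀ v, g (g⁻¹ v) = v := fun v => by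
      rw [← LinearEquiv.mul_apply, mul_inv_cancel, LinearEquiv.coe_one, id]
    rcases h with h | h
    · left; intro v; change (g * n * g⁻¹) v = v; simp only at h; rw [key, h, key2]
    · right; intro v; change (g * n * g⁻¹) v = -v; simp only at h; rw [key, h, map_neg, key2]

/-- The projective symplectic group `PSp(V, ω) = Sp(V, ω) / {±1}`. -/
abbrev PSp (ω : LinearMap.BilinForm F V) : Type _ := Sp ω ⧸ PM ω

/-- The projection `Sp → PSp`. -/
abbrev toPSp (ω : LinearMap.BilinForm F V) : Sp ω →* PSp ω := QuotientGroup.mk' (PM ω)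

/-- The normaliser in `Sp(V, ω)` of a subalgebra `A` of `End(V)`. -/
def NSub (ω : LinearMap.BilinForm F V) (A : Subalgebra F (Module.End F V)) : Subgroup (Sp ω) where
  carrier := {g | cjA g.1 A = A}
  mul_mem' := by
    rintro ⟨a, ha⟩ ⟨b, hb⟩ h1 h2
    simp only [Set.mem_setOf_eq] at h1 h2 ⊢
    apply SetLike.ext
    intro T
    constructor
    · intro hT
      obtain ⟨c, hc, rfl⟩ := mem_cjA.mp hT
      rw [Subgroup.coe_mul, mul_cj, ← h1]
      refine mem_cjA.mpr ⟨cj b c, ?_, rfl⟩
      rw [← h2]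
      exact mem_cjA.mpr ⟨c, hc, rfl⟩
    · intro hT
      rw [← h1] at hT
      obtain ⟨c, hc, rfl⟩ := mem_cjA.mp hT
      rw [← h2] at hc
      obtain ⟨d, hd, rfl⟩ := mem_cjA.mp hc
      exact mem_cjA.mpr ⟨d, hd, mul_cj a b d⟩
  one_mem' := by
    simp only [Set.mem_setOf_eq]
    apply SetLike.ext
    intro T
    rw [mem_cjA]
    constructor
    · rintro ⟨c, hc, rfl⟩
      exact (one_cj c) ▸ hc
    · intro hT
      exact ⟨T, hT, one_cj T⟩
  inv_mem' := by
    rintro ⟨a, ha⟩ h1
    simp only [Set.mem_setOf_eq] at h1 ⊢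
    apply SetLike.ext
    intro T
    rw [mem_cjA]
    constructor
    · rintro ⟨c, hc, rfl⟩
      rw [← h1] at hc
      obtain ⟨d, hd, rfl⟩ := mem_cjA.mp hc
      have : cj a⁻¹ (cj a d) = d := by rw [← mul_cj, inv_mul_cancel, one_cj]
      rw [← this] at hd
      exact hd
    · intro hT
      refine ⟨cj a T, ?_, ?_⟩
      · rw [← h1]; exact mem_cjA.mpr ⟨T, hT, rfl⟩
      · change cj a⁻¹ (cj a T) = T
        rw [← mul_cj, inv_mul_cancel, one_cj]

/-- `s` acts irreducibly on `V`. -/
def Irred (s : V ≃ₗ[F] V) : Prop :=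
  ∀ U : Submodule F V, (∀ u ∈ U, s u ∈ U) → U = ⊥ ∨ U = ⊤

/-- The algebra `F[s]`. -/
def alg (s : V ≃ₗ[F] V) : Subalgebra F (Module.End F V) :=
  Algebra.adjoin F {(s : V →ₗ[F] V)}

/-- A total dominating set for the generating graph of `G`: a set of nonidentity elements such
that every nonidentity element generates `G` together with some element of the set. -/
def TotalDominating {G : Type*} [Group G] (S : Set G) : Prop :=
  (∀ s ∈ S, s ≠ 1) ∧ ∀ x : G, x ≠ 1 → ∃ s ∈ S, Subgroup.closure {x, s} = ⊤

/-- The uniform domination number: the least size of a total dominating set consisting of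
conjugate elements. -/
noncomputable def gammaU (G : Type*) [Group G] : ℕ :=
  sInf {n | ∃ S : Finset G, S.card = n ∧ TotalDominating (S : Set G) ∧
    ∀ s ∈ S, ∀ s' ∈ S, IsConj s s'}

/-- The maximal subgroups of `PSp(V, ω)` containing the image of `s` are images of normalisers of
subfields of prime degree of the field `F[s]` (for a Singer cycle `s` this is a theorem of
Bereczky). -/
def Overgroups (ω : LinearMap.BilinForm F V) (s : Sp ω) : Prop :=
  ∀ M : Subgroup (PSp ω), IsCoatom M → toPSp ω s ∈ M →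
    ∃ A : Subalgebra F (Module.End F V), A ≤ alg s.1 ∧ (finrank F A).Prime ∧
      M = (NSub ω A).map (toPSp ω)

end Pool.Agent.UD
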