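import Pool.Agent.UD.Defs
import Pool.Agent.UD.LinAlg

/-!
# Hyperbolic frames, totally isotropic frames and the order of the symplectic group
(Block B of MP_65787c_al)
-/

open Module

namespace Pool.Agent.UD


variable {F V : Type*} [Field F] [Finite F] [AddCommGroup V] [Module F V] [Finite V]
variable {ω : LinearMap.BilinForm F V}


namespace Frames

omit [Finite F] [Finite V] in
lemma swap (hω : IsSymp ω) (x y : V) : ω x y = - ω y x := by
  have h := hω.alt (x + y)
  simp only [map_add, LinearMap.add_apply, hω.alt, zero_add, add_zero] at h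
  first
    | exact eq_neg_of_add_eq_zero_left h
    | exact eq_neg_of_add_eq_zero_right h

lemma card_sigma_const {A : Type*} [Finite A] {B : A → Type*} [∀ a, Finite (B a)] (N : ℕ)
    (h : ∀ a, Nat.card (B a) = N) : Nat.card (Σ a, B a) = Nat.card A * N := by
  have := Fintype.ofFinite A
  rw [Nat.card_sigma, Finset.sum_congr rfl (fun a _ => h a), Finset.sum_const, Nat.card_eq_fintype_card]
  simp

/-- Pairs extending a hyperbolic frame. -/
def Ext (ω : LinearMap.BilinForm F V) {k : ℕ} (p : (Fin k → V) × (Fin k → V)) : Set (V × V) :=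
  {x | (∀ i, ω (p.1 i) x.1 = 0) ∧ (∀ i, ω (p.2 i) x.1 = 0) ∧ (∀ i, ω (p.1 i) x.2 = 0) ∧
    (∀ i, ω (p.2 i) x.2 = 0) ∧ ω x.1 x.2 = 1}

omit [Finite F] [Finite V] in
lemma cons_mem (hω : IsSymp ω) {k : ℕ} (p : (Fin k → V) × (Fin k → V)) (x : V × V) :
    ((Fin.cons x.1 p.1, Fin.cons x.2 p.2) : (Fin (k + 1) → V) × (Fin (k + 1) → V)) ∈
      HypFrame ω (k + 1) ↔ p ∈ HypFrame ω k ∧ x ∈ Ext ω p := by
  have e1 : ∀ a b : V, ω a b = 0 ↔ ω b a = 0 := by
    intro a b
    rw [swap hω a b, neg_eq_zero]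
  simp only [HypFrame, Ext, Set.mem_ofPred_eq, Fin.forall_fin_succ, Fin.cons_zero, Fin.cons_succ,
    hω.alt, true_and, Fin.succ_ne_zero, if_false, if_true, Fin.succ_inj, (Fin.succ_ne_zero _).symm]
  constructor
  · rintro ⟨⟨h1, h2⟩, ⟨h3, h4⟩, ⟨h5, h6⟩, h7⟩
    refine ⟨⟨fun i j => (h2 i).2 j, fun i j => (h4 i).2 j, fun i j => (h7 i).2 j⟩,
      fun i => (h2 i).1, fun i => ?_, fun i => (h7 i).1, fun i => (h4 i).1, h5⟩
    rw [e1]; exact h6 i
  · rintro ⟨⟨h1, h2, h3⟩, h4, h5, h6, h7, h8⟩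
    refine ⟨⟨fun i => ?_, fun i => ⟨h4 i, fun j => h1 i j⟩⟩,
      ⟨fun i => ?_, fun i => ⟨h7 i, fun j => h2 i j⟩⟩, ⟨h8, fun i => ?_⟩,
      fun i => ⟨h6 i, fun j => h3 i j⟩⟩
    · rw [e1]; exact h4 i
    · rw [e1]; exact h7 i
    · rw [e1]; exact h5 i

/-- Removing the first pair of a hyperbolic frame. -/
def hypEquiv (hω : IsSymp ω) (k : ℕ) : HypFrame ω (k + 1) ≃ Σ p : HypFrame ω k, Ext ω p.1 where
  toFun x := ⟨⟨(Fin.tail x.1.1, Fin.tail x.1.2), ((cons_mem hω (Fin.tail x.1.1, Fin.tail x.1.2)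
      (x.1.1 0, x.1.2 0)).1 (by simp)).1⟩,
    ⟨(x.1.1 0, x.1.2 0), ((cons_mem hω (Fin.tail x.1.1, Fin.tail x.1.2)
      (x.1.1 0, x.1.2 0)).1 (by simp)).2⟩⟩
  invFun y := ⟨(Fin.cons y.2.1.1 y.1.1.1, Fin.cons y.2.1.2 y.1.1.2),
    (cons_mem hω y.1.1 y.2.1).2 ⟨y.1.2, y.2.2⟩⟩
  left_inv x := by
    apply Subtype.ext
    simp
  right_inv y := by
    rcases y with ⟨⟨⟨p1, p2⟩, hp⟩, ⟨⟨e, f⟩, h⟩⟩
    rfl


/-- The vectors of a hyperbolic frame together with one more vector. -/
def fam {k : ℕ} (p : (Fin k → V) × (Fin k → V)) (e : V) : Option (Fin k ⊕ Fin k) → V :=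
  fun o => o.elim e (Sum.elim p.1 p.2)

omit [Finite F] [Finite V] in
lemma indep_sum (hω : IsSymp ω) {k : ℕ} {p : (Fin k → V) × (Fin k → V)}
    (hp : p ∈ HypFrame ω k) : LinearIndependent F (Sum.elim p.1 p.2) := by
  rw [Fintype.linearIndependent_iff]
  intro g hg
  obtain ⟨h1, h2, h3⟩ := hp
  simp only [Fintype.sum_sum_type, Sum.elim_inl, Sum.elim_inr] at hg
  have h4 : ∀ i j, ω (p.2 i) (p.1 j) = if i = j then -1 else 0 := by
    intro i j
    rw [swap hω, h3]
    by_cases h : i = j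
    · simp [h]
    · simp [h, Ne.symm h]
  rintro (j | j)
  · have := congrArg (fun v => ω v (p.2 j)) hg
    simpa [map_sum, h1, h2, h3, Finset.sum_ite_eq'] using this
  · have := congrArg (fun v => ω v (p.1 j)) hg
    simpa [map_sum, h1, h2, h4, Finset.sum_ite_eq'] using this

omit [Finite F] [Finite V] in
lemma indep_fam (hω : IsSymp ω) {k : ℕ} {p : (Fin k → V) × (Fin k → V)}
    (hp : p ∈ HypFrame ω k) {e : V} (he : e ≠ 0) (h1 : ∀ i, ω (p.1 i) e = 0)
    (h2 : ∀ i, ω (p.2 i) e = 0) : LinearIndependent F (fam p e) := by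
  rw [Fintype.linearIndependent_iff]
  intro g hg
  obtain ⟨a1, a2, a3⟩ := hp
  have h4 : ∀ i j, ω (p.2 i) (p.1 j) = if i = j then -1 else 0 := by
    intro i j
    rw [swap hω, a3]
    by_cases h : i = j
    · simp [h]
    · simp [h, Ne.symm h]
  have h1' : ∀ i, ω e (p.1 i) = 0 := by
    intro i; rw [swap hω, h1, neg_zero]
  have h2' : ∀ i, ω e (p.2 i) = 0 := by
    intro i; rw [swap hω, h2, neg_zero]
  simp only [Fintype.sum_option, Fintype.sum_sum_type, fam, Option.elim, Sum.elim_inl,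
    Sum.elim_inr] at hg
  have k1 : ∀ j, g (some (Sum.inl j)) = 0 := by
    intro j
    have := congrArg (fun v => ω v (p.2 j)) hg
    simpa [map_sum, a1, a2, a3, h2', Finset.sum_ite_eq'] using this
  have k2 : ∀ j, g (some (Sum.inr j)) = 0 := by
    intro j
    have := congrArg (fun v => ω v (p.1 j)) hg
    simpa [map_sum, a1, a2, h4, h1', Finset.sum_ite_eq'] using this
  rintro (_ | j | j)
  · simpa [k1, k2, he] using hg
  · exact k1 j
  · exact k2 j

lemma card_ext (hω : IsSymp ω) {m k : ℕ} (hm : finrank F V = 2 * m) (hk : k < m)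
    {p : (Fin k → V) × (Fin k → V)} (hp : p ∈ HypFrame ω k) :
    Nat.card (Ext ω p) = (Nat.card F ^ (2 * (m - k)) - 1) * Nat.card F ^ (2 * (m - k) - 1) := by
  have c0 := card_solutions hω (Sum.elim p.1 p.2) (indep_sum hω hp) (fun _ => 0)
  have hfin : Fintype.card (Fin k ⊕ Fin k) = 2 * k := by
    simp; ring
  rw [hfin, hm, ← Nat.mul_sub] at c0
  have c1 : Nat.card {e : V // e ≠ 0 ∧ ∀ i, ω (Sum.elim p.1 p.2 i) e = 0} =
      Nat.card F ^ (2 * (m - k)) - 1 := by
    rw [← c0]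
    have e : {e : V // e ≠ 0 ∧ ∀ i, ω (Sum.elim p.1 p.2 i) e = 0} ≃
        {x : {e : V // ∀ i, ω (Sum.elim p.1 p.2 i) e = 0} // x ≠ ⟨0, by simp⟩} :=
      { toFun := fun x => ⟨⟨x.1, x.2.2⟩, fun h => x.2.1 (congrArg Subtype.val h)⟩
        invFun := fun x => ⟨x.1.1, fun h => x.2 (Subtype.ext h), x.1.2⟩
        left_inv := fun x => rfl
        right_inv := fun x => rfl }
    rw [Nat.card_congr e]
    have := Fintype.ofFinite {e : V // ∀ i, ω (Sum.elim p.1 p.2 i) e = 0}
    classical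
    rw [Nat.card_eq_fintype_card, Nat.card_eq_fintype_card, Fintype.card_subtype_compl,
      Fintype.card_subtype_eq]
  have e2 : Ext ω p ≃ Σ e : {e : V // e ≠ 0 ∧ ∀ i, ω (Sum.elim p.1 p.2 i) e = 0},
      {f : V // ∀ o, ω (fam p e.1 o) f = (o.elim 1 (fun _ => 0) : F)} :=
    { toFun := fun x => ⟨⟨x.1.1, by
          intro h
          have := x.2.2.2.2.2
          rw [h] at this
          simp at this, by
          rintro (i | i)
          · exact x.2.1 i
          · exact x.2.2.1 i⟩, ⟨x.1.2, by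
          rintro (_ | i | i)
          · exact x.2.2.2.2.2
          · exact x.2.2.2.1 i
          · exact x.2.2.2.2.1 i⟩⟩
      invFun := fun y => ⟨(y.1.1, y.2.1), fun i => y.1.2.2 (Sum.inl i),
        fun i => y.1.2.2 (Sum.inr i), fun i => y.2.2 (some (Sum.inl i)),
        fun i => y.2.2 (some (Sum.inr i)), y.2.2 none⟩
      left_inv := fun x => rfl
      right_inv := fun x => rfl }
  rw [Nat.card_congr e2, card_sigma_const (Nat.card F ^ (2 * (m - k) - 1)) _, c1]
  rintro ⟨e, he, h⟩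
  have := card_solutions hω (fam p e) (indep_fam hω hp he (fun i => h (Sum.inl i))
    (fun i => h (Sum.inr i))) (fun o => (o.elim 1 (fun _ => 0) : F))
  rw [this, Fintype.card_option, hfin, hm]
  congr 1
  omega

end Frames

open Frames

/-- B2. Number of hyperbolic frames. -/
theorem card_hyp (hω : IsSymp ω) {m k : ℕ} (hm : finrank F V = 2 * m) (hk : k ≤ m) :
    Nat.card (HypFrame ω k) =
      ∏ i ∈ Finset.range k, ((Nat.card F ^ (2 * (m - i)) - 1) * Nat.card F ^ (2 * (m - i) - 1)) := by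
  induction k with
  | zero =>
    simp only [Finset.range_zero, Finset.prod_empty]
    rw [Nat.card_eq_one_iff_unique]
    refine ⟨⟨fun a b => Subtype.ext (Subsingleton.elim _ _)⟩,
      ⟨⟨(Fin.elim0, Fin.elim0), fun i => i.elim0, fun i => i.elim0, fun i => i.elim0⟩⟩⟩
  | succ k ih =>
    rw [Finset.prod_range_succ, ← ih (by omega), Nat.card_congr (hypEquiv hω k)]
    exact card_sigma_const _ (fun p => card_ext hω hm (by omega) p.2)

/-- B1. Hyperbolic frames exist. -/
theorem exists_hyp (hω : IsSymp ω) {m k : ℕ} (hm : finrank F V = 2 * m) (hk : k ≤ m) :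
    (HypFrame ω k).Nonempty := by
  have h := card_hyp hω hm hk
  have hq : 1 < Nat.card F := Finite.one_lt_card
  have h2 : 0 < Nat.card (HypFrame ω k) := by
    rw [h]
    apply Finset.prod_pos
    intro i hi
    rw [Finset.mem_range] at hi
    apply Nat.mul_pos
    · have : 1 < Nat.card F ^ (2 * (m - i)) := Nat.one_lt_pow (by omega) hq
      omega
    · exact Nat.pow_pos (by omega)
  have := (Nat.card_pos_iff.1 h2).1
  exact Set.nonempty_coe_sort.1 this

namespace Frames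

lemma prod_bound {x : ℕ} (hx : 9 ≤ x) {m k : ℕ} (hk : k ≤ m) :
    7 * ∏ i ∈ Finset.range k, x ^ (m - i) ≤ 8 * ∏ i ∈ Finset.range k, (x ^ (m - i) - 1) := by
  have key : ∀ k ≤ m, ((8 * (x : ℝ) ^ (m - k) - 1) * ∏ i ∈ Finset.range k, (x : ℝ) ^ (m - i) ≤
      8 * (x : ℝ) ^ (m - k) * ∏ i ∈ Finset.range k, ((x : ℝ) ^ (m - i) - 1)) := by
    intro k
    induction k with
    | zero =>
      intro _
      simp
    | succ k ih =>
      intro hk
      have h := ih (by omega)
      rw [Finset.prod_range_succ, Finset.prod_range_succ]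
      have e : m - k = (m - (k + 1)) + 1 := by omega
      rw [e, pow_succ] at h ⊢
      set y : ℝ := (x : ℝ) ^ (m - (k + 1)) with hy
      have hx9 : (9 : ℝ) ≤ x := by exact_mod_cast hx
      have hy1 : (1 : ℝ) ≤ y := one_le_pow₀ (by linarith)
      set Q : ℝ := ∏ i ∈ Finset.range k, (x : ℝ) ^ (m - i) with hQ
      set P : ℝ := ∏ i ∈ Finset.range k, ((x : ℝ) ^ (m - i) - 1) with hP
      have hQ0 : 0 < Q := Finset.prod_pos (fun i _ => by positivity)
      have hyx : 0 < y * x := by positivity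
      have hyx1 : 1 < y * x := by nlinarith
      have h1 : (8 * (y * x) - 1) * Q * (y * x - 1) ≤ 8 * (y * x) * P * (y * x - 1) :=
        mul_le_mul_of_nonneg_right h (by linarith)
      have h2 : (8 * y - 1) * x * Q * (y * x) ≤ (8 * (y * x) - 1) * Q * (y * x - 1) := by
        have : (8 * y - 1) * x * (y * x) ≤ (8 * (y * x) - 1) * (y * x - 1) := by
          nlinarith
        nlinarith
      have h3 : ((8 * y - 1) * x * Q) * (y * x) ≤ (8 * P * (y * x - 1)) * (y * x) := by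
        calc _ ≤ _ := h2
          _ ≤ _ := h1
          _ = _ := by ring
      have h4 := le_of_mul_le_mul_right h3 hyx
      calc (8 * y - 1) * (Q * (y * x)) = y * ((8 * y - 1) * x * Q) := by ring
        _ ≤ y * (8 * P * (y * x - 1)) := mul_le_mul_of_nonneg_left h4 (by linarith)
        _ = _ := by ring
  have h := key k hk
  set y : ℝ := (x : ℝ) ^ (m - k) with hy
  have hx9 : (9 : ℝ) ≤ x := by exact_mod_cast hx
  have hy1 : (1 : ℝ) ≤ y := one_le_pow₀ (by linarith)
  have hQ0 : 0 < ∏ i ∈ Finset.range k, (x : ℝ) ^ (m - i) :=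
    Finset.prod_pos (fun i _ => by positivity)
  have h2 : y * (7 * ∏ i ∈ Finset.range k, (x : ℝ) ^ (m - i)) ≤
      y * (8 * ∏ i ∈ Finset.range k, ((x : ℝ) ^ (m - i) - 1)) := by
    nlinarith
  have h3 := le_of_mul_le_mul_left h2 (by linarith)
  have h4 : ((7 * ∏ i ∈ Finset.range k, x ^ (m - i) : ℕ) : ℝ) ≤
      ((8 * ∏ i ∈ Finset.range k, (x ^ (m - i) - 1) : ℕ) : ℝ) := by
    push_cast
    refine h3.trans (le_of_eq ?_)
    congr 1
    apply Finset.prod_congr rfl
    intro i _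
    rw [Nat.cast_sub (Nat.one_le_pow _ _ (by omega))]
    push_cast
    rfl
  exact_mod_cast h4

lemma exp_sum {m k : ℕ} (hk : k ≤ m) :
    ∑ i ∈ Finset.range k, (2 * (m - i) + (2 * (m - i) - 1)) = k * (4 * m - 2 * k + 1) := by
  induction k with
  | zero => simp
  | succ k ih =>
    rw [Finset.sum_range_succ, ih (by omega)]
    obtain ⟨d, rfl⟩ := Nat.exists_eq_add_of_le hk
    have e1 : 4 * (k + 1 + d) - 2 * k + 1 = 2 * k + 4 * d + 5 := by omega
    have e2 : 4 * (k + 1 + d) - 2 * (k + 1) + 1 = 2 * k + 4 * d + 3 := by omega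
    have e3 : k + 1 + d - k = d + 1 := by omega
    have e4 : 2 * (d + 1) - 1 = 2 * d + 1 := by omega
    rw [e1, e2, e3, e4]
    ring

lemma card_hyp_upper (hω : IsSymp ω) {m k : ℕ} (hm : finrank F V = 2 * m) (hk : k ≤ m) :
    Nat.card (HypFrame ω k) ≤ Nat.card F ^ (k * (4 * m - 2 * k + 1)) := by
  rw [card_hyp hω hm hk, ← exp_sum hk, ← Finset.prod_pow_eq_pow_sum]
  apply Finset.prod_le_prod'
  intro i _
  rw [pow_add]
  exact Nat.mul_le_mul_right _ (Nat.sub_le _ _)

lemma card_hyp_lower (hω : IsSymp ω) {m k : ℕ} (hm : finrank F V = 2 * m) (hk : k ≤ m)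
    (hq : 3 ≤ Nat.card F) : 7 * Nat.card F ^ (k * (4 * m - 2 * k + 1)) ≤ 8 * Nat.card (HypFrame ω k) := by
  rw [card_hyp hω hm hk, ← exp_sum hk, ← Finset.prod_pow_eq_pow_sum]
  simp only [pow_add]
  rw [Finset.prod_mul_distrib, Finset.prod_mul_distrib, ← mul_assoc, ← mul_assoc]
  apply Nat.mul_le_mul_right
  simp only [pow_mul]
  exact prod_bound (by nlinarith) hk

end Frames

/-- B3. Upper bound for the number of hyperbolic frames. -/
theorem card_hyp_le (hω : IsSymp ω) {m : ℕ} (hm : finrank F V = 2 * m) :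
    Nat.card (HypFrame ω m) ≤ Nat.card F ^ (m * (2 * m + 1)) := by
  have := card_hyp_upper hω hm le_rfl
  have e : 4 * m - 2 * m + 1 = 2 * m + 1 := by omega
  rwa [e] at this

namespace Frames

section orbit

variable {ι : Type*} [Finite ι]

/-- Families with the same Gram matrix as `u`. -/
def Same (ω : LinearMap.BilinForm F V) (u : ι → V) : Set (ι → V) :=
  {w | LinearIndependent F w ∧ ∀ i j, ω (w i) (w j) = ω (u i) (u j)}

lemma card_fibre (hω : IsSymp ω) {u : ι → V} (hu : LinearIndependent F u) {w : ι → V}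
    (hw : w ∈ Same ω u) :
    Nat.card {g : Sp ω // ∀ i, g.1 (u i) = w i} = Nat.card {g : Sp ω // ∀ i, g.1 (u i) = u i} := by
  obtain ⟨h, hh, hhw⟩ := witt hω u w hu hw.1 (fun i j => (hw.2 i j).symm)
  let h' : Sp ω := ⟨h, hh⟩
  have e : {g : Sp ω // ∀ i, g.1 (u i) = u i} ≃ {g : Sp ω // ∀ i, g.1 (u i) = w i} :=
    { toFun := fun g => ⟨h' * g.1, fun i => by
        rw [Subgroup.coe_mul, LinearEquiv.mul_apply, g.2 i]
        exact hhw i⟩
      invFun := fun g => ⟨h'⁻¹ * g.1, fun i => by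
        rw [Subgroup.coe_mul, LinearEquiv.mul_apply, g.2 i, ← hhw i, ← LinearEquiv.mul_apply,
          Subgroup.coe_inv, inv_mul_cancel]
        rfl⟩
      left_inv := fun g => Subtype.ext (inv_mul_cancel_left _ _)
      right_inv := fun g => Subtype.ext (mul_inv_cancel_left _ _) }
  exact (Nat.card_congr e).symm

omit [Finite F] [Finite V] [Finite ι] in
lemma map_same {u : ι → V} (hu : LinearIndependent F u) (g : Sp ω) :
    (fun i => g.1 (u i)) ∈ Same ω u :=
  ⟨hu.map' (g.1 : V →ₗ[F] V) (LinearEquiv.ker g.1), fun i j => g.2 (u i) (u j)⟩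

instance : Finite (V ≃ₗ[F] V) :=
  Finite.of_injective (fun g : V ≃ₗ[F] V => (g : V → V)) DFunLike.coe_injective

instance : Finite (Sp ω) := Subtype.finite

lemma card_orbit (hω : IsSymp ω) {u : ι → V} (hu : LinearIndependent F u) :
    Nat.card (Sp ω) = Nat.card (Same ω u) * Nat.card {g : Sp ω // ∀ i, g.1 (u i) = u i} := by
  have e : Sp ω ≃ Σ w : Same ω u, {g : Sp ω // ∀ i, g.1 (u i) = w.1 i} :=
    { toFun := fun g => ⟨⟨fun i => g.1 (u i), map_same hu g⟩, ⟨g, fun i => rfl⟩⟩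
      invFun := fun x => x.2.1
      left_inv := fun g => rfl
      right_inv := by
        rintro ⟨⟨w, hw⟩, ⟨g, hg⟩⟩
        have : w = fun i => g.1 (u i) := funext fun i => (hg i).symm
        subst this
        rfl }
  rw [Nat.card_congr e]
  exact card_sigma_const _ (fun w => card_fibre hω hu w.2)

lemma card_map_le (hω : IsSymp ω) {u : ι → V} (hu : LinearIndependent F u)
    (U₁ U₂ : Submodule F V) (hU : ∀ i, u i ∈ U₂) :
    Nat.card {g : Sp ω // U₂.map (g.1 : V →ₗ[F] V) = U₁} * Nat.card (Same ω u) ≤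
      Nat.card {w : Same ω u // ∀ i, w.1 i ∈ U₁} * Nat.card (Sp ω) := by
  have h1 : Nat.card {g : Sp ω // U₂.map (g.1 : V →ₗ[F] V) = U₁} ≤
      Nat.card (Σ w : {w : Same ω u // ∀ i, w.1 i ∈ U₁},
        {g : Sp ω // ∀ i, g.1 (u i) = w.1.1 i}) := by
    let φ : {g : Sp ω // U₂.map (g.1 : V →ₗ[F] V) = U₁} →
      (Σ w : {w : Same ω u // ∀ i, w.1 i ∈ U₁}, {g : Sp ω // ∀ i, g.1 (u i) = w.1.1 i}) :=
      fun g => ⟨⟨⟨fun i => g.1.1 (u i), map_same hu g.1⟩, fun i => by
        have := Submodule.mem_map_of_mem (f := (g.1.1 : V →ₗ[F] V)) (hU i)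
        rw [g.2] at this
        exact this⟩, ⟨g.1, fun i => rfl⟩⟩
    apply Nat.card_le_card_of_injective φ
    intro g g' h
    apply Subtype.ext
    exact congrArg (fun x => x.2.1) h
  rw [card_sigma_const _ (fun w => card_fibre hω hu w.1.2)] at h1
  calc _ ≤ _ := Nat.mul_le_mul_right _ h1
    _ = _ := by rw [card_orbit hω hu]; ring

end orbit

omit [Finite F] [Finite V] in
lemma hyp_same (hω : IsSymp ω) {k : ℕ} {p p' : (Fin k → V) × (Fin k → V)}
    (hp : p ∈ HypFrame ω k) (hp' : p' ∈ HypFrame ω k) :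
    Sum.elim p'.1 p'.2 ∈ Same ω (Sum.elim p.1 p.2) := by
  refine ⟨indep_sum hω hp', ?_⟩
  have h4 : ∀ {p : (Fin k → V) × (Fin k → V)}, p ∈ HypFrame ω k → ∀ i j,
      ω (p.2 i) (p.1 j) = if i = j then -1 else 0 := by
    intro p hp i j
    rw [swap hω, hp.2.2]
    by_cases h : i = j
    · simp [h]
    · simp [h, Ne.symm h]
  rintro (i | i) (j | j)
  · simp [hp.1, hp'.1]
  · simp [hp.2.2, hp'.2.2]
  · simp [h4 hp, h4 hp']
  · simp [hp.2.1, hp'.2.1]

omit [Finite F] in
lemma card_hyp_le_same (hω : IsSymp ω) {k : ℕ} {p : (Fin k → V) × (Fin k → V)}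
    (hp : p ∈ HypFrame ω k) :
    Nat.card (HypFrame ω k) ≤ Nat.card (Same ω (Sum.elim p.1 p.2)) := by
  apply Nat.card_le_card_of_injective
    (fun p' : HypFrame ω k => (⟨Sum.elim p'.1.1 p'.1.2, hyp_same hω hp p'.2⟩ :
      Same ω (Sum.elim p.1 p.2)))
  rintro ⟨⟨a, b⟩, h⟩ ⟨⟨a', b'⟩, h'⟩ heq
  have := congrArg Subtype.val heq
  simp only at this
  have h1 : a = a' := funext fun i => congrFun this (Sum.inl i)
  have h2 : b = b' := funext fun i => congrFun this (Sum.inr i)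
  subst h1 h2
  rfl

lemma card_Sp_ge_hyp (hω : IsSymp ω) {m : ℕ} (hm : finrank F V = 2 * m) :
    Nat.card (HypFrame ω m) ≤ Nat.card (Sp ω) := by
  obtain ⟨p, hp⟩ := exists_hyp hω hm le_rfl
  refine (card_hyp_le_same hω hp).trans ?_
  rw [card_orbit hω (indep_sum hω hp)]
  apply Nat.le_mul_of_pos_right
  rw [Nat.card_pos_iff]
  exact ⟨⟨⟨1, fun i => rfl⟩⟩, inferInstance⟩

end Frames

/-- B5. Lower bound for the order of the symplectic group. -/
theorem card_Sp_ge (hω : IsSymp ω) {m : ℕ} (hm : finrank F V = 2 * m)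
    (hq : 3 ≤ Nat.card F) : 7 * Nat.card F ^ (2 * m ^ 2 + m) ≤ 8 * Nat.card (Sp ω) := by
  have h1 := card_hyp_lower hω hm le_rfl hq
  have h2 := card_Sp_ge_hyp hω hm
  have e : m * (4 * m - 2 * m + 1) = 2 * m ^ 2 + m := by
    have : 4 * m - 2 * m + 1 = 2 * m + 1 := by omega
    rw [this]; ring
  rw [e] at h1
  omega

namespace Frames

lemma card_sigma_ge {A : Type*} [Finite A] {B : A → Type*} [∀ a, Finite (B a)] (N : ℕ)
    (h : ∀ a, N ≤ Nat.card (B a)) : Nat.card A * N ≤ Nat.card (Σ a, B a) := by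
  have := Fintype.ofFinite A
  rw [Nat.card_sigma, Nat.card_eq_fintype_card, ← smul_eq_mul, ← Finset.card_univ,
    ← Finset.sum_const]
  exact Finset.sum_le_sum (fun a _ => h a)

/-- Totally isotropic frames. -/
def TIF (ω : LinearMap.BilinForm F V) (k : ℕ) : Type _ :=
  {w : Fin k → V // LinearIndependent F w ∧ ∀ i j, ω (w i) (w j) = 0}

instance (k : ℕ) : Finite (TIF ω k) := by
  unfold TIF; infer_instance

lemma card_tif_ext (hω : IsSymp ω) {k : ℕ} (w : TIF ω k) :
    Nat.card F ^ (finrank F V - k) - Nat.card F ^ k ≤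
      Nat.card {y : V // (∀ i, ω (w.1 i) y = 0) ∧ y ∉ Submodule.span F (Set.range w.1)} := by
  have c0 := card_solutions hω w.1 w.2.1 (fun _ => 0)
  rw [Fintype.card_fin] at c0
  have c1 : Nat.card (Submodule.span F (Set.range w.1)) = Nat.card F ^ k := by
    rw [Module.natCard_eq_pow_finrank (K := F), finrank_span_eq_card w.2.1, Fintype.card_fin]
  rw [← c0, ← c1]
  exact Set.le_ncard_sdiff ((Submodule.span F (Set.range w.1)) : Set V)
    {y : V | ∀ i, ω (w.1 i) y = 0} (Set.toFinite _)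

lemma card_tif_succ (hω : IsSymp ω) (k : ℕ) :
    Nat.card (TIF ω k) * (Nat.card F ^ (finrank F V - k) - Nat.card F ^ k) ≤ Nat.card (TIF ω (k + 1)) := by
  refine (card_sigma_ge (B := fun w : TIF ω k =>
    {y : V // (∀ i, ω (w.1 i) y = 0) ∧ y ∉ Submodule.span F (Set.range w.1)}) _
    (fun w => card_tif_ext hω w)).trans ?_
  let φ : (Σ w : TIF ω k, {y : V // (∀ i, ω (w.1 i) y = 0) ∧
      y ∉ Submodule.span F (Set.range w.1)}) → TIF ω (k + 1) :=
    fun x => ⟨Fin.cons x.2.1 x.1.1, linearIndependent_finCons.2 ⟨x.1.2.1, x.2.2.2⟩, by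
      have h1 := x.1.2.2
      have h2 := x.2.2.1
      simp only [Fin.forall_fin_succ, Fin.cons_zero, Fin.cons_succ, hω.alt, true_and]
      refine ⟨fun i => ?_, fun i => ⟨h2 i, fun j => h1 i j⟩⟩
      rw [swap hω, h2, neg_zero]⟩
  apply Nat.card_le_card_of_injective φ
  rintro ⟨⟨w, hw⟩, ⟨y, hy⟩⟩ ⟨⟨w', hw'⟩, ⟨y', hy'⟩⟩ h
  have h0 := congrArg Subtype.val h
  have h1 : y = y' := congrFun h0 0
  have h2 : w = w' := funext fun i => congrFun h0 i.succ
  subst h1 h2
  rfl

end Frames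

/-- B4. Number of totally isotropic frames (lower bound). -/
theorem card_ti_frames (hω : IsSymp ω) {m k : ℕ} (hm : finrank F V = 2 * m) (hk : k ≤ m) :
    ∏ i ∈ Finset.range k, (Nat.card F ^ (2 * m - i) - Nat.card F ^ i) ≤
      Nat.card {w : Fin k → V // LinearIndependent F w ∧ ∀ i j, ω (w i) (w j) = 0} := by
  change _ ≤ Nat.card (TIF ω k)
  clear hk
  induction k with
  | zero =>
    simp only [Finset.range_zero, Finset.prod_empty]
    rw [Nat.one_le_iff_ne_zero, ← Nat.pos_iff_ne_zero, Nat.card_pos_iff]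
    exact ⟨⟨⟨Fin.elim0, linearIndependent_empty_type, fun i => i.elim0⟩⟩, inferInstance⟩
  | succ k ih =>
    rw [Finset.prod_range_succ]
    refine (Nat.mul_le_mul_right _ ih).trans ?_
    rw [← hm]
    exact card_tif_succ hω k

namespace Frames

lemma card_tif_lower (hω : IsSymp ω) {m d : ℕ} (hm : finrank F V = 2 * m) (hd : d ≤ m)
    (hq : 3 ≤ Nat.card F) : 7 * Nat.card F ^ (2 * m * d) ≤ 8 * Nat.card (TIF ω d) * Nat.card F ^ (d * (d - 1) / 2) := by
  have h1 := card_ti_frames hω hm hd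
  have h2 : ∏ i ∈ Finset.range d, (Nat.card F ^ (2 * m - i) - Nat.card F ^ i) =
      (∏ i ∈ Finset.range d, Nat.card F ^ i) * ∏ i ∈ Finset.range d, ((Nat.card F ^ 2) ^ (m - i) - 1) := by
    rw [← Finset.prod_mul_distrib]
    apply Finset.prod_congr rfl
    intro i hi
    rw [Finset.mem_range] at hi
    rw [Nat.mul_sub, mul_one, ← pow_mul, ← pow_add]
    congr 2
    omega
  have h3 := prod_bound (x := Nat.card F ^ 2) (by nlinarith) hd
  have h4 : (∏ i ∈ Finset.range d, Nat.card F ^ i) * (∏ i ∈ Finset.range d, (Nat.card F ^ 2) ^ (m - i)) *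
      Nat.card F ^ (d * (d - 1) / 2) = Nat.card F ^ (2 * m * d) := by
    rw [← Finset.sum_range_id d, ← Finset.prod_pow_eq_pow_sum, ← Finset.prod_mul_distrib,
      ← Finset.prod_mul_distrib]
    have : ∀ i ∈ Finset.range d, Nat.card F ^ i * (Nat.card F ^ 2) ^ (m - i) * Nat.card F ^ i = Nat.card F ^ (2 * m) := by
      intro i hi
      rw [Finset.mem_range] at hi
      rw [← pow_mul, ← pow_add, ← pow_add]
      congr 1
      omega
    rw [Finset.prod_congr rfl this, Finset.prod_const, Finset.card_range, ← pow_mul]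
  rw [← h4]
  calc 7 * ((∏ i ∈ Finset.range d, Nat.card F ^ i) * (∏ i ∈ Finset.range d, (Nat.card F ^ 2) ^ (m - i)) *
      Nat.card F ^ (d * (d - 1) / 2)) = (∏ i ∈ Finset.range d, Nat.card F ^ i) *
        (7 * ∏ i ∈ Finset.range d, (Nat.card F ^ 2) ^ (m - i)) * Nat.card F ^ (d * (d - 1) / 2) := by ring
    _ ≤ (∏ i ∈ Finset.range d, Nat.card F ^ i) *
        (8 * ∏ i ∈ Finset.range d, ((Nat.card F ^ 2) ^ (m - i) - 1)) * Nat.card F ^ (d * (d - 1) / 2) := by
      apply Nat.mul_le_mul_right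
      exact Nat.mul_le_mul_left _ h3
    _ = 8 * (∏ i ∈ Finset.range d, (Nat.card F ^ (2 * m - i) - Nat.card F ^ i)) * Nat.card F ^ (d * (d - 1) / 2) := by
      rw [h2]; ring
    _ ≤ _ := by
      apply Nat.mul_le_mul_right
      exact Nat.mul_le_mul_left _ h1

lemma ti_le (hω : IsSymp ω) {m d : ℕ} (hm : finrank F V = 2 * m) {U : Submodule F V}
    (h : finrank F U = d) (t : TI ω U) : d ≤ m := by
  let b : Basis (Fin d) F U := finBasisOfFinrankEq F U h
  have hb : LinearIndependent F (fun i => (b i : V)) :=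
    b.linearIndependent.map' U.subtype (Submodule.ker_subtype U)
  have c0 := card_solutions hω (fun i => (b i : V)) hb (fun _ => 0)
  rw [Fintype.card_fin, hm] at c0
  have c1 : Nat.card U = Nat.card F ^ d := by
    rw [Module.natCard_eq_pow_finrank (K := F), h]
  have c2 : Nat.card U ≤ Nat.card {y : V // ∀ i, ω (b i : V) y = 0} := by
    apply Nat.card_le_card_of_injective
      (fun x : U => (⟨x.1, fun i => t _ (b i).2 _ x.2⟩ : {y : V // ∀ i, ω (b i : V) y = 0}))
    intro x y hxy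
    exact Subtype.ext (congrArg (fun z : {y : V // ∀ i, ω (b i : V) y = 0} => z.1) hxy)
  rw [c0, c1] at c2
  have hq : 1 < Nat.card F := Finite.one_lt_card
  have := (Nat.pow_le_pow_iff_right hq).1 c2
  omega

end Frames

/-- B6. Number of symplectic maps sending a totally isotropic subspace to another one. -/
theorem card_map_ti (hω : IsSymp ω) {m d : ℕ} (hm : finrank F V = 2 * m) (hq : 3 ≤ Nat.card F)
    (U₁ U₂ : Submodule F V) (h1 : finrank F U₁ = d) (h2 : finrank F U₂ = d)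
    (t1 : TI ω U₁) (t2 : TI ω U₂) :
    7 * Nat.card {g : Sp ω // U₂.map (g.1 : V →ₗ[F] V) = U₁} * Nat.card F ^ (2 * m * d) ≤
      8 * Nat.card (Sp ω) * Nat.card F ^ (d ^ 2 + d * (d - 1) / 2) := by
  let b : Basis (Fin d) F U₂ := finBasisOfFinrankEq F U₂ h2
  have hb : LinearIndependent F (fun i => (b i : V)) :=
    b.linearIndependent.map' U₂.subtype (Submodule.ker_subtype U₂)
  have k1 := card_map_le hω hb U₁ U₂ (fun i => (b i).2)
  have k2 : Nat.card (TIF ω d) = Nat.card (Same ω (fun i => (b i : V))) := by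
    apply Nat.card_congr
    apply Equiv.subtypeEquivRight
    intro w
    have : ∀ i j, ω (b i : V) (b j : V) = 0 := fun i j => t2 _ (b i).2 _ (b j).2
    exact ⟨fun h => ⟨h.1, fun i j => (h.2 i j).trans (this i j).symm⟩,
      fun h => ⟨h.1, fun i j => (h.2 i j).trans (this i j)⟩⟩
  have k3 : Nat.card {w : Same ω (fun i => (b i : V)) // ∀ i, w.1 i ∈ U₁} ≤ Nat.card F ^ (d ^ 2) := by
    have : Nat.card (Fin d → U₁) = Nat.card F ^ (d ^ 2) := by
      rw [Nat.card_fun, Module.natCard_eq_pow_finrank (K := F), h1, Nat.card_fin, ← pow_mul, sq]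
    rw [← this]
    apply Nat.card_le_card_of_injective
      (fun w : {w : Same ω (fun i => (b i : V)) // ∀ i, w.1 i ∈ U₁} =>
        (fun i => (⟨w.1.1 i, w.2 i⟩ : U₁)))
    intro w w' h
    apply Subtype.ext
    apply Subtype.ext
    funext i
    exact congrArg Subtype.val (congrFun h i)
  have k4 := card_tif_lower hω hm (ti_le hω hm h1 t1) hq
  rw [k2] at k4
  set G := Nat.card {g : Sp ω // U₂.map (g.1 : V →ₗ[F] V) = U₁}
  set T := Nat.card (Same ω (fun i => (b i : V)))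
  calc 7 * G * Nat.card F ^ (2 * m * d) = G * (7 * Nat.card F ^ (2 * m * d)) := by ring
    _ ≤ G * (8 * T * Nat.card F ^ (d * (d - 1) / 2)) := Nat.mul_le_mul_left _ k4
    _ = 8 * Nat.card F ^ (d * (d - 1) / 2) * (G * T) := by ring
    _ ≤ 8 * Nat.card F ^ (d * (d - 1) / 2) * (Nat.card F ^ (d ^ 2) * Nat.card (Sp ω)) := by
      apply Nat.mul_le_mul_left
      exact k1.trans (Nat.mul_le_mul_right _ k3)
    _ = _ := by rw [pow_add]; ring

/-- B7. The same with nondegenerate subspaces. -/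
theorem card_map_nd (hω : IsSymp ω) {m k : ℕ} (hm : finrank F V = 2 * m) (hq : 3 ≤ Nat.card F)
    (U₁ U₂ : Submodule F V) (h1 : finrank F U₁ = 2 * k) (h2 : finrank F U₂ = 2 * k)
    (t1 : ND ω U₁) (t2 : ND ω U₂) :
    7 * Nat.card {g : Sp ω // U₂.map (g.1 : V →ₗ[F] V) = U₁} * Nat.card F ^ (4 * m * k) ≤
      8 * Nat.card (Sp ω) * Nat.card F ^ (4 * k ^ 2) := by
  have hS1 : IsSymp (ω.restrict U₁) := ⟨fun x => hω.alt x.1, fun x hx => by
    apply Subtype.ext
    exact t1 x.1 x.2 (fun y hy => hx ⟨y, hy⟩)⟩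
  have hS2 : IsSymp (ω.restrict U₂) := ⟨fun x => hω.alt x.1, fun x hx => by
    apply Subtype.ext
    exact t2 x.1 x.2 (fun y hy => hx ⟨y, hy⟩)⟩
  obtain ⟨p', hp'⟩ := exists_hyp hS2 h2 le_rfl
  let p : (Fin k → V) × (Fin k → V) := (fun i => (p'.1 i : V), fun i => (p'.2 i : V))
  have hp : p ∈ HypFrame ω k := ⟨hp'.1, hp'.2.1, hp'.2.2⟩
  have hkm : k ≤ m := by
    have := Submodule.finrank_le U₁
    omega
  have k1 := card_map_le hω (indep_sum hω hp) U₁ U₂ (by
    rintro (i | i)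
    · exact (p'.1 i).2
    · exact (p'.2 i).2)
  have k2 := card_hyp_le_same hω hp
  have k3 : Nat.card {w : Same ω (Sum.elim p.1 p.2) // ∀ i, w.1 i ∈ U₁} ≤
      Nat.card F ^ (k * (2 * k + 1)) := by
    refine le_trans ?_ (card_hyp_le hS1 h1)
    apply Nat.card_le_card_of_injective
      (fun w : {w : Same ω (Sum.elim p.1 p.2) // ∀ i, w.1 i ∈ U₁} =>
        (⟨(fun i => (⟨w.1.1 (Sum.inl i), w.2 (Sum.inl i)⟩ : U₁),
          fun i => (⟨w.1.1 (Sum.inr i), w.2 (Sum.inr i)⟩ : U₁)), by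
          refine ⟨fun i j => ?_, fun i j => ?_, fun i j => ?_⟩
          · exact (w.1.2.2 (Sum.inl i) (Sum.inl j)).trans (hp.1 i j)
          · exact (w.1.2.2 (Sum.inr i) (Sum.inr j)).trans (hp.2.1 i j)
          · exact (w.1.2.2 (Sum.inl i) (Sum.inr j)).trans (hp.2.2 i j)⟩ :
          HypFrame (ω.restrict U₁) k))
    intro w w' h
    apply Subtype.ext
    apply Subtype.ext
    have h0 := congrArg Subtype.val h
    funext i
    rcases i with i | i
    · exact congrArg Subtype.val (congrFun (congrArg Prod.fst h0) i)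
    · exact congrArg Subtype.val (congrFun (congrArg Prod.snd h0) i)
  have k4 := card_hyp_lower hω hm hkm hq
  set G := Nat.card {g : Sp ω // U₂.map (g.1 : V →ₗ[F] V) = U₁}
  set T := Nat.card (Same ω (Sum.elim p.1 p.2))
  have e1 : k * (4 * m - 2 * k + 1) + k * (2 * k - 1) = 4 * m * k := by
    rcases Nat.eq_zero_or_pos k with rfl | hk
    · simp
    · rw [← Nat.mul_add]
      have : 4 * m - 2 * k + 1 + (2 * k - 1) = 4 * m := by omega
      rw [this]; ring
  have e2 : k * (2 * k + 1) + k * (2 * k - 1) = 4 * k ^ 2 := by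
    rcases Nat.eq_zero_or_pos k with rfl | hk
    · simp
    · rw [← Nat.mul_add]
      have : 2 * k + 1 + (2 * k - 1) = 4 * k := by omega
      rw [this]; ring
  rw [← e1, ← e2]
  calc 7 * G * Nat.card F ^ (k * (4 * m - 2 * k + 1) + k * (2 * k - 1)) =
      G * Nat.card F ^ (k * (2 * k - 1)) * (7 * Nat.card F ^ (k * (4 * m - 2 * k + 1))) := by rw [pow_add]; ring
    _ ≤ G * Nat.card F ^ (k * (2 * k - 1)) * (8 * T) :=
      Nat.mul_le_mul_left _ (k4.trans (Nat.mul_le_mul_left _ k2))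
    _ = 8 * Nat.card F ^ (k * (2 * k - 1)) * (G * T) := by ring
    _ ≤ 8 * Nat.card F ^ (k * (2 * k - 1)) * (Nat.card F ^ (k * (2 * k + 1)) * Nat.card (Sp ω)) := by
      apply Nat.mul_le_mul_left
      exact k1.trans (Nat.mul_le_mul_right _ k3)
    _ = _ := by rw [pow_add]; ring

end Pool.Agent.UD
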