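import Mathlib

/-!
# Abstract Galois descent for an extension of prime degree (block G, MP_65787c_al)
-/

open Module

namespace Pool.Agent.UD.GAbs

section Fixed

variable {F K : Type*} [Field F] [Field K] [Algebra F K]

/-- Elements fixed by a nontrivial automorphism of a prime degree extension are in the base. -/
theorem fixed_mem (hp : (finrank F K).Prime) (σ : K ≃ₐ[F] K) (hσ : σ ≠ 1) (a : K)
    (ha : σ a = a) : ∃ c : F, algebraMap F K c = a := by
  have hs := IntermediateField.isSimpleOrder_of_finrank_prime F K hp
  let E : IntermediateField F K := IntermediateField.fixedField (Subgroup.zpowers σ)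
  have hE : ∀ y : K, y ∈ E ↔ σ y = y := by
    intro y
    constructor
    · intro hy
      exact hy ⟨σ, Subgroup.mem_zpowers σ⟩
    · intro hy
      rintro ⟨τ, hτ⟩
      obtain ⟨n, rfl⟩ := Subgroup.mem_zpowers_iff.mp hτ
      change (σ ^ n) y = y
      have h1 : ∀ m : ℕ, (σ ^ m) y = y := by
        intro m
        induction m with
        | zero => simp
        | succ m ih =>
          rw [pow_succ, AlgEquiv.mul_apply, hy, ih]
      have h2 : (σ⁻¹) y = y := by
        have := congrArg (σ⁻¹ : K ≃ₐ[F] K) hy
        rw [← AlgEquiv.mul_apply, inv_mul_cancel, AlgEquiv.one_apply] at this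
        exact this.symm
      have h3 : ∀ m : ℕ, ((σ⁻¹) ^ m) y = y := by
        intro m
        induction m with
        | zero => simp
        | succ m ih =>
          rw [pow_succ, AlgEquiv.mul_apply, h2, ih]
      cases n with
      | ofNat m => simpa using h1 m
      | negSucc m =>
        rw [zpow_negSucc, ← inv_pow]
        exact h3 (m + 1)
  rcases hs.eq_bot_or_eq_top E with h | h
  · have : a ∈ E := (hE a).mpr ha
    rw [h, IntermediateField.mem_bot] at this
    exact this
  · exfalso
    apply hσ
    ext y
    have : y ∈ E := by rw [h]; exact IntermediateField.mem_top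
    exact (hE y).mp this

end Fixed

section Descent

variable {F K V : Type*} [Field F] [Field K] [Algebra F K] [FiniteDimensional F K]
  [AddCommGroup V] [Module F V] [Module K V] [IsScalarTower F K V]

omit [FiniteDimensional F K] in
/-- `F`-independent fixed vectors are `K`-independent. -/
theorem indep_of_fixed (hp : (finrank F K).Prime) (σ : K ≃ₐ[F] K) (hσ : σ ≠ 1)
    (x : V ≃ₗ[F] V) (hx : ∀ (a : K) (v : V), x (a • v) = σ a • x v)
    {ι : Type*} (v : ι → V) (hv : ∀ i, x (v i) = v i) (hl : LinearIndependent F v) :
    LinearIndependent K v := by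
  classical
  rw [linearIndependent_iff']
  intro s
  induction s using Finset.induction_on with
  | empty => intro g _ i hi; simp at hi
  | insert j s hj ih =>
    intro g hg
    by_cases hgj : g j = 0
    · rw [Finset.sum_insert hj, hgj, zero_smul, zero_add] at hg
      intro i hi
      rcases Finset.mem_insert.mp hi with h | h
      · rw [h, hgj]
      · exact ih g hg i h
    · exfalso
      set h : ι → K := fun i => (g j)⁻¹ * g i with hh
      have h1 : v j + ∑ i ∈ s, h i • v i = 0 := by
        have := congrArg (fun w => (g j)⁻¹ • w) hg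
        simp only [Finset.sum_insert hj, smul_add, smul_smul, inv_mul_cancel₀ hgj, one_smul,
          Finset.smul_sum, smul_zero] at this
        exact this
      have h2 : v j + ∑ i ∈ s, σ (h i) • v i = 0 := by
        have := congrArg x h1
        simp only [map_add, map_sum, hx, hv, map_zero] at this
        exact this
      have h3 : ∑ i ∈ s, (σ (h i) - h i) • v i = 0 := by
        simp only [sub_smul, Finset.sum_sub_distrib]
        have e1 : ∑ i ∈ s, h i • v i = - v j := by
          rw [eq_neg_iff_add_eq_zero, add_comm]; exact h1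
        have e2 : ∑ i ∈ s, σ (h i) • v i = - v j := by
          rw [eq_neg_iff_add_eq_zero, add_comm]; exact h2
        rw [e1, e2, sub_self]
      have h4 := ih _ h3
      have h5 : ∀ i ∈ s, ∃ c : F, algebraMap F K c = h i := fun i hi =>
        fixed_mem hp σ hσ _ (sub_eq_zero.mp (h4 i hi))
      choose! c hc using h5
      have h6 : ∑ i ∈ insert j s, (if i = j then 1 else c i) • v i = 0 := by
        rw [Finset.sum_insert hj]
        simp only [if_true, one_smul]
        have : ∑ i ∈ s, (if i = j then (1 : F) else c i) • v i = ∑ i ∈ s, h i • v i := by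
          apply Finset.sum_congr rfl
          intro i hi
          have hij : i ≠ j := fun e => hj (e ▸ hi)
          rw [if_neg hij, ← hc i hi, algebraMap_smul]
        rw [this]
        exact h1
      have h7 := (linearIndependent_iff'.mp hl) (insert j s) _ h6 j (Finset.mem_insert_self j s)
      simp at h7

omit [FiniteDimensional F K] [IsScalarTower F K V] in
/-- The fixed vectors span `V` over `K`. -/
theorem span_fixed (t : ℕ) (ht : 0 < t) (σ : K ≃ₐ[F] K)
    (hinj : ∀ i < t, ∀ j < t, σ ^ i = σ ^ j → i = j)
    (x : V ≃ₗ[F] V) (hxt : x ^ t = 1) (hx : ∀ (a : K) (v : V), x (a • v) = σ a • x v) :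
    Submodule.span K {v : V | x v = v} = ⊤ := by
  by_contra hne
  obtain ⟨φ, hφ0, hφ⟩ := Submodule.exists_le_ker_of_lt_top _ (lt_top_iff_ne_top.mpr hne)
  apply hφ0
  have hxpow : ∀ (j : ℕ) (a : K) (v : V), (x ^ j) (a • v) = (σ ^ j) a • (x ^ j) v := by
    intro j
    induction j with
    | zero => intro a v; simp
    | succ j ih =>
      intro a v
      rw [pow_succ', LinearEquiv.mul_apply, ih, hx, ← LinearEquiv.mul_apply, ← pow_succ',
        pow_succ' σ, AlgEquiv.mul_apply]
  ext v
  have hT : ∀ a : K, ∑ j ∈ Finset.range t, (σ ^ j) a * φ ((x ^ j) v) = 0 := by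
    intro a
    have hw : x (∑ j ∈ Finset.range t, (x ^ j) (a • v)) =
        ∑ j ∈ Finset.range t, (x ^ j) (a • v) := by
      rw [map_sum]
      have e1 : ∀ j, x ((x ^ j) (a • v)) = (x ^ (j + 1)) (a • v) := by
        intro j
        rw [pow_succ', LinearEquiv.mul_apply]
      simp only [e1]
      have e2 := Finset.sum_range_succ' (fun j => (x ^ j) (a • v)) t
      have e3 := Finset.sum_range_succ (fun j => (x ^ j) (a • v)) t
      rw [e3] at e2
      simp only [hxt, pow_zero, LinearEquiv.coe_one, id] at e2
      exact (add_right_cancel e2).symm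
    have hmem : (∑ j ∈ Finset.range t, (x ^ j) (a • v)) ∈ LinearMap.ker φ :=
      hφ (Submodule.subset_span hw)
    rw [LinearMap.mem_ker, map_sum] at hmem
    rw [← hmem]
    apply Finset.sum_congr rfl
    intro j _
    rw [hxpow, map_smul, smul_eq_mul]
  have hli := linearIndependent_monoidHom K K
  let ψ : Fin t → (K →* K) := fun j => ((σ ^ (j : ℕ) : K ≃ₐ[F] K) : K →* K)
  have hψ : Function.Injective ψ := by
    intro i j hij
    apply Fin.ext
    apply hinj i i.2 j j.2
    ext a
    exact congrArg (fun f : K →* K => f a) hij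
  have hli2 := hli.comp ψ hψ
  have h0 := (Fintype.linearIndependent_iff.mp hli2) (fun j => φ ((x ^ (j : ℕ)) v)) (by
    funext a
    simp only [Function.comp, Finset.sum_apply, Pi.smul_apply, smul_eq_mul, Pi.zero_apply]
    have := hT a
    rw [← Fin.sum_univ_eq_sum_range (fun j => (σ ^ j) a * φ ((x ^ j) v)) t] at this
    rw [← this]
    apply Finset.sum_congr rfl
    intro j _
    rw [mul_comm]
    rfl)
  have := h0 ⟨0, ht⟩
  simpa using this

/-- Descent. -/
theorem descent [FiniteDimensional F V] (hp : (finrank F K).Prime) (σ : K ≃ₐ[F] K) (hσ : σ ≠ 1)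
    (hinj : ∀ i < finrank F K, ∀ j < finrank F K, σ ^ i = σ ^ j → i = j)
    (x : V ≃ₗ[F] V) (hxt : x ^ (finrank F K) = 1)
    (hx : ∀ (a : K) (v : V), x (a • v) = σ a • x v)
    {n : ℕ} (hn : finrank F V = finrank F K * n) :
    ∃ v : Fin n → V, (∀ i, x (v i) = v i) ∧ LinearIndependent K v ∧
      ⊤ ≤ Submodule.span K (Set.range v) ∧
      ∀ y, x y = y → y ∈ Submodule.span F (Set.range v) := by
  have : FiniteDimensional K V := FiniteDimensional.right F K V
  let W : Submodule F V := LinearMap.ker ((x : V →ₗ[F] V) - LinearMap.id)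
  have hW : ∀ y, y ∈ W ↔ x y = y := by
    intro y
    simp only [W, LinearMap.mem_ker, LinearMap.sub_apply, LinearMap.id_apply, sub_eq_zero]
    rfl
  let b := Module.finBasis F W
  let v0 : Fin (finrank F W) → V := fun i => (b i : V)
  have hv0 : ∀ i, x (v0 i) = v0 i := fun i => (hW _).mp (b i).2
  have hl0 : LinearIndependent F v0 := b.linearIndependent.map' W.subtype (by simp)
  have hl : LinearIndependent K v0 := indep_of_fixed hp σ hσ x hx v0 hv0 hl0
  have hmem : ∀ y, x y = y → y ∈ Submodule.span F (Set.range v0) := by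
    intro y hy
    have h1 : (⟨y, (hW y).mpr hy⟩ : W) ∈ Submodule.span F (Set.range b) := by
      rw [b.span_eq]; trivial
    have h2 := Submodule.mem_map_of_mem (f := W.subtype) h1
    rw [Submodule.map_span, ← Set.range_comp] at h2
    exact h2
  have hspan : ⊤ ≤ Submodule.span K (Set.range v0) := by
    rw [← span_fixed (finrank F K) hp.pos σ hinj x hxt hx, Submodule.span_le]
    intro y hy
    have h1 := hmem y hy
    exact Submodule.span_subset_span F K _ h1
  let B : Basis (Fin (finrank F W)) K V := Basis.mk hl hspan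
  have hdim : finrank K V = finrank F W := by
    rw [finrank_eq_card_basis B, Fintype.card_fin]
  have hmul := Module.finrank_mul_finrank F K V
  rw [hn, hdim] at hmul
  have hnW : finrank F W = n := Nat.eq_of_mul_eq_mul_left hp.pos hmul
  subst hnW
  exact ⟨v0, hv0, hl, hspan, hmem⟩

end Descent

section FiniteField

variable {F K : Type*} [Field F] [Field K] [Algebra F K] [Finite K]

theorem card_gal : Nat.card (K ≃ₐ[F] K) = finrank F K := by
  have : FiniteDimensional F K := Module.Finite.of_finite
  have : IsGalois F K := inferInstance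
  exact IsGalois.card_aut_eq_finrank F K

theorem order_eq (hp : (finrank F K).Prime) (σ : K ≃ₐ[F] K) (hσ : σ ≠ 1) :
    orderOf σ = finrank F K := by
  have h1 : orderOf σ ∣ finrank F K := by
    rw [← card_gal (F := F) (K := K)]
    exact orderOf_dvd_natCard σ
  rcases (Nat.dvd_prime hp).mp h1 with h | h
  · exact absurd (orderOf_eq_one_iff.mp h) hσ
  · exact h

theorem pow_inj (hp : (finrank F K).Prime) (σ : K ≃ₐ[F] K) (hσ : σ ≠ 1) :
    ∀ i < finrank F K, ∀ j < finrank F K, σ ^ i = σ ^ j → i = j := by
  intro i hi j hj h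
  rw [← order_eq hp σ hσ] at hi hj
  exact pow_injOn_Iio_orderOf hi hj h

/-- Normal basis indexed by powers of `σ`. -/
theorem normal_basis (hp : (finrank F K).Prime) (σ : K ≃ₐ[F] K) (hσ : σ ≠ 1) :
    ∃ β : K, LinearIndependent F (fun j : Fin (finrank F K) => (σ ^ (j : ℕ)) β) := by
  have : FiniteDimensional F K := Module.Finite.of_finite
  have : IsGalois F K := inferInstance
  refine ⟨IsGalois.normalBasis F K 1, ?_⟩
  have h1 : (fun j : Fin (finrank F K) => (σ ^ (j : ℕ)) (IsGalois.normalBasis F K 1)) =
      (IsGalois.normalBasis F K) ∘ (fun j : Fin (finrank F K) => σ ^ (j : ℕ)) := by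
    funext j
    rw [Function.comp, IsGalois.normalBasis_apply (σ ^ (j : ℕ))]
  rw [h1]
  apply (IsGalois.normalBasis F K).linearIndependent.comp
  intro i j hij
  exact Fin.ext (pow_inj hp σ hσ i i.2 j j.2 hij)

theorem functional_eq (hp : (finrank F K).Prime) (σ : K ≃ₐ[F] K) (hσ : σ ≠ 1)
    (lam : K →ₗ[F] F) (h : ∀ a, lam (σ a) = lam a) (a0 : K)
    (h0 : Algebra.trace F K a0 = 1) (a : K) : lam a = Algebra.trace F K a * lam a0 := by
  have : FiniteDimensional F K := Module.Finite.of_finite
  have : IsGalois F K := inferInstance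
  have hnd := traceForm_nondegenerate F K
  obtain ⟨d, hd⟩ := (LinearMap.BilinForm.toDual (Algebra.traceForm F K) hnd).surjective lam
  have hd' : ∀ a, Algebra.trace F K (d * a) = lam a := by
    intro a
    rw [← hd, LinearMap.BilinForm.toDual_def, Algebra.traceForm_apply]
  have hfix : σ d = d := by
    have h1 : ∀ a, Algebra.trace F K ((σ d - d) * a) = 0 := by
      intro a
      rw [sub_mul, map_sub, hd', ← h a]
      obtain ⟨b, rfl⟩ := σ.surjective a
      rw [← map_mul, Algebra.trace_eq_of_algEquiv, hd', h, h]
      simp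
    have h2 := hnd.1 (σ d - d) (fun a => by rw [Algebra.traceForm_apply]; exact h1 a)
    exact sub_eq_zero.mp h2
  obtain ⟨c, hc⟩ := fixed_mem hp σ hσ d hfix
  have h3 : ∀ a, lam a = c * Algebra.trace F K a := by
    intro a
    rw [← hd', ← hc, ← Algebra.smul_def, map_smul, smul_eq_mul]
  rw [h3 a, h3 a0, h0]
  ring

theorem exists_trace_one : ∃ a : K, Algebra.trace F K a = 1 := by
  have : FiniteDimensional F K := Module.Finite.of_finite
  exact Algebra.trace_surjective F K 1

end FiniteField

end Pool.Agent.UD.GAbs
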