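import Pool.Agent.UD.Defs
import Pool.Agent.UD.GaloisAbs
import Pool.Agent.UD.LinAlg
import Pool.Agent.UD.Frames

/-!
# Block G of MP_65787c_al: Galois elements
-/

open Module

namespace Pool.Agent.UD

variable {F V : Type*} [Field F] [AddCommGroup V] [Module F V]

theorem finite_End [Finite V] : Finite (Module.End F V) :=
  Finite.of_injective (fun f : Module.End F V => (f : V → V)) DFunLike.coe_injective

theorem finite_sub [Finite V] (A : Subalgebra F (Module.End F V)) : Finite A :=
  haveI := finite_End (F := F) (V := V)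
  inferInstance

theorem finite_equiv [Finite V] : Finite (V ≃ₗ[F] V) :=
  Finite.of_injective (fun f : V ≃ₗ[F] V => (f : V → V)) DFunLike.coe_injective

/-- The endomorphism of `A` induced by conjugation by `x`. -/
def homOf (A : Subalgebra F (Module.End F V)) (x : V ≃ₗ[F] V)
    (hn : ∀ a ∈ A, cj x a ∈ A) : A →ₐ[F] A where
  toFun := fun a => ⟨cj x a.1, hn a.1 a.2⟩
  map_one' := Subtype.ext (cj_one x)
  map_mul' := fun a b => Subtype.ext (cj_mul x a.1 b.1)
  map_zero' := Subtype.ext (by ext v; simp)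
  map_add' := fun a b => Subtype.ext (by ext v; simp)
  commutes' := fun c => Subtype.ext (by ext v; simp [Algebra.algebraMap_eq_smul_one])

theorem homOf_inj (A : Subalgebra F (Module.End F V)) (x : V ≃ₗ[F] V)
    (hn : ∀ a ∈ A, cj x a ∈ A) : Function.Injective (homOf A x hn) := by
  intro a b h
  exact Subtype.ext (cj_inj x (congrArg Subtype.val h))

/-- The automorphism of `A` induced by conjugation by `x`. -/
noncomputable def autOf [Finite V] (A : Subalgebra F (Module.End F V)) (x : V ≃ₗ[F] V)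
    (hn : ∀ a ∈ A, cj x a ∈ A) : A ≃ₐ[F] A :=
  AlgEquiv.ofBijective (homOf A x hn)
    (haveI := finite_sub A
     ⟨homOf_inj A x hn, Finite.injective_iff_surjective.mp (homOf_inj A x hn)⟩)

lemma autOf_apply [Finite V] (A : Subalgebra F (Module.End F V)) (x : V ≃ₗ[F] V)
    (hn : ∀ a ∈ A, cj x a ∈ A) (a : A) : ((autOf A x hn a : A) : Module.End F V) = cj x a.1 := rfl

lemma autOf_ne_one [Finite V] (A : Subalgebra F (Module.End F V)) (x : V ≃ₗ[F] V)
    (hn : ∀ a ∈ A, cj x a ∈ A) (hne : ∃ a ∈ A, cj x a ≠ a) : autOf A x hn ≠ 1 := by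
  intro h
  obtain ⟨a, ha, hne'⟩ := hne
  apply hne'
  exact congrArg (fun f : A ≃ₐ[F] A => ((f ⟨a, ha⟩ : A) : Module.End F V)) h

variable [Finite F] [Finite V]
variable {ω : LinearMap.BilinForm F V}

omit [Finite F] in
/-- Full form of the descent. -/
theorem descent_full (A : Subalgebra F (Module.End F V)) (hA : IsField A)
    {t k : ℕ} (ht : t.Prime) (he : finrank F A = t) (hV : finrank F V = 2 * t * k)
    (σ : A ≃ₐ[F] A) (hσ : σ ≠ 1)
    {x : V ≃ₗ[F] V} (hx : x ^ t = 1) (hs : ∀ (a : A) (v : V), x (a.1 v) = (σ a).1 (x v)) :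
    ∃ v : Fin (2 * k) → V, (∀ i, x (v i) = v i) ∧
      LinearIndependent F v ∧
      (∀ y, x y = y → y ∈ Submodule.span F (Set.range v)) ∧
      (∀ z : V → Prop, (∀ i (a : A), z (a.1 (v i))) → (∀ y y', z y → z y' → z (y + y')) →
        z 0 → ∀ y, z y) := by
  let _ : Field A := hA.toField
  have := finite_sub A
  have : FiniteDimensional F A := Module.Finite.of_finite
  have : FiniteDimensional F V := Module.Finite.of_finite
  subst he
  have hinj := GAbs.pow_inj ht σ hσ
  obtain ⟨v, hv, hl, hsp, hmem⟩ := GAbs.descent (F := F) (K := A) (V := V) ht σ hσ hinj x hx hs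
    (n := 2 * k) (by rw [hV]; ring)
  refine ⟨v, hv, hl.restrict_scalars (smul_left_injective F one_ne_zero), hmem, ?_⟩
  intro z h1 h2 h3 y
  have hy : y ∈ Submodule.span A (Set.range v) := hsp trivial
  obtain ⟨c, hc⟩ := (Submodule.mem_span_range_iff_exists_fun A).mp hy
  rw [← hc]
  apply Finset.sum_induction _ z (fun a b ha hb => h2 a b ha hb) h3
  intro i _
  exact h1 i (c i)

omit [Finite F] in
/-- fixed, `F`-independent vectors give independent families. -/
theorem indep_full (A : Subalgebra F (Module.End F V)) (hA : IsField A)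
    {t : ℕ} (ht : t.Prime) (he : finrank F A = t)
    (σ : A ≃ₐ[F] A) (hσ : σ ≠ 1)
    {x : V ≃ₗ[F] V} (hs : ∀ (a : A) (v : V), x (a.1 v) = (σ a).1 (x v))
    {ι κ : Type*} (b : ι → A) (hb : LinearIndependent F b)
    (v : κ → V) (hv : ∀ i, x (v i) = v i) (hl : LinearIndependent F v) :
    LinearIndependent F (fun p : κ × ι => (b p.2 : Module.End F V) (v p.1)) := by
  let _ : Field A := hA.toField
  have := finite_sub A
  have : FiniteDimensional F A := Module.Finite.of_finite
  subst he
  have hK := GAbs.indep_of_fixed (F := F) (K := A) (V := V) ht σ hσ x hs v hv hl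
  have h1 := linearIndependent_smul hb hK
  have h2 := h1.comp (fun p : κ × ι => (p.2, p.1)) (by
    intro p p' h
    simp only [Prod.mk.injEq] at h
    exact Prod.ext h.2 h.1)
  exact h2

omit [Finite F] in
/-- G1 : descent. -/
theorem Gal_descent (A : Subalgebra F (Module.End F V)) (hA : IsField A)
    {t k : ℕ} (ht : t.Prime) (he : finrank F A = t) (hV : finrank F V = 2 * t * k)
    {x : V ≃ₗ[F] V} (hx : x ^ t = 1) (hn : ∀ a ∈ A, cj x a ∈ A) (hne : ∃ a ∈ A, cj x a ≠ a)
    {ι : Type*} [Fintype ι] (b : Basis ι F A) :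
    ∃ v : Fin (2 * k) → V, (∀ i, x (v i) = v i) ∧
      LinearIndependent F (fun p : Fin (2 * k) × ι => (b p.2 : Module.End F V) (v p.1)) ∧
      ∀ y, x y = y → y ∈ Submodule.span F (Set.range v) := by
  have hσ := autOf_ne_one A x hn hne
  have hs : ∀ (a : A) (v : V), x (a.1 v) = (autOf A x hn a).1 (x v) := by
    intro a v
    rw [autOf_apply]
    simp
  obtain ⟨v, hv, hl, hmem, -⟩ := descent_full A hA ht he hV _ hσ hx hs
  exact ⟨v, hv, indep_full A hA ht he _ hσ hs b b.linearIndependent v hv hl, hmem⟩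

omit [Finite F] in
/-- G2 : `x` acts freely. -/
theorem Gal_free (A : Subalgebra F (Module.End F V)) (hA : IsField A)
    {t k : ℕ} (ht : t.Prime) (he : finrank F A = t) (hV : finrank F V = 2 * t * k)
    {x : V ≃ₗ[F] V} (hx : x ^ t = 1) (hn : ∀ a ∈ A, cj x a ∈ A) (hne : ∃ a ∈ A, cj x a ≠ a) :
    ∃ v : Fin (2 * k) → V,
      LinearIndependent F (fun p : Fin (2 * k) × Fin t => (x ^ (p.2 : ℕ)) (v p.1)) := by
  have hσ := autOf_ne_one A x hn hne
  have hs : ∀ (a : A) (v : V), x (a.1 v) = (autOf A x hn a).1 (x v) := by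
    intro a v
    rw [autOf_apply]
    simp
  obtain ⟨v, hv, hl, hmem, -⟩ := descent_full A hA ht he hV _ hσ hx hs
  have hnb : ∃ β : A, LinearIndependent F (fun j : Fin t => ((autOf A x hn) ^ (j : ℕ)) β) := by
    let _ : Field A := hA.toField
    have := finite_sub A
    subst he
    exact GAbs.normal_basis (F := F) (K := A) ht _ hσ
  obtain ⟨β, hβ⟩ := hnb
  have h1 := indep_full A hA ht he _ hσ hs _ hβ v hv hl
  refine ⟨fun i => β.1 (v i), ?_⟩
  have h2 : (fun p : Fin (2 * k) × Fin t => (x ^ (p.2 : ℕ)) (β.1 (v p.1))) =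
      (fun p : Fin (2 * k) × Fin t =>
        ((((autOf A x hn) ^ (p.2 : ℕ)) β : A) : Module.End F V) (v p.1)) := by
    funext p
    generalize (p.2 : ℕ) = j
    induction j with
    | zero => simp
    | succ j ih =>
      rw [pow_succ', LinearEquiv.mul_apply, ih, hs, hv, pow_succ' (autOf A x hn)]
      rfl
  rw [h2]
  exact h1

/-! ### Gram data -/

/-- The standard symplectic Gram matrix. -/
def GM (F : Type*) [Field F] (k : ℕ) (i l : Fin (2 * k)) : F :=
  if (l : ℕ) = i + k then 1 else if (i : ℕ) = l + k then -1 else 0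

omit [Finite F] [Finite V] in
theorem indep_of_gram (c : LinearMap.BilinForm F V) {k : ℕ} (w : Fin (2 * k) → V)
    (h : ∀ i l, c (w i) (w l) = GM F k i l) : LinearIndependent F w := by
  rw [Fintype.linearIndependent_iff]
  intro g hg i0
  by_cases hi : (i0 : ℕ) < k
  · let l : Fin (2 * k) := ⟨i0 + k, by omega⟩
    have h1 : c (∑ i, g i • w i) (w l) = 0 := by rw [hg]; simp
    simp only [map_sum, LinearMap.sum_apply, map_smul, LinearMap.smul_apply, h,
      smul_eq_mul] at h1
    rw [Finset.sum_eq_single i0] at h1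
    · simpa [GM, l] using h1
    · intro i _ hne
      have hne' : (i : ℕ) ≠ i0 := fun e => hne (Fin.ext e)
      have e1 : ¬ ((l : ℕ) = i + k) := by simp only [l]; omega
      have e2 : ¬ ((i : ℕ) = l + k) := by simp only [l]; omega
      simp [GM, e1, e2]
    · intro hh; exact absurd (Finset.mem_univ _) hh
  · let l : Fin (2 * k) := ⟨i0 - k, by omega⟩
    have h1 : c (∑ i, g i • w i) (w l) = 0 := by rw [hg]; simp
    simp only [map_sum, LinearMap.sum_apply, map_smul, LinearMap.smul_apply, h,
      smul_eq_mul] at h1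
    have hl : (l : ℕ) = i0 - k := rfl
    rw [Finset.sum_eq_single i0] at h1
    · have e1 : ¬ ((l : ℕ) = i0 + k) := by omega
      have e2 : ((i0 : ℕ) = l + k) := by omega
      simp only [GM, if_neg e1, if_pos e2, mul_neg, mul_one, neg_eq_zero] at h1
      exact h1
    · intro i _ hne
      have hne' : (i : ℕ) ≠ i0 := fun e => hne (Fin.ext e)
      have e1 : ¬ ((l : ℕ) = i + k) := by omega
      have e2 : ¬ ((i : ℕ) = l + k) := by omega
      simp [GM, e1, e2]
    · intro hh; exact absurd (Finset.mem_univ _) hh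

theorem card_gram_ge (hω : IsSymp ω) {k : ℕ} (hk : finrank F V = 2 * k) (hq : 3 ≤ Nat.card F) :
    7 * Nat.card F ^ (2 * k ^ 2 + k) ≤
      8 * Nat.card {w : Fin (2 * k) → V // ∀ i l, ω (w i) (w l) = GM F k i l} := by
  obtain ⟨p, hp1, hp2, hp3⟩ := exists_hyp hω hk (le_refl k)
  have hSp := card_Sp_ge hω hk hq
  have hskew : ∀ x y, ω x y = - ω y x := by
    intro x y
    have h1 := hω.alt (x + y)
    simp only [map_add, LinearMap.add_apply, hω.alt, zero_add, add_zero] at h1
    exact eq_neg_of_add_eq_zero_right h1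
  let w0 : Fin (2 * k) → V := fun i =>
    if h : (i : ℕ) < k then p.1 ⟨i, h⟩ else p.2 ⟨i - k, by omega⟩
  have hw0 : ∀ i l, ω (w0 i) (w0 l) = GM F k i l := by
    intro i l
    by_cases hi : (i : ℕ) < k <;> by_cases hl : (l : ℕ) < k
    · simp only [w0, dif_pos hi, dif_pos hl, hp1]
      have e1 : ¬ ((l : ℕ) = i + k) := by omega
      have e2 : ¬ ((i : ℕ) = l + k) := by omega
      simp [GM, e1, e2]
    · simp only [w0, dif_pos hi, dif_neg hl, hp3]
      have e2 : ¬ ((i : ℕ) = l + k) := by omega
      by_cases e1 : (l : ℕ) = i + k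
      · have e3 : (⟨i, hi⟩ : Fin k) = ⟨l - k, by omega⟩ := Fin.ext (by simp only []; omega)
        simp only [GM, if_pos e1, if_pos e3]
      · have e3 : ¬ ((⟨i, hi⟩ : Fin k) = ⟨l - k, by omega⟩) := by
          intro e
          have := congrArg Fin.val e
          simp only [] at this
          omega
        simp only [GM, if_neg e1, if_neg e2, if_neg e3]
    · rw [hskew]
      simp only [w0, dif_neg hi, dif_pos hl, hp3]
      have e1 : ¬ ((l : ℕ) = i + k) := by omega
      by_cases e2 : (i : ℕ) = l + k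
      · have e3 : (⟨l, hl⟩ : Fin k) = ⟨i - k, by omega⟩ := Fin.ext (by simp only []; omega)
        simp only [GM, if_neg e1, if_pos e2, if_pos e3]
      · have e3 : ¬ ((⟨l, hl⟩ : Fin k) = ⟨i - k, by omega⟩) := by
          intro e
          have := congrArg Fin.val e
          simp only [] at this
          omega
        simp only [GM, if_neg e1, if_neg e2, if_neg e3, neg_zero]
    · simp only [w0, dif_neg hi, dif_neg hl, hp2]
      have e1 : ¬ ((l : ℕ) = i + k) := by omega
      have e2 : ¬ ((i : ℕ) = l + k) := by omega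
      simp [GM, e1, e2]
  have hind := indep_of_gram ω w0 hw0
  have hfd : FiniteDimensional F V := Module.Finite.of_finite
  rcases Nat.eq_zero_or_pos k with hk0 | hk0
  · subst hk0
    have h1 : 0 < Nat.card {w : Fin (2 * 0) → V // ∀ i l, ω (w i) (w l) = GM F 0 i l} := by
      have : Nonempty {w : Fin (2 * 0) → V // ∀ i l, ω (w i) (w l) = GM F 0 i l} := ⟨⟨w0, hw0⟩⟩
      exact Nat.card_pos
    simp only [ne_eq, OfNat.ofNat_ne_zero, not_false_eq_true, zero_pow, mul_zero, add_zero,
      pow_zero, mul_one]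
    omega
  have : Nonempty (Fin (2 * k)) := ⟨⟨0, by omega⟩⟩
  let B := basisOfLinearIndependentOfCardEqFinrank hind (by rw [Fintype.card_fin, hk])
  have hB : ∀ i, B i = w0 i := fun i => by
    simp only [B, coe_basisOfLinearIndependentOfCardEqFinrank]
  let f : Sp ω → {w : Fin (2 * k) → V // ∀ i l, ω (w i) (w l) = GM F k i l} := fun g =>
    ⟨fun i => g.1 (w0 i), fun i l => by rw [g.2, hw0]⟩
  have hf : Function.Injective f := by
    intro g g' h
    apply Subtype.ext
    apply LinearEquiv.toLinearMap_injective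
    apply B.ext
    intro i
    rw [hB]
    exact congrFun (congrArg Subtype.val h) i
  have hle := Nat.card_le_card_of_injective f hf
  omega

/-- The fixed space. -/
def fixS (x : V ≃ₗ[F] V) : Submodule F V := LinearMap.ker ((x : V →ₗ[F] V) - LinearMap.id)

omit [Finite F] [Finite V] in
lemma mem_fixS {x : V ≃ₗ[F] V} {y : V} : y ∈ fixS x ↔ x y = y := by
  simp only [fixS, LinearMap.mem_ker, LinearMap.sub_apply, LinearMap.id_apply, sub_eq_zero]
  rfl

/-- Elements of `Gal` inducing `σ`. -/
def GalS (ω : LinearMap.BilinForm F V) (A : Subalgebra F (Module.End F V)) (t : ℕ)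
    (σ : A ≃ₐ[F] A) : Set (V ≃ₗ[F] V) :=
  {x | x ∈ Sp ω ∧ x ^ t = 1 ∧ ∀ (a : A) (v : V), x (a.1 v) = (σ a).1 (x v)}

lemma sum_aux (t n : ℕ) : ∑ i ∈ Finset.range n, (t * n - t * i) * 2 = t * (n * (n + 1)) := by
  induction n with
  | zero => simp
  | succ n ih =>
    rw [Finset.sum_range_succ']
    have e : ∀ i, (t * (n + 1) - t * (i + 1)) * 2 = (t * n - t * i) * 2 := by
      intro i
      rw [Nat.mul_add, Nat.mul_add, mul_one, Nat.add_sub_add_right]
    rw [Finset.sum_congr rfl (fun i _ => e i), ih]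
    ring_nf
    simp
    ring

theorem card_GalS_le (hω : IsSymp ω) (h2 : (2 : F) ≠ 0) (hq : 3 ≤ Nat.card F)
    (A : Subalgebra F (Module.End F V)) (hA : IsField A) (hsa : ∀ a ∈ A, IsSA ω a)
    {t k : ℕ} (ht : t.Prime) (he : finrank F A = t) (hV : finrank F V = 2 * t * k)
    (σ : A ≃ₐ[F] A) (hσ : σ ≠ 1) :
    7 * Nat.card (GalS ω A t σ) * Nat.card F ^ (k * (2 * k + 1)) ≤
      8 * Nat.card F ^ (t * k * (2 * k + 1)) := by
  classical
  have hfA := finite_sub A
  have hfV := finite_equiv (F := F) (V := V)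
  have hfdA : FiniteDimensional F A := Module.Finite.of_finite
  have hfdV : FiniteDimensional F V := Module.Finite.of_finite
  -- trace data
  obtain ⟨tr, a0, htr⟩ : ∃ (tr : A → F) (a0 : A), ∀ lam : A →ₗ[F] F,
      (∀ a, lam (σ a) = lam a) → ∀ a, lam a = tr a * lam a0 := by
    let _ : Field A := hA.toField
    subst he
    obtain ⟨a0, h0⟩ := GAbs.exists_trace_one (F := F) (K := A)
    exact ⟨fun a => Algebra.trace F A a, a0, fun lam hl a =>
      GAbs.functional_eq (F := F) (K := A) ht σ hσ lam hl a0 h0 a⟩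
  -- functional lemma on fixed vectors
  have key : ∀ x ∈ GalS ω A t σ, ∀ u v : V, x u = u → x v = v → ∀ a : A,
      ω (a.1 u) v = tr a * ω (a0.1 u) v := by
    intro x hx u v hu hv a
    let lam : A →ₗ[F] F :=
      { toFun := fun a => ω (a.1 u) v
        map_add' := fun a b => by
          simp only [Subalgebra.coe_add, LinearMap.add_apply, map_add]
        map_smul' := fun c a => by
          simp only [Subalgebra.coe_smul, LinearMap.smul_apply, map_smul, smul_eq_mul,
            RingHom.id_apply] }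
    refine htr lam ?_ a
    intro b
    change ω ((σ b).1 u) v = ω (b.1 u) v
    have h1 := hx.1 (b.1 u) v
    rw [hx.2.2 b u, hu, hv] at h1
    exact h1
  let b := Module.finBasis F A
  let T := {w : Fin (2 * k) → V //
    LinearIndependent F (fun p : Fin (2 * k) × Fin (finrank F A) => (b p.2).1 (w p.1)) ∧
      ∀ i l, i < l → ∀ j, ω ((b j).1 (w i)) (w l) = tr (b j) * GM F k i l}
  have hT : Nat.card T ≤ Nat.card F ^ (t * k * (2 * k + 1)) := by
    have h1 := card_tuples_le hω (fun j : Fin (finrank F A) => (b j).1) (2 * k)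
      (fun i l j => tr (b j) * GM F k i l)
    refine le_trans h1 ?_
    rw [Finset.prod_pow_eq_pow_sum]
    apply Nat.pow_le_pow_right (by omega)
    rw [Fintype.card_fin, he, hV]
    have h3 := sum_aux t (2 * k)
    rw [← Finset.sum_mul] at h3
    have h4 : 2 * t * k = t * (2 * k) := by ring
    rw [h4]
    have h5 : t * (2 * k * (2 * k + 1)) = (t * k * (2 * k + 1)) * 2 := by ring
    rw [h5] at h3
    exact le_of_eq (Nat.eq_of_mul_eq_mul_right (by norm_num) h3)
  let Fr : (V ≃ₗ[F] V) → Type _ := fun x => {w : Fin (2 * k) → V //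
    (∀ i, x (w i) = w i) ∧ ∀ i l, ω (a0.1 (w i)) (w l) = GM F k i l}
  have hFr : ∀ x ∈ GalS ω A t σ,
      7 * Nat.card F ^ (2 * k ^ 2 + k) ≤ 8 * Nat.card (Fr x) := by
    intro x hx
    let W := fixS x
    let c : LinearMap.BilinForm F W :=
      LinearMap.compl₁₂ ω (a0.1 ∘ₗ W.subtype) W.subtype
    have hc : ∀ u v : W, c u v = ω (a0.1 (u : V)) v := fun u v => rfl
    obtain ⟨v, hv, hvi, hvm, hvz⟩ := descent_full A hA ht he hV σ hσ hx.2.1 hx.2.2
    have hWd : finrank F W = 2 * k := by
      have h1 : W = Submodule.span F (Set.range v) := by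
        apply le_antisymm
        · intro y hy
          exact hvm y (mem_fixS.mp hy)
        · rw [Submodule.span_le]
          rintro _ ⟨i, rfl⟩
          exact mem_fixS.mpr (hv i)
      rw [h1, finrank_span_eq_card hvi, Fintype.card_fin]
    have hskew : ∀ x y, ω x y = - ω y x := by
      intro x y
      have h1 := hω.alt (x + y)
      simp only [map_add, LinearMap.add_apply, hω.alt, zero_add, add_zero] at h1
      exact eq_neg_of_add_eq_zero_right h1
    have hcs : IsSymp c := by
      constructor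
      · intro u
        rw [hc]
        have h1 := hsa a0.1 a0.2 u u
        have h3 := hskew (u : V) (a0.1 u)
        have h4 : (2 : F) * ω (a0.1 (u : V)) u = 0 := by
          rw [two_mul]
          nth_rewrite 1 [h1]
          rw [h3]
          ring
        exact (mul_eq_zero.mp h4).resolve_left h2
      · intro u hu
        apply Subtype.ext
        apply hω.nd
        refine hvz (fun y => ω (u : V) y = 0) ?_ ?_ ?_
        · intro i a
          have h1 := hsa a.1 a.2 u (v i)
          rw [← h1, key x hx u (v i) (mem_fixS.mp u.2) (hv i) a]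
          have h3 := hu ⟨v i, mem_fixS.mpr (hv i)⟩
          rw [hc] at h3
          simp only at h3
          rw [h3, mul_zero]
        · intro y y' hy hy'
          rw [map_add, hy, hy', add_zero]
        · exact map_zero _
    have h1 := card_gram_ge (ω := c) hcs hWd hq
    refine le_trans h1 (Nat.mul_le_mul_left 8 ?_)
    let f : {w : Fin (2 * k) → W // ∀ i l, c (w i) (w l) = GM F k i l} → Fr x := fun w =>
      ⟨fun i => (w.1 i : V), fun i => mem_fixS.mp (w.1 i).2, fun i l => w.2 i l⟩
    apply Nat.card_le_card_of_injective f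
    intro w w' h
    apply Subtype.ext
    funext i
    apply Subtype.ext
    exact congrFun (congrArg Subtype.val h) i
  let φ : (Σ x : GalS ω A t σ, Fr x.1) → T := fun p => ⟨p.2.1, by
    obtain ⟨⟨x, hx⟩, w, hw1, hw2⟩ := p
    refine ⟨?_, ?_⟩
    · have hind : LinearIndependent F w := by
        let c : LinearMap.BilinForm F V := LinearMap.compl₁₂ ω a0.1 LinearMap.id
        exact indep_of_gram c w (fun i l => hw2 i l)
      exact indep_full A hA ht he σ hσ hx.2.2 b b.linearIndependent w hw1 hind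
    · intro i l _ j
      rw [key x hx _ _ (hw1 i) (hw1 l) (b j), hw2]⟩
  have hφ : Function.Injective φ := by
    rintro ⟨⟨x, hx⟩, w, hw1, hw2⟩ ⟨⟨x', hx'⟩, w', hw1', hw2'⟩ h
    have hww : w = w' := congrArg Subtype.val h
    subst hww
    have hxx : x = x' := by
      obtain ⟨v, hv, hvi, hvm, hvz⟩ := descent_full A hA ht he hV σ hσ hx.2.1 hx.2.2
      have hind : LinearIndependent F w := by
        let c : LinearMap.BilinForm F V := LinearMap.compl₁₂ ω a0.1 LinearMap.id
        exact indep_of_gram c w (fun i l => hw2 i l)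
      -- w spans the fixed space of x
      have hspan : ∀ i, x' (v i) = v i := by
        intro i
        have h1 : Submodule.span F (Set.range w) = Submodule.span F (Set.range v) := by
          apply Submodule.eq_of_le_of_finrank_eq
          · rw [Submodule.span_le]
            rintro _ ⟨j, rfl⟩
            exact hvm _ (hw1 j)
          · rw [finrank_span_eq_card hvi, finrank_span_eq_card hind]
        have h3 : v i ∈ Submodule.span F (Set.range w) := by
          rw [h1]; exact Submodule.subset_span ⟨i, rfl⟩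
        have h4 : Submodule.span F (Set.range w) ≤ fixS x' := by
          rw [Submodule.span_le]
          rintro _ ⟨j, rfl⟩
          exact mem_fixS.mpr (hw1' j)
        exact mem_fixS.mp (h4 h3)
      apply LinearEquiv.ext
      refine hvz (fun y => x y = x' y) ?_ ?_ ?_
      · intro i a
        rw [hx.2.2, hx'.2.2, hv, hspan]
      · intro y y' hy hy'
        rw [map_add, map_add, hy, hy']
      · rw [map_zero, map_zero]
    subst hxx
    rfl
  have hcard := Nat.card_le_card_of_injective φ hφ
  have : Fintype (GalS ω A t σ) := Fintype.ofFinite _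
  rw [Nat.card_sigma] at hcard
  have hsum : Nat.card (GalS ω A t σ) * (7 * Nat.card F ^ (2 * k ^ 2 + k)) ≤
      ∑ x : GalS ω A t σ, 8 * Nat.card (Fr x.1) := by
    rw [Nat.card_eq_fintype_card, ← smul_eq_mul, ← Finset.card_univ, ← Finset.sum_const]
    exact Finset.sum_le_sum (fun x _ => hFr x.1 x.2)
  rw [← Finset.mul_sum] at hsum
  have e : k * (2 * k + 1) = 2 * k ^ 2 + k := by ring
  rw [e]
  calc 7 * Nat.card (GalS ω A t σ) * Nat.card F ^ (2 * k ^ 2 + k)
      = Nat.card (GalS ω A t σ) * (7 * Nat.card F ^ (2 * k ^ 2 + k)) := by ring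
    _ ≤ 8 * ∑ x : GalS ω A t σ, Nat.card (Fr x.1) := hsum
    _ ≤ 8 * Nat.card T := Nat.mul_le_mul_left 8 hcard
    _ ≤ 8 * Nat.card F ^ (t * k * (2 * k + 1)) := Nat.mul_le_mul_left 8 hT

/-- G3 : number of Galois elements. -/
theorem card_Gal_le (hω : IsSymp ω) (h2 : (2 : F) ≠ 0) (hq : 3 ≤ Nat.card F)
    (A : Subalgebra F (Module.End F V)) (hA : IsField A) (hsa : ∀ a ∈ A, IsSA ω a)
    {t k : ℕ} (ht : t.Prime) (he : finrank F A = t) (hV : finrank F V = 2 * t * k) :
    7 * Nat.card (Gal ω A t) * Nat.card F ^ (k * (2 * k + 1)) ≤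
      8 * (t - 1) * Nat.card F ^ (t * k * (2 * k + 1)) := by
  classical
  have hfA := finite_sub A
  have hfV := finite_equiv (F := F) (V := V)
  have hfG : Finite (A ≃ₐ[F] A) :=
    Finite.of_injective (fun f : A ≃ₐ[F] A => (f : A → A)) DFunLike.coe_injective
  let S := {σ : A ≃ₐ[F] A // σ ≠ 1}
  have hS : Nat.card S = t - 1 := by
    have h1 : Nat.card (A ≃ₐ[F] A) = t := by
      let _ : Field A := hA.toField
      rw [← he]
      exact GAbs.card_gal (F := F) (K := A)
    have : Fintype (A ≃ₐ[F] A) := Fintype.ofFinite _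
    rw [Nat.card_eq_fintype_card] at h1 ⊢
    have h3 := Fintype.card_subtype_compl (fun σ : A ≃ₐ[F] A => σ = 1)
    rw [Fintype.card_subtype_eq, h1] at h3
    exact h3
  have : Fintype S := Fintype.ofFinite _
  let f : Gal ω A t → Σ σ : S, GalS ω A t σ.1 := fun x =>
    ⟨⟨autOf A x.1 x.2.2.2.1, autOf_ne_one A x.1 x.2.2.2.1 x.2.2.2.2⟩, ⟨x.1, x.2.1, x.2.2.1, by
      intro a v
      rw [autOf_apply]
      simp⟩⟩
  have hf : Function.Injective f := by
    intro x y h
    apply Subtype.ext
    have : ((f x).2 : V ≃ₗ[F] V) = (f y).2 := by rw [h]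
    exact this
  have hcard := Nat.card_le_card_of_injective f hf
  rw [Nat.card_sigma] at hcard
  have hsum : ∑ σ : S, 7 * Nat.card (GalS ω A t σ.1) * Nat.card F ^ (k * (2 * k + 1)) ≤
      ∑ _σ : S, 8 * Nat.card F ^ (t * k * (2 * k + 1)) :=
    Finset.sum_le_sum (fun σ _ => card_GalS_le hω h2 hq A hA hsa ht he hV σ.1 σ.2)
  rw [Finset.sum_const, Finset.card_univ, ← Nat.card_eq_fintype_card, hS, smul_eq_mul,
    ← Finset.sum_mul, ← Finset.mul_sum] at hsum
  calc 7 * Nat.card (Gal ω A t) * Nat.card F ^ (k * (2 * k + 1))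
      ≤ 7 * (∑ σ : S, Nat.card (GalS ω A t σ.1)) * Nat.card F ^ (k * (2 * k + 1)) :=
        Nat.mul_le_mul_right _ (Nat.mul_le_mul_left 7 hcard)
    _ ≤ (t - 1) * (8 * Nat.card F ^ (t * k * (2 * k + 1))) := hsum
    _ = 8 * (t - 1) * Nat.card F ^ (t * k * (2 * k + 1)) := by ring

end Pool.Agent.UD
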