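import Pool.Agent.UD.Defs
import Pool.Agent.UD.LinAlg

/-!
# Block C : subspaces stable under a field of operators
-/

open Module

namespace Pool.Agent.UD


variable {F V : Type*} [Field F] [Finite F] [AddCommGroup V] [Module F V] [Finite V]
variable {ω : LinearMap.BilinForm F V}

set_option linter.unusedSectionVars false

/-! ### numerical lemmas -/

lemma prod_shift (Q s : ℕ) :
    ∏ i ∈ Finset.range (s + 1), (Q ^ (s + 1) - Q ^ i) =
      (Q ^ (s + 1) - 1) * (Q ^ s * ∏ i ∈ Finset.range s, (Q ^ s - Q ^ i)) := by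
  rw [Finset.prod_range_succ', pow_zero, mul_comm]
  congr 1
  have h : ∀ i ∈ Finset.range s, Q ^ (s + 1) - Q ^ (i + 1) = Q * (Q ^ s - Q ^ i) := by
    intro i _
    rw [Nat.mul_sub, pow_succ', pow_succ']
  rw [Finset.prod_congr rfl h, Finset.prod_mul_distrib, Finset.prod_const, Finset.card_range]

/-- `c * ∏ (1 - Q^{-j}) ≥ (c - 1) + Q^{-s}` for `Q ≥ c + 1`. -/
lemma prod_lower (c Q : ℕ) (hc : 1 ≤ c) (hQ : c + 1 ≤ Q) (s : ℕ) :
    Q ^ (s * s) * ((c - 1) * Q ^ s + 1) ≤
      c * ((∏ i ∈ Finset.range s, (Q ^ s - Q ^ i)) * Q ^ s) := by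
  induction s with
  | zero => simp; omega
  | succ s ih =>
    rw [prod_shift]
    set P := ∏ i ∈ Finset.range s, (Q ^ s - Q ^ i) with hP
    have hQ1 : 1 ≤ Q ^ (s + 1) := Nat.one_le_pow _ _ (by omega)
    have e1 : Q ^ ((s + 1) * (s + 1)) = Q ^ (s * s) * (Q ^ (s + 1) * Q ^ s) := by
      rw [← pow_add, ← pow_add]; congr 1; ring
    have e2 : c * ((Q ^ (s + 1) - 1) * (Q ^ s * P) * Q ^ (s + 1)) =
        (Q ^ (s + 1) * (Q ^ (s + 1) - 1)) * (c * (P * Q ^ s)) := by ring
    rw [e1, e2]
    refine le_trans ?_ (Nat.mul_le_mul_left _ ih)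
    have e3 : Q ^ (s * s) * (Q ^ (s + 1) * Q ^ s) * ((c - 1) * Q ^ (s + 1) + 1) =
        Q ^ (s * s) * Q ^ (s + 1) * (Q ^ s * ((c - 1) * Q ^ (s + 1) + 1)) := by ring
    have e4 : Q ^ (s + 1) * (Q ^ (s + 1) - 1) * (Q ^ (s * s) * ((c - 1) * Q ^ s + 1)) =
        Q ^ (s * s) * Q ^ (s + 1) * ((Q ^ (s + 1) - 1) * ((c - 1) * Q ^ s + 1)) := by ring
    rw [e3, e4]
    refine Nat.mul_le_mul_left _ ?_
    obtain ⟨d, rfl⟩ : ∃ d, c = d + 1 := ⟨c - 1, by omega⟩
    obtain ⟨x, hx⟩ : ∃ x, Q ^ s = x := ⟨_, rfl⟩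
    have hx1 : 1 ≤ x := hx ▸ Nat.one_le_pow _ _ (by omega)
    have hQs : Q ^ (s + 1) = Q * x := by rw [pow_succ', hx]
    rw [hQs, hx, Nat.add_sub_cancel]
    obtain ⟨y, hy⟩ : ∃ y, Q * x = y + 1 := ⟨Q * x - 1, by
      have : 1 ≤ Q * x := Nat.mul_pos (by omega) hx1
      omega⟩
    have hyx : (d + 2) * x ≤ y + 1 := by
      rw [← hy]; exact Nat.mul_le_mul_right _ (by omega)
    rw [hy, Nat.add_sub_cancel]
    nlinarith

lemma prod_lower' (c Q : ℕ) (hc : 1 ≤ c) (hQ : c + 1 ≤ Q) (s : ℕ) :
    (c - 1) * Q ^ (s * s) ≤ c * ∏ i ∈ Finset.range s, (Q ^ s - Q ^ i) := by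
  have h := prod_lower c Q hc hQ s
  have hpos : 0 < Q ^ s := Nat.pow_pos (by omega)
  refine Nat.le_of_mul_le_mul_right ?_ hpos
  calc (c - 1) * Q ^ (s * s) * Q ^ s ≤ Q ^ (s * s) * ((c - 1) * Q ^ s + 1) := by nlinarith [Nat.zero_le (Q ^ (s * s))]
    _ ≤ _ := h
    _ = _ := by ring


/-! ### stable subspaces as `A`-submodules -/

/-- an `A`-stable subspace as an `A`-submodule -/
def toSub (A : Subalgebra F (Module.End F V)) (U : Submodule F V) (h : Stab A U) :
    Submodule A V where
  carrier := U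
  add_mem' := U.add_mem
  zero_mem' := U.zero_mem
  smul_mem' := fun a x hx => h a a.2 x hx

lemma mem_toSub (A : Subalgebra F (Module.End F V)) (U : Submodule F V) (h : Stab A U) (x : V) :
    x ∈ toSub A U h ↔ x ∈ U := Iff.rfl

lemma card_alg (A : Subalgebra F (Module.End F V)) {e : ℕ} (he : finrank F A = e) :
    Nat.card A = Nat.card F ^ e := by
  rw [← he]
  exact Module.natCard_eq_pow_finrank

lemma one_lt_q : 1 < Nat.card F := Finite.one_lt_card

lemma card_tuples_field (A : Subalgebra F (Module.End F V)) (hA : IsField A) {e s : ℕ}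
    (he : finrank F A = e) (U : Submodule F V) (hU : finrank F U = e * s) (hst : Stab A U) :
    Nat.card {w : Fin s → toSub A U hst // LinearIndependent A w} =
      ∏ i ∈ Finset.range s, (Nat.card F ^ (e * s) - Nat.card F ^ (e * i)) ∧
    ∀ w : Fin s → toSub A U hst, LinearIndependent A w →
      Submodule.span A (Set.range w) = ⊤ := by
  let _ : Field A := hA.toField
  have : Finite A := Module.finite_of_finite F
  have : Fintype A := Fintype.ofFinite A
  have hcA : Nat.card A = Nat.card F ^ e := card_alg A he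
  have hA1 : 1 < Nat.card A := Finite.one_lt_card
  have hcU : Nat.card (toSub A U hst) = Nat.card F ^ (e * s) := by
    have : Nat.card (toSub A U hst) = Nat.card U := rfl
    rw [this, ← hU]
    exact Module.natCard_eq_pow_finrank
  have hfr : finrank A (toSub A U hst) = s := by
    have h1 : Nat.card (toSub A U hst) = Nat.card A ^ finrank A (toSub A U hst) :=
      Module.natCard_eq_pow_finrank
    rw [hcU, pow_mul, ← hcA] at h1
    exact (Nat.pow_right_injective hA1 h1).symm
  constructor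
  · have h := card_linearIndependent (K := A) (V := toSub A U hst) (k := s) hfr.ge
    rw [h, ← Nat.card_eq_fintype_card, hfr, hcA, Finset.prod_range]
    refine Finset.prod_congr rfl (fun i _ => ?_)
    rw [← pow_mul, ← pow_mul]
  · intro w hw
    exact hw.span_eq_top_of_card_eq_finrank' (by rw [hfr, Fintype.card_fin])

lemma coe_li_aux {R M : Type*} [Ring R] [AddCommGroup M] [Module R M] {s : ℕ}
    (U : Submodule R M) (w : Fin s → U) (hw : LinearIndependent R w) :
    LinearIndependent R (fun i => (w i : M)) :=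
  hw.map' U.subtype U.ker_subtype

lemma span_coe_aux {R M : Type*} [Ring R] [AddCommGroup M] [Module R M] {s : ℕ}
    (U : Submodule R M) (w : Fin s → U) (hw : Submodule.span R (Set.range w) = ⊤) :
    Submodule.span R (Set.range fun i => (w i : M)) = U := by
  have h3 := congrArg (Submodule.map (Submodule.subtype U)) hw
  rw [Submodule.map_top, Submodule.range_subtype, Submodule.map_span, ← Set.range_comp] at h3
  exact h3

lemma coe_li (A : Subalgebra F (Module.End F V)) {s : ℕ} (U : Submodule F V) (h : Stab A U)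
    (w : Fin s → toSub A U h) (hw : LinearIndependent A w) :
    LinearIndependent A (fun i => (w i : V)) :=
  coe_li_aux (toSub A U h) w hw

lemma span_coe (A : Subalgebra F (Module.End F V)) {s : ℕ} (U : Submodule F V) (h : Stab A U)
    (w : Fin s → toSub A U h) (hw : Submodule.span A (Set.range w) = ⊤) :
    Submodule.span A (Set.range fun i => (w i : V)) = toSub A U h :=
  span_coe_aux (toSub A U h) w hw

/-- the set of pairs (stable subspace with property `Q`, `A`-basis) -/
def Prs (A : Subalgebra F (Module.End F V)) (e s : ℕ) (Q : Submodule F V → Prop)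
    (U : {U : Submodule F V // finrank F U = e * s ∧ Stab A U ∧ Q U}) : Type _ :=
  {w : Fin s → toSub A U.1 U.2.2.1 // LinearIndependent A w}

/-- pairs (stable subspace with property `Q`, `A`-basis) inject into tuples -/
lemma card_pairs_le (A : Subalgebra F (Module.End F V)) (hA : IsField A) {e s : ℕ}
    (he : finrank F A = e) (Q : Submodule F V → Prop) :
    Nat.card {U : Submodule F V // finrank F U = e * s ∧ Stab A U ∧ Q U} *
      ∏ i ∈ Finset.range s, (Nat.card F ^ (e * s) - Nat.card F ^ (e * i)) ≤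
    Nat.card {w : Fin s → V // LinearIndependent A w ∧
      ∃ U : Submodule F V, (∀ i, w i ∈ U) ∧ Stab A U ∧ Q U} := by
  classical
  have : Finite A := Module.finite_of_finite F
  have hfin : Finite (Submodule F V) := Finite.of_injective (fun U => (U : Set V)) SetLike.coe_injective
  have := Fintype.ofFinite {U : Submodule F V // finrank F U = e * s ∧ Stab A U ∧ Q U}
  have hT : ∀ U, Nat.card (Prs A e s Q U) =
      ∏ i ∈ Finset.range s, (Nat.card F ^ (e * s) - Nat.card F ^ (e * i)) := fun U =>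
    (card_tuples_field A hA he U.1 U.2.1 U.2.2.1).1
  have hF : ∀ U, Finite (Prs A e s Q U) := fun U => by
    unfold Prs; infer_instance
  have hsig : Nat.card (Sigma (Prs A e s Q)) =
      Nat.card {U : Submodule F V // finrank F U = e * s ∧ Stab A U ∧ Q U} *
      ∏ i ∈ Finset.range s, (Nat.card F ^ (e * s) - Nat.card F ^ (e * i)) := by
    rw [Nat.card_sigma, Finset.sum_congr rfl (fun U _ => hT U), Finset.sum_const,
      Finset.card_univ, ← Nat.card_eq_fintype_card, smul_eq_mul]
  rw [← hsig]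
  let φ : Sigma (Prs A e s Q) → {w : Fin s → V // LinearIndependent A w ∧
      ∃ U : Submodule F V, (∀ i, w i ∈ U) ∧ Stab A U ∧ Q U} := fun p =>
    ⟨fun i => (p.2.1 i : V), coe_li A p.1.1 p.1.2.2.1 p.2.1 p.2.2,
      p.1.1, fun i => (p.2.1 i).2, p.1.2.2⟩
  refine Nat.card_le_card_of_injective φ ?_
  rintro ⟨U, w⟩ ⟨U', w'⟩ h
  have h1 : ∀ i, ((w.1 i : V)) = (w'.1 i : V) := fun i =>
    congrFun (congrArg Subtype.val h) i
  have key : ∀ (U : {U : Submodule F V // finrank F U = e * s ∧ Stab A U ∧ Q U})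
      (w : Prs A e s Q U),
      toSub A U.1 U.2.2.1 = Submodule.span A (Set.range fun i => (w.1 i : V)) := by
    intro U w
    exact (span_coe A U.1 U.2.2.1 w.1
      ((card_tuples_field A hA he U.1 U.2.1 U.2.2.1).2 w.1 w.2)).symm
  have h4 : toSub A U.1 U.2.2.1 = toSub A U'.1 U'.2.2.1 := by
    rw [key U w, key U' w']
    congr 2
    funext i
    exact h1 i
  have h5 : U = U' := by
    apply Subtype.ext
    ext x
    rw [← mem_toSub A U.1 U.2.2.1, h4, mem_toSub]
  subst h5
  have h6 : w = w' := by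
    apply Subtype.ext
    funext i
    exact Subtype.ext (h1 i)
  rw [h6]


lemma li_of_field (A : Subalgebra F (Module.End F V)) {e s : ℕ} (b : Basis (Fin e) F A)
    (w : Fin s → V) (hw : LinearIndependent A w) :
    LinearIndependent F (fun p : Fin s × Fin e => (b p.2 : Module.End F V) (w p.1)) := by
  have h := linearIndependent_smul (R := F) (S := A) b.linearIndependent hw
  have h2 := h.comp (Equiv.prodComm (Fin s) (Fin e)) (Equiv.prodComm (Fin s) (Fin e)).injective
  exact h2

/-- C0 -/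
theorem card_stable_ti_raw (hω : IsSymp ω) (A : Subalgebra F (Module.End F V)) (hA : IsField A)
    {e s : ℕ} (he : finrank F A = e) :
    Nat.card {U : Submodule F V // finrank F U = e * s ∧ Stab A U ∧ TI ω U} *
      ∏ i ∈ Finset.range s, (Nat.card F ^ (e * s) - Nat.card F ^ (e * i)) ≤
      ∏ i ∈ Finset.range s, Nat.card F ^ (finrank F V - e * i) := by
  refine (card_pairs_le A hA he (TI ω)).trans ?_
  let b : Basis (Fin e) F A := finBasisOfFinrankEq F A he
  have h2 := card_tuples_le hω (fun j : Fin e => (b j : Module.End F V)) s (fun _ _ _ => 0)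
  rw [Fintype.card_fin] at h2
  refine le_trans ?_ h2
  refine Nat.card_le_card_of_injective (fun w => ⟨w.1, li_of_field A b w.1 w.2.1, ?_⟩) ?_
  · obtain ⟨U, hU, hs, ht⟩ := w.2.2
    intro i l _ j
    exact ht _ (hs _ (b j).2 _ (hU i)) _ (hU l)
  · intro w w' h
    simp only [Subtype.mk.injEq] at h
    exact Subtype.ext h

lemma prod_field (q e s : ℕ) :
    ∏ i ∈ Finset.range s, (q ^ (e * s) - q ^ (e * i)) =
      ∏ i ∈ Finset.range s, ((q ^ e) ^ s - (q ^ e) ^ i) := by
  refine Finset.prod_congr rfl (fun i _ => ?_)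
  rw [← pow_mul, ← pow_mul]

lemma prod_pow_sub (q e s D : ℕ) (hD : e * s ≤ D) :
    (∏ i ∈ Finset.range s, q ^ (D - e * i)) * q ^ (e * (s * (s - 1) / 2)) = q ^ (D * s) := by
  rw [← Finset.sum_range_id, Finset.mul_sum, ← Finset.prod_pow_eq_pow_sum,
    ← Finset.prod_mul_distrib]
  have h : ∀ i ∈ Finset.range s, q ^ (D - e * i) * q ^ (e * i) = q ^ D := by
    intro i hi
    rw [← pow_add]
    congr 1
    have : e * i ≤ e * s := Nat.mul_le_mul_left _ (Finset.mem_range.1 hi).le
    omega
  rw [Finset.prod_congr rfl h, Finset.prod_const, Finset.card_range, ← pow_mul]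

lemma nine_le {q e : ℕ} (hq : 3 ≤ q) (he2 : 2 ≤ e) : 9 ≤ q ^ e := by
  calc 9 = 3 ^ 2 := by norm_num
    _ ≤ q ^ 2 := Nat.pow_le_pow_left hq 2
    _ ≤ q ^ e := Nat.pow_le_pow_right (by omega) he2

/-- C1 -/
theorem card_stable_ti (hω : IsSymp ω) (hq : 3 ≤ Nat.card F) (A : Subalgebra F (Module.End F V))
    (hA : IsField A) {e s : ℕ} (he2 : 2 ≤ e) (he : finrank F A = e) :
    7 * Nat.card {U : Submodule F V // finrank F U = e * s ∧ Stab A U ∧ TI ω U} *
      Nat.card F ^ (e * s ^ 2 + e * (s * (s - 1) / 2)) ≤ 8 * Nat.card F ^ (finrank F V * s) := by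
  rcases Nat.eq_zero_or_pos
    (Nat.card {U : Submodule F V // finrank F U = e * s ∧ Stab A U ∧ TI ω U}) with h0 | h0
  · rw [h0]; simp
  have hne : Nonempty {U : Submodule F V // finrank F U = e * s ∧ Stab A U ∧ TI ω U} :=
    (Nat.card_pos_iff.1 h0).1
  obtain ⟨U, hU, -⟩ := hne
  have hD : e * s ≤ finrank F V := hU ▸ Submodule.finrank_le U
  have h1 := card_stable_ti_raw (s := s) hω A hA he
  have h2 := prod_lower' 8 (Nat.card F ^ e) (by norm_num) (nine_le hq he2) s
  rw [← prod_field, show 8 - 1 = 7 from rfl, ← pow_mul] at h2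
  have h3 := prod_pow_sub (Nat.card F) e s (finrank F V) hD
  rw [← h3, pow_add, show e * s ^ 2 = e * (s * s) by ring]
  set N := Nat.card {U : Submodule F V // finrank F U = e * s ∧ Stab A U ∧ TI ω U}
  set P := ∏ i ∈ Finset.range s, (Nat.card F ^ (e * s) - Nat.card F ^ (e * i))
  set R := ∏ i ∈ Finset.range s, Nat.card F ^ (finrank F V - e * i)
  calc 7 * N * (Nat.card F ^ (e * (s * s)) * Nat.card F ^ (e * (s * (s - 1) / 2)))
      = N * (7 * Nat.card F ^ (e * (s * s))) * Nat.card F ^ (e * (s * (s - 1) / 2)) := by ring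
    _ ≤ N * (8 * P) * Nat.card F ^ (e * (s * (s - 1) / 2)) :=
        Nat.mul_le_mul_right _ (Nat.mul_le_mul_left _ h2)
    _ = 8 * (N * P) * Nat.card F ^ (e * (s * (s - 1) / 2)) := by ring
    _ ≤ 8 * R * Nat.card F ^ (e * (s * (s - 1) / 2)) :=
        Nat.mul_le_mul_right _ (Nat.mul_le_mul_left _ h1)
    _ = _ := by ring

/-- C2 -/
theorem card_stable (hq : 3 ≤ Nat.card F) (A : Subalgebra F (Module.End F V)) (hA : IsField A)
    {e s : ℕ} (he2 : 2 ≤ e) (he : finrank F A = e) :
    7 * Nat.card {U : Submodule F V // finrank F U = e * s ∧ Stab A U} *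
      Nat.card F ^ (e * s ^ 2) ≤ 8 * Nat.card F ^ (finrank F V * s) := by
  have h1 := card_pairs_le (s := s) A hA he (fun _ => True)
  have h1' : Nat.card {w : Fin s → V // LinearIndependent A w ∧
      ∃ U : Submodule F V, (∀ i, w i ∈ U) ∧ Stab A U ∧ True} ≤ Nat.card F ^ (finrank F V * s) := by
    refine (Nat.card_le_card_of_injective (fun w => w.1) Subtype.val_injective).trans ?_
    rw [Nat.card_fun, Nat.card_fin, Module.natCard_eq_pow_finrank (K := F) (V := V), ← pow_mul]
  have h1'' := h1.trans h1'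
  have hc : Nat.card {U : Submodule F V // finrank F U = e * s ∧ Stab A U ∧ True} =
      Nat.card {U : Submodule F V // finrank F U = e * s ∧ Stab A U} := by
    simp only [and_true]
  rw [hc] at h1''
  have h2 := prod_lower' 8 (Nat.card F ^ e) (by norm_num) (nine_le hq he2) s
  rw [← prod_field, show 8 - 1 = 7 from rfl, ← pow_mul] at h2
  rw [show e * s ^ 2 = e * (s * s) by ring]
  set N := Nat.card {U : Submodule F V // finrank F U = e * s ∧ Stab A U}
  set P := ∏ i ∈ Finset.range s, (Nat.card F ^ (e * s) - Nat.card F ^ (e * i))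
  calc 7 * N * Nat.card F ^ (e * (s * s))
      = N * (7 * Nat.card F ^ (e * (s * s))) := by ring
    _ ≤ N * (8 * P) := Nat.mul_le_mul_left _ h2
    _ = 8 * (N * P) := by ring
    _ ≤ _ := Nat.mul_le_mul_left _ h1''


lemma stab_bot (U : Submodule F V) : Stab (⊥ : Subalgebra F (Module.End F V)) U := by
  intro a ha x hx
  obtain ⟨r, rfl⟩ := Algebra.mem_bot.1 ha
  rw [Module.algebraMap_end_apply]
  exact U.smul_mem r hx

/-- C3 -/
theorem card_lagr_le (hω : IsSymp ω) {m : ℕ} (hm : finrank F V = 2 * m) (hq : 3 ≤ Nat.card F) :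
    Nat.card {U : Submodule F V // finrank F U = m ∧ TI ω U} ≤
      2 * Nat.card F ^ (m * (m + 1) / 2) := by
  rcases Nat.eq_zero_or_pos m with h0 | h0
  · subst h0
    have : Subsingleton {U : Submodule F V // finrank F U = 0 ∧ TI ω U} := by
      constructor
      rintro ⟨U, hU, _⟩ ⟨U', hU', _⟩
      apply Subtype.ext
      rw [Submodule.finrank_eq_zero] at hU hU'
      simp only
      rw [hU, hU']
    have := Finite.card_le_one_iff_subsingleton.2 this
    simp only [Nat.zero_mul, Nat.zero_div, pow_zero]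
    omega
  have hV : Nontrivial V := by
    apply nontrivial_of_finrank_pos (R := F)
    omega
  have hA : IsField (⊥ : Subalgebra F (Module.End F V)) :=
    (Algebra.botEquiv F (Module.End F V)).toMulEquiv.isField (Field.toIsField F)
  have he : finrank F (⊥ : Subalgebra F (Module.End F V)) = 1 := Subalgebra.finrank_bot
  have h1 := card_stable_ti_raw (s := m) hω _ hA he
  have hc : Nat.card {U : Submodule F V // finrank F U = 1 * m ∧
      Stab (⊥ : Subalgebra F (Module.End F V)) U ∧ TI ω U} =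
      Nat.card {U : Submodule F V // finrank F U = m ∧ TI ω U} := by
    refine Nat.card_congr (Equiv.subtypeEquivRight fun U => ?_)
    rw [one_mul]
    exact ⟨fun h => ⟨h.1, h.2.2⟩, fun h => ⟨h.1, stab_bot U, h.2⟩⟩
  rw [hc] at h1
  have h2 := prod_lower' 2 (Nat.card F ^ 1) (by norm_num) (by rw [pow_one]; exact hq) m
  rw [← prod_field, show 2 - 1 = 1 from rfl, pow_one, one_mul] at h2
  have h3 := prod_pow_sub (Nat.card F) 1 m (finrank F V) (by omega)
  set N := Nat.card {U : Submodule F V // finrank F U = m ∧ TI ω U}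
  set P := ∏ i ∈ Finset.range m, (Nat.card F ^ (1 * m) - Nat.card F ^ (1 * i))
  set R := ∏ i ∈ Finset.range m, Nat.card F ^ (finrank F V - 1 * i)
  have hpos : 0 < Nat.card F := by omega
  have h4 : N * (Nat.card F ^ (m * m) * Nat.card F ^ (1 * (m * (m - 1) / 2))) ≤
      2 * Nat.card F ^ (finrank F V * m) := by
    calc N * (Nat.card F ^ (m * m) * Nat.card F ^ (1 * (m * (m - 1) / 2)))
        = N * Nat.card F ^ (m * m) * Nat.card F ^ (1 * (m * (m - 1) / 2)) := by ring
      _ ≤ N * (2 * P) * Nat.card F ^ (1 * (m * (m - 1) / 2)) :=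
          Nat.mul_le_mul_right _ (Nat.mul_le_mul_left _ h2)
      _ = 2 * (N * P) * Nat.card F ^ (1 * (m * (m - 1) / 2)) := by ring
      _ ≤ 2 * R * Nat.card F ^ (1 * (m * (m - 1) / 2)) :=
          Nat.mul_le_mul_right _ (Nat.mul_le_mul_left _ h1)
      _ = 2 * (R * Nat.card F ^ (1 * (m * (m - 1) / 2))) := by ring
      _ = _ := by rw [h3]
  refine Nat.le_of_mul_le_mul_right (h4.trans (le_of_eq ?_))
    (Nat.mul_pos (Nat.pow_pos hpos) (Nat.pow_pos hpos))
  rw [hm, ← pow_add, mul_assoc 2 (Nat.card F ^ (m * (m + 1) / 2)), ← pow_add]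
  congr 2
  obtain ⟨n, rfl⟩ : ∃ n, m = n + 1 := ⟨m - 1, by omega⟩
  rw [Nat.add_sub_cancel]
  have e1 : 2 ∣ (n + 1) * (n + 1 + 1) := (Nat.even_mul_succ_self (n + 1)).two_dvd
  have e2 : 2 ∣ (n + 1) * n := by rw [mul_comm]; exact (Nat.even_mul_succ_self n).two_dvd
  obtain ⟨a, ha⟩ := e1
  obtain ⟨b, hb⟩ := e2
  rw [ha, hb, Nat.mul_div_cancel_left _ (by norm_num), Nat.mul_div_cancel_left _ (by norm_num)]
  nlinarith


/-! ### C4 -/

/-- the algebra of all `a + b z`, where `z² = δ` -/
def Az (z : Module.End F V) (δ : F) (hz : ∀ x, z (z x) = δ • x) :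
    Subalgebra F (Module.End F V) where
  carrier := {T | ∃ a b : F, ∀ x, T x = a • x + b • z x}
  mul_mem' := by
    rintro S T ⟨a, b, hS⟩ ⟨c, d, hT⟩
    refine ⟨a * c + b * d * δ, a * d + b * c, fun x => ?_⟩
    rw [Module.End.mul_apply, hT, hS, map_add, map_smul, map_smul, hz]
    module
  add_mem' := by
    rintro S T ⟨a, b, hS⟩ ⟨c, d, hT⟩
    refine ⟨a + c, b + d, fun x => ?_⟩
    rw [LinearMap.add_apply, hT, hS]
    module
  algebraMap_mem' := by
    intro r
    refine ⟨r, 0, fun x => ?_⟩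
    rw [Module.algebraMap_end_apply]
    module

lemma mem_Az (z : Module.End F V) (δ : F) (hz : ∀ x, z (z x) = δ • x) (T : Module.End F V) :
    T ∈ Az z δ hz ↔ ∃ a b : F, ∀ x, T x = a • x + b • z x := Iff.rfl

lemma Az_indep [Nontrivial V] (z : Module.End F V) (δ : F) (hδ : ¬ IsSquare δ)
    (hz : ∀ x, z (z x) = δ • x) (a b : F) (h : ∀ x, a • x + b • z x = 0) : a = 0 ∧ b = 0 := by
  obtain ⟨x, hx⟩ := exists_ne (0 : V)
  have hb : b = 0 := by
    by_contra hb
    have h1 : z x = (-(b⁻¹ * a)) • x := by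
      have h2 := h x
      have h3 : b⁻¹ • (a • x + b • z x) = 0 := by rw [h2, smul_zero]
      rw [smul_add, smul_smul, smul_smul, inv_mul_cancel₀ hb, one_smul] at h3
      rw [neg_smul]
      exact eq_neg_of_add_eq_zero_right h3
    apply hδ
    refine ⟨-(b⁻¹ * a), ?_⟩
    have h4 : z (z x) = (-(b⁻¹ * a)) • (-(b⁻¹ * a)) • x := by
      rw [h1, map_smul, h1]
    rw [hz, smul_smul] at h4
    exact smul_left_injective F hx h4
  refine ⟨?_, hb⟩
  have h2 := h x
  rw [hb, zero_smul, add_zero] at h2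
  exact (smul_eq_zero.1 h2).resolve_right hx

lemma Az_field [Nontrivial V] (z : Module.End F V) (δ : F) (hδ : ¬ IsSquare δ)
    (hz : ∀ x, z (z x) = δ • x) : IsField (Az z δ hz) where
  exists_pair_ne := ⟨0, 1, zero_ne_one⟩
  mul_comm := by
    rintro ⟨S, a, b, hS⟩ ⟨T, c, d, hT⟩
    apply Subtype.ext
    apply LinearMap.ext
    intro x
    change S (T x) = T (S x)
    rw [hT, hS, hS, hT, map_add, map_smul, map_smul, map_add, map_smul, map_smul, hz]
    module
  mul_inv_cancel := by
    rintro ⟨S, a, b, hS⟩ hne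
    have hn : a * a - δ * (b * b) ≠ 0 := by
      intro h0
      rcases eq_or_ne b 0 with hb | hb
      · have ha : a = 0 := by
          rw [hb, mul_zero, mul_zero, sub_zero] at h0
          exact mul_self_eq_zero.1 h0
        apply hne
        apply Subtype.ext
        apply LinearMap.ext
        intro x
        change S x = 0
        rw [hS, ha, hb]
        simp
      · apply hδ
        refine ⟨a * b⁻¹, ?_⟩
        have h1 : δ * (b * b) = a * a := (sub_eq_zero.1 h0).symm
        field_simp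
        linear_combination h1
    refine ⟨⟨((a * a - δ * (b * b))⁻¹ * a) • LinearMap.id +
      (-((a * a - δ * (b * b))⁻¹ * b)) • z, (a * a - δ * (b * b))⁻¹ * a,
      -((a * a - δ * (b * b))⁻¹ * b), fun x => ?_⟩, ?_⟩
    · simp [LinearMap.add_apply, LinearMap.smul_apply]
    · apply Subtype.ext
      apply LinearMap.ext
      intro x
      change S ((((a * a - δ * (b * b))⁻¹ * a) • LinearMap.id +
        (-((a * a - δ * (b * b))⁻¹ * b)) • z : Module.End F V) x) = x
      rw [hS]
      simp only [LinearMap.add_apply, LinearMap.smul_apply, LinearMap.id_apply, map_add, map_smul,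
        hz]
      have key : (a * a - δ * (b * b))⁻¹ * (a * a - δ * (b * b)) = 1 := inv_mul_cancel₀ hn
      generalize (a * a - δ * (b * b))⁻¹ = t at key
      have e : a • ((t * a) • x + (-(t * b)) • z x) + b • ((t * a) • z x + (-(t * b)) • δ • x) =
          (t * (a * a - δ * (b * b))) • x := by module
      rw [e, key, one_smul]

lemma Az_finrank [Nontrivial V] (z : Module.End F V) (δ : F) (hδ : ¬ IsSquare δ)
    (hz : ∀ x, z (z x) = δ • x) : finrank F (Az z δ hz) = 2 := by
  let φ : (F × F) →ₗ[F] Az z δ hz :=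
    { toFun := fun p => ⟨p.1 • LinearMap.id + p.2 • z, p.1, p.2, fun x => rfl⟩
      map_add' := by
        intro p r
        apply Subtype.ext
        change (p.1 + r.1) • LinearMap.id + (p.2 + r.2) • z =
          (p.1 • LinearMap.id + p.2 • z) + (r.1 • LinearMap.id + r.2 • z)
        module
      map_smul' := by
        intro c p
        apply Subtype.ext
        change (c * p.1) • LinearMap.id + (c * p.2) • z = c • (p.1 • LinearMap.id + p.2 • z)
        module }
  have hinj : Function.Injective φ := by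
    rw [injective_iff_map_eq_zero]
    intro p hp
    have h1 : ∀ x, p.1 • x + p.2 • z x = 0 := by
      intro x
      have := congrArg (fun T : Az z δ hz => (T : Module.End F V) x) hp
      exact this
    obtain ⟨ha, hb⟩ := Az_indep z δ hδ hz p.1 p.2 h1
    exact Prod.ext ha hb
  have hsurj : Function.Surjective φ := by
    rintro ⟨S, a, b, hS⟩
    refine ⟨(a, b), ?_⟩
    apply Subtype.ext
    apply LinearMap.ext
    intro x
    exact (hS x).symm
  rw [← (LinearEquiv.ofBijective φ ⟨hinj, hsurj⟩).finrank_eq, Module.finrank_prod,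
    Module.finrank_self]


lemma nonsq_mul {ν δ : F} (h2 : (2 : F) ≠ 0) (hν : ¬ IsSquare ν) (hδ : ¬ IsSquare δ) :
    ∃ e : F, e ≠ 0 ∧ e * e = δ * ν := by
  classical
  have := Fintype.ofFinite F
  have hF : ringChar F ≠ 2 := by
    intro h
    apply h2
    have := ringChar.spec F 2
    rw [h] at this
    exact_mod_cast this.2 dvd_rfl
  have hν0 : ν ≠ 0 := by rintro rfl; exact hν (IsSquare.zero)
  have hδ0 : δ ≠ 0 := by rintro rfl; exact hδ (IsSquare.zero)
  have h1 : quadraticChar F (δ * ν) = 1 := by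
    rw [map_mul, quadraticChar_neg_one_iff_not_isSquare.2 hν,
      quadraticChar_neg_one_iff_not_isSquare.2 hδ]
    norm_num
  have h3 := (quadraticChar_one_iff_isSquare (mul_ne_zero hδ0 hν0)).1 h1
  obtain ⟨e, he⟩ := h3
  refine ⟨e, ?_, he.symm⟩
  rintro rfl
  rw [mul_zero] at he
  exact mul_ne_zero hδ0 hν0 he

/-- the eigenspace attached to `J` -/
def UJ (z J : Module.End F V) (e : F) : Submodule F V :=
  LinearMap.ker (z * J - e • (1 : Module.End F V))

lemma mem_UJ (z J : Module.End F V) (e : F) (x : V) : x ∈ UJ z J e ↔ z (J x) = e • x := by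
  unfold UJ
  rw [LinearMap.mem_ker, LinearMap.sub_apply, Module.End.mul_apply, LinearMap.smul_apply,
    Module.End.one_apply, sub_eq_zero]

lemma zJ_sq {z J : Module.End F V} {ν δ e : F} (hz : z ∈ Y ω δ) (hJ : J ∈ Y ω ν)
    (hc : ∀ x, J (z x) = z (J x)) (he : e * e = δ * ν) (x : V) :
    z (J (z (J x))) = (e * e) • x := by
  rw [hc, hz.2, hJ.2, he, smul_smul]

/-- `J` is determined by its eigenspace. -/
lemma UJ_inj (hω : IsSymp ω) (h2 : (2 : F) ≠ 0) {z J J' : Module.End F V} {ν δ e : F}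
    (hz : z ∈ Y ω δ) (hδ : δ ≠ 0) (hJ : J ∈ Y ω ν) (hJ' : J' ∈ Y ω ν)
    (hc : ∀ x, J (z x) = z (J x)) (hc' : ∀ x, J' (z x) = z (J' x))
    (he : e * e = δ * ν) (he0 : e ≠ 0) (h : UJ z J e = UJ z J' e) : J = J' := by
  -- projections
  have hp : ∀ (K : Module.End F V), K ∈ Y ω ν → (∀ x, K (z x) = z (K x)) → ∀ w,
      z (K (e • w + z (K w))) = e • (e • w + z (K w)) ∧
      z (K (e • w - z (K w))) = -(e • (e • w - z (K w))) := by
    intro K hK hcK w
    have hs := zJ_sq hz hK hcK he w
    constructor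
    · rw [map_add, map_add, map_smul, map_smul, hs]; module
    · rw [map_sub, map_sub, map_smul, map_smul, hs]; module
  have hsa : ∀ (K : Module.End F V), K ∈ Y ω ν → (∀ x, K (z x) = z (K x)) → ∀ u w,
      ω (z (K u)) w = ω u (z (K w)) := by
    intro K hK hcK u w
    rw [hz.1, hK.1, hcK, neg_neg]
  -- orthogonality
  have horth : ∀ (K : Module.End F V), K ∈ Y ω ν → (∀ x, K (z x) = z (K x)) → ∀ u w,
      z (K u) = e • u → z (K w) = -(e • w) → ω u w = 0 := by
    intro K hK hcK u w hu hw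
    have h1 := hsa K hK hcK u w
    rw [hu, hw, map_smul, LinearMap.smul_apply, map_neg, map_smul, smul_eq_mul] at h1
    have h3 : (2 : F) * (e * ω u w) = 0 := by linear_combination h1
    have h4 := (mul_eq_zero.1 h3).resolve_left h2
    exact (mul_eq_zero.1 h4).resolve_left he0
  -- orthogonal complement
  have hcompl : ∀ (K : Module.End F V), K ∈ Y ω ν → (∀ x, K (z x) = z (K x)) → ∀ w,
      (∀ u, z (K u) = e • u → ω u w = 0) → z (K w) = -(e • w) := by
    intro K hK hcK w hw
    have hzero : e • w + z (K w) = 0 := by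
      apply hω.nd
      intro y
      -- y = (1/(2e)) (y₊ + y₋)
      have hy1 : ω (e • w + z (K w)) (e • y + z (K y)) = 0 := by
        have h5 : ω (e • w + z (K w)) (e • y + z (K y)) =
            (2 * e) * ω w (e • y + z (K y)) := by
          rw [LinearMap.map_add₂, hsa K hK hcK, (hp K hK hcK y).1, LinearMap.map_smul₂,
            LinearMap.map_smul, smul_eq_mul]
          ring
        have h6 : ω (e • y + z (K y)) w = 0 := hw _ (hp K hK hcK y).1
        have h7 : ω w (e • y + z (K y)) = -ω (e • y + z (K y)) w := by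
          have h8 := hω.alt (w + (e • y + z (K y)))
          rw [LinearMap.map_add₂, LinearMap.map_add, LinearMap.map_add (ω (e • y + z (K y))) w,
            hω.alt, hω.alt] at h8
          linear_combination h8
        rw [h5, h7, h6]; ring
      have hy2 : ω (e • w + z (K w)) (e • y - z (K y)) = 0 :=
        horth K hK hcK _ _ (hp K hK hcK w).1 (hp K hK hcK y).2
      have h9 : (2 * e) * ω (e • w + z (K w)) y = 0 := by
        have h10 : ω (e • w + z (K w)) (e • y + z (K y)) +
            ω (e • w + z (K w)) (e • y - z (K y)) = (2 * e) * ω (e • w + z (K w)) y := by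
          rw [← map_add]
          have : e • y + z (K y) + (e • y - z (K y)) = (2 * e) • y := by module
          rw [this, map_smul, smul_eq_mul]
        rw [← h10, hy1, hy2, add_zero]
      exact (mul_eq_zero.1 h9).resolve_left (mul_ne_zero h2 he0)
    exact eq_neg_of_add_eq_zero_right hzero
  have hU : ∀ x, z (J x) = e • x ↔ z (J' x) = e • x := by
    intro x
    rw [← mem_UJ, ← mem_UJ, h]
  have hzz : ∀ w, z (J w) = z (J' w) := by
    intro w
    have hw1 := (hp J hJ hc w).1
    have hw2 := (hp J hJ hc w).2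
    have hw1' : z (J' (e • w + z (J w))) = e • (e • w + z (J w)) := (hU _).1 hw1
    have hw2' : z (J' (e • w - z (J w))) = -(e • (e • w - z (J w))) := by
      apply hcompl J' hJ' hc'
      intro u hu
      exact horth J hJ hc u _ ((hU u).2 hu) hw2
    have h11 : z (J' (e • w + z (J w))) + z (J' (e • w - z (J w))) = (2 * e) • z (J' w) := by
      rw [← map_add, ← map_add]
      have : e • w + z (J w) + (e • w - z (J w)) = (2 * e) • w := by module
      rw [this, map_smul, map_smul]
    rw [hw1', hw2'] at h11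
    have h12 : (2 * e) • z (J w) = (2 * e) • z (J' w) := by
      rw [← h11]; module
    exact smul_right_injective V (mul_ne_zero h2 he0) h12
  apply LinearMap.ext
  intro x
  have h13 : z (z (J x)) = z (z (J' x)) := by rw [hzz]
  rw [hz.2, hz.2] at h13
  exact smul_right_injective V hδ h13


lemma UJ_stab {z J : Module.End F V} {δ e : F} (hz : z ∈ Y ω δ)
    (hc : ∀ x, J (z x) = z (J x)) : Stab (Az z δ hz.2) (UJ z J e) := by
  rintro T ⟨a, b, hT⟩ x hx
  rw [mem_UJ] at hx ⊢
  rw [hT, map_add, map_add, map_smul, map_smul, map_smul, map_smul, hc, hx, map_smul]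
  module

lemma UJ_even [Nontrivial V] {z : Module.End F V} {δ : F} (hz : z ∈ Y ω δ)
    (hδ : ¬ IsSquare δ) (U : Submodule F V) (hU : Stab (Az z δ hz.2) U) :
    ∃ k, finrank F U = 2 * k := by
  let _ : Field (Az z δ hz.2) := (Az_field z δ hδ hz.2).toField
  have : Finite (Az z δ hz.2) := Module.finite_of_finite F
  have h1 : Nat.card (toSub (Az z δ hz.2) U hU) =
      Nat.card (Az z δ hz.2) ^ finrank (Az z δ hz.2) (toSub (Az z δ hz.2) U hU) :=
    Module.natCard_eq_pow_finrank
  have h2 : Nat.card (toSub (Az z δ hz.2) U hU) = Nat.card U := rfl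
  have h3 : Nat.card U = Nat.card F ^ finrank F U := Module.natCard_eq_pow_finrank
  have h4 := card_alg (Az z δ hz.2) (Az_finrank z δ hδ hz.2)
  rw [h2, h3, h4, ← pow_mul] at h1
  exact ⟨_, Nat.pow_right_injective (show 2 ≤ Nat.card F from one_lt_q) h1⟩

/-- C4 -/
theorem card_Y_comm_Y_le (hω : IsSymp ω) (h2 : (2 : F) ≠ 0) (hq : 3 ≤ Nat.card F) {ν δ : F}
    (hν : ¬ IsSquare ν) (hδ : ¬ IsSquare δ) {m : ℕ} (hm : finrank F V = 2 * m)
    {z : Module.End F V} (hz : z ∈ Y ω δ) :
    7 * Nat.card {J : Y ω ν // ∀ x, J.1 (z x) = z (J.1 x)} ≤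
      8 * ∑ k ∈ Finset.range (m + 1), Nat.card F ^ (2 * k * (m - k)) := by
  have hfinE : Finite (Module.End F V) := Module.finite_of_finite F
  rcases Nat.eq_zero_or_pos m with h0 | h0
  · subst h0
    have hV : Subsingleton V := by
      rw [← Module.finrank_zero_iff (R := F)]
      simpa using hm
    have hsub : Subsingleton {J : Y ω ν // ∀ x, J.1 (z x) = z (J.1 x)} := by
      constructor
      intro a b
      apply Subtype.ext
      apply Subtype.ext
      apply LinearMap.ext
      intro x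
      exact Subsingleton.elim _ _
    have := Finite.card_le_one_iff_subsingleton.2 hsub
    simp only [zero_add, Finset.range_one, Finset.sum_singleton, mul_zero, pow_zero, zero_mul]
    omega
  have hV : Nontrivial V := by
    apply nontrivial_of_finrank_pos (R := F)
    omega
  obtain ⟨e, he0, he⟩ := nonsq_mul h2 hν hδ
  have hδ0 : δ ≠ 0 := by rintro rfl; exact hδ (IsSquare.zero)
  have hfinS : Finite (Submodule F V) :=
    Finite.of_injective (fun U => (U : Set V)) SetLike.coe_injective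
  -- the injection
  have hk : ∀ J : {J : Y ω ν // ∀ x, J.1 (z x) = z (J.1 x)},
      ∃ k : Fin (m + 1), finrank F (UJ z J.1.1 e) = 2 * (k : ℕ) := by
    intro J
    obtain ⟨k, hk⟩ := UJ_even hz hδ (UJ z J.1.1 e) (UJ_stab hz J.2)
    have h3 := Submodule.finrank_le (UJ z J.1.1 e)
    exact ⟨⟨k, by omega⟩, hk⟩
  choose κ hκ using hk
  let φ : {J : Y ω ν // ∀ x, J.1 (z x) = z (J.1 x)} →
      Σ k : Fin (m + 1), {U : Submodule F V // finrank F U = 2 * (k : ℕ) ∧ Stab (Az z δ hz.2) U} :=
    fun J => ⟨κ J, UJ z J.1.1 e, hκ J, UJ_stab hz J.2⟩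
  have hφ : Function.Injective φ := by
    intro J J' h
    have h4 : UJ z J.1.1 e = UJ z J'.1.1 e := by
      have h5 := congrArg (fun p : (Σ k : Fin (m + 1),
        {U : Submodule F V // finrank F U = 2 * (k : ℕ) ∧ Stab (Az z δ hz.2) U}) =>
        (p.2 : Submodule F V)) h
      exact h5
    apply Subtype.ext
    apply Subtype.ext
    exact UJ_inj hω h2 hz hδ0 J.1.2 J'.1.2 J.2 J'.2 he he0 h4
  have h6 := Nat.card_le_card_of_injective φ hφ
  rw [Nat.card_sigma] at h6
  have h7 : ∀ k : Fin (m + 1),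
      7 * Nat.card {U : Submodule F V // finrank F U = 2 * (k : ℕ) ∧ Stab (Az z δ hz.2) U} ≤
      8 * Nat.card F ^ (2 * (k : ℕ) * (m - k)) := by
    intro k
    have h8 := card_stable (s := (k : ℕ)) hq (Az z δ hz.2) (Az_field z δ hδ hz.2) le_rfl
      (Az_finrank z δ hδ hz.2)
    have hpos : 0 < Nat.card F ^ (2 * (k : ℕ) ^ 2) := Nat.pow_pos (by omega)
    refine Nat.le_of_mul_le_mul_right (h8.trans (le_of_eq ?_)) hpos
    rw [mul_assoc, ← pow_add, hm]
    congr 2
    obtain ⟨j, hj⟩ : ∃ j, m = (k : ℕ) + j := ⟨m - k, by omega⟩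
    generalize (k : ℕ) = i at hj ⊢
    rw [hj, Nat.add_sub_cancel_left]
    ring
  calc 7 * Nat.card {J : Y ω ν // ∀ x, J.1 (z x) = z (J.1 x)}
      ≤ 7 * ∑ k : Fin (m + 1),
        Nat.card {U : Submodule F V // finrank F U = 2 * (k : ℕ) ∧ Stab (Az z δ hz.2) U} :=
        Nat.mul_le_mul_left _ h6
    _ = ∑ k : Fin (m + 1),
        7 * Nat.card {U : Submodule F V // finrank F U = 2 * (k : ℕ) ∧ Stab (Az z δ hz.2) U} := by
        rw [Finset.mul_sum]
    _ ≤ ∑ k : Fin (m + 1), 8 * Nat.card F ^ (2 * (k : ℕ) * (m - k)) :=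
        Finset.sum_le_sum fun k _ => h7 k
    _ = 8 * ∑ k ∈ Finset.range (m + 1), Nat.card F ^ (2 * k * (m - k)) := by
        rw [← Finset.mul_sum, Finset.sum_range (fun k => Nat.card F ^ (2 * k * (m - k)))]

end Pool.Agent.UD
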