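import Pool.Agent.UD.YUpper1
import Pool.Agent.UD.Stable

/-!
# Block E : upper bounds for the sets `Y` (E2; E1 is in `YUpper1`)
-/

open Module

namespace Pool.Agent.UD

open Yu Sf

variable {F V : Type*} [Field F] [Finite F] [AddCommGroup V] [Module F V] [Finite V]
variable {ω : LinearMap.BilinForm F V}

/-- E2 : elements of `Y ω (-1)` commuting with a self-adjoint field `A` of odd degree `t ≥ 3`. -/
theorem card_Y_neg_one_le (hω : IsSymp ω) (h2 : (2 : F) ≠ 0)
    (A : Subalgebra F (Module.End F V)) (hA : IsField A) (hsa : ∀ a ∈ A, IsSA ω a)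
    {t k : ℕ} (ht : Odd t) (ht3 : 3 ≤ t) (hq : 3 ≤ Nat.card F) (he : finrank F A = t)
    (hV : finrank F V = 2 * t * k) :
    49 * Nat.card {J : Y ω (-1 : F) // ∀ a ∈ A, ∀ x, J.1 (a x) = a (J.1 x)} ≤
      64 * Nat.card F ^ (t * k * (k + 1)) := by
  classical
  have : FiniteDimensional F V := Module.Finite.of_finite
  by_cases hsq : IsSquare (-1 : F)
  · obtain ⟨c, hc⟩ := hsq
    have hc0 : c ≠ 0 := by
      rintro rfl
      simp at hc
    set T := {U : Submodule F V // finrank F U = t * k ∧ Stab A U ∧ TI ω U} with hT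
    set S := {J : Y ω (-1 : F) // ∀ a ∈ A, ∀ x, J.1 (a x) = a (J.1 x)} with hS
    -- the two eigenspaces
    have hti : ∀ (J : S) (s : F), s * s = -1 →
        TI ω (LinearMap.ker (J.1.1 - s • (1 : Module.End F V))) := by
      intro J s hs x hx y hy
      rw [LinearMap.mem_ker, LinearMap.sub_apply, LinearMap.smul_apply, Module.End.one_apply,
        sub_eq_zero] at hx hy
      have h3 := J.1.2.1 x y
      rw [hx, hy, map_smul, map_smul, LinearMap.smul_apply, smul_eq_mul] at h3
      have h4 : (2 * s) * ω x y = 0 := by linear_combination h3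
      have hs0 : s ≠ 0 := by
        rintro rfl
        simp at hs
      rcases mul_eq_zero.1 h4 with h5 | h5
      · exact absurd h5 (mul_ne_zero h2 hs0)
      · exact h5
    have hstab : ∀ (J : S) (s : F),
        Stab A (LinearMap.ker (J.1.1 - s • (1 : Module.End F V))) := by
      intro J s a ha x hx
      rw [LinearMap.mem_ker, LinearMap.sub_apply, LinearMap.smul_apply, Module.End.one_apply,
        sub_eq_zero] at hx ⊢
      rw [J.2 a ha, hx, map_smul]
    have hcc : c * c = -1 := hc.symm
    have hcn : (-c) * (-c) = -1 := by rw [neg_mul_neg, hcc]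
    have hsup : ∀ J : S, LinearMap.ker (J.1.1 - c • (1 : Module.End F V)) ⊔
        LinearMap.ker (J.1.1 - (-c) • (1 : Module.End F V)) = ⊤ := by
      intro J
      rw [eq_top_iff]
      intro x _
      have hx : x = ((2 * c)⁻¹ • (J.1.1 x + c • x)) + (-(2 * c)⁻¹) • (J.1.1 x - c • x) := by
        have h3 : (2 * c) ≠ 0 := mul_ne_zero h2 hc0
        have h4 : ((2 * c)⁻¹ • (J.1.1 x + c • x)) + (-(2 * c)⁻¹) • (J.1.1 x - c • x) =
            ((2 * c)⁻¹ * (2 * c)) • x := by module
        rw [h4, inv_mul_cancel₀ h3, one_smul]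
      rw [hx]
      have hJ2 : J.1.1 (J.1.1 x) = (c * c) • x := by
        rw [hcc]
        exact J.1.2.2 x
      refine Submodule.add_mem_sup (Submodule.smul_mem _ _ ?_) (Submodule.smul_mem _ _ ?_)
      · rw [LinearMap.mem_ker, LinearMap.sub_apply, LinearMap.smul_apply, Module.End.one_apply,
          map_add, hJ2, map_smul]
        module
      · rw [LinearMap.mem_ker, LinearMap.sub_apply, LinearMap.smul_apply, Module.End.one_apply,
          map_sub, hJ2, map_smul]
        module
    have hV2 : finrank F V = 2 * (t * k) := by rw [hV]; ring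
    have hfr : ∀ (J : S) (s : F), (s = c ∨ s = -c) →
        finrank F (LinearMap.ker (J.1.1 - s • (1 : Module.End F V))) = t * k := by
      intro J s hs
      have h3 := Frames.ti_le hω hV2 rfl (hti J c hcc)
      have h4 := Frames.ti_le hω hV2 rfl (hti J (-c) hcn)
      have h5 := Submodule.finrank_add_le_finrank_add_finrank
        (LinearMap.ker (J.1.1 - c • (1 : Module.End F V)))
        (LinearMap.ker (J.1.1 - (-c) • (1 : Module.End F V)))
      rw [hsup J, finrank_top, hV2] at h5
      rcases hs with rfl | rfl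
      · omega
      · omega
    have h3 : Nat.card S ≤ Nat.card (T × T) := by
      apply Nat.card_le_card_of_injective (fun J : S =>
        ((⟨LinearMap.ker (J.1.1 - c • (1 : Module.End F V)), hfr J c (Or.inl rfl), hstab J c,
          hti J c hcc⟩ : T), (⟨LinearMap.ker (J.1.1 - (-c) • (1 : Module.End F V)),
          hfr J (-c) (Or.inr rfl), hstab J (-c), hti J (-c) hcn⟩ : T)))
      intro J J' hJJ
      have e1 : LinearMap.ker (J.1.1 - c • (1 : Module.End F V)) =
          LinearMap.ker (J'.1.1 - c • (1 : Module.End F V)) :=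
        congrArg (fun p : T × T => p.1.1) hJJ
      have e2 : LinearMap.ker (J.1.1 - (-c) • (1 : Module.End F V)) =
          LinearMap.ker (J'.1.1 - (-c) • (1 : Module.End F V)) :=
        congrArg (fun p : T × T => p.2.1) hJJ
      apply Subtype.ext
      apply Subtype.ext
      ext x
      have hx : x ∈ LinearMap.ker (J.1.1 - c • (1 : Module.End F V)) ⊔
        LinearMap.ker (J.1.1 - (-c) • (1 : Module.End F V)) := by
        rw [hsup J]
        trivial
      obtain ⟨y, hy, z, hz, rfl⟩ := Submodule.mem_sup.1 hx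
      have hy' := hy
      have hz' := hz
      rw [e1] at hy'
      rw [e2] at hz'
      rw [LinearMap.mem_ker, LinearMap.sub_apply, LinearMap.smul_apply, Module.End.one_apply,
        sub_eq_zero] at hy hz hy' hz'
      rw [map_add, map_add, hy, hz, hy', hz']
    rw [Nat.card_prod] at h3
    have h4 := card_stable_ti hω hq A hA (e := t) (s := k) (by omega) he
    rw [hV] at h4
    change 7 * Nat.card T * _ ≤ _ at h4
    have h5 : t * k * (k + 1) = 2 * (2 * t * k * k) - 2 * (t * k ^ 2 + t * (k * (k - 1) / 2)) := by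
      have h6 : 2 * (k * (k - 1) / 2) = k * (k - 1) :=
        Nat.mul_div_cancel' (Nat.even_mul_pred_self k).two_dvd
      have h7 : 2 * (t * k ^ 2 + t * (k * (k - 1) / 2)) = 2 * t * k ^ 2 + t * (k * (k - 1)) := by
        rw [mul_add, mul_left_comm 2 t (k * (k - 1) / 2), h6]
        ring
      rw [h7]
      rcases k with _ | k
      · simp
      · have h8 : 2 * (2 * t * (k + 1) * (k + 1)) = t * (k + 1) * (k + 1 + 1) +
            (2 * t * (k + 1) ^ 2 + t * ((k + 1) * (k + 1 - 1))) := by
          rw [Nat.add_sub_cancel]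
          ring
        rw [h8, Nat.add_sub_cancel]
    have hle : 2 * (t * k ^ 2 + t * (k * (k - 1) / 2)) ≤ 2 * (2 * t * k * k) := by
      have h6 : 2 * (k * (k - 1) / 2) = k * (k - 1) :=
        Nat.mul_div_cancel' (Nat.even_mul_pred_self k).two_dvd
      have h7 : 2 * (t * k ^ 2 + t * (k * (k - 1) / 2)) = 2 * t * k ^ 2 + t * (k * (k - 1)) := by
        rw [mul_add, mul_left_comm 2 t (k * (k - 1) / 2), h6]
        ring
      rw [h7]
      have h8 : t * (k * (k - 1)) ≤ t * (k * k) := by
        gcongr
        omega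
      nlinarith
    set E := t * k ^ 2 + t * (k * (k - 1) / 2) with hE
    set Q := Nat.card F with hQ
    have hQpos : 0 < Q ^ (2 * E) := by
      have : 0 < Q := by omega
      positivity
    have h6 : (7 * Nat.card T * Q ^ E) * (7 * Nat.card T * Q ^ E) ≤
        (8 * Q ^ (2 * t * k * k)) * (8 * Q ^ (2 * t * k * k)) := Nat.mul_le_mul h4 h4
    have h7 : (49 * (Nat.card T * Nat.card T)) * Q ^ (2 * E) ≤
        (64 * Q ^ (t * k * (k + 1))) * Q ^ (2 * E) := by
      calc (49 * (Nat.card T * Nat.card T)) * Q ^ (2 * E) =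
          (7 * Nat.card T * Q ^ E) * (7 * Nat.card T * Q ^ E) := by ring
        _ ≤ (8 * Q ^ (2 * t * k * k)) * (8 * Q ^ (2 * t * k * k)) := h6
        _ = 64 * Q ^ (2 * (2 * t * k * k)) := by ring
        _ = (64 * Q ^ (t * k * (k + 1))) * Q ^ (2 * E) := by
          rw [mul_assoc 64 (Q ^ (t * k * (k + 1))) (Q ^ (2 * E)), ← pow_add, h5,
            Nat.sub_add_cancel hle]
    have h8 := Nat.le_of_mul_le_mul_right h7 hQpos
    calc 49 * Nat.card S ≤ 49 * (Nat.card T * Nat.card T) := by gcongr
      _ ≤ _ := h8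
  · have h3 := card_Y_comm_le hω hsq A hA hsa ht he hV
    have h4 : 49 * Nat.card {J : Y ω (-1 : F) // ∀ a ∈ A, ∀ x, J.1 (a x) = a (J.1 x)} ≤
        49 * Nat.card F ^ (t * k * (k + 1)) := Nat.mul_le_mul_left _ h3
    refine h4.trans (Nat.mul_le_mul_right _ (by norm_num))

end Pool.Agent.UD
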