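import Pool.Agent.UD.Defs2
import Pool.Agent.UD.LinAlg
import Pool.Agent.UD.Frames
import Pool.Agent.UD.Stable
import Pool.Agent.UD.YBasic
import Pool.Agent.UD.YUpper
import Pool.Agent.UD.Galois
import Pool.Agent.UD.Central

/-!
# Block K : the events
-/

open Module

namespace Pool.Agent.UD

section generic

theorem card_sub_mono {S : Type*} [Finite S] {P Q : S → Prop} (h : ∀ g, P g → Q g) :
    Nat.card {g : S // P g} ≤ Nat.card {g : S // Q g} :=
  Nat.card_le_card_of_injective (Subtype.map id h) (Subtype.map_injective h Function.injective_id)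

theorem card_sub_le {S : Type*} [Finite S] (P : S → Prop) :
    Nat.card {g : S // P g} ≤ Nat.card S :=
  Nat.card_le_card_of_injective Subtype.val Subtype.val_injective

/-- Union bound. -/
theorem card_union_le {S I : Type*} [Finite S] [Finite I] (P : I → S → Prop) (M c : ℕ)
    (h : ∀ i, Nat.card {g : S // P i g} * M ≤ c) :
    Nat.card {g : S // ∃ i, P i g} * M ≤ Nat.card I * c := by
  classical
  have := Fintype.ofFinite I
  have h1 : Nat.card {g : S // ∃ i, P i g} ≤ ∑ i : I, Nat.card {g : S // P i g} := by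
    rw [← Nat.card_sigma]
    apply Nat.card_le_card_of_injective
      (fun g : {g : S // ∃ i, P i g} => (⟨g.2.choose, ⟨g.1, g.2.choose_spec⟩⟩ :
        Σ i, {g : S // P i g}))
    intro g g' hgg
    apply Subtype.ext
    exact congrArg (fun z : Σ i, {g : S // P i g} => z.2.1) hgg
  calc Nat.card {g : S // ∃ i, P i g} * M ≤ (∑ i : I, Nat.card {g : S // P i g}) * M :=
        Nat.mul_le_mul_right _ h1
    _ = ∑ i : I, Nat.card {g : S // P i g} * M := Finset.sum_mul _ _ _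
    _ ≤ ∑ _i : I, c := Finset.sum_le_sum fun i _ => h i
    _ = Nat.card I * c := by rw [Finset.sum_const, Nat.card_eq_fintype_card, smul_eq_mul]; rfl

/-- Bound for dependent pairs. -/
theorem card_sigma_le {A : Type*} {B : A → Type*} [Finite A] [∀ a, Finite (B a)] (M c : ℕ)
    (h : ∀ a, M * Nat.card (B a) ≤ c) : M * Nat.card (Σ a, B a) ≤ Nat.card A * c := by
  classical
  have := Fintype.ofFinite A
  rw [Nat.card_sigma, Finset.mul_sum]
  calc ∑ a, M * Nat.card (B a) ≤ ∑ _a : A, c := Finset.sum_le_sum fun a _ => h a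
    _ = Nat.card A * c := by rw [Finset.sum_const, Nat.card_eq_fintype_card, smul_eq_mul]; rfl

end generic

variable {F V : Type*} [Field F] [Finite F] [AddCommGroup V] [Module F V] [Finite V]
variable {ω : LinearMap.BilinForm F V}

section inst

omit [Finite F]

instance instFiniteEnd : Finite (Module.End F V) := DFunLike.finite (Module.End F V)

instance instFiniteEquiv : Finite (V ≃ₗ[F] V) := DFunLike.finite (V ≃ₗ[F] V)

instance instFiniteSp : Finite (Sp ω) := inferInstance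

instance instFiniteSub : Finite (Submodule F V) :=
  Finite.of_injective (fun U : Submodule F V => (U : Set V)) SetLike.coe_injective

end inst

section conj

omit [Finite F] [Finite V]

theorem cj_inv_cj (g : V ≃ₗ[F] V) (T : Module.End F V) : cj g⁻¹ (cj g T) = T := by
  rw [← mul_cj, inv_mul_cancel, one_cj]

theorem cj_cj_inv (g : V ≃ₗ[F] V) (T : Module.End F V) : cj g (cj g⁻¹ T) = T := by
  rw [← mul_cj, mul_inv_cancel, one_cj]

theorem inv_app (g : V ≃ₗ[F] V) (x : V) : g⁻¹ x = g.symm x := rfl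

theorem cj_apply_app (g : V ≃ₗ[F] V) (T : Module.End F V) (x : V) : cj g T (g x) = g (T x) := by
  simp

theorem cj_mem_Y {g : V ≃ₗ[F] V} (hg : g ∈ Sp ω) {ν : F} {J : Module.End F V} (hJ : J ∈ Y ω ν) :
    cj g J ∈ Y ω ν := by
  have hg' : ∀ x y, ω (g x) y = ω x (g.symm y) := by
    intro x y
    have := hg x (g.symm y)
    rwa [g.apply_symm_apply] at this
  have hg'' : ∀ x y, ω x (g y) = ω (g.symm x) y := by
    intro x y
    have := hg (g.symm x) y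
    rwa [g.apply_symm_apply] at this
  constructor
  · intro x y
    simp only [cj_apply]
    rw [hg', hg'']
    exact hJ.1 _ _
  · intro x
    simp only [cj_apply, LinearEquiv.symm_apply_apply, hJ.2, map_smul,
      LinearEquiv.apply_symm_apply]

theorem inv_mem_Sp {g : V ≃ₗ[F] V} (hg : g ∈ Sp ω) : g⁻¹ ∈ Sp ω := (Sp ω).inv_mem hg

/-- Conjugation of commutation relations. -/
theorem cm_conj {g : V ≃ₗ[F] V} {B : Subalgebra F (Module.End F V)} {J : Module.End F V}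
    (h : ∀ b ∈ cjA g B, Cm J b) : ∀ b ∈ B, ∀ x, cj g⁻¹ J (b x) = b (cj g⁻¹ J x) := by
  intro b hb x
  have h1 := h (cj g b) (mem_cjA.2 ⟨b, hb, rfl⟩) (g x)
  rw [cj_apply_app] at h1
  have h2 : cj g⁻¹ J (b x) = g.symm (J (g (b x))) := rfl
  have h3 : cj g⁻¹ J x = g.symm (J (g x)) := rfl
  rw [h2, h3, h1]
  simp

end conj

/-- K0 -/
theorem card_fibre (hω : IsSymp ω) (h2 : (2 : F) ≠ 0) {ν : F} (hν : ¬ IsSquare ν)
    {J J' : Module.End F V} (hJ : J ∈ Y ω ν) (hJ' : J' ∈ Y ω ν) :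
    Nat.card {g : Sp ω // cj g.1 J = J'} * Nat.card (Y ω ν) = Nat.card (Sp ω) := by
  classical
  have e1 : Sp ω ≃ Σ J'' : Y ω ν, {g : Sp ω // cj g.1 J = J''.1} :=
    { toFun := fun g => ⟨⟨cj g.1 J, cj_mem_Y g.2 hJ⟩, ⟨g, rfl⟩⟩
      invFun := fun z => z.2.1
      left_inv := fun g => rfl
      right_inv := by
        rintro ⟨⟨J'', h⟩, ⟨g, hg⟩⟩
        dsimp only at hg
        subst hg
        rfl }
  have := Fintype.ofFinite (Y ω ν)
  rw [Nat.card_congr e1, Nat.card_sigma]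
  have h1 : ∀ J'' : Y ω ν, Nat.card {g : Sp ω // cj g.1 J = J''.1} =
      Nat.card {g : Sp ω // cj g.1 J = J'} := by
    intro J''
    obtain ⟨h, hh, hJJ⟩ := Y_trans hω h2 hν hJ' J''.2
    refine Nat.card_congr
      { toFun := fun g => ⟨⟨h, hh⟩⁻¹ * g.1, ?_⟩
        invFun := fun g => ⟨⟨h, hh⟩ * g.1, ?_⟩
        left_inv := fun g => by simp
        right_inv := fun g => by simp }
    · have := g.2
      show cj (h⁻¹ * g.1.1) J = J'
      rw [mul_cj, this, ← hJJ, cj_inv_cj]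
    · have := g.2
      show cj (h * g.1.1) J = J''.1
      rw [mul_cj, this, hJJ]
  rw [Finset.sum_congr rfl fun J'' _ => h1 J'', Finset.sum_const, Finset.card_univ,
    ← Nat.card_eq_fintype_card, smul_eq_mul, mul_comm]

/-- The dimension of a symplectic space is even. -/
theorem even_finrank (hω : IsSymp ω) : Even (finrank F V) := by
  classical
  let P : ℕ → Prop := fun k => ∃ u : Fin k → V, LinearIndependent F u ∧ ∀ i j, ω (u i) (u j) = 0
  have hP0 : P 0 := ⟨Fin.elim0, linearIndependent_empty_type, fun i => i.elim0⟩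
  have hPb : ∀ k, P k → k ≤ finrank F V := by
    rintro k ⟨u, hu, -⟩
    simpa using hu.fintype_card_le_finrank
  have hspec : P (Nat.findGreatest P (finrank F V)) :=
    Nat.findGreatest_spec (m := 0) (Nat.zero_le _) hP0
  have hmax : ¬ P (Nat.findGreatest P (finrank F V) + 1) := by
    intro h
    have := Nat.le_findGreatest (hPb _ h) h
    omega
  generalize Nat.findGreatest P (finrank F V) = k at hspec hmax
  obtain ⟨u, hu, huu⟩ := hspec
  have hspan : ∀ y, (∀ i, ω (u i) y = 0) ↔ y ∈ Submodule.span F (Set.range u) := by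
    intro y
    constructor
    · intro hy
      by_contra hn
      apply hmax
      refine ⟨Fin.snoc u y, linearIndependent_finSnoc.2 ⟨hu, hn⟩, ?_⟩
      intro i j
      refine Fin.lastCases ?_ (fun i => ?_) i <;> refine Fin.lastCases ?_ (fun j => ?_) j
      · simp [hω.alt]
      · simp only [Fin.snoc_last, Fin.snoc_castSucc]
        rw [neg_symm hω (u j) y, hy j, neg_zero]
      · simp only [Fin.snoc_last, Fin.snoc_castSucc]
        exact hy i
      · simp only [Fin.snoc_castSucc]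
        exact huu i j
    · intro hy i
      induction hy using Submodule.span_induction with
      | mem x hx =>
        obtain ⟨j, rfl⟩ := hx
        exact huu i j
      | zero => simp
      | add x y _ _ hx hy => rw [map_add, hx, hy, add_zero]
      | smul a x _ hx => rw [map_smul, hx, smul_zero]
  have h1 := card_solutions hω u hu (fun _ => 0)
  have h2 : Nat.card {y : V // ∀ i, ω (u i) y = 0} = Nat.card F ^ k := by
    have e : {y : V // ∀ i, ω (u i) y = 0} ≃ Submodule.span F (Set.range u) :=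
      Equiv.subtypeEquivRight hspan
    rw [Nat.card_congr e, Module.natCard_eq_pow_finrank (K := F), finrank_span_eq_card hu,
      Fintype.card_fin]
  rw [h2, Fintype.card_fin] at h1
  have h3 : k = finrank F V - k := Nat.pow_right_injective
    (by have := Finite.one_lt_card (α := F); omega) h1
  have h4 := hPb k ⟨u, hu, huu⟩
  exact ⟨k, by omega⟩

/-- K2' : the dimension of a nondegenerate subspace is even (used for K2). -/
theorem even_finrank_of_ND (hω : IsSymp ω) (U : Submodule F V) (hU : ND ω U) :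
    Even (finrank F U) := by
  have h1 : IsSymp (ω.domRestrict₁₂ U U) := by
    constructor
    · intro x
      exact hω.alt x.1
    · intro x hx
      apply Subtype.ext
      exact hU x.1 x.2 fun y hy => hx ⟨y, hy⟩
  exact even_finrank h1

section comap

omit [Finite F] [Finite V]

theorem map_comap_eq (g : V ≃ₗ[F] V) (U : Submodule F V) :
    (U.comap (g : V →ₗ[F] V)).map (g : V →ₗ[F] V) = U :=
  Submodule.map_comap_eq_of_surjective g.surjective U

theorem finrank_comap (g : V ≃ₗ[F] V) (U : Submodule F V) :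
    finrank F (U.comap (g : V →ₗ[F] V)) = finrank F U := by
  have := LinearEquiv.finrank_map_eq g (U.comap (g : V →ₗ[F] V))
  rw [map_comap_eq] at this
  exact this.symm

theorem stab_comap {g : V ≃ₗ[F] V} {U : Submodule F V} {B : Subalgebra F (Module.End F V)}
    (h : Stab (cjA g B) U) : Stab B (U.comap (g : V →ₗ[F] V)) := by
  intro b hb x hx
  have h1 := h (cj g b) (mem_cjA.2 ⟨b, hb, rfl⟩) (g x) hx
  rw [cj_apply_app] at h1
  exact h1

theorem ti_comap {g : V ≃ₗ[F] V} (hg : g ∈ Sp ω) {U : Submodule F V} (h : TI ω U) :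
    TI ω (U.comap (g : V →ₗ[F] V)) := by
  intro x hx y hy
  rw [← hg x y]
  exact h _ hx _ hy

theorem nd_comap {g : V ≃ₗ[F] V} (hg : g ∈ Sp ω) {U : Submodule F V} (h : ND ω U) :
    ND ω (U.comap (g : V →ₗ[F] V)) := by
  intro x hx hxy
  have : g x = 0 := by
    apply h (g x) hx
    intro y hy
    have := hxy (g.symm y) (by
      show g (g.symm y) ∈ U
      rwa [g.apply_symm_apply])
    rw [← hg, g.apply_symm_apply] at this
    exact this
  simpa using this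

end comap

theorem arith3 {N a b S Q X1 X2 X3 Y1 Y2 Y3 : ℕ} (h0 : N * (7 * X3) ≤ a * b * (8 * S * Y3))
    (h1 : 7 * a * X1 ≤ 8 * Y1) (h2 : 7 * b * X2 ≤ 8 * Y2) (hQ : Q = X3 * X1 * X2) :
    343 * N * Q ≤ 512 * S * (Y1 * Y2 * Y3) := by
  subst hQ
  calc 343 * N * (X3 * X1 * X2) = N * (7 * X3) * (7 * X1 * (7 * X2)) := by ring
    _ ≤ a * b * (8 * S * Y3) * (7 * X1 * (7 * X2)) := Nat.mul_le_mul_right _ h0
    _ = (7 * a * X1) * (7 * b * X2) * (8 * S * Y3) := by ring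
    _ ≤ (8 * Y1) * (8 * Y2) * (8 * S * Y3) :=
      Nat.mul_le_mul_right _ (Nat.mul_le_mul h1 h2)
    _ = 512 * S * (Y1 * Y2 * Y3) := by ring

/-- K1 -/
theorem ev_ti (hω : IsSymp ω) {m : ℕ} (hm : finrank F V = 2 * m) (hq : 3 ≤ Nat.card F)
    (A B : Subalgebra F (Module.End F V)) (hA : IsField A) (hB : IsField B)
    {e₁ e₂ s₁ s₂ d : ℕ} (h1 : 2 ≤ e₁) (h2' : 2 ≤ e₂) (hA1 : finrank F A = e₁)
    (hB1 : finrank F B = e₂) (hd1 : d = e₁ * s₁) (hd2 : d = e₂ * s₂) :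
    343 * Nat.card {g : Sp ω // ∃ U : Submodule F V, finrank F U = d ∧ TI ω U ∧ Stab A U ∧
        Stab (cjA g.1 B) U} *
      Nat.card F ^ (2 * m * d + (d * s₁ + e₁ * (s₁ * (s₁ - 1) / 2)) +
        (d * s₂ + e₂ * (s₂ * (s₂ - 1) / 2))) ≤
    512 * Nat.card (Sp ω) * Nat.card F ^ (2 * m * s₁ + 2 * m * s₂ + (d ^ 2 + d * (d - 1) / 2)) := by
  have c1 := card_stable_ti hω hq A hA (s := s₁) h1 hA1
  have c2 := card_stable_ti hω hq B hB (s := s₂) h2' hB1
  rw [hm] at c1 c2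
  let P : {U : Submodule F V // finrank F U = e₁ * s₁ ∧ Stab A U ∧ TI ω U} ×
      {U : Submodule F V // finrank F U = e₂ * s₂ ∧ Stab B U ∧ TI ω U} → Sp ω → Prop :=
    fun p g => p.2.1.map (g.1 : V →ₗ[F] V) = p.1.1
  have c3 := card_union_le P (7 * Nat.card F ^ (2 * m * d))
    (8 * Nat.card (Sp ω) * Nat.card F ^ (d ^ 2 + d * (d - 1) / 2)) (by
      rintro ⟨⟨U₁, h11, h12, h13⟩, ⟨U₂, h21, h22, h23⟩⟩
      have := card_map_ti hω hm hq U₁ U₂ (h11.trans hd1.symm) (h21.trans hd2.symm) h13 h23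
      refine le_trans (le_of_eq ?_) this
      show Nat.card {g : Sp ω // U₂.map (g.1 : V →ₗ[F] V) = U₁} * (7 * Nat.card F ^ (2 * m * d)) = _
      ring)
  rw [Nat.card_prod] at c3
  have c4 : Nat.card {g : Sp ω // ∃ U : Submodule F V, finrank F U = d ∧ TI ω U ∧ Stab A U ∧
        Stab (cjA g.1 B) U} ≤ Nat.card {g : Sp ω // ∃ i, P i g} := by
    apply card_sub_mono
    rintro g ⟨U, hU1, hU2, hU3, hU4⟩
    exact ⟨⟨⟨U, hU1.trans hd1, hU3, hU2⟩, ⟨U.comap (g.1 : V →ₗ[F] V),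
      (finrank_comap g.1 U).trans (hU1.trans hd2), stab_comap hU4, ti_comap g.2 hU2⟩⟩,
      map_comap_eq g.1 U⟩
  have c5 := (Nat.mul_le_mul_right (7 * Nat.card F ^ (2 * m * d)) c4).trans c3
  have := arith3 c5 c1 c2 rfl
  refine le_trans (le_of_eq ?_) (this.trans (le_of_eq ?_))
  · have e1 : d * s₁ = e₁ * s₁ ^ 2 := by rw [hd1]; ring
    have e2 : d * s₂ = e₂ * s₂ ^ 2 := by rw [hd2]; ring
    rw [e1, e2, pow_add, pow_add]
  · rw [← pow_add, ← pow_add]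

/-- K2 -/
theorem ev_nd (hω : IsSymp ω) {m : ℕ} (hm : finrank F V = 2 * m) (hq : 3 ≤ Nat.card F)
    (A B : Subalgebra F (Module.End F V)) (hA : IsField A) (hB : IsField B)
    {e₁ e₂ s₁ s₂ d : ℕ} (h1 : 2 ≤ e₁) (h2' : 2 ≤ e₂) (hA1 : finrank F A = e₁)
    (hB1 : finrank F B = e₂) (hd1 : d = e₁ * s₁) (hd2 : d = e₂ * s₂) :
    343 * Nat.card {g : Sp ω // ∃ U : Submodule F V, finrank F U = d ∧ ND ω U ∧ Stab A U ∧
        Stab (cjA g.1 B) U} * Nat.card F ^ (2 * m * d + d * s₁ + d * s₂) ≤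
    512 * Nat.card (Sp ω) * Nat.card F ^ (2 * m * s₁ + 2 * m * s₂ + d ^ 2) := by
  have c1 := card_stable hq A hA (s := s₁) h1 hA1
  have c2 := card_stable hq B hB (s := s₂) h2' hB1
  rw [hm] at c1 c2
  let P : {U : Submodule F V // finrank F U = e₁ * s₁ ∧ Stab A U} ×
      {U : Submodule F V // finrank F U = e₂ * s₂ ∧ Stab B U} → Sp ω → Prop :=
    fun p g => p.2.1.map (g.1 : V →ₗ[F] V) = p.1.1 ∧ ND ω p.1.1 ∧ ND ω p.2.1
  have c3 := card_union_le P (7 * Nat.card F ^ (2 * m * d))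
    (8 * Nat.card (Sp ω) * Nat.card F ^ (d ^ 2)) (by
      rintro ⟨⟨U₁, h11, h12⟩, ⟨U₂, h21, h22⟩⟩
      by_cases hND : ND ω U₁ ∧ ND ω U₂
      · obtain ⟨k, hk⟩ := even_finrank_of_ND hω U₁ hND.1
        have hk1 : finrank F U₁ = 2 * k := by omega
        have hk2 : d = 2 * k := by rw [hd1, ← h11, hk1]
        have hk3 : finrank F U₂ = 2 * k := by rw [h21, ← hd2, hk2]
        have := card_map_nd hω hm hq U₁ U₂ hk1 hk3 hND.1 hND.2
        have e1 : 2 * m * d = 4 * m * k := by rw [hk2]; ring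
        have e2 : d ^ 2 = 4 * k ^ 2 := by rw [hk2]; ring
        rw [e1, e2]
        refine le_trans ?_ this
        have c4 : Nat.card {g : Sp ω // P ⟨⟨U₁, h11, h12⟩, ⟨U₂, h21, h22⟩⟩ g} ≤
            Nat.card {g : Sp ω // U₂.map (g.1 : V →ₗ[F] V) = U₁} :=
          card_sub_mono fun g hg => hg.1
        calc _ ≤ Nat.card {g : Sp ω // U₂.map (g.1 : V →ₗ[F] V) = U₁} * (7 * Nat.card F ^ (4 * m * k)) :=
              Nat.mul_le_mul_right _ c4
          _ = _ := by ring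
      · have : IsEmpty {g : Sp ω // P ⟨⟨U₁, h11, h12⟩, ⟨U₂, h21, h22⟩⟩ g} :=
          ⟨fun g => hND ⟨g.2.2.1, g.2.2.2⟩⟩
        rw [Nat.card_of_isEmpty, zero_mul]
        exact Nat.zero_le _)
  rw [Nat.card_prod] at c3
  have c4 : Nat.card {g : Sp ω // ∃ U : Submodule F V, finrank F U = d ∧ ND ω U ∧ Stab A U ∧
        Stab (cjA g.1 B) U} ≤ Nat.card {g : Sp ω // ∃ i, P i g} := by
    apply card_sub_mono
    rintro g ⟨U, hU1, hU2, hU3, hU4⟩
    exact ⟨⟨⟨U, hU1.trans hd1, hU3⟩, ⟨U.comap (g.1 : V →ₗ[F] V),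
      (finrank_comap g.1 U).trans (hU1.trans hd2), stab_comap hU4⟩⟩,
      map_comap_eq g.1 U, hU2, nd_comap g.2 hU2⟩
  have c5 := (Nat.mul_le_mul_right (7 * Nat.card F ^ (2 * m * d)) c4).trans c3
  have := arith3 c5 c1 c2 rfl
  refine le_trans (le_of_eq ?_) (this.trans (le_of_eq ?_))
  · have e1 : d * s₁ = e₁ * s₁ ^ 2 := by rw [hd1]; ring
    have e2 : d * s₂ = e₂ * s₂ ^ 2 := by rw [hd2]; ring
    rw [e1, e2, pow_add, pow_add]
  · rw [← pow_add, ← pow_add]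

/-- K3 : `J'` commuting with `A` and `g B g⁻¹` (E1 twice, K0). -/
theorem ev_comm_odd (hω : IsSymp ω) (h2 : (2 : F) ≠ 0) {ν : F} (hν : ¬ IsSquare ν)
    {m : ℕ} (hm : finrank F V = 2 * m)
    (A B : Subalgebra F (Module.End F V)) (hA : IsField A) (hsa : ∀ a ∈ A, IsSA ω a)
    (hB : IsField B) (hsb : ∀ b ∈ B, IsSA ω b) {t r k l : ℕ}
    (hto : Odd t) (hAt : finrank F A = t) (hk : m = t * k)
    (hro : Odd r) (hBr : finrank F B = r) (hl : m = r * l) :
    Nat.card {g : Sp ω // ∃ J' ∈ Y ω ν, (∀ a ∈ A, Cm J' a) ∧ ∀ b ∈ cjA g.1 B, Cm J' b} *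
      Nat.card (Y ω ν) ≤ Nat.card (Sp ω) * Nat.card F ^ (m * (k + 1) + m * (l + 1)) := by
  have c1 := card_Y_comm_le hω hν A hA hsa hto hAt (k := k) (by rw [hm, hk]; ring)
  have c2 := card_Y_comm_le hω hν B hB hsb hro hBr (k := l) (by rw [hm, hl]; ring)
  rw [← hk] at c1
  rw [← hl] at c2
  let P : {J : Y ω ν // ∀ a ∈ A, ∀ x, J.1 (a x) = a (J.1 x)} ×
      {J : Y ω ν // ∀ b ∈ B, ∀ x, J.1 (b x) = b (J.1 x)} → Sp ω → Prop :=
    fun p g => cj g.1 p.2.1.1 = p.1.1.1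
  have c3 := card_union_le P (Nat.card (Y ω ν)) (Nat.card (Sp ω))
    (fun p => (card_fibre hω h2 hν p.2.1.2 p.1.1.2).le)
  rw [Nat.card_prod] at c3
  have c4 : Nat.card {g : Sp ω // ∃ J' ∈ Y ω ν, (∀ a ∈ A, Cm J' a) ∧ ∀ b ∈ cjA g.1 B, Cm J' b} ≤
      Nat.card {g : Sp ω // ∃ i, P i g} := by
    apply card_sub_mono
    rintro g ⟨J', hJ', h1, h3⟩
    exact ⟨⟨⟨⟨J', hJ'⟩, h1⟩, ⟨⟨cj g.1⁻¹ J', cj_mem_Y (inv_mem_Sp g.2) hJ'⟩, cm_conj h3⟩⟩,
      cj_cj_inv g.1 J'⟩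
  calc _ ≤ _ := Nat.mul_le_mul_right _ c4
    _ ≤ _ := c3
    _ ≤ Nat.card F ^ (m * (k + 1)) * Nat.card F ^ (m * (l + 1)) * Nat.card (Sp ω) :=
      Nat.mul_le_mul_right _ (Nat.mul_le_mul c1 c2)
    _ = _ := by rw [pow_add]; ring

/-- K4 : `J'` commuting with `J` and `g B g⁻¹` (C4, E1, K0). -/
theorem ev_comm_two (hω : IsSymp ω) (h2 : (2 : F) ≠ 0) (hq : 3 ≤ Nat.card F) {ν : F} (hν : ¬ IsSquare ν)
    {m : ℕ} (hm : finrank F V = 2 * m) {J : Module.End F V} (hJ : J ∈ Y ω ν)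
    (B : Subalgebra F (Module.End F V))
    (hB : IsField B) (hsb : ∀ b ∈ B, IsSA ω b) {r l : ℕ}
    (hro : Odd r) (hBr : finrank F B = r) (hl : m = r * l) :
    7 * Nat.card {g : Sp ω // ∃ J' ∈ Y ω ν, Cm J' J ∧ ∀ b ∈ cjA g.1 B, Cm J' b} *
      Nat.card (Y ω ν) ≤
      8 * Nat.card (Sp ω) * ((∑ j ∈ Finset.range (m + 1), Nat.card F ^ (2 * j * (m - j))) *
        Nat.card F ^ (m * (l + 1))) := by
  have c1 := card_Y_comm_Y_le hω h2 hq hν hν hm hJ
  have c2 := card_Y_comm_le hω hν B hB hsb hro hBr (k := l) (by rw [hm, hl]; ring)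
  rw [← hl] at c2
  let P : {J' : Y ω ν // ∀ x, J'.1 (J x) = J (J'.1 x)} ×
      {J : Y ω ν // ∀ b ∈ B, ∀ x, J.1 (b x) = b (J.1 x)} → Sp ω → Prop :=
    fun p g => cj g.1 p.2.1.1 = p.1.1.1
  have c3 := card_union_le P (Nat.card (Y ω ν)) (Nat.card (Sp ω))
    (fun p => (card_fibre hω h2 hν p.2.1.2 p.1.1.2).le)
  rw [Nat.card_prod] at c3
  have c4 : Nat.card {g : Sp ω // ∃ J' ∈ Y ω ν, Cm J' J ∧ ∀ b ∈ cjA g.1 B, Cm J' b} ≤
      Nat.card {g : Sp ω // ∃ i, P i g} := by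
    apply card_sub_mono
    rintro g ⟨J', hJ', h1, h3⟩
    exact ⟨⟨⟨⟨J', hJ'⟩, h1⟩, ⟨⟨cj g.1⁻¹ J', cj_mem_Y (inv_mem_Sp g.2) hJ'⟩, cm_conj h3⟩⟩,
      cj_cj_inv g.1 J'⟩
  have c5 := (Nat.mul_le_mul_right (Nat.card (Y ω ν)) c4).trans c3
  set a := Nat.card {J' : Y ω ν // ∀ x, J'.1 (J x) = J (J'.1 x)}
  set b := Nat.card {J : Y ω ν // ∀ b ∈ B, ∀ x, J.1 (b x) = b (J.1 x)}
  calc _ = 7 * (Nat.card {g : Sp ω // ∃ J' ∈ Y ω ν, Cm J' J ∧ ∀ b ∈ cjA g.1 B, Cm J' b} *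
        Nat.card (Y ω ν)) := by ring
    _ ≤ 7 * (a * b * Nat.card (Sp ω)) := Nat.mul_le_mul_left _ c5
    _ = (7 * a) * b * Nat.card (Sp ω) := by ring
    _ ≤ (8 * ∑ j ∈ Finset.range (m + 1), Nat.card F ^ (2 * j * (m - j))) * Nat.card F ^ (m * (l + 1)) *
        Nat.card (Sp ω) := Nat.mul_le_mul_right _ (Nat.mul_le_mul c1 c2)
    _ = _ := by ring

/-- K5 : `z ∈ Y ω (-1)` commuting with `g B g⁻¹`, anticommuting with `J` (E2, D3, C3, K0). -/
theorem ev_anti (hω : IsSymp ω) (h2 : (2 : F) ≠ 0) (hq : 3 ≤ Nat.card F) {ν : F} (hν : ¬ IsSquare ν)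
    {m : ℕ} (hm : finrank F V = 2 * m) {J : Module.End F V} (hJ : J ∈ Y ω ν)
    (B : Subalgebra F (Module.End F V))
    (hB : IsField B) (hsb : ∀ b ∈ B, IsSA ω b) {r l : ℕ}
    (hro : Odd r) (hr3 : 3 ≤ r) (hBr : finrank F B = r) (hl : m = r * l) :
    49 * Nat.card {g : Sp ω // ∃ z ∈ Y ω (-1 : F), (∀ v, J (z v) = - z (J v)) ∧
        ∀ b ∈ cjA g.1 B, Cm z b} * Nat.card (Y ω ν) ≤
      128 * Nat.card (Sp ω) * Nat.card F ^ (m * (l + 1) + m * (m + 1) / 2) := by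
  have hν0 : ν ≠ 0 := by
    rintro rfl
    exact hν (IsSquare.zero)
  have c1 := card_Y_neg_one_le hω h2 B hB hsb hro hr3 hq hBr (k := l) (by rw [hm, hl]; ring)
  rw [← hl] at c1
  have c2 := card_lagr_le hω hm hq
  have c2' := card_sigma_le (A := {z : Y ω (-1 : F) // ∀ b ∈ B, ∀ x, z.1 (b x) = b (z.1 x)})
    (B := fun z => {J : Y ω ν // ∀ x, J.1 (z.1.1 x) = - z.1.1 (J.1 x)}) 1
    (2 * Nat.card F ^ (m * (m + 1) / 2)) (by
      intro z
      rw [one_mul]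
      exact (card_Y_anti_le hω h2 hν0 (by simp) hm z.1.2).trans c2)
  rw [one_mul] at c2'
  let P : (Σ z : {z : Y ω (-1 : F) // ∀ b ∈ B, ∀ x, z.1 (b x) = b (z.1 x)},
      {J : Y ω ν // ∀ x, J.1 (z.1.1 x) = - z.1.1 (J.1 x)}) → Sp ω → Prop :=
    fun p g => cj g.1 p.2.1.1 = J
  have c3 := card_union_le P (Nat.card (Y ω ν)) (Nat.card (Sp ω))
    (fun p => (card_fibre hω h2 hν p.2.1.2 hJ).le)
  have c4 : Nat.card {g : Sp ω // ∃ z ∈ Y ω (-1 : F), (∀ v, J (z v) = - z (J v)) ∧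
        ∀ b ∈ cjA g.1 B, Cm z b} ≤
      Nat.card {g : Sp ω // ∃ i, P i g} := by
    apply card_sub_mono
    rintro g ⟨z, hz, h1, h3⟩
    refine ⟨⟨⟨⟨cj g.1⁻¹ z, cj_mem_Y (inv_mem_Sp g.2) hz⟩, cm_conj h3⟩,
      ⟨⟨cj g.1⁻¹ J, cj_mem_Y (inv_mem_Sp g.2) hJ⟩, ?_⟩⟩, cj_cj_inv g.1 J⟩
    intro x
    have e1 : cj g.1⁻¹ J (cj g.1⁻¹ z x) = g.1.symm (J (z (g.1 x))) := by
      show g.1.symm (J (g.1 (g.1.symm (z (g.1 x))))) = _
      rw [g.1.apply_symm_apply]
    have e2 : cj g.1⁻¹ z (cj g.1⁻¹ J x) = g.1.symm (z (J (g.1 x))) := by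
      show g.1.symm (z (g.1 (g.1.symm (J (g.1 x))))) = _
      rw [g.1.apply_symm_apply]
    show cj g.1⁻¹ J (cj g.1⁻¹ z x) = -cj g.1⁻¹ z (cj g.1⁻¹ J x)
    rw [e1, e2, h1, map_neg]
  have c5 := (Nat.mul_le_mul_right (Nat.card (Y ω ν)) c4).trans c3
  set N := Nat.card {g : Sp ω // ∃ z ∈ Y ω (-1 : F), (∀ v, J (z v) = - z (J v)) ∧
        ∀ b ∈ cjA g.1 B, Cm z b}
  set a := Nat.card {z : Y ω (-1 : F) // ∀ b ∈ B, ∀ x, z.1 (b x) = b (z.1 x)}
  calc 49 * N * Nat.card (Y ω ν) = 49 * (N * Nat.card (Y ω ν)) := by ring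
    _ ≤ 49 * (a * (2 * Nat.card F ^ (m * (m + 1) / 2)) * Nat.card (Sp ω)) :=
      Nat.mul_le_mul_left _ (c5.trans (Nat.mul_le_mul_right _ c2'))
    _ = (49 * a) * (2 * Nat.card F ^ (m * (m + 1) / 2) * Nat.card (Sp ω)) := by ring
    _ ≤ (64 * Nat.card F ^ (m * (l + 1))) * (2 * Nat.card F ^ (m * (m + 1) / 2) * Nat.card (Sp ω)) :=
      Nat.mul_le_mul_right _ c1
    _ = _ := by rw [pow_add]; ring

section gal

omit [Finite F] [Finite V]

theorem gal_conj {g : V ≃ₗ[F] V} (hg : g ∈ Sp ω) {B : Subalgebra F (Module.End F V)} {r : ℕ}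
    {x : V ≃ₗ[F] V} (hx : x ∈ Gal ω (cjA g B) r) : g⁻¹ * x * g ∈ Gal ω B r := by
  obtain ⟨h1, h2, h3, b', hb', hne⟩ := hx
  refine ⟨(Sp ω).mul_mem ((Sp ω).mul_mem (inv_mem_Sp hg) h1) hg, ?_, ?_, ?_⟩
  · have : (g⁻¹ * x * g) ^ r = g⁻¹ * x ^ r * g := by
      have := conj_pow (a := g⁻¹) (b := x) (i := r)
      rwa [inv_inv] at this
    rw [this, h2, mul_one, inv_mul_cancel]
  · intro b hb
    obtain ⟨b'', hb'', he⟩ := mem_cjA.1 (h3 (cj g b) (mem_cjA.2 ⟨b, hb, rfl⟩))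
    rw [mul_cj, mul_cj, ← he, cj_inv_cj]
    exact hb''
  · obtain ⟨b, hb, rfl⟩ := mem_cjA.1 hb'
    refine ⟨b, hb, fun h => hne ?_⟩
    rw [mul_cj, mul_cj] at h
    have := congrArg (cj g) h
    rwa [cj_cj_inv] at this

theorem cm_conj_gal {g x : V ≃ₗ[F] V} {J : Module.End F V} (h : Cm x J) (y : V) :
    cj g⁻¹ J ((g⁻¹ * x * g) y) = (g⁻¹ * x * g) (cj g⁻¹ J y) := by
  have e1 : cj g⁻¹ J ((g⁻¹ * x * g) y) = g.symm (J (x (g y))) := by
    show g.symm (J (g (g.symm (x (g y))))) = _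
    rw [g.apply_symm_apply]
  have e2 : (g⁻¹ * x * g) (cj g⁻¹ J y) = g.symm (x (J (g y))) := by
    show g.symm (x (g (g.symm (J (g y))))) = _
    rw [g.apply_symm_apply]
  rw [e1, e2, h]

end gal

/-- K6 : `x ∈ Gal(g B g⁻¹)` commuting with `J` (G2, G3, H5, K0). -/
theorem ev_gal_two (hω : IsSymp ω) (h2 : (2 : F) ≠ 0) (hq : 3 ≤ Nat.card F) {ν : F} (hν : ¬ IsSquare ν)
    {m : ℕ} (hm : finrank F V = 2 * m) {J : Module.End F V} (hJ : J ∈ Y ω ν)
    (B : Subalgebra F (Module.End F V))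
    (hB : IsField B) (hsb : ∀ b ∈ B, IsSA ω b) {r l : ℕ} (hr : r.Prime)
    (hro : Odd r) (hBr : finrank F B = r) (hl : m = r * l) :
    7 * Nat.card {g : Sp ω // ∃ x' ∈ Gal ω (cjA g.1 B) r, Cm x' J} * Nat.card (Y ω ν) *
        Nat.card F ^ (l * (2 * l + 1)) ≤
      8 * (r - 1) * Nat.card (Sp ω) * Nat.card F ^ (m * (2 * l + 1) + l * (2 * m + 1)) := by
  have hV : finrank F V = 2 * r * l := by rw [hm, hl]; ring
  have c1 := card_Gal_le hω h2 hq B hB hsb hr hBr hV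
  rw [← hl] at c1
  have c2 := card_sigma_le (A := Gal ω B r)
    (B := fun x => {J : Y ω ν // ∀ y, J.1 (x.1 y) = x.1 (J.1 y)}) 1
    (Nat.card F ^ (l * (2 * m + 1))) (by
      rintro ⟨x, hx1, hx2, hx3, hx4⟩
      rw [one_mul]
      obtain ⟨v, hv⟩ := Gal_free B hB hr hBr hV hx2 hx3 hx4
      have h3 := card_SK_free_le hω hro hV hx1 hx2 v hv
      have e1 : 2 * r * l = 2 * m := by rw [hl]; ring
      rw [e1] at h3
      refine le_trans ?_ h3
      apply Nat.card_le_card_of_injective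
        (fun J : {J : Y ω ν // ∀ y, J.1 (x y) = x (J.1 y)} =>
          (⟨J.1.1, J.1.2.1, J.2⟩ : {b : Module.End F V // IsSK ω b ∧ ∀ y, b (x y) = x (b y)}))
      intro J J' hJJ
      apply Subtype.ext
      apply Subtype.ext
      exact Subtype.mk.inj hJJ)
  rw [one_mul] at c2
  let P : (Σ x : Gal ω B r, {J : Y ω ν // ∀ y, J.1 (x.1 y) = x.1 (J.1 y)}) → Sp ω → Prop :=
    fun p g => cj g.1 p.2.1.1 = J
  have c3 := card_union_le P (Nat.card (Y ω ν)) (Nat.card (Sp ω))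
    (fun p => (card_fibre hω h2 hν p.2.1.2 hJ).le)
  have c4 : Nat.card {g : Sp ω // ∃ x' ∈ Gal ω (cjA g.1 B) r, Cm x' J} ≤
      Nat.card {g : Sp ω // ∃ i, P i g} := by
    apply card_sub_mono
    rintro g ⟨x, hx, h1⟩
    exact ⟨⟨⟨g.1⁻¹ * x * g.1, gal_conj g.2 hx⟩, ⟨⟨cj g.1⁻¹ J, cj_mem_Y (inv_mem_Sp g.2) hJ⟩,
      cm_conj_gal h1⟩⟩, cj_cj_inv g.1 J⟩
  have c5 := (Nat.mul_le_mul_right (Nat.card (Y ω ν)) c4).trans
    (c3.trans (Nat.mul_le_mul_right _ c2))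
  set N := Nat.card {g : Sp ω // ∃ x' ∈ Gal ω (cjA g.1 B) r, Cm x' J}
  set a := Nat.card (Gal ω B r)
  calc 7 * N * Nat.card (Y ω ν) * Nat.card F ^ (l * (2 * l + 1)) =
        7 * (N * Nat.card (Y ω ν)) * Nat.card F ^ (l * (2 * l + 1)) := by ring
    _ ≤ 7 * (a * Nat.card F ^ (l * (2 * m + 1)) * Nat.card (Sp ω)) * Nat.card F ^ (l * (2 * l + 1)) :=
      Nat.mul_le_mul_right _ (Nat.mul_le_mul_left _ c5)
    _ = (7 * a * Nat.card F ^ (l * (2 * l + 1))) * (Nat.card F ^ (l * (2 * m + 1)) * Nat.card (Sp ω)) := by ring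
    _ ≤ (8 * (r - 1) * Nat.card F ^ (m * (2 * l + 1))) * (Nat.card F ^ (l * (2 * m + 1)) * Nat.card (Sp ω)) :=
      Nat.mul_le_mul_right _ c1
    _ = _ := by rw [pow_add]; ring

omit [Finite F] in
/-- A finite field of operators is generated by one element. -/
theorem exists_gen (B : Subalgebra F (Module.End F V)) (hB : IsField B) :
    ∃ b₀ ∈ B, ∀ T : V ≃ₗ[F] V, (∀ x, T (b₀ x) = b₀ (T x)) → ∀ b ∈ B, ∀ x, T (b x) = b (T x) := by
  let _ := hB.toField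
  have : Finite B := Finite.of_injective (fun b : B => (b : Module.End F V)) Subtype.val_injective
  obtain ⟨β, hβ⟩ := IsCyclic.exists_generator (α := Bˣ)
  refine ⟨(β : B).1, (β : B).2, ?_⟩
  intro T hT
  have hpow : ∀ n : ℕ, ∀ x, T (((β : B).1 ^ n : Module.End F V) x) =
      ((β : B).1 ^ n : Module.End F V) (T x) := by
    intro n
    induction n with
    | zero => intro x; simp
    | succ n ih =>
      intro x
      rw [pow_succ, Module.End.mul_apply, Module.End.mul_apply, ih, hT]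
  intro b hb x
  by_cases h0 : (⟨b, hb⟩ : B) = 0
  · have : b = 0 := congrArg Subtype.val h0
    rw [this]
    simp
  · obtain ⟨n, hn⟩ := (mem_powers_iff_mem_zpowers (x := β)
      (y := Units.mk0 (⟨b, hb⟩ : B) h0)).2 (hβ _)
    have h1 : ((β : B) ^ n : B) = ⟨b, hb⟩ := by
      have := congrArg (fun z : Bˣ => (z : B)) hn
      simpa using this
    have h2 : (β : B).1 ^ n = b := by
      have := congrArg (fun z : B => z.1) h1
      simpa using this
    rw [← h2]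
    exact hpow n x

/-- K8 : `x ∈ Gal(A)` commuting with `g B g⁻¹` (G2, G3, H4, H2): `B = F[b₀]`, `g b₀ g⁻¹` is one of
the self-adjoint operators commuting with `x`, and each value is taken at most `#CSp(B)` times. -/
theorem ev_gal_odd (hω : IsSymp ω) (h2 : (2 : F) ≠ 0) (hq : 3 ≤ Nat.card F)
    {m : ℕ} (hm : finrank F V = 2 * m)
    (A B : Subalgebra F (Module.End F V)) (hA : IsField A) (hsa : ∀ a ∈ A, IsSA ω a)
    (hB : IsField B) (hsb : ∀ b ∈ B, IsSA ω b) {t r k l : ℕ} (ht : t.Prime)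
    (hto : Odd t) (hAt : finrank F A = t) (hk : m = t * k)
    (hBr : finrank F B = r) (hl : m = r * l) :
    7 * Nat.card {g : Sp ω // ∃ x' ∈ Gal ω A t, ∀ b ∈ cjA g.1 B, Cm x' b} *
        Nat.card F ^ (k * (2 * k + 1)) ≤
      8 * (t - 1) * Nat.card F ^ (m * (2 * k + 1) + k * (2 * m - 1) + m * (2 * l + 1)) := by
  have hV : finrank F V = 2 * t * k := by rw [hm, hk]; ring
  have hV' : finrank F V = 2 * r * l := by rw [hm, hl]; ring
  have c1 := card_Gal_le hω h2 hq A hA hsa ht hAt hV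
  rw [← hk] at c1
  have c0 := card_CSp_field_le hω B hB hBr hV'
  rw [← hl] at c0
  have c2 := card_sigma_le (A := Gal ω A t)
    (B := fun x => {b : Module.End F V // IsSA ω b ∧ ∀ y, b (x.1 y) = x.1 (b y)}) 1
    (Nat.card F ^ (k * (2 * m - 1))) (by
      rintro ⟨x, hx1, hx2, hx3, hx4⟩
      rw [one_mul]
      obtain ⟨v, hv⟩ := Gal_free A hA ht hAt hV hx2 hx3 hx4
      have h3 := card_SA_free_le hω h2 hto hV hx1 hx2 v hv
      have e1 : 2 * t * k = 2 * m := by rw [hk]; ring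
      rw [e1] at h3
      exact h3)
  rw [one_mul] at c2
  obtain ⟨b₀, hb₀, hgen⟩ := exists_gen B hB
  let P : (Σ x : Gal ω A t, {b : Module.End F V // IsSA ω b ∧ ∀ y, b (x.1 y) = x.1 (b y)}) →
      Sp ω → Prop := fun p g => cj g.1 b₀ = p.2.1
  have c3 := card_union_le P 1 (Nat.card F ^ (m * (2 * l + 1))) (by
    intro p
    rw [mul_one]
    refine le_trans ?_ c0
    by_cases hemp : ∃ g₁ : Sp ω, cj g₁.1 b₀ = p.2.1
    · obtain ⟨g₁, hg₁⟩ := hemp
      apply Nat.card_le_card_of_injective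
        (fun g : {g : Sp ω // P p g} => (⟨g₁.1⁻¹ * g.1.1, by
          refine ⟨(Sp ω).mul_mem (inv_mem_Sp g₁.2) g.1.2, ?_⟩
          have hg : cj g.1.1 b₀ = p.2.1 := g.2
          have h1 : cj (g₁.1⁻¹ * g.1.1) b₀ = b₀ := by
            rw [mul_cj, hg, ← hg₁, cj_inv_cj]
          refine hgen (g₁.1⁻¹ * g.1.1) fun x => ?_
          have h3 := cj_apply_app (g₁.1⁻¹ * g.1.1) b₀ x
          rw [h1] at h3
          exact h3.symm⟩ : CSp ω (B : Set (Module.End F V))))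
      intro g g' hgg
      have h1 : g₁.1⁻¹ * g.1.1 = g₁.1⁻¹ * g'.1.1 := congrArg Subtype.val hgg
      apply Subtype.ext
      apply Subtype.ext
      exact mul_left_cancel h1
    · have : IsEmpty {g : Sp ω // P p g} := ⟨fun g => hemp ⟨g.1, g.2⟩⟩
      rw [Nat.card_of_isEmpty]
      exact Nat.zero_le _)
  rw [mul_one] at c3
  have c4 : Nat.card {g : Sp ω // ∃ x' ∈ Gal ω A t, ∀ b ∈ cjA g.1 B, Cm x' b} ≤
      Nat.card {g : Sp ω // ∃ i, P i g} := by
    apply card_sub_mono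
    rintro g ⟨x, hx, h1⟩
    refine ⟨⟨⟨x, hx⟩, ⟨cj g.1 b₀, ?_, fun y => ?_⟩⟩, rfl⟩
    · intro y z
      have hg' : ∀ x y, ω (g.1 x) y = ω x (g.1.symm y) := by
        intro x y
        have := g.2 x (g.1.symm y)
        rwa [g.1.apply_symm_apply] at this
      have hg'' : ∀ x y, ω x (g.1 y) = ω (g.1.symm x) y := by
        intro x y
        have := g.2 (g.1.symm x) y
        rwa [g.1.apply_symm_apply] at this
      simp only [cj_apply]
      rw [hg', hg'']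
      exact hsb b₀ hb₀ _ _
    · exact (h1 (cj g.1 b₀) (mem_cjA.2 ⟨b₀, hb₀, rfl⟩) y).symm
  have c5 := c4.trans (c3.trans (Nat.mul_le_mul_right _ c2))
  set N := Nat.card {g : Sp ω // ∃ x' ∈ Gal ω A t, ∀ b ∈ cjA g.1 B, Cm x' b}
  set a := Nat.card (Gal ω A t)
  calc 7 * N * Nat.card F ^ (k * (2 * k + 1)) ≤
        7 * (a * Nat.card F ^ (k * (2 * m - 1)) * Nat.card F ^ (m * (2 * l + 1))) * Nat.card F ^ (k * (2 * k + 1)) :=
      Nat.mul_le_mul_right _ (Nat.mul_le_mul_left _ c5)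
    _ = (7 * a * Nat.card F ^ (k * (2 * k + 1))) * (Nat.card F ^ (k * (2 * m - 1)) * Nat.card F ^ (m * (2 * l + 1))) := by
      ring
    _ ≤ (8 * (t - 1) * Nat.card F ^ (m * (2 * k + 1))) *
        (Nat.card F ^ (k * (2 * m - 1)) * Nat.card F ^ (m * (2 * l + 1))) := Nat.mul_le_mul_right _ c1
    _ = _ := by rw [pow_add, pow_add]; ring

/-- K9 : `x ∈ Gal(A) ∩ g Gal(B) g⁻¹` (G2, G3, H3). -/
theorem ev_gal_gal (hω : IsSymp ω) (h2 : (2 : F) ≠ 0) (hq : 3 ≤ Nat.card F)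
    {m : ℕ} (hm : finrank F V = 2 * m)
    (A B : Subalgebra F (Module.End F V)) (hA : IsField A) (hsa : ∀ a ∈ A, IsSA ω a)
    (hB : IsField B) (hsb : ∀ b ∈ B, IsSA ω b) {t k : ℕ} (ht : t.Prime)
    (hAt : finrank F A = t) (hBt : finrank F B = t) (hk : m = t * k) :
    49 * Nat.card {g : Sp ω // ∃ x', x' ∈ Gal ω A t ∧ x' ∈ Gal ω (cjA g.1 B) t} *
        Nat.card F ^ (2 * (k * (2 * k + 1))) ≤
      64 * (t - 1) ^ 2 * Nat.card F ^ (3 * (m * (2 * k + 1))) := by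
  have hV : finrank F V = 2 * t * k := by rw [hm, hk]; ring
  have c1 := card_Gal_le hω h2 hq A hA hsa ht hAt hV
  have c2 := card_Gal_le hω h2 hq B hB hsb ht hBt hV
  rw [← hk] at c1 c2
  let P : Gal ω A t × Gal ω B t → Sp ω → Prop := fun p g => g.1 * p.2.1 * g.1⁻¹ = p.1.1
  have c3 := card_union_le P 1 (Nat.card F ^ (m * (2 * k + 1))) (by
    rintro ⟨⟨x₁, hx₁⟩, ⟨x, hx1, hx2, hx3, hx4⟩⟩
    rw [mul_one]
    obtain ⟨v, hv⟩ := Gal_free B hB ht hBt hV hx2 hx3 hx4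
    have c0 := card_CSp_free_le hω hV v hv
    rw [← hk] at c0
    refine le_trans ?_ c0
    by_cases hemp : ∃ g₁ : Sp ω, g₁.1 * x * g₁.1⁻¹ = x₁
    · obtain ⟨g₁, hg₁⟩ := hemp
      apply Nat.card_le_card_of_injective
        (fun g : {g : Sp ω // P ⟨⟨x₁, hx₁⟩, ⟨x, hx1, hx2, hx3, hx4⟩⟩ g} =>
          (⟨g₁.1⁻¹ * g.1.1, by
            refine ⟨(Sp ω).mul_mem (inv_mem_Sp g₁.2) g.1.2, ?_⟩
            have hg : g.1.1 * x * g.1.1⁻¹ = x₁ := g.2
            rintro _ rfl y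
            have h1 : (g₁.1⁻¹ * g.1.1) * x = x * (g₁.1⁻¹ * g.1.1) := by
              have h3 : g.1.1 * x = x₁ * g.1.1 := mul_inv_eq_iff_eq_mul.1 hg
              have h4 : g₁.1⁻¹ * x₁ = x * g₁.1⁻¹ :=
                (eq_inv_mul_iff_mul_eq.2 (by rw [← mul_assoc]; exact hg₁)).symm
              rw [mul_assoc, h3, ← mul_assoc, h4, mul_assoc]
            exact LinearEquiv.congr_fun h1 y⟩ : CSp ω {(x : V →ₗ[F] V)}))
      intro g g' hgg
      have h1 : g₁.1⁻¹ * g.1.1 = g₁.1⁻¹ * g'.1.1 := congrArg Subtype.val hgg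
      apply Subtype.ext
      apply Subtype.ext
      exact mul_left_cancel h1
    · have : IsEmpty {g : Sp ω // P ⟨⟨x₁, hx₁⟩, ⟨x, hx1, hx2, hx3, hx4⟩⟩ g} :=
        ⟨fun g => hemp ⟨g.1, g.2⟩⟩
      rw [Nat.card_of_isEmpty]
      exact Nat.zero_le _)
  rw [mul_one, Nat.card_prod] at c3
  have c4 : Nat.card {g : Sp ω // ∃ x', x' ∈ Gal ω A t ∧ x' ∈ Gal ω (cjA g.1 B) t} ≤
      Nat.card {g : Sp ω // ∃ i, P i g} := by
    apply card_sub_mono
    rintro g ⟨x, hx, hx'⟩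
    refine ⟨⟨⟨x, hx⟩, ⟨g.1⁻¹ * x * g.1, gal_conj g.2 hx'⟩⟩, ?_⟩
    show g.1 * (g.1⁻¹ * x * g.1) * g.1⁻¹ = x
    group
  have c5 := c4.trans c3
  set N := Nat.card {g : Sp ω // ∃ x', x' ∈ Gal ω A t ∧ x' ∈ Gal ω (cjA g.1 B) t}
  set a := Nat.card (Gal ω A t)
  set b := Nat.card (Gal ω B t)
  calc 49 * N * Nat.card F ^ (2 * (k * (2 * k + 1))) ≤
        49 * (a * b * Nat.card F ^ (m * (2 * k + 1))) * Nat.card F ^ (2 * (k * (2 * k + 1))) :=
      Nat.mul_le_mul_right _ (Nat.mul_le_mul_left _ c5)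
    _ = (7 * a * Nat.card F ^ (k * (2 * k + 1))) * (7 * b * Nat.card F ^ (k * (2 * k + 1))) *
        Nat.card F ^ (m * (2 * k + 1)) := by rw [two_mul (k * (2 * k + 1)), pow_add]; ring
    _ ≤ (8 * (t - 1) * Nat.card F ^ (m * (2 * k + 1))) * (8 * (t - 1) * Nat.card F ^ (m * (2 * k + 1))) *
        Nat.card F ^ (m * (2 * k + 1)) := Nat.mul_le_mul_right _ (Nat.mul_le_mul c1 c2)
    _ = _ := by
      have : 3 * (m * (2 * k + 1)) = m * (2 * k + 1) + m * (2 * k + 1) + m * (2 * k + 1) := by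
        ring
      rw [this, pow_add, pow_add]
      ring

end Pool.Agent.UD
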