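import Pool.Agent.UD.Defs
import Pool.Agent.UD.LinAlg
import Pool.Agent.UD.Stable

/-!
# Block H6 : elements of `Y` commuting with an element of order 3 acting freely
-/

open Module

namespace Pool.Agent.UD

namespace Free3

variable {F V : Type*} [Field F] [AddCommGroup V] [Module F V]
variable {ω : LinearMap.BilinForm F V}

/-! ### The operators `D = x - 1` and `P = 1 + x + x²` -/

/-- `x - 1`. -/
def opD (x : V ≃ₗ[F] V) : Module.End F V := (x : V →ₗ[F] V) - LinearMap.id

/-- `1 + x + x²`. -/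
def opP (x : V ≃ₗ[F] V) : Module.End F V :=
  LinearMap.id + (x : V →ₗ[F] V) + (x : V →ₗ[F] V) ∘ₗ (x : V →ₗ[F] V)

@[simp] lemma opD_apply (x : V ≃ₗ[F] V) (y : V) : opD x y = x y - y := rfl

@[simp] lemma opP_apply (x : V ≃ₗ[F] V) (y : V) : opP x y = y + x y + x (x y) := rfl

lemma x3 {x : V ≃ₗ[F] V} (hxt : x ^ 3 = 1) (y : V) : x (x (x y)) = y := by
  have := congrArg (fun g : V ≃ₗ[F] V => g y) hxt
  simpa [pow_succ, LinearEquiv.mul_apply] using this

lemma pow_apply0 (x : V ≃ₗ[F] V) (y : V) : (x ^ 0) y = y := by simp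
lemma pow_apply1 (x : V ≃ₗ[F] V) (y : V) : (x ^ 1) y = x y := by simp
lemma pow_apply2 (x : V ≃ₗ[F] V) (y : V) : (x ^ 2) y = x (x y) := by
  rw [pow_two, LinearEquiv.mul_apply]

lemma opD_opP {x : V ≃ₗ[F] V} (hxt : x ^ 3 = 1) (y : V) : opD x (opP x y) = 0 := by
  simp only [opD_apply, opP_apply, map_add, x3 hxt]
  abel

lemma opP_opD {x : V ≃ₗ[F] V} (hxt : x ^ 3 = 1) (y : V) : opP x (opD x y) = 0 := by
  simp only [opD_apply, opP_apply, map_sub, x3 hxt]
  abel

section dims

variable [FiniteDimensional F V] {k : ℕ} {x : V ≃ₗ[F] V} {v : Fin (2 * k) → V}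

lemma indep_P (hv : LinearIndependent F (fun p : Fin (2 * k) × Fin 3 => (x ^ (p.2 : ℕ)) (v p.1))) :
    LinearIndependent F (fun i => opP x (v i)) := by
  rw [Fintype.linearIndependent_iff] at hv ⊢
  intro c hc i
  have h := hv (fun p => c p.1) ?_ (i, 0)
  · exact h
  · rw [← hc, Fintype.sum_prod_type]
    refine Finset.sum_congr rfl fun i _ => ?_
    simp only [Fin.sum_univ_three, opP_apply, smul_add]
    simp [pow_apply2]

lemma two_k_le_rank_P
    (hv : LinearIndependent F (fun p : Fin (2 * k) × Fin 3 => (x ^ (p.2 : ℕ)) (v p.1))) :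
    2 * k ≤ finrank F (LinearMap.range (opP x)) := by
  have h := finrank_span_eq_card (indep_P hv)
  rw [Fintype.card_fin] at h
  rw [← h]
  refine Submodule.finrank_mono ?_
  rw [Submodule.span_le]
  rintro _ ⟨i, rfl⟩
  exact ⟨v i, rfl⟩

lemma four_k_le_rank_D (hV : finrank F V = 6 * k)
    (hv : LinearIndependent F (fun p : Fin (2 * k) × Fin 3 => (x ^ (p.2 : ℕ)) (v p.1))) :
    4 * k ≤ finrank F (LinearMap.range (opD x)) := by
  have hspan : Submodule.span F (Set.range
      (fun p : Fin (2 * k) × Fin 3 => (x ^ (p.2 : ℕ)) (v p.1))) = ⊤ := by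
    apply hv.span_eq_top_of_card_eq_finrank'
    simp [hV]
    ring
  have htop : LinearMap.range (opD x) ⊔ Submodule.span F (Set.range v) = ⊤ := by
    rw [eq_top_iff, ← hspan, Submodule.span_le]
    rintro _ ⟨⟨i, j⟩, rfl⟩
    have h1 : v i ∈ LinearMap.range (opD x) ⊔ Submodule.span F (Set.range v) :=
      Submodule.mem_sup_right (Submodule.subset_span ⟨i, rfl⟩)
    have h2 : ∀ y ∈ LinearMap.range (opD x) ⊔ Submodule.span F (Set.range v),
        x y ∈ LinearMap.range (opD x) ⊔ Submodule.span F (Set.range v) := by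
      intro y hy
      have : x y = opD x y + y := by simp
      rw [this]
      exact Submodule.add_mem _ (Submodule.mem_sup_left ⟨y, rfl⟩) hy
    have h3 := h2 _ h1
    have h4 := h2 _ h3
    fin_cases j
    · simpa using h1
    · simpa using h3
    · simpa [pow_apply2] using h4
  have h1 := Submodule.finrank_add_le_finrank_add_finrank (LinearMap.range (opD x))
    (Submodule.span F (Set.range v))
  rw [htop, finrank_top, hV] at h1
  have h2 : finrank F (Submodule.span F (Set.range v)) ≤ 2 * k := by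
    have := finrank_range_le_card (R := F) v
    simpa [Set.finrank] using this
  omega

lemma range_D_le_ker_P (hxt : x ^ 3 = 1) : LinearMap.range (opD x) ≤ LinearMap.ker (opP x) := by
  rintro _ ⟨y, rfl⟩
  exact opP_opD hxt y

lemma range_P_le_ker_D (hxt : x ^ 3 = 1) : LinearMap.range (opP x) ≤ LinearMap.ker (opD x) := by
  rintro _ ⟨y, rfl⟩
  exact opD_opP hxt y

lemma finrank_ker_P (hV : finrank F V = 6 * k) (hxt : x ^ 3 = 1)
    (hv : LinearIndependent F (fun p : Fin (2 * k) × Fin 3 => (x ^ (p.2 : ℕ)) (v p.1))) :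
    finrank F (LinearMap.ker (opP x)) = 4 * k := by
  have h1 := two_k_le_rank_P hv
  have h2 := four_k_le_rank_D hV hv
  have h3 := Submodule.finrank_mono (range_D_le_ker_P hxt)
  have h4 := LinearMap.finrank_range_add_finrank_ker (opP x)
  omega

lemma finrank_range_D (hV : finrank F V = 6 * k) (hxt : x ^ 3 = 1)
    (hv : LinearIndependent F (fun p : Fin (2 * k) × Fin 3 => (x ^ (p.2 : ℕ)) (v p.1))) :
    finrank F (LinearMap.range (opD x)) = 4 * k := by
  have h1 := two_k_le_rank_P hv
  have h2 := four_k_le_rank_D hV hv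
  have h3 := Submodule.finrank_mono (range_D_le_ker_P hxt)
  have h4 := LinearMap.finrank_range_add_finrank_ker (opP x)
  omega

lemma range_D_eq (hV : finrank F V = 6 * k) (hxt : x ^ 3 = 1)
    (hv : LinearIndependent F (fun p : Fin (2 * k) × Fin 3 => (x ^ (p.2 : ℕ)) (v p.1))) :
    LinearMap.range (opD x) = LinearMap.ker (opP x) :=
  Submodule.eq_of_le_of_finrank_eq (range_D_le_ker_P hxt)
    (by rw [finrank_range_D hV hxt hv, finrank_ker_P hV hxt hv])

lemma finrank_ker_D (hV : finrank F V = 6 * k) (hxt : x ^ 3 = 1)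
    (hv : LinearIndependent F (fun p : Fin (2 * k) × Fin 3 => (x ^ (p.2 : ℕ)) (v p.1))) :
    finrank F (LinearMap.ker (opD x)) = 2 * k := by
  have h1 := finrank_range_D hV hxt hv
  have h4 := LinearMap.finrank_range_add_finrank_ker (opD x)
  omega

lemma range_P_eq (hV : finrank F V = 6 * k) (hxt : x ^ 3 = 1)
    (hv : LinearIndependent F (fun p : Fin (2 * k) × Fin 3 => (x ^ (p.2 : ℕ)) (v p.1))) :
    LinearMap.range (opP x) = LinearMap.ker (opD x) := by
  refine Submodule.eq_of_le_of_finrank_eq (range_P_le_ker_D hxt) ?_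
  have h1 := finrank_ker_P hV hxt hv
  have h2 := finrank_ker_D hV hxt hv
  have h4 := LinearMap.finrank_range_add_finrank_ker (opP x)
  omega

end dims

/-! ### Greedy construction -/

section greedy

open Classical in
/-- A vector outside a proper subspace. -/
noncomputable def pick (M : Submodule F V) : V := if h : ∃ y, y ∉ M then h.choose else 0

lemma pick_not_mem {M : Submodule F V} (h : M ≠ ⊤) : pick M ∉ M := by
  have h' : ∃ y, y ∉ M := by
    by_contra hc
    push Not at hc
    exact h (eq_top_iff.mpr fun y _ => hc y)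
  rw [pick, dif_pos h']
  exact h'.choose_spec

/-- The subspace generated by `p` under `J` and `N` (when `N³ = 0`, `J² = ν`). -/
def cyc (N J : Module.End F V) (p : V) : Submodule F V :=
  Submodule.span F {p, J p, N p, J (N p), N (N p), J (N (N p))}

/-- The greedy sequence of subspaces. -/
noncomputable def gre (N J : Module.End F V) : ℕ → Submodule F V
  | 0 => ⊥
  | l + 1 => gre N J l ⊔ cyc N J (pick (gre N J l ⊔ LinearMap.range N))

/-- The chosen vectors. -/
noncomputable def ww (N J : Module.End F V) (l : ℕ) : V :=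
  pick (gre N J l ⊔ LinearMap.range N)

lemma gre_succ (N J : Module.End F V) (l : ℕ) :
    gre N J (l + 1) = gre N J l ⊔ cyc N J (ww N J l) := rfl

variable {N J : Module.End F V} {ν : F}

lemma cyc_N (hNJ : ∀ y, J (N y) = N (J y)) (hN : ∀ y, N (N (N y)) = 0) (p : V) :
    ∀ y ∈ cyc N J p, N y ∈ cyc N J p := by
  intro y hy
  have : cyc N J p ≤ (cyc N J p).comap N := by
    unfold cyc
    rw [Submodule.span_le]
    intro z hz
    simp only [Set.mem_insert_iff, Set.mem_singleton_iff] at hz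
    simp only [SetLike.mem_coe, Submodule.mem_comap]
    rcases hz with rfl | rfl | rfl | rfl | rfl | rfl
    · exact Submodule.subset_span (by simp)
    · rw [← hNJ]; exact Submodule.subset_span (by simp)
    · exact Submodule.subset_span (by simp)
    · rw [← hNJ]; exact Submodule.subset_span (by simp)
    · rw [hN]; exact Submodule.zero_mem _
    · rw [← hNJ, hN, map_zero]; exact Submodule.zero_mem _
  exact this hy

lemma cyc_J (hJ : ∀ y, J (J y) = ν • y) (p : V) :
    ∀ y ∈ cyc N J p, J y ∈ cyc N J p := by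
  intro y hy
  have : cyc N J p ≤ (cyc N J p).comap J := by
    unfold cyc
    rw [Submodule.span_le]
    intro z hz
    simp only [Set.mem_insert_iff, Set.mem_singleton_iff] at hz
    simp only [SetLike.mem_coe, Submodule.mem_comap]
    rcases hz with rfl | rfl | rfl | rfl | rfl | rfl
    · exact Submodule.subset_span (by simp)
    · rw [hJ]; exact Submodule.smul_mem _ _ (Submodule.subset_span (by simp))
    · exact Submodule.subset_span (by simp)
    · rw [hJ]; exact Submodule.smul_mem _ _ (Submodule.subset_span (by simp))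
    · exact Submodule.subset_span (by simp)
    · rw [hJ]; exact Submodule.smul_mem _ _ (Submodule.subset_span (by simp))
  exact this hy

lemma sup_stable {T : Module.End F V} {A B : Submodule F V} (hA : ∀ y ∈ A, T y ∈ A)
    (hB : ∀ y ∈ B, T y ∈ B) : ∀ y ∈ A ⊔ B, T y ∈ A ⊔ B := by
  intro y hy
  obtain ⟨a, ha, b, hb, rfl⟩ := Submodule.mem_sup.mp hy
  rw [map_add]
  exact Submodule.add_mem _ (Submodule.mem_sup_left (hA a ha)) (Submodule.mem_sup_right (hB b hb))

lemma gre_N (hNJ : ∀ y, J (N y) = N (J y)) (hN : ∀ y, N (N (N y)) = 0) (l : ℕ) :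
    ∀ y ∈ gre N J l, N y ∈ gre N J l := by
  induction l with
  | zero =>
    intro y hy
    rw [gre, Submodule.mem_bot] at hy
    rw [hy, map_zero]
    exact Submodule.zero_mem _
  | succ l ih => exact sup_stable ih (cyc_N hNJ hN _)

lemma gre_J (hJ : ∀ y, J (J y) = ν • y) (l : ℕ) :
    ∀ y ∈ gre N J l, J y ∈ gre N J l := by
  induction l with
  | zero =>
    intro y hy
    rw [gre, Submodule.mem_bot] at hy
    rw [hy, map_zero]
    exact Submodule.zero_mem _
  | succ l ih => exact sup_stable ih (cyc_J hJ _)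

lemma gre_sup_succ (hNJ : ∀ y, J (N y) = N (J y)) (l : ℕ) :
    gre N J (l + 1) ⊔ LinearMap.range N =
      (gre N J l ⊔ LinearMap.range N) ⊔ Submodule.span F {ww N J l, J (ww N J l)} := by
  rw [gre_succ]
  apply le_antisymm
  · refine sup_le (sup_le (le_sup_of_le_left le_sup_left) ?_) (le_sup_of_le_left le_sup_right)
    unfold cyc
    rw [Submodule.span_le]
    intro z hz
    simp only [Set.mem_insert_iff, Set.mem_singleton_iff] at hz
    rw [SetLike.mem_coe]
    have hr : ∀ y, N y ∈ (gre N J l ⊔ LinearMap.range N) ⊔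
        Submodule.span F {ww N J l, J (ww N J l)} := fun y =>
      Submodule.mem_sup_left (Submodule.mem_sup_right ⟨y, rfl⟩)
    rcases hz with rfl | rfl | rfl | rfl | rfl | rfl
    · exact Submodule.mem_sup_right (Submodule.subset_span (by simp))
    · exact Submodule.mem_sup_right (Submodule.subset_span (by simp))
    · exact hr _
    · rw [hNJ]; exact hr _
    · exact hr _
    · rw [hNJ]; exact hr _
  · refine sup_le (sup_le (le_sup_of_le_left le_sup_left) le_sup_right) ?_
    rw [Submodule.span_le]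
    intro z hz
    simp only [Set.mem_insert_iff, Set.mem_singleton_iff] at hz
    rw [SetLike.mem_coe]
    rcases hz with rfl | rfl
    · exact Submodule.mem_sup_left (Submodule.mem_sup_right (Submodule.subset_span (by simp)))
    · exact Submodule.mem_sup_left (Submodule.mem_sup_right (Submodule.subset_span (by simp)))

lemma pair_zero (hν : ¬ IsSquare ν) (hJ : ∀ y, J (J y) = ν • y) {M : Submodule F V}
    (hM : ∀ y ∈ M, J y ∈ M) {p : V} (hp : p ∉ M) {a b : F} (h : a • p + b • J p ∈ M) :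
    a = 0 ∧ b = 0 := by
  have h1 : (a * a - b * b * ν) • p ∈ M := by
    have h2 := Submodule.sub_mem _ (Submodule.smul_mem _ a h) (Submodule.smul_mem _ b (hM _ h))
    have h3 : a • (a • p + b • J p) - b • J (a • p + b • J p) = (a * a - b * b * ν) • p := by
      simp only [map_add, map_smul, hJ]
      module
    rwa [h3] at h2
  have h2 : a * a - b * b * ν = 0 := by
    by_contra hne
    exact hp ((Submodule.smul_mem_iff _ hne).mp h1)
  have hb : b = 0 := by
    by_contra hb
    apply hν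
    refine ⟨a / b, ?_⟩
    field_simp
    linear_combination -h2
  subst hb
  simp at h2
  exact ⟨h2, rfl⟩

lemma finrank_sup_pair [FiniteDimensional F V] (hν : ¬ IsSquare ν) (hJ : ∀ y, J (J y) = ν • y)
    {M : Submodule F V} (hM : ∀ y ∈ M, J y ∈ M) {p : V} (hp : p ∉ M) :
    finrank F (M ⊔ Submodule.span F {p, J p} : Submodule F V) = finrank F M + 2 := by
  have h1 := Submodule.finrank_sup_add_finrank_inf_eq M (Submodule.span F {p, J p})
  have h2 : M ⊓ Submodule.span F {p, J p} = ⊥ := by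
    rw [eq_bot_iff]
    intro y hy
    obtain ⟨hy1, hy2⟩ := Submodule.mem_inf.mp hy
    obtain ⟨a, b, rfl⟩ := Submodule.mem_span_pair.mp hy2
    obtain ⟨rfl, rfl⟩ := pair_zero hν hJ hM hp hy1
    simp
  have h3 : finrank F (Submodule.span F {p, J p}) = 2 := by
    have hli : LinearIndependent F ![p, J p] := by
      rw [LinearIndependent.pair_iff]
      intro a b hab
      exact pair_zero hν hJ hM hp (by rw [hab]; exact Submodule.zero_mem _)
    have h4 := finrank_span_eq_card hli
    have h5 : Set.range ![p, J p] = {p, J p} := by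
      ext z
      simp only [Set.mem_range, Fin.exists_fin_two, Matrix.cons_val_zero, Matrix.cons_val_one,
        Set.mem_insert_iff, Set.mem_singleton_iff, eq_comm]
    rw [h5] at h4
    simpa using h4
  rw [h2, h3, finrank_bot] at h1
  omega

lemma finrank_gre_sup [FiniteDimensional F V] (hν : ¬ IsSquare ν) (hJ : ∀ y, J (J y) = ν • y)
    (hNJ : ∀ y, J (N y) = N (J y)) {k : ℕ}
    (hk : finrank F V = finrank F (LinearMap.range N) + 2 * k) {l : ℕ} (hl : l ≤ k) :
    finrank F (gre N J l ⊔ LinearMap.range N : Submodule F V) =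
      finrank F (LinearMap.range N) + 2 * l := by
  induction l with
  | zero =>
    have : gre N J 0 ⊔ LinearMap.range N = LinearMap.range N := by
      rw [gre, bot_sup_eq]
    rw [this, mul_zero, add_zero]
  | succ l ih =>
    have ih' := ih (by omega)
    rw [gre_sup_succ hNJ, finrank_sup_pair hν hJ, ih']
    · ring
    · refine sup_stable (gre_J hJ l) ?_
      rintro _ ⟨y, rfl⟩
      exact ⟨J y, (hNJ y).symm⟩
    · apply pick_not_mem
      intro htop
      rw [htop, finrank_top] at ih'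
      omega

lemma agree {J' : Module.End F V} (hJ : ∀ y, J (J y) = ν • y) (hJ' : ∀ y, J' (J' y) = ν • y)
    (hNJ : ∀ y, J (N y) = N (J y)) (hNJ' : ∀ y, J' (N y) = N (J' y)) (l : ℕ)
    (h : ∀ i < l, J' (ww N J' i) = J (ww N J i)) :
    gre N J' l = gre N J l ∧ ∀ y ∈ gre N J l, J' y = J y := by
  induction l with
  | zero =>
    refine ⟨rfl, fun y hy => ?_⟩
    rw [gre, Submodule.mem_bot] at hy
    rw [hy, map_zero, map_zero]
  | succ l ih =>
    obtain ⟨h1, h2⟩ := ih (fun i hi => h i (by omega))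
    have hw : ww N J' l = ww N J l := by unfold ww; rw [h1]
    have hp : J' (ww N J l) = J (ww N J l) := by
      have := h l (by omega)
      rwa [hw] at this
    have hp1 : J' (N (ww N J l)) = J (N (ww N J l)) := by rw [hNJ', hNJ, hp]
    have hp2 : J' (N (N (ww N J l))) = J (N (N (ww N J l))) := by rw [hNJ', hNJ, hp1]
    have hc : cyc N J' (ww N J l) = cyc N J (ww N J l) := by
      unfold cyc
      rw [hp, hp1, hp2]
    refine ⟨by rw [gre_succ, gre_succ, h1, hw, hc], ?_⟩
    intro y hy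
    rw [gre_succ] at hy
    obtain ⟨a, ha, b, hb, rfl⟩ := Submodule.mem_sup.mp hy
    rw [map_add, map_add, h2 a ha]
    congr 1
    have hle : cyc N J (ww N J l) ≤ LinearMap.ker (J' - J) := by
      unfold cyc
      rw [Submodule.span_le]
      intro z hz
      simp only [Set.mem_insert_iff, Set.mem_singleton_iff] at hz
      simp only [SetLike.mem_coe, LinearMap.mem_ker, LinearMap.sub_apply, sub_eq_zero]
      have hJJ : ∀ u, J' u = J u → J' (J u) = J (J u) := by
        intro u hu
        rw [hJ, ← hu, hJ']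
      rcases hz with rfl | rfl | rfl | rfl | rfl | rfl
      · exact hp
      · exact hJJ _ hp
      · exact hp1
      · exact hJJ _ hp1
      · exact hp2
      · exact hJJ _ hp2
    have := hle hb
    rwa [LinearMap.mem_ker, LinearMap.sub_apply, sub_eq_zero] at this

lemma eq_of_agree [FiniteDimensional F V] {J' : Module.End F V} (hν : ¬ IsSquare ν)
    (hN : ∀ y, N (N (N y)) = 0)
    (hJ : ∀ y, J (J y) = ν • y) (hJ' : ∀ y, J' (J' y) = ν • y)
    (hNJ : ∀ y, J (N y) = N (J y)) (hNJ' : ∀ y, J' (N y) = N (J' y)) {k : ℕ}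
    (hk : finrank F V = finrank F (LinearMap.range N) + 2 * k)
    (h : ∀ i < k, J' (ww N J' i) = J (ww N J i)) : J' = J := by
  obtain ⟨-, h2⟩ := agree hJ hJ' hNJ hNJ' k h
  have htop : gre N J k ⊔ LinearMap.range N = ⊤ := by
    apply Submodule.eq_top_of_finrank_eq
    rw [finrank_gre_sup hν hJ hNJ hk le_rfl, hk]
  have hE : ∀ y, ∃ g z, J' g = J g ∧ y = g + N z := by
    intro y
    have hy : y ∈ gre N J k ⊔ LinearMap.range N := by rw [htop]; trivial
    obtain ⟨a, ha, b, ⟨z, rfl⟩, rfl⟩ := Submodule.mem_sup.mp hy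
    exact ⟨a, z, h2 a ha, rfl⟩
  ext y
  obtain ⟨g, y1, hg, rfl⟩ := hE y
  obtain ⟨g1, y2, hg1, rfl⟩ := hE y1
  obtain ⟨g2, y3, hg2, rfl⟩ := hE y2
  simp only [map_add, hN, hNJ, hNJ', hg, hg1, hg2, map_zero]

/-- Dimension of the greedy subspaces when `ker N² = range N`. -/
lemma six_le_finrank_gre [FiniteDimensional F V] (hν : ¬ IsSquare ν)
    (hN : ∀ y, N (N (N y)) = 0) (hJ : ∀ y, J (J y) = ν • y)
    (hNJ : ∀ y, J (N y) = N (J y)) (hker : ∀ y, N (N y) = 0 → y ∈ LinearMap.range N) {k : ℕ}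
    (hk : finrank F V = finrank F (LinearMap.range N) + 2 * k) {l : ℕ} (hl : l ≤ k) :
    6 * l ≤ finrank F (gre N J l) := by
  have h0 := finrank_gre_sup hν hJ hNJ hk hl
  have hst := gre_N (N := N) (J := J) hNJ hN l
  set L := gre N J l with hL
  have key : ∀ (T : Module.End F V) (U : Submodule F V),
      finrank F (U.map T) + finrank F (LinearMap.ker T ⊓ U : Submodule F V) = finrank F U := by
    intro T U
    have h1 := LinearMap.finrank_range_add_finrank_ker (T.domRestrict U)
    rw [LinearMap.range_domRestrict] at h1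
    have h2 : finrank F (LinearMap.ker (T.domRestrict U)) =
        finrank F (LinearMap.ker T ⊓ U : Submodule F V) := by
      rw [LinearMap.ker_domRestrict]
      have e := (Submodule.comap_equiv_self_of_inj_of_le (Submodule.injective_subtype U)
        (p := LinearMap.ker T ⊓ U) (by simp)).finrank_eq
      have hc : Submodule.comap U.subtype (LinearMap.ker T ⊓ U) =
          (LinearMap.ker T).submoduleOf U := by
        ext z
        simp [Submodule.submoduleOf]
      rw [hc] at e
      exact e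
    omega
  have h1 := Submodule.finrank_sup_add_finrank_inf_eq L (LinearMap.range N)
  have h2 : LinearMap.ker (N ∘ₗ N) ⊓ L ≤ L ⊓ LinearMap.range N := by
    intro y hy
    obtain ⟨hy1, hy2⟩ := Submodule.mem_inf.mp hy
    exact Submodule.mem_inf.mpr ⟨hy2, hker y hy1⟩
  have h3 := Submodule.finrank_mono h2
  have h4 := key (N ∘ₗ N) L
  have h5 := key N L
  have h6 := key N (L.map N)
  have h7 : (L.map N).map N = L.map (N ∘ₗ N) := by rw [Submodule.map_comp]
  rw [h7] at h6
  have h8 : L.map (N ∘ₗ N) ≤ LinearMap.ker N ⊓ (L.map N) := by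
    rintro _ ⟨y, hy, rfl⟩
    refine Submodule.mem_inf.mpr ⟨hN y, ⟨N y, hst y hy, rfl⟩⟩
  have h9 : L.map (N ∘ₗ N) ≤ LinearMap.ker N ⊓ L := by
    rintro _ ⟨y, hy, rfl⟩
    exact Submodule.mem_inf.mpr ⟨hN y, hst _ (hst _ hy)⟩
  have h10 := Submodule.finrank_mono h8
  have h11 := Submodule.finrank_mono h9
  omega

end greedy

/-! ### Characteristic 3 -/

section char3

variable [Finite F] [Finite V] {k : ℕ} {x : V ≃ₗ[F] V} {v : Fin (2 * k) → V} {ν : F}

omit [Field F] [AddCommGroup V] [Module F V] in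
lemma sum_six (n : ℕ) : ∑ l ∈ Finset.range n, (6 * n - 6 * l) = 3 * n * (n + 1) := by
  induction n with
  | zero => simp
  | succ n ih =>
    rw [Finset.sum_range_succ]
    have h1 : ∑ l ∈ Finset.range n, (6 * (n + 1) - 6 * l) =
        ∑ l ∈ Finset.range n, ((6 * n - 6 * l) + 6) := by
      refine Finset.sum_congr rfl fun l hl => ?_
      have := Finset.mem_range.mp hl
      omega
    rw [h1, Finset.sum_add_distrib, ih, Finset.sum_const, Finset.card_range, smul_eq_mul]
    have h2 : 6 * (n + 1) - 6 * n = 6 := by omega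
    rw [h2]
    ring

instance finite_End : Finite (Module.End F V) :=
  Finite.of_injective (fun f : Module.End F V => (f : V → V)) DFunLike.coe_injective

/-- Tree count for a set `S` of skew operators with square `ν` commuting with `N`. -/
lemma card_tree (hω : IsSymp ω) (hν : ¬ IsSquare ν) {N : Module.End F V} {S : Type*}
    (op : S → Module.End F V) (hop : Function.Injective op) (hS : ∀ s, op s ∈ Y ω ν)
    (hNJ : ∀ s, ∀ y, op s (N y) = N (op s y)) (hN : ∀ y, N (N (N y)) = 0)
    (hk : finrank F V = finrank F (LinearMap.range N) + 2 * k) (e : ℕ)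
    (hd : ∀ s, ∀ l < k, e * l ≤ finrank F (gre N (op s) l)) :
    Nat.card S ≤ (Nat.card F) ^ (∑ l ∈ Finset.range k, (finrank F V - e * l)) := by
  have : Finite S := Finite.of_injective op hop
  have hmain := card_le_tree (S := S) (X := V) k
    (fun l s => op s (ww N (op s) l)) (fun l => (Nat.card F) ^ (finrank F V - e * l)) ?_ ?_
  · refine hmain.trans (le_of_eq ?_)
    rw [Finset.prod_pow_eq_pow_sum]
  · intro l hl s
    have hJ2 := (hS s).2
    have hJs := (hS s).1
    have hd' := hd s l hl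
    set L := gre N (op s) l with hL
    let b := Module.finBasis F L
    have hb : LinearIndependent F (fun i => ((b i : L) : V)) :=
      b.linearIndependent.map' L.subtype (Submodule.ker_subtype L)
    have hcard := card_solutions hω (fun i => ((b i : L) : V)) hb
      (fun i => - ω (op s (b i : V)) (ww N (op s) l))
    refine le_trans ?_ (le_trans hcard.le ?_)
    · refine Nat.card_mono (Set.toFinite _)
        (s := {v : V | ∃ y : S,
          (∀ i < l, op y (ww N (op y) i) = op s (ww N (op s) i)) ∧ op y (ww N (op y) l) = v})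
        (t := {y : V | ∀ i, ω ((b i : L) : V) y = - ω (op s (b i : V)) (ww N (op s) l)}) ?_
      rintro _ ⟨s', hJ', rfl⟩ i
      have hJ'' : ∀ i < l, op s' (ww N (op s') i) = op s (ww N (op s) i) := hJ'
      obtain ⟨h1, h2⟩ := agree hJ2 (hS s').2 (hNJ s) (hNJ s') l hJ''
      have hw : ww N (op s') l = ww N (op s) l := by unfold ww; rw [h1]
      rw [hw]
      have h4 := (hS s').1 (b i : V) (ww N (op s) l)
      have h5 := h2 (b i : V) (b i).2
      rw [h5] at h4
      rw [h4, neg_neg]
    · apply Nat.pow_le_pow_right Nat.card_pos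
      rw [Fintype.card_fin]
      omega
  · intro s s' h
    apply hop
    exact (eq_of_agree hν hN (hS s).2 (hS s').2 (hNJ s) (hNJ s') hk
      (fun i hi => (h i hi).symm)).symm

lemma card_tree_char3 (hω : IsSymp ω) (hν : ¬ IsSquare ν) (h3 : (3 : F) = 0)
    (hV : finrank F V = 6 * k) (hxt : x ^ 3 = 1)
    (hv : LinearIndependent F (fun p : Fin (2 * k) × Fin 3 => (x ^ (p.2 : ℕ)) (v p.1))) :
    Nat.card {J : Y ω ν // ∀ y, J.1 (x y) = x (J.1 y)} ≤ (Nat.card F) ^ (3 * k * (k + 1)) := by
  have : FiniteDimensional F V := inferInstance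
  set N : Module.End F V := opD x with hNdef
  have h3' : ∀ y : V, (3 : F) • y = 0 := fun y => by rw [h3, zero_smul]
  have hNN : ∀ y, N (N y) = opP x y := by
    intro y
    have : N (N y) = opP x y - (3 : F) • (x y) := by
      simp only [hNdef, opD_apply, opP_apply, map_sub]
      module
    rw [this, h3', sub_zero]
  have hN : ∀ y, N (N (N y)) = 0 := by
    intro y
    rw [hNN]
    exact opP_opD hxt y
  have hker : ∀ y, N (N y) = 0 → y ∈ LinearMap.range N := by
    intro y hy
    rw [hNN] at hy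
    rw [hNdef, range_D_eq hV hxt hv]
    exact hy
  have hk : finrank F V = finrank F (LinearMap.range N) + 2 * k := by
    rw [hNdef, finrank_range_D hV hxt hv, hV]; ring
  have hNJ : ∀ J : {J : Y ω ν // ∀ y, J.1 (x y) = x (J.1 y)}, ∀ y, J.1.1 (N y) = N (J.1.1 y) := by
    intro J y
    simp only [hNdef, opD_apply, map_sub, J.2]
  have h := card_tree hω hν (N := N) (S := {J : Y ω ν // ∀ y, J.1 (x y) = x (J.1 y)})
    (fun J => J.1.1) (fun a b h => Subtype.ext (Subtype.ext h)) (fun J => J.1.2) hNJ hN hk 6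
    (fun J l hl => six_le_finrank_gre hν hN J.1.2.2 (hNJ J) hker hk hl.le)
  rwa [hV, sum_six] at h

/-- Bound for the number of skew operators with nonsquare square. -/
lemma card_Y_le (hω : IsSymp ω) {δ : F} (hδ : ¬ IsSquare δ) (hV : finrank F V = 2 * k) :
    Nat.card (Y ω δ) ≤ (Nat.card F) ^ (k * (k + 1)) := by
  have hk : finrank F V = finrank F (LinearMap.range (0 : Module.End F V)) + 2 * k := by
    rw [LinearMap.range_zero, finrank_bot, hV, zero_add]
  have h := card_tree hω hδ (N := 0) (S := Y ω δ) (fun J => J.1)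
    (fun a b h => Subtype.ext h) (fun J => J.2) (fun J y => by simp) (fun y => rfl) hk 2
    (fun J l hl => by
      have := finrank_gre_sup (N := 0) hδ J.2.2 (fun y => by simp) hk hl.le
      rw [LinearMap.range_zero, sup_bot_eq, finrank_bot, zero_add] at this
      exact this.ge)
  rw [hV] at h
  have h6 := sum_six k
  have h7 : ∑ l ∈ Finset.range k, (6 * k - 6 * l) = 3 * ∑ l ∈ Finset.range k, (2 * k - 2 * l) := by
    rw [Finset.mul_sum]
    refine Finset.sum_congr rfl fun l _ => ?_
    omega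
  have h8 : ∑ l ∈ Finset.range k, (2 * k - 2 * l) = k * (k + 1) := by
    have : 3 * k * (k + 1) = 3 * (k * (k + 1)) := by ring
    omega
  rwa [h8] at h

end char3

/-! ### Other characteristics -/

section other

variable [Finite F] [Finite V] {k : ℕ} {x : V ≃ₗ[F] V} {v : Fin (2 * k) → V} {ν : F}

lemma restrict_symp (hω : IsSymp ω) {U U' : Submodule F V} (hUU : ∀ y ∈ U, ∀ z ∈ U', ω y z = 0)
    (hsup : U ⊔ U' = ⊤) : IsSymp (ω.restrict U) := by
  refine ⟨fun y => hω.alt y, ?_⟩
  intro y hy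
  apply Subtype.ext
  apply hω.nd
  intro z
  have hz : z ∈ U ⊔ U' := by rw [hsup]; trivial
  obtain ⟨a, ha, b, hb, rfl⟩ := Submodule.mem_sup.mp hz
  rw [map_add, hUU _ y.2 _ hb, add_zero]
  exact hy ⟨a, ha⟩

/-- `x - x²`. -/
def opZ (x : V ≃ₗ[F] V) : Module.End F V :=
  (x : V →ₗ[F] V) - (x : V →ₗ[F] V) ∘ₗ (x : V →ₗ[F] V)

omit [Finite F] [Finite V] in
@[simp] lemma opZ_apply (x : V ≃ₗ[F] V) (y : V) : opZ x y = x y - x (x y) := rfl

omit [Finite F] [Finite V] in
lemma form_x (hx : x ∈ Sp ω) (hxt : x ^ 3 = 1) (u w : V) : ω (x u) w = ω u (x (x w)) := by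
  have := mem_Sp.mp hx u (x (x w))
  rw [x3 hxt] at this
  exact this

omit [Finite F] [Finite V] in
lemma form_x' (hx : x ∈ Sp ω) (hxt : x ^ 3 = 1) (u w : V) : ω (x (x u)) w = ω u (x w) := by
  rw [form_x hx hxt, form_x hx hxt, x3 hxt]

omit [Finite F] [Finite V] in
lemma skew_Z (hx : x ∈ Sp ω) (hxt : x ^ 3 = 1) : IsSK ω (opZ x) := by
  intro u w
  simp only [opZ_apply, map_sub, LinearMap.sub_apply, form_x hx hxt, x3 hxt]
  abel

omit [Finite F] [Finite V] in
lemma sa_P (hx : x ∈ Sp ω) (hxt : x ^ 3 = 1) : IsSA ω (opP x) := by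
  intro u w
  simp only [opP_apply, map_add, LinearMap.add_apply, form_x hx hxt, x3 hxt]
  abel

omit [Finite F] [Finite V] in
lemma orth_KW (hx : x ∈ Sp ω) (hxt : x ^ 3 = 1) (h3 : (3 : F) ≠ 0) :
    ∀ y ∈ LinearMap.ker (opD x), ∀ z ∈ LinearMap.ker (opP x), ω y z = 0 := by
  intro y hy z hz
  rw [LinearMap.mem_ker] at hy hz
  have h1 := sa_P hx hxt y z
  rw [hz, map_zero] at h1
  have h2 : opP x y = (3 : F) • y := by
    have hxy : x y = y := by
      rw [opD_apply, sub_eq_zero] at hy
      exact hy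
    rw [opP_apply, hxy, hxy]
    module
  rw [h2, map_smul, LinearMap.smul_apply, smul_eq_mul] at h1
  exact (mul_eq_zero.mp h1).resolve_left h3

omit [Finite F] [Finite V] in
lemma sup_KW (hxt : x ^ 3 = 1) (h3 : (3 : F) ≠ 0) :
    LinearMap.ker (opD x) ⊔ LinearMap.ker (opP x) = ⊤ := by
  rw [eq_top_iff]
  intro y _
  have h : y = (3 : F)⁻¹ • opP x y + (y - (3 : F)⁻¹ • opP x y) := by abel
  rw [h]
  refine Submodule.add_mem _ (Submodule.mem_sup_left ?_) (Submodule.mem_sup_right ?_)
  · rw [LinearMap.mem_ker, map_smul, opD_opP hxt, smul_zero]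
  · rw [LinearMap.mem_ker, map_sub, map_smul]
    have h2 : opP x (opP x y) = (3 : F) • opP x y := by
      simp only [opP_apply, map_add, x3 hxt]
      module
    rw [h2, smul_smul, inv_mul_cancel₀ h3, one_smul, sub_self]

omit [Finite F] [Finite V] in
lemma comm_D {J : Module.End F V} (hJ : ∀ y, J (x y) = x (J y)) :
    ∀ y ∈ LinearMap.ker (opD x), J y ∈ LinearMap.ker (opD x) := by
  intro y hy
  rw [LinearMap.mem_ker] at hy ⊢
  have : opD x (J y) = J (opD x y) := by simp [hJ]
  rw [this, hy, map_zero]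

omit [Finite F] [Finite V] in
lemma comm_P {J : Module.End F V} (hJ : ∀ y, J (x y) = x (J y)) :
    ∀ y ∈ LinearMap.ker (opP x), J y ∈ LinearMap.ker (opP x) := by
  intro y hy
  rw [LinearMap.mem_ker] at hy ⊢
  have : opP x (J y) = J (opP x y) := by simp [hJ]
  rw [this, hy, map_zero]

omit [Finite F] [Finite V] in
lemma comm_Z {J : Module.End F V} (hJ : ∀ y, J (x y) = x (J y)) (y : V) :
    J (opZ x y) = opZ x (J y) := by
  simp [hJ]

omit [Finite F] [Finite V] in
lemma Z_sq_W (hxt : x ^ 3 = 1) {y : V} (hy : opP x y = 0) : opZ x (opZ x y) = (-3 : F) • y := by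
  have : opZ x (opZ x y) = opP x y + (-3 : F) • y := by
    simp only [opZ_apply, opP_apply, map_sub, x3 hxt]
    module
  rw [this, hy, zero_add]

omit [Finite F] [Finite V] in
lemma Z_mem_W (hxt : x ^ 3 = 1) (y : V) : opP x (opZ x y) = 0 := by
  simp only [opZ_apply, opP_apply, map_sub, x3 hxt]
  abel

/-- The number of linear operators with square `ν` (nonsquare). -/
lemma card_sq_le {U : Type*} [AddCommGroup U] [Module F U] [Finite U]
    (hν : ¬ IsSquare ν) (hU : finrank F U = 2 * k) :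
    Nat.card {J : Module.End F U // ∀ y, J (J y) = ν • y} ≤ (Nat.card F) ^ (2 * k * k) := by
  have hfin : FiniteDimensional F U := inferInstance
  have hcU : Nat.card U = (Nat.card F) ^ (2 * k) := by
    rw [Module.natCard_eq_pow_finrank (K := F), hU]
  have h : Nat.card (Fin k → U) = (Nat.card F) ^ (2 * k * k) := by
    rw [Nat.card_fun, Nat.card_fin, hcU, ← pow_mul]
  rw [← h]
  refine Nat.card_le_card_of_injective
    (fun J : {J : Module.End F U // ∀ y, J (J y) = ν • y} =>
      fun i : Fin k => J.1 (ww 0 J.1 (i : ℕ))) ?_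
  intro J J' hJJ
  apply Subtype.ext
  refine (eq_of_agree (N := 0) (ν := ν) (k := k) hν (fun y => rfl) J.2 J'.2 (fun y => by simp)
    (fun y => by simp) ?_ ?_).symm
  · simp [hU]
  · intro i hi
    exact (congrFun hJJ ⟨i, hi⟩).symm

/-- Case `-3` nonsquare. -/
lemma card_case1 (hω : IsSymp ω) (h2 : (2 : F) ≠ 0) (h3 : (3 : F) ≠ 0) (hν : ¬ IsSquare ν)
    (hδ : ¬ IsSquare (-3 : F)) (hq : 3 ≤ Nat.card F) (hV : finrank F V = 6 * k)
    (hx : x ∈ Sp ω) (hxt : x ^ 3 = 1)
    (hv : LinearIndependent F (fun p : Fin (2 * k) × Fin 3 => (x ^ (p.2 : ℕ)) (v p.1))) :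
    7 * Nat.card {J : Y ω ν // ∀ y, J.1 (x y) = x (J.1 y)} ≤
      8 * (2 * k + 1) * (Nat.card F) ^ (3 * k * (k + 1)) := by
  have horth := orth_KW hx hxt h3
  have hsup := sup_KW (x := x) hxt h3
  have hK := restrict_symp hω horth hsup
  have hW : IsSymp (ω.restrict (LinearMap.ker (opP x))) := by
    refine restrict_symp hω (U' := LinearMap.ker (opD x)) ?_ (by rw [sup_comm]; exact hsup)
    intro y hy z hz
    have h := hω.alt (y + z)
    simp only [map_add, LinearMap.add_apply, hω.alt, horth z hz y hy] at h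
    simpa using h
  have hdK := finrank_ker_D hV hxt hv
  have hdW := finrank_ker_P hV hxt hv
  have hZW : ∀ y ∈ LinearMap.ker (opP x), opZ x y ∈ LinearMap.ker (opP x) :=
    fun y _ => Z_mem_W hxt y
  set z : Module.End F (LinearMap.ker (opP x)) := (opZ x).restrict hZW with hz
  have hzY : z ∈ Y (ω.restrict (LinearMap.ker (opP x))) (-3 : F) := by
    refine ⟨fun a b => skew_Z hx hxt (a : V) (b : V), ?_⟩
    intro a
    apply Subtype.ext
    exact Z_sq_W hxt a.2
  have hC := card_Y_comm_Y_le hW h2 hq hν hδ (m := 2 * k) (by rw [hdW]; ring) hzY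
  have hE := card_Y_le hK hν hdK
  set SK := Y (ω.restrict (LinearMap.ker (opD x))) ν with hSK
  set SW := {J : Y (ω.restrict (LinearMap.ker (opP x))) ν // ∀ y, J.1 (z y) = z (J.1 y)} with hSW
  let Φ : {J : Y ω ν // ∀ y, J.1 (x y) = x (J.1 y)} → SK × SW := fun J =>
    (⟨J.1.1.restrict (comm_D J.2), ⟨fun a b => J.1.2.1 (a : V) (b : V), fun a => by
        apply Subtype.ext
        exact J.1.2.2 a⟩⟩,
      ⟨⟨J.1.1.restrict (comm_P J.2), ⟨fun a b => J.1.2.1 (a : V) (b : V), fun a => by
        apply Subtype.ext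
        exact J.1.2.2 a⟩⟩, fun a => by
        apply Subtype.ext
        exact comm_Z J.2 a⟩)
  have hinj : Function.Injective Φ := by
    intro J J' h
    apply Subtype.ext
    apply Subtype.ext
    have h1 : ∀ y ∈ LinearMap.ker (opD x), J.1.1 y = J'.1.1 y := by
      intro y hy
      have := congrArg (fun p => ((p.1.1 ⟨y, hy⟩ : LinearMap.ker (opD x)) : V)) h
      exact this
    have h2 : ∀ y ∈ LinearMap.ker (opP x), J.1.1 y = J'.1.1 y := by
      intro y hy
      have := congrArg (fun p => ((p.2.1.1 ⟨y, hy⟩ : LinearMap.ker (opP x)) : V)) h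
      exact this
    ext y
    have hy : y ∈ LinearMap.ker (opD x) ⊔ LinearMap.ker (opP x) := by rw [hsup]; trivial
    obtain ⟨a, ha, b, hb, rfl⟩ := Submodule.mem_sup.mp hy
    rw [map_add, map_add, h1 a ha, h2 b hb]
  have hcard := Nat.card_le_card_of_injective Φ hinj
  rw [Nat.card_prod] at hcard
  have hsum : ∑ j ∈ Finset.range (2 * k + 1), (Nat.card F) ^ (2 * j * (2 * k - j)) ≤
      (2 * k + 1) * (Nat.card F) ^ (2 * k * k) := by
    have : ∀ j ∈ Finset.range (2 * k + 1), (Nat.card F) ^ (2 * j * (2 * k - j)) ≤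
        (Nat.card F) ^ (2 * k * k) := by
      intro j hj
      apply Nat.pow_le_pow_right Nat.card_pos
      have hj' : j ≤ 2 * k := by
        have := Finset.mem_range.mp hj
        omega
      obtain ⟨d, hd⟩ := Nat.exists_eq_add_of_le hj'
      rw [hd, Nat.add_sub_cancel_left]
      have h4 : (2 * k : ℤ) = j + d := by exact_mod_cast hd
      zify
      have h5 : (k : ℤ) * 2 = j + d := by linarith
      nlinarith [sq_nonneg ((j : ℤ) - d)]
    refine (Finset.sum_le_sum this).trans ?_
    rw [Finset.sum_const, Finset.card_range, smul_eq_mul]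
  calc 7 * Nat.card {J : Y ω ν // ∀ y, J.1 (x y) = x (J.1 y)}
      ≤ 7 * (Nat.card SK * Nat.card SW) := Nat.mul_le_mul_left _ hcard
    _ = Nat.card SK * (7 * Nat.card SW) := by ring
    _ ≤ (Nat.card F) ^ (k * (k + 1)) * (8 * ((2 * k + 1) * (Nat.card F) ^ (2 * k * k))) :=
        Nat.mul_le_mul hE (hC.trans (Nat.mul_le_mul_left _ hsum))
    _ = 8 * (2 * k + 1) * (Nat.card F) ^ (k * (k + 1) + 2 * k * k) := by
        rw [pow_add]; ring
    _ ≤ 8 * (2 * k + 1) * (Nat.card F) ^ (3 * k * (k + 1)) := by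
        apply Nat.mul_le_mul_left
        apply Nat.pow_le_pow_right Nat.card_pos
        nlinarith

/-- The eigenspaces of `z = x - x²`. -/
def eig (x : V ≃ₗ[F] V) (c : F) : Submodule F V := LinearMap.ker (opZ x - c • LinearMap.id)

omit [Finite F] [Finite V] in
lemma mem_eig {c : F} {y : V} : y ∈ eig x c ↔ opZ x y = c • y := by
  simp [eig, sub_eq_zero]

omit [Finite F] [Finite V] in
lemma eig_TI (h2 : (2 : F) ≠ 0) (hx : x ∈ Sp ω) (hxt : x ^ 3 = 1) {c : F} (hc : c ≠ 0) :
    ∀ y ∈ eig x c, ∀ z ∈ eig x c, ω y z = 0 := by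
  intro y hy z hz
  rw [mem_eig] at hy hz
  have h := skew_Z hx hxt y z
  rw [hy, hz, map_smul, map_smul, LinearMap.smul_apply, smul_eq_mul] at h
  have h4 : (2 * c) * ω y z = 0 := by linear_combination h
  rcases mul_eq_zero.mp h4 with h5 | h5
  · exact absurd h5 (mul_ne_zero h2 hc)
  · exact h5

omit [Finite F] [Finite V] in
lemma eig_le_W (hxt : x ^ 3 = 1) {c : F} (hc : c ≠ 0) : eig x c ≤ LinearMap.ker (opP x) := by
  intro y hy
  rw [mem_eig] at hy
  rw [LinearMap.mem_ker]
  have h : y = c⁻¹ • opZ x y := by rw [hy, smul_smul, inv_mul_cancel₀ hc, one_smul]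
  rw [h, map_smul, Z_mem_W hxt, smul_zero]

omit [Finite F] [Finite V] in
lemma W_le_eig (hxt : x ^ 3 = 1) (h2 : (2 : F) ≠ 0) {c : F} (hc : c ≠ 0)
    (hc3 : -3 = c * c) : LinearMap.ker (opP x) ≤ eig x c ⊔ eig x (-c) := by
  intro y hy
  have hZ := Z_sq_W hxt (LinearMap.mem_ker.mp hy)
  have h : y = (2 * c)⁻¹ • (c • y + opZ x y) + (2 * c)⁻¹ • (c • y - opZ x y) := by
    rw [← smul_add]
    have : c • y + opZ x y + (c • y - opZ x y) = (2 * c) • y := by module
    rw [this, smul_smul, inv_mul_cancel₀ (mul_ne_zero h2 hc), one_smul]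
  rw [h]
  refine Submodule.add_mem _ (Submodule.mem_sup_left ?_) (Submodule.mem_sup_right ?_)
  · apply Submodule.smul_mem
    rw [mem_eig, map_add, map_smul, hZ, hc3]
    module
  · apply Submodule.smul_mem
    rw [mem_eig, map_sub, map_smul, hZ, hc3]
    module

lemma finrank_eig_le (hω : IsSymp ω) (h2 : (2 : F) ≠ 0) (h3 : (3 : F) ≠ 0)
    (hV : finrank F V = 6 * k) (hx : x ∈ Sp ω) (hxt : x ^ 3 = 1)
    (hv : LinearIndependent F (fun p : Fin (2 * k) × Fin 3 => (x ^ (p.2 : ℕ)) (v p.1)))
    {c : F} (hc : c ≠ 0) : finrank F (eig x c) ≤ 2 * k := by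
  have hnd : ω.Nondegenerate := by
    refine LinearMap.BilinForm.nondegenerate_iff_ker_eq_bot.mpr ?_
    rw [LinearMap.ker_eq_bot']
    intro y hy
    exact hω.nd y fun z => by rw [hy, LinearMap.zero_apply]
  have hrefl : ω.IsRefl := by
    intro a b hab
    have h := hω.alt (a + b)
    simp only [map_add, LinearMap.add_apply, hω.alt, hab] at h
    simpa using h
  have h4 := LinearMap.BilinForm.finrank_orthogonal hnd (eig x c)
  have h5 : LinearMap.ker (opD x) ⊔ eig x c ≤ ω.orthogonal (eig x c) := by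
    refine sup_le ?_ ?_
    · intro y hy z hz
      exact hrefl _ _ (orth_KW hx hxt h3 y hy z (eig_le_W hxt hc hz))
    · intro y hy z hz
      exact eig_TI h2 hx hxt hc z hz y hy
  have h6 := Submodule.finrank_mono h5
  have h7 := Submodule.finrank_sup_add_finrank_inf_eq (LinearMap.ker (opD x)) (eig x c)
  have h8 : LinearMap.ker (opD x) ⊓ eig x c = ⊥ := by
    rw [eq_bot_iff]
    intro y hy
    obtain ⟨hy1, hy2⟩ := Submodule.mem_inf.mp hy
    rw [mem_eig] at hy2
    rw [LinearMap.mem_ker, opD_apply, sub_eq_zero] at hy1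
    rw [opZ_apply, hy1, hy1, sub_self] at hy2
    rw [Submodule.mem_bot]
    exact (smul_eq_zero.mp hy2.symm).resolve_left hc
  rw [h8, finrank_bot, finrank_ker_D hV hxt hv] at h7
  omega

lemma finrank_eig (hω : IsSymp ω) (h2 : (2 : F) ≠ 0) (h3 : (3 : F) ≠ 0)
    (hV : finrank F V = 6 * k) (hx : x ∈ Sp ω) (hxt : x ^ 3 = 1)
    (hv : LinearIndependent F (fun p : Fin (2 * k) × Fin 3 => (x ^ (p.2 : ℕ)) (v p.1)))
    {c : F} (hc : c ≠ 0) (hc3 : -3 = c * c) : finrank F (eig x c) = 2 * k := by
  have h4 := finrank_eig_le hω h2 h3 hV hx hxt hv hc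
  have h5 := finrank_eig_le hω h2 h3 hV hx hxt hv (neg_ne_zero.mpr hc)
  have h6 := Submodule.finrank_mono (W_le_eig hxt h2 hc hc3)
  have h7 := Submodule.finrank_add_le_finrank_add_finrank (eig x c) (eig x (-c))
  rw [finrank_ker_P hV hxt hv] at h6
  omega

/-- Case `-3 = c²`, characteristic not 3. -/
lemma card_case2 (hω : IsSymp ω) (h2 : (2 : F) ≠ 0) (h3 : (3 : F) ≠ 0) (hν : ¬ IsSquare ν)
    {c : F} (hc3 : -3 = c * c) (hV : finrank F V = 6 * k)
    (hx : x ∈ Sp ω) (hxt : x ^ 3 = 1)
    (hv : LinearIndependent F (fun p : Fin (2 * k) × Fin 3 => (x ^ (p.2 : ℕ)) (v p.1))) :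
    Nat.card {J : Y ω ν // ∀ y, J.1 (x y) = x (J.1 y)} ≤
      (Nat.card F) ^ (3 * k * (k + 1)) := by
  have hc : c ≠ 0 := by
    rintro rfl
    apply h3
    linear_combination -hc3
  have horth := orth_KW hx hxt h3
  have hsup := sup_KW (x := x) hxt h3
  have hK := restrict_symp hω horth hsup
  have hdK := finrank_ker_D hV hxt hv
  have hdE := finrank_eig hω h2 h3 hV hx hxt hv hc hc3
  have hE := card_Y_le hK hν hdK
  have hS := card_sq_le (k := k) (ν := ν) (U := eig x c) hν hdE
  have heJ : ∀ (J : Module.End F V) (d : F), (∀ y, J (x y) = x (J y)) →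
      ∀ y ∈ eig x d, J y ∈ eig x d := by
    intro J d hJ y hy
    rw [mem_eig] at hy ⊢
    rw [← comm_Z hJ, hy, map_smul]
  set SK := Y (ω.restrict (LinearMap.ker (opD x))) ν with hSK
  set SW := {J : Module.End F (eig x c) // ∀ y, J (J y) = ν • y} with hSW
  let Φ : {J : Y ω ν // ∀ y, J.1 (x y) = x (J.1 y)} → SK × SW := fun J =>
    (⟨J.1.1.restrict (comm_D J.2), ⟨fun a b => J.1.2.1 (a : V) (b : V), fun a => by
        apply Subtype.ext
        exact J.1.2.2 a⟩⟩,
      ⟨J.1.1.restrict (heJ J.1.1 c J.2), fun a => by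
        apply Subtype.ext
        exact J.1.2.2 a⟩)
  have hinj : Function.Injective Φ := by
    intro J J' h
    apply Subtype.ext
    apply Subtype.ext
    have h1 : ∀ y ∈ LinearMap.ker (opD x), J.1.1 y = J'.1.1 y := by
      intro y hy
      have := congrArg (fun p => ((p.1.1 ⟨y, hy⟩ : LinearMap.ker (opD x)) : V)) h
      exact this
    have h5 : ∀ y ∈ eig x c, J.1.1 y = J'.1.1 y := by
      intro y hy
      have := congrArg (fun p => ((p.2.1 ⟨y, hy⟩ : eig x c) : V)) h
      exact this
    have hall : ∀ u : V, ∃ a ∈ LinearMap.ker (opD x), ∃ b ∈ eig x c, ∃ d ∈ eig x (-c),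
        u = a + (b + d) := by
      intro u
      have hu : u ∈ LinearMap.ker (opD x) ⊔ LinearMap.ker (opP x) := by rw [hsup]; trivial
      obtain ⟨a, ha, b, hb, rfl⟩ := Submodule.mem_sup.mp hu
      obtain ⟨b1, hb1, b2, hb2, rfl⟩ := Submodule.mem_sup.mp (W_le_eig hxt h2 hc hc3 hb)
      exact ⟨a, ha, b1, hb1, b2, hb2, rfl⟩
    have h6 : ∀ y ∈ eig x (-c), J.1.1 y - J'.1.1 y = 0 := by
      intro y hy
      apply hω.nd
      intro u
      obtain ⟨a, ha, b, hb, d, hd, rfl⟩ := hall u
      have e1 : ∀ w, J.1.1 w = J'.1.1 w → ω (J.1.1 y - J'.1.1 y) w = 0 := by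
        intro w hw
        rw [map_sub, LinearMap.sub_apply, J.1.2.1 y w, J'.1.2.1 y w, hw, sub_self]
      have e2 : ω (J.1.1 y - J'.1.1 y) d = 0 := by
        refine eig_TI h2 hx hxt (neg_ne_zero.mpr hc) _ ?_ d hd
        exact Submodule.sub_mem _ (heJ _ _ J.2 y hy) (heJ _ _ J'.2 y hy)
      rw [map_add, map_add, e1 a (h1 a ha), e1 b (h5 b hb), e2, add_zero, add_zero]
    ext y
    obtain ⟨a, ha, b, hb, d, hd, rfl⟩ := hall y
    rw [map_add, map_add, map_add, map_add, h1 a ha, h5 b hb, sub_eq_zero.mp (h6 d hd)]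
  have hcard := Nat.card_le_card_of_injective Φ hinj
  rw [Nat.card_prod] at hcard
  refine hcard.trans ((Nat.mul_le_mul hE hS).trans ?_)
  rw [← pow_add]
  apply Nat.pow_le_pow_right Nat.card_pos
  nlinarith

end other

end Free3

/-- H6 : elements of `Y ω ν` commuting with an element of order 3 acting freely. -/
theorem card_Y_free3_le {F V : Type*} [Field F] [Finite F] [AddCommGroup V] [Module F V]
    [Finite V] {ω : LinearMap.BilinForm F V}
    (hω : IsSymp ω) (h2 : (2 : F) ≠ 0) {ν : F} (hν : ¬ IsSquare ν)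
    (hq : 3 ≤ Nat.card F) {k : ℕ} (hV : finrank F V = 6 * k)
    {x : V ≃ₗ[F] V} (hx : x ∈ Sp ω) (hxt : x ^ 3 = 1) (v : Fin (2 * k) → V)
    (hv : LinearIndependent F (fun p : Fin (2 * k) × Fin 3 => (x ^ (p.2 : ℕ)) (v p.1))) :
    7 * Nat.card {J : Y ω ν // ∀ y, J.1 (x y) = x (J.1 y)} ≤
      8 * (2 * k + 1) * (Nat.card F) ^ (3 * k * (k + 1)) := by
  have hweak : ∀ n : ℕ, n ≤ (Nat.card F) ^ (3 * k * (k + 1)) →
      7 * n ≤ 8 * (2 * k + 1) * (Nat.card F) ^ (3 * k * (k + 1)) := by
    intro n hn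
    refine Nat.mul_le_mul ?_ hn
    omega
  by_cases h3 : (3 : F) = 0
  · exact hweak _ (Free3.card_tree_char3 hω hν h3 hV hxt hv)
  · by_cases hδ : IsSquare (-3 : F)
    · obtain ⟨c, hc⟩ := hδ
      exact hweak _ (Free3.card_case2 hω h2 h3 hν hc hV hx hxt hv)
    · exact Free3.card_case1 hω h2 h3 hν hδ hq hV hx hxt hv

end Pool.Agent.UD
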