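import Pool.Agent.UD.Events
import Pool.Agent.UD.Free3

/-!
# Block K, K7
-/

open Module

namespace Pool.Agent.UD

variable {F V : Type*} [Field F] [Finite F] [AddCommGroup V] [Module F V] [Finite V]
variable {ω : LinearMap.BilinForm F V}

/-- K7 : the same, `r = 3` (G2, G3, H6, K0). -/
theorem ev_gal_three (hω : IsSymp ω) (h2 : (2 : F) ≠ 0) (hq : 3 ≤ Nat.card F) {ν : F} (hν : ¬ IsSquare ν)
    {m : ℕ} (hm : finrank F V = 2 * m) {J : Module.End F V} (hJ : J ∈ Y ω ν)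
    (B : Subalgebra F (Module.End F V))
    (hB : IsField B) (hsb : ∀ b ∈ B, IsSA ω b) {l : ℕ}
    (hBr : finrank F B = 3) (hl : m = 3 * l) :
    49 * Nat.card {g : Sp ω // ∃ x' ∈ Gal ω (cjA g.1 B) 3, Cm x' J} * Nat.card (Y ω ν) *
        Nat.card F ^ (l * (2 * l + 1)) ≤
      128 * (2 * l + 1) * Nat.card (Sp ω) * Nat.card F ^ (m * (2 * l + 1) + m * (l + 1)) := by
  have hV : finrank F V = 2 * 3 * l := by rw [hm, hl]; ring
  have hV6 : finrank F V = 6 * l := by rw [hm, hl]; ring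
  have c1 := card_Gal_le hω h2 hq B hB hsb Nat.prime_three hBr hV
  rw [← hl] at c1
  have c2 := card_sigma_le (A := Gal ω B 3)
    (B := fun x => {J : Y ω ν // ∀ y, J.1 (x.1 y) = x.1 (J.1 y)}) 7
    (8 * (2 * l + 1) * Nat.card F ^ (m * (l + 1))) (by
      rintro ⟨x, hx1, hx2, hx3, hx4⟩
      obtain ⟨v, hv⟩ := Gal_free B hB Nat.prime_three hBr hV hx2 hx3 hx4
      have h3 := card_Y_free3_le hω h2 hν hq hV6 hx1 hx2 v hv
      rw [← hl] at h3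
      exact h3)
  let P : (Σ x : Gal ω B 3, {J : Y ω ν // ∀ y, J.1 (x.1 y) = x.1 (J.1 y)}) → Sp ω → Prop :=
    fun p g => cj g.1 p.2.1.1 = J
  have c3 := card_union_le P (Nat.card (Y ω ν)) (Nat.card (Sp ω))
    (fun p => (card_fibre hω h2 hν p.2.1.2 hJ).le)
  have c4 : Nat.card {g : Sp ω // ∃ x' ∈ Gal ω (cjA g.1 B) 3, Cm x' J} ≤
      Nat.card {g : Sp ω // ∃ i, P i g} := by
    apply card_sub_mono
    rintro g ⟨x, hx, h1⟩
    exact ⟨⟨⟨g.1⁻¹ * x * g.1, gal_conj g.2 hx⟩, ⟨⟨cj g.1⁻¹ J, cj_mem_Y (inv_mem_Sp g.2) hJ⟩,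
      cm_conj_gal h1⟩⟩, cj_cj_inv g.1 J⟩
  have c5 := (Nat.mul_le_mul_right (Nat.card (Y ω ν)) c4).trans c3
  set N := Nat.card {g : Sp ω // ∃ x' ∈ Gal ω (cjA g.1 B) 3, Cm x' J}
  set a := Nat.card (Gal ω B 3)
  set s := Nat.card (Σ x : Gal ω B 3, {J : Y ω ν // ∀ y, J.1 (x.1 y) = x.1 (J.1 y)})
  calc 49 * N * Nat.card (Y ω ν) * Nat.card F ^ (l * (2 * l + 1)) =
        49 * (N * Nat.card (Y ω ν)) * Nat.card F ^ (l * (2 * l + 1)) := by ring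
    _ ≤ 49 * (s * Nat.card (Sp ω)) * Nat.card F ^ (l * (2 * l + 1)) :=
      Nat.mul_le_mul_right _ (Nat.mul_le_mul_left _ c5)
    _ = (7 * s) * (7 * Nat.card (Sp ω) * Nat.card F ^ (l * (2 * l + 1))) := by ring
    _ ≤ (a * (8 * (2 * l + 1) * Nat.card F ^ (m * (l + 1)))) *
        (7 * Nat.card (Sp ω) * Nat.card F ^ (l * (2 * l + 1))) := Nat.mul_le_mul_right _ c2
    _ = (7 * a * Nat.card F ^ (l * (2 * l + 1))) *
        (8 * (2 * l + 1) * Nat.card F ^ (m * (l + 1)) * Nat.card (Sp ω)) := by ring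
    _ ≤ (8 * (3 - 1) * Nat.card F ^ (m * (2 * l + 1))) *
        (8 * (2 * l + 1) * Nat.card F ^ (m * (l + 1)) * Nat.card (Sp ω)) := Nat.mul_le_mul_right _ c1
    _ = _ := by rw [pow_add]; ring

end Pool.Agent.UD
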