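import Pool.Agent.UD.Defs3

/-!
# Block L for MP_65787c_al: from trivial intersections to uniform domination
-/

open Module

namespace Pool.Agent.UD

variable {F V : Type*} [Field F] [AddCommGroup V] [Module F V]
variable {ω : LinearMap.BilinForm F V}

lemma cj_of_triv {x : V ≃ₗ[F] V} (hx : Triv x) (T : Module.End F V) : cj x T = T := by
  rcases hx with hx | hx
  · ext v
    rw [cj_apply, hx]
    have : x.symm v = v := by
      rw [LinearEquiv.symm_apply_eq, hx]
    rw [this]
  · ext v
    rw [cj_apply, hx]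
    have : x.symm v = -v := by
      rw [LinearEquiv.symm_apply_eq, hx, neg_neg]
    rw [this, map_neg, neg_neg]

lemma pm_le_nsub (A : Subalgebra F (Module.End F V)) : PM ω ≤ NSub ω A := by
  rintro ⟨x, hx⟩ h
  change cjA x A = A
  apply SetLike.ext
  intro T
  rw [mem_cjA]
  constructor
  · rintro ⟨c, hc, rfl⟩
    rw [cj_of_triv h]
    exact hc
  · intro hT
    exact ⟨T, hT, cj_of_triv h T⟩

/-- L1 : from `Bad` to subgroups. -/
theorem inter_of_not_bad {A B : Subalgebra F (Module.End F V)} {g : Sp ω} (h : g ∉ Bad ω A B) :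
    NSub ω A ⊓ (NSub ω B).map (MulAut.conj g).toMonoidHom = PM ω := by
  apply le_antisymm
  · rintro x ⟨h1, h2⟩
    obtain ⟨y, hy, rfl⟩ := h2
    by_contra hne
    apply h
    refine ⟨_, ((MulAut.conj g).toMonoidHom y).2, ?_, ?_, hne⟩
    · intro a ha
      have h3 : cjA ((MulAut.conj g).toMonoidHom y).1 A = A := h1
      rw [← h3]
      exact mem_cjA.mpr ⟨a, ha, rfl⟩
    · intro a ha
      obtain ⟨b, hb, rfl⟩ := mem_cjA.mp ha
      have h3 : cjA y.1 B = B := hy
      refine mem_cjA.mpr ⟨cj y.1 b, ?_, ?_⟩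
      · rw [← h3]
        exact mem_cjA.mpr ⟨b, hb, rfl⟩
      · have h4 : ((MulAut.conj g).toMonoidHom y).1 = g.1 * y.1 * g.1⁻¹ := rfl
        rw [h4, ← mul_cj, ← mul_cj, inv_mul_cancel_right]
  · intro x hx
    refine ⟨pm_le_nsub A hx, g⁻¹ * x * g, ?_, ?_⟩
    · apply pm_le_nsub B
      have := (inferInstance : (PM ω).Normal).conj_mem x hx g⁻¹
      rwa [inv_inv] at this
    · change g * (g⁻¹ * x * g) * g⁻¹ = x
      group

lemma toPSp_ne_one {s : Sp ω} (hV : 2 ≤ finrank F V) (hi : Irred s.1) : toPSp ω s ≠ 1 := by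
  intro h
  have h1 : s ∈ PM ω := by
    rwa [← MonoidHom.mem_ker, QuotientGroup.ker_mk'] at h
  have hst : ∀ U : Submodule F V, ∀ u ∈ U, s.1 u ∈ U := by
    intro U u hu
    rcases h1 with h1 | h1
    · rw [h1]; exact hu
    · rw [h1]; exact U.neg_mem hu
  have : Nontrivial V := by
    apply Module.nontrivial_of_finrank_pos (R := F)
    omega
  obtain ⟨v, hv⟩ := exists_ne (0 : V)
  rcases hi (F ∙ v) (hst _) with h2 | h2
  · rw [Submodule.span_singleton_eq_bot] at h2
    exact hv h2
  · have h3 := finrank_span_singleton (K := F) hv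
    rw [h2, finrank_top] at h3
    omega

/-- L2 : trivial intersections and the expected overgroups give a total dominating set. -/
theorem tds_of [Finite V] (_hω : IsSymp ω) (hV : 2 ≤ finrank F V) {s : Sp ω} (hi : Irred s.1)
    (ho : Overgroups ω s) {g : Sp ω}
    (hg : ∀ A B : Subalgebra F (Module.End F V), A ≤ alg s.1 → B ≤ alg s.1 → (finrank F A).Prime →
      (finrank F B).Prime → g ∉ Bad ω A B) :
    TotalDominating {toPSp ω s, toPSp ω g * toPSp ω s * (toPSp ω g)⁻¹} := by
  have hfin : Finite (V ≃ₗ[F] V) := by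
    apply Finite.of_injective (fun e : V ≃ₗ[F] V => (e : V → V))
    intro a b hab
    exact LinearEquiv.ext fun v => congrFun hab v
  have hs1 := toPSp_ne_one hV hi
  refine ⟨?_, ?_⟩
  · intro t ht
    rcases ht with rfl | ht
    · exact hs1
    · rw [Set.mem_singleton_iff] at ht
      subst ht
      intro h
      apply hs1
      rw [mul_inv_eq_one] at h
      exact mul_eq_left.mp h
  · intro x hx
    by_contra hcon
    have hc : ∀ t ∈ ({toPSp ω s, toPSp ω g * toPSp ω s * (toPSp ω g)⁻¹} : Set (PSp ω)),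
        Subgroup.closure {x, t} ≠ ⊤ := fun t ht h => hcon ⟨t, ht, h⟩
    have c1 := hc _ (Or.inl rfl)
    have c2 := hc _ (Or.inr rfl)
    obtain ⟨M₁, hM₁, hle₁⟩ := (eq_top_or_exists_le_coatom _).resolve_left c1
    obtain ⟨M₂, hM₂, hle₂⟩ := (eq_top_or_exists_le_coatom _).resolve_left c2
    have hx1 : x ∈ M₁ := hle₁ (Subgroup.subset_closure (Or.inl rfl))
    have hs1 : toPSp ω s ∈ M₁ := hle₁ (Subgroup.subset_closure (Or.inr rfl))
    have hx2 : x ∈ M₂ := hle₂ (Subgroup.subset_closure (Or.inl rfl))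
    have hs2 : toPSp ω g * toPSp ω s * (toPSp ω g)⁻¹ ∈ M₂ :=
      hle₂ (Subgroup.subset_closure (Or.inr rfl))
    obtain ⟨A, hA, hAp, rfl⟩ := ho M₁ hM₁ hs1
    -- the conjugate of `M₂`
    let c : PSp ω ≃* PSp ω := MulAut.conj (toPSp ω g)
    have hM3 : IsCoatom (M₂.comap c.toMonoidHom) := by
      have h5 := (OrderIso.isCoatom_iff (c.symm.mapSubgroup) M₂).mpr hM₂
      have h6 : c.symm.mapSubgroup M₂ = M₂.comap c.toMonoidHom := by
        ext y
        rw [Subgroup.mem_comap]
        change y ∈ M₂.map c.symm.toMonoidHom ↔ _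
        rw [Subgroup.mem_map]
        constructor
        · rintro ⟨z, hz, rfl⟩
          change c (c.symm z) ∈ M₂
          rwa [MulEquiv.apply_symm_apply]
        · intro hy
          exact ⟨c y, hy, c.symm_apply_apply y⟩
      rwa [h6] at h5
    obtain ⟨B, hB, hBp, hBM⟩ := ho _ hM3 (by
      rw [Subgroup.mem_comap]
      exact hs2)
    obtain ⟨a, ha, rfl⟩ := hx1
    have hxB : c.symm (toPSp ω a) ∈ (NSub ω B).map (toPSp ω) := by
      rw [← hBM, Subgroup.mem_comap]
      change c (c.symm _) ∈ M₂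
      rwa [MulEquiv.apply_symm_apply]
    obtain ⟨b, hb, hbe⟩ := hxB
    have hbe' : toPSp ω b = toPSp ω (g⁻¹ * a * g) := by
      rw [hbe]
      change (toPSp ω g)⁻¹ * toPSp ω a * toPSp ω g = _
      rw [map_mul, map_mul, map_inv]
    have hm : b⁻¹ * (g⁻¹ * a * g) ∈ PM ω := by
      rw [← QuotientGroup.eq]
      exact hbe'
    have hm2 : g⁻¹ * a * g ∈ NSub ω B := by
      have := (NSub ω B).mul_mem hb (pm_le_nsub B hm)
      rwa [mul_inv_cancel_left] at this
    have hm3 : a ∈ NSub ω A ⊓ (NSub ω B).map (MulAut.conj g).toMonoidHom := by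
      refine ⟨ha, g⁻¹ * a * g, hm2, ?_⟩
      change g * (g⁻¹ * a * g) * g⁻¹ = a
      group
    rw [inter_of_not_bad (hg A B hA hB hAp hBp)] at hm3
    apply hx
    rw [← MonoidHom.mem_ker, QuotientGroup.ker_mk']
    exact hm3

lemma symp_neg (hω : IsSymp ω) (x y : V) : ω x y = -ω y x := by
  have h := hω.alt (x + y)
  simp only [map_add, LinearMap.add_apply, hω.alt, zero_add, add_zero] at h
  linear_combination h

/-- The symplectic transvection `x ↦ x + ω(x, u) u`. -/
def stv (hω : IsSymp ω) (u : V) : V ≃ₗ[F] V where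
  toFun x := x + ω x u • u
  map_add' x y := by
    simp only [map_add, LinearMap.add_apply, add_smul]
    abel
  map_smul' c x := by
    simp only [map_smul, LinearMap.smul_apply, smul_eq_mul, mul_smul, smul_add, RingHom.id_apply]
  invFun x := x - ω x u • u
  left_inv x := by
    simp only [map_add, map_smul, LinearMap.add_apply, LinearMap.smul_apply, hω.alt, smul_zero,
      add_zero, add_sub_cancel_right]
  right_inv x := by
    simp only [map_sub, map_smul, LinearMap.sub_apply, LinearMap.smul_apply, hω.alt, smul_zero,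
      sub_zero, sub_add_cancel]

lemma stv_apply (hω : IsSymp ω) (u x : V) : stv hω u x = x + ω x u • u := rfl

lemma stv_mem (hω : IsSymp ω) (u : V) : stv hω u ∈ Sp ω := by
  rw [mem_Sp]
  intro x y
  rw [stv_apply, stv_apply]
  simp only [map_add, map_smul, LinearMap.add_apply, LinearMap.smul_apply, smul_eq_mul, hω.alt]
  rw [symp_neg hω u y]
  ring

/-- L3 : `PSp` is not commutative. -/
theorem psp_noncomm (hω : IsSymp ω) (_hq : 3 ≤ Nat.card F) (hV : 2 ≤ finrank F V) :
    ∃ a b : PSp ω, a * b ≠ b * a := by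
  have : Nontrivial V := Module.nontrivial_of_finrank_pos (R := F) (by omega)
  obtain ⟨e, he⟩ := exists_ne (0 : V)
  obtain ⟨f₀, hf₀⟩ : ∃ f₀, ω e f₀ ≠ 0 := by
    by_contra hcon
    push Not at hcon
    exact he (hω.nd e hcon)
  set f := (ω e f₀)⁻¹ • f₀ with hf
  have hef : ω e f = 1 := by
    rw [hf, map_smul, smul_eq_mul, inv_mul_cancel₀ hf₀]
  have hfe : ω f e = -1 := by
    rw [symp_neg hω, hef]
  refine ⟨toPSp ω ⟨stv hω e, stv_mem hω e⟩, toPSp ω ⟨stv hω f, stv_mem hω f⟩, ?_⟩
  intro h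
  rw [← map_mul, ← map_mul] at h
  have h1 := QuotientGroup.eq.mp h
  set z := ((⟨stv hω e, stv_mem hω e⟩ : Sp ω) * ⟨stv hω f, stv_mem hω f⟩)⁻¹ *
    (⟨stv hω f, stv_mem hω f⟩ * ⟨stv hω e, stv_mem hω e⟩) with hz
  have h2 : (⟨stv hω f, stv_mem hω f⟩ : Sp ω) * ⟨stv hω e, stv_mem hω e⟩ =
      (⟨stv hω e, stv_mem hω e⟩ * ⟨stv hω f, stv_mem hω f⟩) * z := by
    rw [hz, mul_inv_cancel_left]
  have h3 : stv hω f (stv hω e e) = stv hω e (stv hω f (z.1 e)) := by
    have := congrArg (fun y : Sp ω => y.1 e) h2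
    exact this
  have e1 : stv hω f (stv hω e e) = e + f := by
    rw [stv_apply hω e, hω.alt, zero_smul, add_zero, stv_apply, hef, one_smul]
  have e2 : stv hω e (stv hω f e) = f := by
    rw [stv_apply hω f, hef, one_smul, map_add, stv_apply, stv_apply, hω.alt, hfe, zero_smul,
      add_zero, neg_one_smul]
    abel
  rw [e1] at h3
  rcases h1 with h1 | h1
  · rw [h1, e2] at h3
    apply he
    simpa using h3
  · rw [h1, map_neg, map_neg, e2] at h3
    have h4 := congrArg (fun y => ω y f) h3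
    simp only [map_add, map_neg, LinearMap.add_apply, LinearMap.neg_apply, hef, hω.alt, add_zero,
      neg_zero] at h4
    exact one_ne_zero h4

/-- L4 : a total dominating set of two conjugate elements gives `gammaU = 2`. -/
theorem gammaU_eq_two {G : Type*} [Group G] (hnc : ∃ a b : G, a * b ≠ b * a) {s t : G}
    (hst : IsConj s t) (h : TotalDominating {s, t}) : gammaU G = 2 := by
  classical
  have hcyc : ∀ u : G, Subgroup.closure {u} ≠ ⊤ := by
    intro u hu
    obtain ⟨a, b, hab⟩ := hnc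
    apply hab
    have ha : a ∈ Subgroup.closure {u} := by rw [hu]; exact Subgroup.mem_top a
    have hb : b ∈ Subgroup.closure {u} := by rw [hu]; exact Subgroup.mem_top b
    rw [Subgroup.mem_closure_singleton] at ha hb
    obtain ⟨i, rfl⟩ := ha
    obtain ⟨j, rfl⟩ := hb
    rw [← zpow_add, ← zpow_add, add_comm]
  have hsing : ∀ u : G, ¬ TotalDominating {u} := by
    intro u hu
    obtain ⟨t', ht', h2⟩ := hu.2 u (hu.1 u rfl)
    rw [Set.mem_singleton_iff] at ht'
    subst ht'
    rw [Set.pair_eq_singleton] at h2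
    exact hcyc _ h2
  have hne : s ≠ t := by
    rintro rfl
    rw [Set.pair_eq_singleton] at h
    exact hsing _ h
  have h2 : 2 ∈ {n | ∃ S : Finset G, S.card = n ∧ TotalDominating (S : Set G) ∧
      ∀ s ∈ S, ∀ s' ∈ S, IsConj s s'} := by
    refine ⟨{s, t}, Finset.card_pair hne, ?_, ?_⟩
    · rw [Finset.coe_pair]
      exact h
    · intro a ha b hb
      rw [Finset.mem_insert, Finset.mem_singleton] at ha hb
      rcases ha with rfl | rfl <;> rcases hb with rfl | rfl
      · exact IsConj.refl _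
      · exact hst
      · exact hst.symm
      · exact IsConj.refl _
  apply le_antisymm
  · exact Nat.sInf_le h2
  · refine le_csInf ⟨2, h2⟩ ?_
    rintro n ⟨S, hS, hT, -⟩
    by_contra hlt
    push Not at hlt
    interval_cases n
    · rw [Finset.card_eq_zero] at hS
      subst hS
      have hs1 : s ≠ 1 := h.1 s (Or.inl rfl)
      obtain ⟨t', ht', -⟩ := hT.2 s hs1
      simp at ht'
    · rw [Finset.card_eq_one] at hS
      obtain ⟨u, rfl⟩ := hS
      rw [Finset.coe_singleton] at hT
      exact hsing u hT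

end Pool.Agent.UD
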