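import Mathlib

/-!
# Counting lemmas in a finite field with an involution (for MP_65787c_al, block I)
-/

set_option autoImplicit false
set_option linter.unusedSectionVars false

open Module

namespace Pool.Agent.UD.GoodField

variable {F K : Type*} [Field F] [Finite F] [Field K] [Algebra F K] [Finite K]

/-- The fixed algebra of `σ`. -/
def fixE (σ : K →ₐ[F] K) : Subalgebra F K where
  carrier := {x | σ x = x}
  mul_mem' := by intro a b ha hb; simp only [Set.mem_ofPred_eq] at *; rw [map_mul, ha, hb]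
  add_mem' := by intro a b ha hb; simp only [Set.mem_ofPred_eq] at *; rw [map_add, ha, hb]
  algebraMap_mem' := by intro r; simp

lemma mem_fixE {σ : K →ₐ[F] K} {x : K} : x ∈ fixE σ ↔ σ x = x := Iff.rfl

lemma two_ne {F K : Type*} [Field F] [Field K] [Algebra F K] (h2 : (2 : F) ≠ 0) : (2 : K) ≠ 0 := by
  intro h
  apply h2
  apply FaithfulSMul.algebraMap_injective F K
  rw [map_ofNat, h, map_zero]

lemma card_fixE_sq (h2 : (2 : F) ≠ 0) (σ : K →ₐ[F] K) (hσ : ∀ x, σ (σ x) = x) {j : K}
    (hj0 : j ≠ 0) (hj : σ j = -j) : Nat.card (fixE σ) * Nat.card (fixE σ) = Nat.card K := by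
  have h2K : (2 : K) ≠ 0 := two_ne h2
  rw [← Nat.card_prod]
  refine Nat.card_congr (Equiv.ofBijective (fun p : fixE σ × fixE σ => (p.1 : K) + p.2 * j) ⟨?_, ?_⟩)
  · rintro ⟨⟨a, ha⟩, ⟨b, hb⟩⟩ ⟨⟨c, hc⟩, ⟨d, hd⟩⟩ h
    simp only at h
    rw [mem_fixE] at ha hb hc hd
    have h' := congrArg σ h
    rw [map_add, map_add, map_mul, map_mul, ha, hb, hc, hd, hj] at h'
    have h1 : a = c := by
      have : 2 * a = 2 * c := by linear_combination h + h'
      exact mul_left_cancel₀ h2K this
    have h3 : b = d := by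
      have : (2 * j) * b = (2 * j) * d := by linear_combination h - h'
      exact mul_left_cancel₀ (mul_ne_zero h2K hj0) this
    subst h1 h3
    rfl
  · intro x
    refine ⟨⟨⟨(x + σ x) / 2, ?_⟩, ⟨(x - σ x) / (2 * j), ?_⟩⟩, ?_⟩
    · rw [mem_fixE, map_div₀, map_add, hσ, map_ofNat, add_comm]
    · rw [mem_fixE, map_div₀, map_sub, hσ, map_mul, map_ofNat, hj]
      rw [mul_neg, div_neg, ← neg_div, neg_sub]
    · simp only
      field_simp
      ring

lemma card_fixE (h2 : (2 : F) ≠ 0) (σ : K →ₐ[F] K) (hσ : ∀ x, σ (σ x) = x) {m : ℕ}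
    (hm : finrank F K = 2 * m) {j : K} (hj0 : j ≠ 0) (hj : σ j = -j) :
    Nat.card (fixE σ) = Nat.card F ^ m := by
  have h := card_fixE_sq h2 σ hσ hj0 hj
  rw [Module.natCard_eq_pow_finrank (K := F) (V := K), hm, two_mul, pow_add] at h
  exact Nat.mul_self_inj.mp h

lemma finrank_fixE (h2 : (2 : F) ≠ 0) (σ : K →ₐ[F] K) (hσ : ∀ x, σ (σ x) = x) {m : ℕ}
    (hm : finrank F K = 2 * m) {j : K} (hj0 : j ≠ 0) (hj : σ j = -j) :
    finrank F (fixE σ) = m := by
  have h := card_fixE h2 σ hσ hm hj0 hj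
  rw [Module.natCard_eq_pow_finrank (K := F) (V := fixE σ)] at h
  exact Nat.pow_right_injective (Finite.one_lt_card (α := F)) h

/-- the number of solutions of `x ^ (q ^ n) = x`. -/
lemma card_frob_fix (n : ℕ) (hn : n ≠ 0) :
    Nat.card {x : K // x ^ (Nat.card F ^ n) = x} ≤ Nat.card F ^ n := by
  classical
  have hq : 1 < Nat.card F ^ n := Nat.one_lt_pow hn (Finite.one_lt_card (α := F))
  let p : Polynomial K := Polynomial.X ^ (Nat.card F ^ n) - Polynomial.X
  have hp : p ≠ 0 := FiniteField.X_pow_card_sub_X_ne_zero K hq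
  have hdeg : p.natDegree = Nat.card F ^ n := FiniteField.X_pow_card_sub_X_natDegree_eq K hq
  have hsub : {x : K | x ^ (Nat.card F ^ n) = x} ⊆ (p.roots.toFinset : Set K) := by
    intro x hx
    simp only [Set.mem_ofPred_eq] at hx
    simp only [Finset.mem_coe, Multiset.mem_toFinset, Polynomial.mem_roots hp, Polynomial.IsRoot.def]
    simp [p, hx]
  calc Nat.card {x : K // x ^ (Nat.card F ^ n) = x}
      = Nat.card {x : K | x ^ (Nat.card F ^ n) = x} := rfl
    _ ≤ Nat.card (p.roots.toFinset : Set K) := Nat.card_mono (Finset.finite_toSet _) hsub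
    _ = p.roots.toFinset.card := Nat.card_eq_card_toFinset _ |>.trans (by rw [Finset.toFinset_coe])
    _ ≤ Multiset.card p.roots := Multiset.toFinset_card_le _
    _ ≤ p.natDegree := Polynomial.card_roots' p
    _ = _ := hdeg

lemma pow_frob_of_finrank_dvd (θ : K) {n : ℕ} (h : finrank F (Algebra.adjoin F {θ}) ∣ n) :
    θ ^ (Nat.card F ^ n) = θ := by
  classical
  have hfield : IsField (Algebra.adjoin F {θ}) := by
    have : Finite (Algebra.adjoin F {θ}) := inferInstance
    exact Finite.isField_of_domain _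
  let _ := hfield.toField
  let _ : Fintype (Algebra.adjoin F {θ}) := Fintype.ofFinite _
  obtain ⟨k, hk⟩ := h
  have hcard : Fintype.card (Algebra.adjoin F {θ}) = Nat.card F ^ finrank F (Algebra.adjoin F {θ}) := by
    rw [← Nat.card_eq_fintype_card]
    exact Module.natCard_eq_pow_finrank
  have h1 : ∀ k : ℕ, ∀ x : Algebra.adjoin F {θ},
      x ^ ((Nat.card F ^ finrank F (Algebra.adjoin F {θ})) ^ k) = x := by
    intro k x
    rw [← hcard]
    exact FiniteField.pow_card_pow k x
  have h2 := h1 k ⟨θ, Algebra.self_mem_adjoin_singleton F θ⟩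
  have h3 := congrArg (fun z : Algebra.adjoin F {θ} => (z : K)) h2
  simp only [SubmonoidClass.coe_pow] at h3
  rw [hk, pow_mul]
  exact h3


lemma finrank_dvd_of_le {A B : Subalgebra F K} (h : A ≤ B) : finrank F A ∣ finrank F B := by
  have hA : IsField A := Finite.isField_of_domain _
  let _ : Field A := hA.toField
  let _ : Module A B := (Subalgebra.inclusion h).toRingHom.toModule
  have h1 : Nat.card B = Nat.card A ^ finrank A B := Module.natCard_eq_pow_finrank
  rw [Module.natCard_eq_pow_finrank (K := F) (V := B),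
    Module.natCard_eq_pow_finrank (K := F) (V := A), ← pow_mul] at h1
  exact ⟨_, Nat.pow_right_injective (Finite.one_lt_card (α := F)) h1⟩

/-- The parameter set of `card_theta`, in field form. -/
def Theta (σ : K →ₐ[F] K) (m : ℕ) (ν : F) : Set K :=
  {θ | σ θ = θ ∧ finrank F (Algebra.adjoin F {θ}) = m ∧
    ∃ ρ : K, σ ρ = ρ ∧ ρ ≠ 0 ∧ θ * θ + ν • (ρ * ρ) = algebraMap F K (4 * ν ^ 2)}

lemma dvd_of_lt {m d : ℕ} (hm : m ≠ 0) (hd : d ∣ m) (hne : d ≠ m) :
    ∃ t ∈ m.primeFactors, d ∣ m / t := by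
  obtain ⟨c, rfl⟩ := hd
  have hc : c ≠ 1 := by rintro rfl; simp at hne
  obtain ⟨t, ht, htc⟩ := Nat.exists_prime_and_dvd hc
  refine ⟨t, ?_, ?_⟩
  · rw [Nat.mem_primeFactors]
    exact ⟨ht, htc.trans (Dvd.intro_left _ rfl), hm⟩
  · obtain ⟨e, rfl⟩ := htc
    refine ⟨e, ?_⟩
    rw [show d * (t * e) = (d * e) * t by ring, Nat.mul_div_cancel _ ht.pos]

lemma card_fibre_two {A B : Type*} [Finite A] [Finite B] (f : A → B)
    (h : ∀ a b c, f a = f b → f a = f c → a = b ∨ a = c ∨ b = c) :
    Nat.card A ≤ 2 * Nat.card B := by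
  classical
  let _ := Fintype.ofFinite A
  let _ := Fintype.ofFinite B
  rw [Nat.card_eq_fintype_card, Nat.card_eq_fintype_card]
  have := Finset.card_le_mul_card_image (f := f) (Finset.univ : Finset A) 2 (by
    intro b _
    by_contra hcon
    push Not at hcon
    obtain ⟨x, y, z, hx, hy, hz, hxy, hxz, hyz⟩ := Finset.two_lt_card_iff.mp hcon
    simp only [Finset.mem_filter, Finset.mem_univ, true_and] at hx hy hz
    rcases h x y z (hx.trans hy.symm) (hx.trans hz.symm) with h | h | h
    · exact hxy h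
    · exact hxz h
    · exact hyz h)
  refine this.trans (Nat.mul_le_mul_left 2 ?_)
  exact (Finset.card_le_univ _)

/-- I1 in field form. -/
theorem card_Theta (h2 : (2 : F) ≠ 0) (σ : K →ₐ[F] K) (hσ : ∀ x, σ (σ x) = x) {m : ℕ}
    (hm0 : m ≠ 0)
    (hm : finrank F K = 2 * m) {ν : F} (hν0 : ν ≠ 0) {j : K} (hj0 : j ≠ 0) (hj : σ j = -j) :
    (Nat.card F ^ m - 3) / 2 - ∑ t ∈ m.primeFactors, Nat.card F ^ (m / t) ≤
      Nat.card (Theta σ m ν) := by
  classical
  have h2K : (2 : K) ≠ 0 := two_ne h2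
  have h4K : (4 : K) ≠ 0 := by
    have : (4 : K) = 2 * 2 := by norm_num
    rw [this]; exact mul_ne_zero h2K h2K
  set n : K := algebraMap F K ν with hn
  have hn0 : n ≠ 0 := by
    rw [hn]; exact (map_ne_zero _).mpr hν0
  have hσn : σ n = n := by rw [hn]; simp
  -- the set of parameters
  let P : Set K := {k | σ k = k ∧ k ≠ 0 ∧ n * k ^ 2 + 1 ≠ 0}
  let T : Set K := {θ | σ θ = θ ∧
    ∃ ρ : K, σ ρ = ρ ∧ ρ ≠ 0 ∧ θ * θ + ν • (ρ * ρ) = algebraMap F K (4 * ν ^ 2)}
  -- lower bound for P
  have hP : Nat.card F ^ m ≤ Nat.card P + 3 := by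
    rw [← card_fixE h2 σ hσ hm hj0 hj]
    let Q : Set K := {k | n * k ^ 2 + 1 = 0}
    have hQ : Nat.card Q ≤ 2 := by
      have h1 := card_fibre_two (A := Q) (B := Unit) (fun _ => ()) (by
        rintro ⟨a, ha⟩ ⟨b, hb⟩ ⟨c, hc⟩ _ _
        simp only [Q, Set.mem_ofPred_eq] at ha hb hc
        have hab : (a - b) * (a + b) = 0 := by
          have : n * ((a - b) * (a + b)) = 0 := by linear_combination ha - hb
          exact (mul_eq_zero.mp this).resolve_left hn0
        have hac : (a - c) * (a + c) = 0 := by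
          have : n * ((a - c) * (a + c)) = 0 := by linear_combination ha - hc
          exact (mul_eq_zero.mp this).resolve_left hn0
        rcases mul_eq_zero.mp hab with h | h
        · left; exact Subtype.ext (sub_eq_zero.mp h)
        · rcases mul_eq_zero.mp hac with h' | h'
          · right; left; exact Subtype.ext (sub_eq_zero.mp h')
          · right; right
            apply Subtype.ext
            show b = c
            linear_combination h - h')
      simpa using h1
    have hsub : ((fixE σ : Subalgebra F K) : Set K) ⊆ P ∪ ({0} ∪ Q) := by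
      intro k hk
      by_cases h0 : k = 0
      · right; left; exact h0
      · by_cases h1 : n * k ^ 2 + 1 = 0
        · right; right; exact h1
        · left; exact ⟨hk, h0, h1⟩
    calc Nat.card (fixE σ) = Set.ncard ((fixE σ : Subalgebra F K) : Set K) := rfl
      _ ≤ Set.ncard (P ∪ ({0} ∪ Q)) := Set.ncard_le_ncard hsub (Set.toFinite _)
      _ ≤ Set.ncard P + (Set.ncard ({0} : Set K) + Set.ncard Q) :=
          (Set.ncard_union_le _ _).trans (Nat.add_le_add_left (Set.ncard_union_le _ _) _)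
      _ ≤ Nat.card P + 3 := by
          rw [Set.ncard_singleton]
          have : Set.ncard Q ≤ 2 := hQ
          have h' : Set.ncard P = Nat.card P := rfl
          omega
  -- the map P → T
  have hmap : ∀ k ∈ P, 2 * n * (n * k ^ 2 - 1) / (n * k ^ 2 + 1) ∈ T := by
    rintro k ⟨hk, hk0, hk1⟩
    refine ⟨?_, -(4 * n * k) / (n * k ^ 2 + 1), ?_, ?_, ?_⟩
    · simp only [map_div₀, map_mul, map_sub, map_add, map_pow, map_one, map_ofNat, hσn, hk]
    · simp only [map_div₀, map_mul, map_neg, map_add, map_pow, map_one, map_ofNat, hσn, hk]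
    · exact div_ne_zero (neg_ne_zero.mpr (mul_ne_zero (mul_ne_zero h4K hn0) hk0)) hk1
    · rw [Algebra.smul_def, ← hn, map_mul, map_pow, map_ofNat, ← hn]
      field_simp
      ring
  have hT : Nat.card P ≤ 2 * Nat.card T := by
    refine card_fibre_two (fun k : P => (⟨_, hmap k.1 k.2⟩ : T)) ?_
    rintro ⟨a, ha, ha0, ha1⟩ ⟨b, hb, hb0, hb1⟩ ⟨c, hc, hc0, hc1⟩ h1 h2
    have key : ∀ a b : K, n * a ^ 2 + 1 ≠ 0 → n * b ^ 2 + 1 ≠ 0 →
        2 * n * (n * a ^ 2 - 1) / (n * a ^ 2 + 1) = 2 * n * (n * b ^ 2 - 1) / (n * b ^ 2 + 1) →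
        a = b ∨ a = -b := by
      intro a b ha hb h
      rw [div_eq_div_iff ha hb] at h
      have h3 : (4 * n * n) * ((a - b) * (a + b)) = 0 := by linear_combination h
      have h4 := (mul_eq_zero.mp h3).resolve_left (mul_ne_zero (mul_ne_zero h4K hn0) hn0)
      rcases mul_eq_zero.mp h4 with h | h
      · left; exact sub_eq_zero.mp h
      · right; exact eq_neg_of_add_eq_zero_left h
    have e1 := key a b ha1 hb1 (congrArg Subtype.val h1)
    have e2 := key a c ha1 hc1 (congrArg Subtype.val h2)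
    rcases e1 with e1 | e1
    · left; exact Subtype.ext e1
    · rcases e2 with e2 | e2
      · right; left; exact Subtype.ext e2
      · right; right
        apply Subtype.ext
        show b = c
        exact neg_injective (e1.symm.trans e2)
  -- T ⊆ Theta ∪ bad
  have hTsub : T ⊆ Theta σ m ν ∪ ⋃ t ∈ m.primeFactors, {x : K | x ^ (Nat.card F ^ (m / t)) = x} := by
    rintro θ ⟨h1, h2'⟩
    by_cases h3 : finrank F (Algebra.adjoin F {θ}) = m
    · left; exact ⟨h1, h3, h2'⟩
    · right
      have hle : Algebra.adjoin F {θ} ≤ fixE σ := by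
        rw [Algebra.adjoin_le_iff]
        rintro x rfl
        exact h1
      have hfield : IsField (Algebra.adjoin F {θ}) := Finite.isField_of_domain _
      have hdvd : finrank F (Algebra.adjoin F {θ}) ∣ m := by
        have h4 := finrank_dvd_of_le hle
        rwa [finrank_fixE h2 σ hσ hm hj0 hj] at h4
      obtain ⟨t, ht, hdt⟩ := dvd_of_lt hm0 hdvd h3
      simp only [Set.mem_iUnion]
      exact ⟨t, ht, pow_frob_of_finrank_dvd θ hdt⟩
  have hle : Set.ncard T ≤ Set.ncard (Theta σ m ν) + ∑ t ∈ m.primeFactors, Nat.card F ^ (m / t) := by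
    refine (Set.ncard_le_ncard hTsub (Set.toFinite _)).trans
      ((Set.ncard_union_le _ _).trans (Nat.add_le_add_left ?_ _))
    refine (Finset.set_ncard_biUnion_le _ _).trans (Finset.sum_le_sum ?_)
    intro t ht
    refine card_frob_fix (m / t) ?_
    have := Nat.mem_primeFactors.mp ht
    exact (Nat.div_pos (Nat.le_of_dvd (Nat.pos_of_ne_zero hm0) this.2.1) this.1.pos).ne'
  have e1 : Set.ncard T = Nat.card T := rfl
  have e2 : Set.ncard (Theta σ m ν) = Nat.card (Theta σ m ν) := rfl
  omega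

end Pool.Agent.UD.GoodField
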