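import Pool.Agent.UD.GoodModel

/-!
# Block I, the element `J₂` (for MP_65787c_al)
-/

set_option autoImplicit false
set_option linter.unusedSectionVars false

open Module

namespace Pool.Agent.UD.GoodModel

open Pool.Agent.UD GoodField

universe u v w

variable {F : Type u} {V : Type v} [Field F] [Finite F] [AddCommGroup V] [Module F V] [Finite V]
variable {ω : LinearMap.BilinForm F V}
variable {K : Type w} [Field K] [Algebra F K] [Finite K]
variable {m : ℕ} {f : K →ₐ[F] Module.End F V} {σ : K →ₐ[F] K}

lemma natDegree_minpoly {θ : K} (hdeg : finrank F (Algebra.adjoin F {θ}) = m) :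
    (minpoly F θ).natDegree = m := by
  have hint : IsIntegral F θ := Algebra.IsIntegral.isIntegral θ
  rw [← hdeg, (Algebra.adjoin.powerBasis hint).finrank, Algebra.adjoin.powerBasis_dim]

/-- an element of odd degree `≥ 3` is not conjugate to its opposite -/
lemma not_conj_neg (h2 : (2 : F) ≠ 0) {θ : K} (hdeg : finrank F (Algebra.adjoin F {θ}) = m)
    (hodd : Odd m) (hm3 : 3 ≤ m) (h : minpoly F θ = minpoly F (-θ)) : False := by
  have hint : IsIntegral F θ := Algebra.IsIntegral.isIntegral θ
  have h1 := minpoly.neg (A := F) θ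
  rw [← h, natDegree_minpoly hdeg, hodd.neg_one_pow] at h1
  have h3 := congrArg (fun p : Polynomial F => p.coeff 0) h1
  simp only [neg_mul, one_mul, Polynomial.coeff_zero_eq_eval_zero,
    Polynomial.eval_comp, Polynomial.eval_neg, Polynomial.eval_X, neg_zero] at h3
  have h4 : (minpoly F θ).coeff 0 = 0 := by
    rw [Polynomial.coeff_zero_eq_eval_zero]
    have : (2 : F) * (minpoly F θ).eval 0 = 0 := by linear_combination h3
    exact (mul_eq_zero.mp this).resolve_left h2
  rw [minpoly.coeff_zero_eq_zero hint] at h4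
  rw [h4] at hdeg
  have h5 : Algebra.adjoin F {(0 : K)} = ⊥ := by
    rw [eq_bot_iff, Algebra.adjoin_le_iff]
    rintro x rfl
    exact zero_mem _
  rw [h5, Subalgebra.finrank_bot] at hdeg
  omega

lemma cj_eq_iff {x : V ≃ₗ[F] V} {S T : Module.End F V} :
    cj x S = T ↔ ∀ y, x (S y) = T (x y) := by
  constructor
  · rintro rfl y
    simp
  · intro h
    ext y
    rw [cj_apply, h]
    simp

lemma adjoin_eq_fixE (M : Model ω m f σ) {j : K} (hj0 : j ≠ 0) (hj : σ j = -j) {θ : K}
    (hθ : σ θ = θ) (hdeg : finrank F (Algebra.adjoin F {θ}) = m) :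
    Algebra.adjoin F {θ} = fixE σ := by
  have hle : Algebra.adjoin F {θ} ≤ fixE σ := by
    rw [Algebra.adjoin_le_iff]
    rintro x rfl
    exact hθ
  apply Subalgebra.eq_of_le_of_finrank_eq hle
  rw [hdeg, finrank_fixE M.two σ M.inv M.hK hj0 hj]

/-- an operator commuting with `f θ` and `f j` is in the image of `f` -/
lemma exists_of_comm (M : Model ω m f σ) {j : K} (hj0 : j ≠ 0) (hj : σ j = -j) (z : Module.End F V)
    (hE : ∀ e, σ e = e → ∀ y, z (f e y) = f e (z y)) (hJ : ∀ y, z (f j y) = f j (z y)) :
    ∃ c, z = f c := by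
  have h2K : (2 : K) ≠ 0 := two_ne M.two
  have hall : ∀ k y, z (f k y) = f k (z y) := by
    intro k y
    obtain ⟨a, b, ha, hb, hab⟩ : ∃ a b : K, σ a = a ∧ σ b = b ∧ k = a + b * j := by
      refine ⟨(k + σ k) / 2, (k - σ k) / (2 * j), ?_, ?_, ?_⟩
      · rw [map_div₀, map_add, M.inv, map_ofNat, add_comm]
      · rw [map_div₀, map_sub, M.inv, map_mul, map_ofNat, hj]
        rw [mul_neg, div_neg, ← neg_div, neg_sub]
      · field_simp
        ring
    rw [hab, map_add, map_mul, LinearMap.add_apply, Module.End.mul_apply, map_add, hE a ha,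
      hE b hb, hJ, LinearMap.add_apply, Module.End.mul_apply]
  obtain ⟨φ, hφ⟩ := M.exists_equiv
  obtain ⟨c, hc⟩ := φ.surjective (z (φ 1))
  refine ⟨c, ?_⟩
  ext y
  obtain ⟨k, rfl⟩ := φ.surjective y
  have h1 : φ k = f k (φ 1) := by rw [hφ, mul_one]
  rw [h1, hall, ← hc, f_mul_apply, hφ, hφ, mul_one, mul_comm]

lemma comm_of_theta {θ : K} (x : Module.End F V) (h : ∀ y, x (f θ y) = f θ (x y)) :
    ∀ e ∈ Algebra.adjoin F {θ}, ∀ y, x (f e y) = f e (x y) := by
  let S : Subalgebra F K :=
    { carrier := {e | ∀ y, x (f e y) = f e (x y)}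
      mul_mem' := by
        intro a b ha hb y
        rw [map_mul, Module.End.mul_apply, Module.End.mul_apply, ha, hb]
      add_mem' := by
        intro a b ha hb y
        rw [map_add, LinearMap.add_apply, map_add, ha, hb, LinearMap.add_apply]
      algebraMap_mem' := by
        intro r y
        simp [Module.algebraMap_end_apply] }
  have h1 : Algebra.adjoin F {θ} ≤ S := by
    rw [Algebra.adjoin_le_iff]
    rintro y rfl
    exact h
  exact fun e he => h1 he

/-- The operator `J₂`. -/
theorem J2_core (M : Model ω m f σ) (hodd : Odd m) (hm3 : 3 ≤ m) {ν : F} (hν0 : ν ≠ 0) {j : K}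
    (hj : σ j = -j) (hjj : j * j = algebraMap F K ν) {θ ρ : K} (hθ : σ θ = θ)
    (hdeg : finrank F (Algebra.adjoin F {θ}) = m) (hρ : σ ρ = ρ) (hρ0 : ρ ≠ 0)
    (hrel : θ * θ + ν • (ρ * ρ) = algebraMap F K (4 * ν ^ 2)) :
    ∃ J₂ ∈ Y ω ν, f j * J₂ + J₂ * f j = f θ ∧
      ∀ x ∈ Sp ω, (cj x (f j) = f j ∨ cj x (f j) = -f j) →
      (cj x J₂ = J₂ ∨ cj x J₂ = -J₂) → Triv x := by
  have h2K : (2 : K) ≠ 0 := two_ne M.two
  obtain ⟨X, hXX, hXf, hXs⟩ := M.exists_X
  set n : K := algebraMap F K ν with hn
  have hn0 : n ≠ 0 := (map_ne_zero _).mpr hν0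
  have hσn : σ n = n := by rw [hn]; simp
  have hj0 : j ≠ 0 := by
    rintro rfl
    rw [zero_mul] at hjj
    exact hn0 hjj.symm
  set a : K := θ * j / (2 * n) with ha
  set b : K := ρ / 2 with hb
  have hb0 : b ≠ 0 := div_ne_zero hρ0 h2K
  have hσa : σ a = -a := by
    rw [ha, map_div₀, map_mul, map_mul, hθ, hj, hσn, map_ofNat]; ring
  have hσb : σ b = b := by rw [hb, map_div₀, hρ, map_ofNat]
  have hab : a * a + b * b = n := by
    rw [Algebra.smul_def, ← hn, map_mul, map_pow, map_ofNat, ← hn] at hrel
    have h4 : (4 : K) ≠ 0 := by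
      have : (4 : K) = 2 * 2 := by norm_num
      rw [this]; exact mul_ne_zero h2K h2K
    have : (4 * n) * (a * a + b * b) = (4 * n) * n := by
      have e1 : (4 * n) * (a * a) = θ * θ * (j * j) / n := by
        rw [ha]; field_simp; ring
      have e2 : (4 * n) * (b * b) = n * (ρ * ρ) := by
        rw [hb]; field_simp; ring
      rw [mul_add, e1, e2, hjj, mul_div_assoc, div_self hn0, mul_one, hrel]
      ring
    exact mul_left_cancel₀ (mul_ne_zero h4 hn0) this
  -- the operator
  let J₂ : Module.End F V := f a + f b * X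
  have hJ₂ : ∀ y, J₂ y = f a y + f b (X y) := fun y => rfl
  refine ⟨J₂, ⟨?_, ?_⟩, ?_, ?_⟩
  · intro x y
    rw [hJ₂, hJ₂, map_add, LinearMap.add_apply, M.adj, M.adj, hσa, hσb, map_neg,
      LinearMap.neg_apply, map_neg, hXs, hXf, hσb, map_add]
    ring
  · intro x
    rw [hJ₂, hJ₂, map_add, map_add, map_add, hXf, hXf, hσa, hσb, hXX, f_mul_apply, f_mul_apply,
      f_mul_apply, f_mul_apply]
    have e : f n x = ν • x := by
      rw [hn, AlgHom.commutes, Module.algebraMap_end_apply]
    rw [← e, ← hab, map_add, LinearMap.add_apply, mul_neg, mul_comm b a]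
    have e3 : f (-(a * b)) (X x) = - f (a * b) (X x) := by rw [map_neg, LinearMap.neg_apply]
    rw [e3]
    abel
  · ext x
    show f j (J₂ x) + J₂ (f j x) = f θ x
    rw [hJ₂, hJ₂, hXf, hj, map_add, map_neg, LinearMap.neg_apply, map_neg, f_mul_apply,
      f_mul_apply, f_mul_apply, f_mul_apply, mul_comm b j]
    have e : θ = j * a + a * j := by
      rw [ha]
      field_simp
      linear_combination (-2 : K) * θ * hjj
    rw [e, map_add, LinearMap.add_apply]
    abel
  · intro x hx h1 h2
    have hθθ : ∀ y, f θ y = f j (J₂ y) + J₂ (f j y) := by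
      intro y
      rw [hJ₂, hJ₂, hXf, hj, map_add, map_neg, LinearMap.neg_apply, map_neg, f_mul_apply,
        f_mul_apply, f_mul_apply, f_mul_apply, mul_comm b j]
      have e : θ = j * a + a * j := by
        rw [ha]
        field_simp
        linear_combination (-2 : K) * θ * hjj
      rw [e, map_add, LinearMap.add_apply]
      abel
    have hanti : (∀ y, x (f θ y) = - f θ (x y)) → False := by
      intro h
      apply not_conj_neg M.two hdeg hodd hm3
      have h3 : cj x (f θ) = f (-θ) := by
        rw [cj_eq_iff]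
        intro y
        rw [h, map_neg, LinearMap.neg_apply]
      rw [← minpoly.algHom_eq f M.inj (-θ), ← h3, ← cjHom_apply,
        minpoly.algHom_eq (cjHom x) (cj_inj x), minpoly.algHom_eq f M.inj]
    have hEsub : (∀ y, x (f θ y) = f θ (x y)) → ∀ e, σ e = e → ∀ y, x (f e y) = f e (x y) := by
      intro h e he y
      refine comm_of_theta (x : V →ₗ[F] V) h e ?_ y
      rw [adjoin_eq_fixE M hj0 hj hθ hdeg]
      exact he
    have haj : a = (θ / (2 * n)) * j := by rw [ha]; ring
    have hθn : σ (θ / (2 * n)) = θ / (2 * n) := by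
      rw [map_div₀, map_mul, hθ, hσn, map_ofNat]
    rcases h1 with h1 | h1 <;> rcases h2 with h2 | h2
    · -- both commute
      rw [cj_eq_iff] at h1 h2
      have hth : ∀ y, x (f θ y) = f θ (x y) := by
        intro y
        rw [hθθ, hθθ, map_add, h1, h2, h2, h1]
      have hE := hEsub hth
      obtain ⟨c, hc⟩ := exists_of_comm M hj0 hj (x : V →ₗ[F] V) hE h1
      have hc' : ∀ y, x y = f c y := fun y => by
        have := congrArg (fun T : Module.End F V => T y) hc
        simpa using this
      -- `x` commutes with `X`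
      have hxX : ∀ y, x (X y) = X (x y) := by
        intro y
        have h3 := h2 y
        have e1 : x (f a y) = f a (x y) := by
          rw [haj, ← f_mul_apply, hE _ hθn, h1, f_mul_apply]
        rw [hJ₂, hJ₂, map_add, e1, hE b hσb] at h3
        have h4 := congrArg (f b⁻¹) (add_left_cancel h3)
        rwa [f_inv_apply f hb0, f_inv_apply f hb0] at h4
      have hσc : σ c = c := by
        apply M.inj
        ext y
        have h5 := hxX (X y)
        rw [hXX, hc', hc', hXf, hXX] at h5
        exact h5.symm
      have hcc : c * c = 1 := by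
        apply M.inj
        apply ext_right M.symp
        intro u w
        have h6 := (mem_Sp.mp hx) u w
        rw [hc', hc', M.adj, hσc, f_mul_apply] at h6
        rw [h6, map_one, Module.End.one_apply]
      rcases mul_self_eq_one_iff.mp hcc with h7 | h7
      · left; intro v; rw [hc', h7, map_one, Module.End.one_apply]
      · right; intro v; rw [hc', h7, map_neg, map_one, LinearMap.neg_apply, Module.End.one_apply]
    · exfalso
      rw [cj_eq_iff] at h1 h2
      apply hanti
      intro y
      rw [hθθ, hθθ, map_add, h1, h2, h2, h1]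
      simp only [LinearMap.neg_apply, map_neg]
      abel
    · exfalso
      rw [cj_eq_iff] at h1 h2
      apply hanti
      intro y
      rw [hθθ, hθθ, map_add, h1, h2, h2, h1]
      simp only [LinearMap.neg_apply, map_neg]
      abel
    · exfalso
      rw [cj_eq_iff] at h1 h2
      simp only [LinearMap.neg_apply] at h1 h2
      have hth : ∀ y, x (f θ y) = f θ (x y) := by
        intro y
        rw [hθθ, hθθ, map_add, h1, h2, h2, h1]
        simp only [map_neg, neg_neg]
      have hE := hEsub hth
      have hxX : ∀ y, x (X y) = - X (x y) := by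
        intro y
        have h3 := h2 y
        have e1 : x (f a y) = - f a (x y) := by
          rw [haj, ← f_mul_apply, hE _ hθn, h1, map_neg, f_mul_apply]
        rw [hJ₂, hJ₂, map_add, e1, hE b hσb, neg_add] at h3
        have h4 := congrArg (f b⁻¹) (add_left_cancel h3)
        rwa [map_neg, f_inv_apply f hb0, f_inv_apply f hb0] at h4
      obtain ⟨c, hc⟩ := exists_of_comm M hj0 hj ((x : V →ₗ[F] V) ∘ₗ X)
        (by
          intro e he y
          simp only [LinearMap.comp_apply, LinearEquiv.coe_coe]
          rw [hXf, he, hE e he])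
        (by
          intro y
          simp only [LinearMap.comp_apply, LinearEquiv.coe_coe]
          rw [hXf, hj, map_neg, LinearMap.neg_apply, map_neg, h1, neg_neg])
      have hc' : ∀ y, x y = f c (X y) := fun y => by
        have := congrArg (fun T : Module.End F V => T (X y)) hc
        simpa [hXX] using this
      have hσc : σ c = -c := by
        apply M.inj
        ext y
        have h5 := hxX y
        rw [hc', hXX, hc', hXf, hXX] at h5
        rw [map_neg, LinearMap.neg_apply, h5, neg_neg]
      have hcc : c * c = 1 := by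
        apply M.inj
        apply ext_right M.symp
        intro u w
        have h6 := (mem_Sp.mp hx) u w
        rw [hc', hc', M.adj, hσc, f_mul_apply, hXs, hXf, hXX, map_mul, map_neg, hσc] at h6
        have e : (- -c * -c) = -(c * c) := by ring
        rw [e, map_neg, LinearMap.neg_apply, map_neg, neg_neg] at h6
        rw [h6, map_one, Module.End.one_apply]
      have h8 : σ c = c := by
        rcases mul_self_eq_one_iff.mp hcc with h7 | h7 <;> simp [h7]
      have h9 : 2 * c = 0 := by linear_combination hσc - h8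
      have h10 : c = 0 := (mul_eq_zero.mp h9).resolve_left h2K
      rw [h10] at hcc
      simp at hcc

end Pool.Agent.UD.GoodModel
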