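import Pool.Agent.UD.Defs2
import Pool.Agent.UD.GoodField

/-!
# Block I, the field model of `L` and the operator `X₀` (for MP_65787c_al)
-/

set_option autoImplicit false
set_option linter.unusedSectionVars false

open Module

namespace Pool.Agent.UD.GoodModel

open Pool.Agent.UD

universe u v

variable {F : Type u} {V : Type v} [Field F] [Finite F] [AddCommGroup V] [Module F V] [Finite V]
variable {ω : LinearMap.BilinForm F V}

lemma skew (hω : IsSymp ω) (x y : V) : ω x y = -ω y x := by
  have h := hω.alt (x + y)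
  simp only [map_add, LinearMap.add_apply, hω.alt, zero_add, add_zero] at h
  exact eq_neg_of_add_eq_zero_left (by rw [← h]; ring)

lemma ext_right (hω : IsSymp ω) {S T : Module.End F V} (h : ∀ x y, ω x (S y) = ω x (T y)) :
    S = T := by
  ext y
  have h1 : S y - T y = 0 := by
    apply hω.nd
    intro x
    rw [skew hω, map_sub, h x y, sub_self, neg_zero]
  exact sub_eq_zero.mp h1

/-- A field model of `L`, with its star operation. -/
lemma exists_model {L : Subalgebra F (Module.End F V)} (hL : IsField L) :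
    ∃ (K : Type v) (_ : Field K) (_ : Algebra F K) (_ : Finite K) (f : K →ₐ[F] Module.End F V),
      Function.Injective f ∧ (∀ T, T ∈ L ↔ ∃ k, f k = T) ∧ finrank F K = finrank F L := by
  have h1 : Finite (Module.End F V) := DFunLike.finite _
  have h2 : Finite L := Subtype.finite
  refine ⟨L, hL.toField, L.algebra, h2, L.val, Subtype.val_injective, ?_, rfl⟩
  intro T
  constructor
  · intro h; exact ⟨⟨T, h⟩, rfl⟩
  · rintro ⟨k, rfl⟩; exact k.2

variable {K : Type*} [Field K] [Algebra F K] [Finite K]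

lemma exists_star (hω : IsSymp ω) {L : Subalgebra F (Module.End F V)} (hst : StarStable ω L)
    (f : K →ₐ[F] Module.End F V) (hf : Function.Injective f) (hfL : ∀ T, T ∈ L ↔ ∃ k, f k = T) :
    ∃ σ : K →ₐ[F] K, (∀ k x y, ω (f k x) y = ω x (f (σ k) y)) ∧ ∀ k, σ (σ k) = k := by
  have h : ∀ k, ∃ k', ∀ x y, ω (f k x) y = ω x (f k' y) := by
    intro k
    obtain ⟨b, hb, hb'⟩ := hst (f k) ((hfL _).mpr ⟨k, rfl⟩)
    obtain ⟨k', rfl⟩ := (hfL b).mp hb
    exact ⟨k', hb'⟩
  choose s hs using h
  have huniq : ∀ k k', (∀ x y, ω (f k x) y = ω x (f k' y)) → s k = k' := by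
    intro k k' h
    apply hf
    apply ext_right hω
    intro x y
    rw [← hs, h]
  let σ : K →ₐ[F] K :=
    { toFun := s
      map_one' := huniq _ _ (by intro x y; simp)
      map_mul' := by
        intro a b
        refine huniq _ _ ?_
        intro x y
        rw [map_mul, Module.End.mul_apply, hs, hs, mul_comm, map_mul, Module.End.mul_apply]
      map_zero' := huniq _ _ (by intro x y; simp)
      map_add' := by
        intro a b
        refine huniq _ _ ?_
        intro x y
        simp [map_add, hs]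
      commutes' := by
        intro r
        refine huniq _ _ ?_
        intro x y
        simp [Module.algebraMap_end_apply] }
  refine ⟨σ, hs, ?_⟩
  intro k
  refine huniq _ _ ?_
  intro x y
  show ω (f (s k) x) y = ω x (f k y)
  rw [skew hω, ← hs, skew hω, neg_neg]

/-- All the data. -/
structure Model (ω : LinearMap.BilinForm F V) (m : ℕ) (f : K →ₐ[F] Module.End F V)
    (σ : K →ₐ[F] K) : Prop where
  symp : IsSymp ω
  two : (2 : F) ≠ 0
  hm : finrank F V = 2 * m
  hK : finrank F K = 2 * m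
  hm0 : m ≠ 0
  inj : Function.Injective f
  adj : ∀ k x y, ω (f k x) y = ω x (f (σ k) y)
  inv : ∀ k, σ (σ k) = k

variable {m : ℕ} {f : K →ₐ[F] Module.End F V} {σ : K →ₐ[F] K}

lemma f_inv_apply (f : K →ₐ[F] Module.End F V) {k : K} (hk : k ≠ 0) (x : V) :
    f k⁻¹ (f k x) = x := by
  rw [← Module.End.mul_apply, ← map_mul, inv_mul_cancel₀ hk, map_one, Module.End.one_apply]

lemma f_mul_apply (f : K →ₐ[F] Module.End F V) (a b : K) (x : V) :
    f a (f b x) = f (a * b) x := by
  rw [map_mul, Module.End.mul_apply]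

lemma Model.exists_equiv (M : Model ω m f σ) :
    ∃ φ : K ≃ₗ[F] V, ∀ a k, f a (φ k) = φ (a * k) := by
  have hpos : 0 < finrank F V := by rw [M.hm]; have := M.hm0; omega
  have : Nontrivial V := Module.nontrivial_of_finrank_pos hpos
  obtain ⟨v, hv⟩ := exists_ne (0 : V)
  let φ₀ : K →ₗ[F] V := (LinearMap.applyₗ v) ∘ₗ f.toLinearMap
  have hφ₀ : ∀ k, φ₀ k = f k v := fun k => rfl
  have hinj : Function.Injective φ₀ := by
    rw [← LinearMap.ker_eq_bot, LinearMap.ker_eq_bot']
    intro k hk
    by_contra h0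
    apply hv
    rw [← f_inv_apply f h0 v, ← hφ₀, hk, map_zero]
  let φ : K ≃ₗ[F] V := LinearMap.linearEquivOfInjective φ₀ hinj (by rw [M.hK, M.hm])
  have hφ : ∀ k, φ k = f k v := fun k => rfl
  refine ⟨φ, ?_⟩
  intro a k
  rw [hφ, hφ, map_mul, Module.End.mul_apply]

/-- the operator `X₀`. -/
lemma Model.exists_X (M : Model ω m f σ) :
    ∃ X : Module.End F V, (∀ x, X (X x) = x) ∧ (∀ k x, X (f k x) = f (σ k) (X x)) ∧
      ∀ x y, ω (X x) y = - ω x (X y) := by
  obtain ⟨φ, hφ⟩ := M.exists_equiv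
  let X : Module.End F V := φ.toLinearMap ∘ₗ σ.toLinearMap ∘ₗ φ.symm.toLinearMap
  have hX : ∀ k, X (φ k) = φ (σ k) := by
    intro k
    simp [X]
  refine ⟨X, ?_, ?_, ?_⟩
  · intro x
    obtain ⟨k, rfl⟩ := φ.surjective x
    rw [hX, hX, M.inv]
  · intro k x
    obtain ⟨l, rfl⟩ := φ.surjective x
    rw [hφ, hX, hX, hφ, map_mul]
  · intro x y
    obtain ⟨a, rfl⟩ := φ.surjective x
    obtain ⟨b, rfl⟩ := φ.surjective y
    rw [hX, hX]
    have h1 : ∀ k : K, φ k = f k (φ 1) := by intro k; rw [hφ, mul_one]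
    rw [h1 (σ a), h1 b, M.adj, M.inv, f_mul_apply, h1 a, h1 (σ b), M.adj, f_mul_apply, ← map_mul,
      ← M.adj, skew M.symp]

end Pool.Agent.UD.GoodModel
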