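import Pool.Agent.UD.GoodJ2
import Pool.Agent.UD.YBasic

/-!
# Block I, the good set (for MP_65787c_al)
-/

set_option autoImplicit false
set_option linter.unusedSectionVars false

open Module

namespace Pool.Agent.UD

open GoodField GoodModel

universe u v w

variable {F : Type u} {V : Type v} [Field F] [Finite F] [AddCommGroup V] [Module F V] [Finite V]
variable {ω : LinearMap.BilinForm F V}

namespace GoodModel

variable {K : Type w} [Field K] [Algebra F K] [Finite K]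
variable {m : ℕ} {f : K →ₐ[F] Module.End F V} {σ : K →ₐ[F] K}

lemma isSA_iff (M : Model ω m f σ) (k : K) : IsSA ω (f k) ↔ σ k = k := by
  constructor
  · intro h
    apply M.inj
    apply ext_right M.symp
    intro x y
    rw [← M.adj, h]
  · intro h x y
    rw [M.adj, h]

lemma finrank_adjoin_map (M : Model ω m f σ) (k : K) :
    finrank F (Algebra.adjoin F {f k}) = finrank F (Algebra.adjoin F {k}) := by
  have h : (Algebra.adjoin F {k}).map f = Algebra.adjoin F {f k} := by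
    rw [AlgHom.map_adjoin, Set.image_singleton]
  rw [← h]
  exact ((Algebra.adjoin F {k}).equivMapOfInjective f M.inj).toLinearEquiv.finrank_eq.symm

lemma f_ne_zero (M : Model ω m f σ) {k : K} : f k ≠ 0 ↔ k ≠ 0 := by
  rw [not_iff_not]
  constructor
  · intro h
    apply M.inj
    rw [h, map_zero]
  · rintro rfl
    exact map_zero f

lemma rel_iff (M : Model ω m f σ) (ν : F) (θ ρ : K) :
    f θ * f θ + ν • (f ρ * f ρ) = (4 * ν ^ 2) • (1 : Module.End F V) ↔
      θ * θ + ν • (ρ * ρ) = algebraMap F K (4 * ν ^ 2) := by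
  have e1 : f θ * f θ + ν • (f ρ * f ρ) = f (θ * θ + ν • (ρ * ρ)) := by
    rw [map_add, map_smul, map_mul, map_mul]
  have e2 : (4 * ν ^ 2) • (1 : Module.End F V) = f (algebraMap F K (4 * ν ^ 2)) := by
    rw [AlgHom.commutes, Algebra.algebraMap_eq_smul_one]
  rw [e1, e2]
  exact M.inj.eq_iff

lemma j_of_J (M : Model ω m f σ) {ν : F} {j : K} (hJ : f j ∈ Y ω ν) :
    σ j = -j ∧ j * j = algebraMap F K ν := by
  obtain ⟨h1, h2⟩ := hJ
  constructor
  · apply M.inj
    apply ext_right M.symp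
    intro x y
    rw [← M.adj, h1, map_neg, LinearMap.neg_apply, map_neg]
  · apply M.inj
    ext x
    rw [map_mul, Module.End.mul_apply, h2, AlgHom.commutes, Module.algebraMap_end_apply]

end GoodModel

/-- all the data needed for block I -/
lemma good_exists_Model {L : Subalgebra F (Module.End F V)} (hω : IsSymp ω) (h2 : (2 : F) ≠ 0) {m : ℕ}
    (hm : finrank F V = 2 * m) (hodd : Odd m) (hL : IsField L) (hLd : finrank F L = 2 * m)
    (hst : StarStable ω L) :
    ∃ (K : Type v) (_ : Field K) (_ : Algebra F K) (_ : Finite K) (f : K →ₐ[F] Module.End F V)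
      (σ : K →ₐ[F] K), Model ω m f σ ∧ ∀ T, T ∈ L ↔ ∃ k, f k = T := by
  obtain ⟨K, iK, iA, iF, f, hf, hfL, hK⟩ := exists_model hL
  obtain ⟨σ, h1, h3⟩ := exists_star hω hst f hf hfL
  exact ⟨K, iK, iA, iF, f, σ, ⟨hω, h2, hm, by rw [hK, hLd], by rintro rfl; simp at hodd, hf, h1, h3⟩,
    hfL⟩

lemma good_nonsquare_ne_zero {ν : F} (hν : ¬ IsSquare ν) : ν ≠ 0 := by
  rintro rfl
  exact hν (IsSquare.zero)

/-- I1 : number of parameters. -/
theorem card_theta {L : Subalgebra F (Module.End F V)} (hω : IsSymp ω) (h2 : (2 : F) ≠ 0) {m : ℕ}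
    (hm : finrank F V = 2 * m) (hodd : Odd m) (hL : IsField L) (hLd : finrank F L = 2 * m)
    (hst : StarStable ω L) {ν : F} (hν : ¬ IsSquare ν) {J : Module.End F V} (hJL : J ∈ L)
    (hJ : J ∈ Y ω ν) :
    (Nat.card F ^ m - 3) / 2 - ∑ t ∈ m.primeFactors, Nat.card F ^ (m / t) ≤
      Nat.card {θ : Module.End F V // θ ∈ L ∧ IsSA ω θ ∧ finrank F (Algebra.adjoin F {θ}) = m ∧
        ∃ ρ ∈ L, IsSA ω ρ ∧ ρ ≠ 0 ∧ θ * θ + ν • (ρ * ρ) = (4 * ν ^ 2) • 1} := by
  obtain ⟨K, iK, iA, iF, f, σ, M, hfL⟩ := good_exists_Model hω h2 hm hodd hL hLd hst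
  obtain ⟨j, rfl⟩ := (hfL J).mp hJL
  obtain ⟨hj, hjj⟩ := j_of_J M hJ
  have hν0 : ν ≠ 0 := good_nonsquare_ne_zero hν
  have hj0 : j ≠ 0 := by
    rintro rfl
    rw [zero_mul] at hjj
    exact (map_ne_zero (algebraMap F K)).mpr hν0 hjj.symm
  refine (card_Theta h2 σ M.inv M.hm0 M.hK hν0 hj0 hj).trans ?_
  have hfin : Finite (Module.End F V) := DFunLike.finite _
  refine Nat.card_le_card_of_injective
    (fun θ : Theta σ m ν => (⟨f θ.1, (hfL _).mpr ⟨_, rfl⟩, (isSA_iff M _).mpr θ.2.1,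
      by rw [finrank_adjoin_map M]; exact θ.2.2.1, by
        obtain ⟨ρ, h3, h4, h5⟩ := θ.2.2.2
        exact ⟨f ρ, (hfL _).mpr ⟨_, rfl⟩, (isSA_iff M _).mpr h3, (f_ne_zero M).mpr h4,
          (rel_iff M ν _ _).mpr h5⟩⟩ : {θ : Module.End F V // θ ∈ L ∧ IsSA ω θ ∧
        finrank F (Algebra.adjoin F {θ}) = m ∧
        ∃ ρ ∈ L, IsSA ω ρ ∧ ρ ≠ 0 ∧ θ * θ + ν • (ρ * ρ) = (4 * ν ^ 2) • 1})) ?_
  intro a b h
  exact Subtype.ext (M.inj (congrArg Subtype.val h))

/-- I2 : the element `J₂`. -/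
theorem exists_J2 {L : Subalgebra F (Module.End F V)} (hω : IsSymp ω) (h2 : (2 : F) ≠ 0) {m : ℕ}
    (hm : finrank F V = 2 * m) (hodd : Odd m) (hL : IsField L) (hLd : finrank F L = 2 * m)
    (hst : StarStable ω L) {ν : F} (hν : ¬ IsSquare ν) {J : Module.End F V} (hJL : J ∈ L)
    (hJ : J ∈ Y ω ν) (hm3 : 3 ≤ m)
    {θ : Module.End F V} (hθ : θ ∈ L) (hsa : IsSA ω θ) (hdeg : finrank F (Algebra.adjoin F {θ}) = m)
    (hρ : ∃ ρ ∈ L, IsSA ω ρ ∧ ρ ≠ 0 ∧ θ * θ + ν • (ρ * ρ) = (4 * ν ^ 2) • 1) :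
    ∃ J₂ ∈ Y ω ν, J * J₂ + J₂ * J = θ ∧ ∀ x ∈ Sp ω, (cj x J = J ∨ cj x J = -J) →
      (cj x J₂ = J₂ ∨ cj x J₂ = -J₂) → Triv x := by
  obtain ⟨K, iK, iA, iF, f, σ, M, hfL⟩ := good_exists_Model hω h2 hm hodd hL hLd hst
  obtain ⟨j, rfl⟩ := (hfL J).mp hJL
  obtain ⟨hj, hjj⟩ := j_of_J M hJ
  obtain ⟨t, rfl⟩ := (hfL θ).mp hθ
  obtain ⟨_, hρL, hρ1, hρ2, hρ3⟩ := hρ
  obtain ⟨r, rfl⟩ := (hfL _).mp hρL
  exact J2_core M hodd hm3 (good_nonsquare_ne_zero hν) hj hjj ((isSA_iff M _).mp hsa)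
    (by rw [← finrank_adjoin_map M]; exact hdeg) ((isSA_iff M _).mp hρ1) ((f_ne_zero M).mp hρ2)
    ((rel_iff M ν _ _).mp hρ3)

lemma good_cj_mem_Y {ν : F} {g : V ≃ₗ[F] V} (hg : g ∈ Sp ω) {J : Module.End F V} (hJ : J ∈ Y ω ν) :
    cj g J ∈ Y ω ν := by
  refine ⟨?_, ?_⟩
  · intro x y
    have h1 := (mem_Sp.mp hg) (J (g.symm x)) (g.symm y)
    have h2 := (mem_Sp.mp hg) (g.symm x) (J (g.symm y))
    rw [LinearEquiv.apply_symm_apply] at h1 h2
    rw [cj_apply, cj_apply, h1, h2, hJ.1]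
  · intro x
    rw [cj_apply, cj_apply, LinearEquiv.symm_apply_apply, hJ.2, map_smul,
      LinearEquiv.apply_symm_apply]

lemma good_cj_neg (g : V ≃ₗ[F] V) (T : Module.End F V) : cj g (-T) = -cj g T := by
  ext x
  simp

lemma good_card_le_mul {A B : Type*} [Finite A] [Finite B] (f : A → B) (k : ℕ)
    (h : ∀ b, Nat.card {a // f a = b} ≤ k) : Nat.card A ≤ k * Nat.card B := by
  classical
  let _ := Fintype.ofFinite A
  let _ := Fintype.ofFinite B
  rw [Nat.card_eq_fintype_card, Nat.card_eq_fintype_card]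
  have := Finset.card_le_mul_card_image (f := f) (Finset.univ : Finset A) k (by
    intro b _
    have h1 := h b
    rw [Nat.card_eq_fintype_card, Fintype.card_subtype] at h1
    exact h1)
  exact this.trans (Nat.mul_le_mul_left k (Finset.card_le_univ _))

/-- The subsets of `Y` count the subsets of `Sp`. -/
lemma good_card_preimage (hω : IsSymp ω) (h2 : (2 : F) ≠ 0) {ν : F} (hν : ¬ IsSquare ν)
    {J : Module.End F V} (hJ : J ∈ Y ω ν) (P : Module.End F V → Prop)
    (hP : ∀ J', P J' → J' ∈ Y ω ν) :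
    Nat.card {g : Sp ω // P (cj g.1 J)} =
      Nat.card {J' // P J'} * Nat.card {g : Sp ω // cj g.1 J = J} := by
  have h : ∀ J' : {J' // P J'}, ∃ g : Sp ω, cj g.1 J = J'.1 := by
    rintro ⟨J', hJ'⟩
    obtain ⟨g, hg, hg'⟩ := Y_trans hω h2 hν hJ (hP J' hJ')
    exact ⟨⟨g, hg⟩, hg'⟩
  choose h hh using h
  rw [← Nat.card_prod]
  refine (Nat.card_congr (Equiv.ofBijective
    (fun p : {J' // P J'} × {g : Sp ω // cj g.1 J = J} =>
      (⟨h p.1 * p.2.1, by
        rw [Subgroup.coe_mul, mul_cj, p.2.2, hh]; exact p.1.2⟩ : {g : Sp ω // P (cj g.1 J)}))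
    ⟨?_, ?_⟩)).symm
  · rintro ⟨⟨a, ha⟩, ⟨c, hc⟩⟩ ⟨⟨b, hb⟩, ⟨d, hd⟩⟩ hab
    have h1 : h ⟨a, ha⟩ * c = h ⟨b, hb⟩ * d := congrArg Subtype.val hab
    have h3 : a = b := by
      have := congrArg (fun g : Sp ω => cj g.1 J) h1
      simp only [Subgroup.coe_mul, mul_cj, hc, hd, hh] at this
      exact this
    subst h3
    have h4 := mul_left_cancel h1
    subst h4
    rfl
  · rintro ⟨g, hg⟩
    refine ⟨⟨⟨cj g.1 J, hg⟩, ⟨(h ⟨cj g.1 J, hg⟩)⁻¹ * g, ?_⟩⟩, ?_⟩
    · rw [Subgroup.coe_mul, mul_cj]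
      have h5 := hh ⟨cj g.1 J, hg⟩
      simp only at h5
      generalize h ⟨cj g.1 J, hg⟩ = k at h5 ⊢
      rw [← h5, ← mul_cj, ← Subgroup.coe_mul, inv_mul_cancel, Subgroup.coe_one, one_cj]
    · apply Subtype.ext
      simp

/-- I3 : the good set is large. -/
theorem good_card {L : Subalgebra F (Module.End F V)} (hω : IsSymp ω) (h2 : (2 : F) ≠ 0) {m : ℕ}
    (hm : finrank F V = 2 * m) (hodd : Odd m) (hm3 : 3 ≤ m) (hL : IsField L)
    (hLd : finrank F L = 2 * m) (hst : StarStable ω L) {ν : F} (hν : ¬ IsSquare ν)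
    {J : Module.End F V} (hJL : J ∈ L) (hJ : J ∈ Y ω ν) :
    ((Nat.card F ^ m - 3) / 2 - ∑ t ∈ m.primeFactors, Nat.card F ^ (m / t)) *
        Nat.card (Sp ω) ^ 2 ≤
      2 * m * Nat.card (Good ω J) * Nat.card (Y ω ν) ^ 2 := by
  have hfin : Finite (Module.End F V) := DFunLike.finite _
  have hfin2 : Finite (V ≃ₗ[F] V) := DFunLike.finite _
  have hfin3 : Finite (Sp ω) := Subtype.finite
  have hN := card_theta hω h2 hm hodd hL hLd hst hν hJL hJ
  set N := (Nat.card F ^ m - 3) / 2 - ∑ t ∈ m.primeFactors, Nat.card F ^ (m / t) with hNdef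
  let PY : Module.End F V → Prop := fun J' => J' ∈ Y ω ν ∧ ∀ x ∈ Sp ω, (cj x J = J ∨ cj x J = -J) →
      (cj x J' = J' ∨ cj x J' = -J') → Triv x
  -- A
  have hA : Nat.card (Sp ω) = Nat.card (Y ω ν) * Nat.card {g : Sp ω // cj g.1 J = J} := by
    rw [← good_card_preimage hω h2 hν hJ (fun J' => J' ∈ Y ω ν) (fun _ h => h)]
    refine Nat.card_congr (Equiv.subtypeUnivEquiv ?_).symm
    intro g
    exact good_cj_mem_Y g.2 hJ
  -- B
  have hB : Nat.card (Good ω J) = Nat.card {J' // PY J'} * Nat.card {g : Sp ω // cj g.1 J = J} := by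
    rw [← good_card_preimage hω h2 hν hJ PY (fun _ h => h.1)]
    refine Nat.card_congr (Equiv.subtypeEquivRight ?_)
    intro g
    exact ⟨fun h => ⟨good_cj_mem_Y g.2 hJ, h⟩, fun h => h.2⟩
  -- C
  have hC : N * Nat.card {g : Sp ω // cj g.1 J = J} ≤ (2 * m) * Nat.card {J' // PY J'} := by
    let PT : Module.End F V → Prop := fun θ => θ ∈ L ∧ IsSA ω θ ∧
      finrank F (Algebra.adjoin F {θ}) = m ∧
        ∃ ρ ∈ L, IsSA ω ρ ∧ ρ ≠ 0 ∧ θ * θ + ν • (ρ * ρ) = (4 * ν ^ 2) • 1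
    have hNT : N ≤ Nat.card {θ // PT θ} := hN
    have hJ2 : ∀ θ : {θ // PT θ}, ∃ J₂ ∈ Y ω ν, J * J₂ + J₂ * J = θ.1 ∧
        ∀ x ∈ Sp ω, (cj x J = J ∨ cj x J = -J) → (cj x J₂ = J₂ ∨ cj x J₂ = -J₂) → Triv x := by
      rintro ⟨θ, h3, h4, h5, h6⟩
      exact exists_J2 hω h2 hm hodd hL hLd hst hν hJL hJ hm3 h3 h4 h5 h6
    choose J₂ hJ₂Y hJ₂θ hJ₂t using hJ2
    have hΨ : ∀ p : {θ // PT θ} × {g : Sp ω // cj g.1 J = J}, PY (cj p.2.1.1 (J₂ p.1)) := by
      rintro ⟨θ, ⟨c, hc⟩⟩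
      refine ⟨good_cj_mem_Y c.2 (hJ₂Y θ), ?_⟩
      intro x hx h3 h4
      simp only at h4
      have hcinv : cj (c⁻¹ : Sp ω).1 J = J := by
        conv_lhs => rw [← hc]
        rw [← mul_cj, ← Subgroup.coe_mul, inv_mul_cancel, Subgroup.coe_one, one_cj]
      have h5 := hJ₂t θ ((c⁻¹ : Sp ω).1 * x * c.1) (by
          exact mul_mem (mul_mem (c⁻¹ : Sp ω).2 hx) c.2) (by
          rw [mul_cj, mul_cj, hc]
          rcases h3 with h3 | h3
          · left; rw [h3, hcinv]
          · right; rw [h3, good_cj_neg, hcinv]) (by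
          rw [mul_cj, mul_cj]
          rcases h4 with h4 | h4
          · left
            rw [h4, ← mul_cj, ← Subgroup.coe_mul, inv_mul_cancel, Subgroup.coe_one, one_cj]
          · right
            rw [h4, good_cj_neg, ← mul_cj, ← Subgroup.coe_mul, inv_mul_cancel, Subgroup.coe_one, one_cj])
      have h6 : ∀ v, x (c.1 v) = c.1 (((c⁻¹ : Sp ω).1 * x * c.1) v) := by
        intro v
        have : c.1 * ((c⁻¹ : Sp ω).1 * x * c.1) = x * c.1 := by
          rw [← mul_assoc, ← mul_assoc, ← Subgroup.coe_mul, mul_inv_cancel, Subgroup.coe_one,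
            one_mul]
        have h7 := congrArg (fun g : V ≃ₗ[F] V => g v) this
        exact h7.symm
      rcases h5 with h5 | h5
      · left
        intro v
        obtain ⟨w, rfl⟩ := c.1.surjective v
        rw [h6, h5]
      · right
        intro v
        obtain ⟨w, rfl⟩ := c.1.surjective v
        rw [h6, h5, map_neg]
    have hT : Nat.card ({θ // PT θ} × {g : Sp ω // cj g.1 J = J}) ≤
        (2 * m) * Nat.card {J' // PY J'} := by
      refine good_card_le_mul (fun p => (⟨_, hΨ p⟩ : {J' // PY J'})) (2 * m) ?_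
      rintro ⟨J', hJ'⟩
      let τ := J * J' + J' * J
      have hR : Nat.card {θ : {θ // PT θ} // minpoly F θ.1 = minpoly F τ} ≤ m := by
        obtain ⟨K, iK, iA, iF, f, σ, M, hfL⟩ := good_exists_Model hω h2 hm hodd hL hLd hst
        rcases isEmpty_or_nonempty {θ : {θ // PT θ} // minpoly F θ.1 = minpoly F τ} with hemp | hne
        · rw [Nat.card_of_isEmpty]; exact Nat.zero_le _
        · obtain ⟨θ₀⟩ := hne
          have hk : ∀ θ : {θ : {θ // PT θ} // minpoly F θ.1 = minpoly F τ}, ∃ k, f k = θ.1.1 :=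
            fun θ => (hfL _).mp θ.1.2.1
          choose k hk using hk
          have hdeg : (minpoly F τ).natDegree = m := by
            rw [← θ₀.2, ← hk θ₀, minpoly.algHom_eq f M.inj]
            apply natDegree_minpoly
            rw [← finrank_adjoin_map M, hk θ₀]
            exact θ₀.1.2.2.2.1
          have hP0 : minpoly F τ ≠ 0 := by
            intro h
            rw [h] at hdeg
            simp at hdeg
            omega
          have hroot : ∀ θ, k θ ∈ (minpoly F τ).rootSet K := by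
            intro θ
            rw [Polynomial.mem_rootSet_of_ne hP0, ← θ.2, ← hk θ, minpoly.algHom_eq f M.inj]
            exact minpoly.aeval F _
          calc Nat.card {θ : {θ // PT θ} // minpoly F θ.1 = minpoly F τ}
              ≤ Nat.card ((minpoly F τ).rootSet K) :=
                Nat.card_le_card_of_injective (fun θ => ⟨k θ, hroot θ⟩) (by
                  intro θ θ' h
                  have h1 : k θ = k θ' := congrArg Subtype.val h
                  apply Subtype.ext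
                  apply Subtype.ext
                  rw [← hk, ← hk, h1])
            _ ≤ (minpoly F τ).natDegree := Polynomial.ncard_rootSet_le _ _
            _ = m := hdeg
      have hθτ : ∀ p : {θ // PT θ} × {g : Sp ω // cj g.1 J = J}, cj p.2.1.1 (J₂ p.1) = J' →
          minpoly F p.1.1 = minpoly F τ := by
        rintro ⟨θ, ⟨c, hc⟩⟩ h
        simp only at h ⊢
        have h8 : cjHom c.1 θ.1 = τ := by
          rw [← hJ₂θ θ, map_add, map_mul, map_mul]
          simp only [cjHom_apply]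
          rw [hc, h]
        rw [← h8, minpoly.algHom_eq (cjHom c.1) (cj_inj c.1)]
      refine (card_fibre_two (fun p : {p : {θ // PT θ} × {g : Sp ω // cj g.1 J = J} //
        (⟨_, hΨ p⟩ : {J' // PY J'}) = ⟨J', hJ'⟩} =>
        (⟨p.1.1, hθτ p.1 (congrArg Subtype.val p.2)⟩ :
          {θ : {θ // PT θ} // minpoly F θ.1 = minpoly F τ})) ?_).trans
        (Nat.mul_le_mul_left 2 hR)
      have key : ∀ (θ : {θ // PT θ}) (c d : Sp ω), cj c.1 J = J → cj d.1 J = J →
          cj c.1 (J₂ θ) = J' → cj d.1 (J₂ θ) = J' → c = d ∨ ∀ v, c.1 v = - d.1 v := by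
        intro θ c d hc hd hc' hd'
        have e : ∀ T S : Module.End F V, cj d.1 T = S → cj (d⁻¹ : Sp ω).1 S = T := by
          rintro T S rfl
          rw [← mul_cj, ← Subgroup.coe_mul, inv_mul_cancel, Subgroup.coe_one, one_cj]
        have h9 := hJ₂t θ ((d⁻¹ : Sp ω).1 * c.1) (mul_mem (d⁻¹ : Sp ω).2 c.2)
          (by left; rw [mul_cj, hc, e _ _ hd]) (by left; rw [mul_cj, hc', e _ _ hd'])
        have h10 : ∀ v, c.1 v = d.1 (((d⁻¹ : Sp ω).1 * c.1) v) := by
          intro v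
          have : d.1 * ((d⁻¹ : Sp ω).1 * c.1) = c.1 := by
            rw [← mul_assoc, ← Subgroup.coe_mul, mul_inv_cancel, Subgroup.coe_one, one_mul]
          exact (congrArg (fun g : V ≃ₗ[F] V => g v) this).symm
        rcases h9 with h9 | h9
        · left
          apply Subtype.ext
          ext v
          rw [h10, h9]
        · right
          intro v
          rw [h10, h9, map_neg]
      rintro ⟨⟨θ, ⟨c, hc⟩⟩, h1⟩ ⟨⟨θ', ⟨c', hc'⟩⟩, h1'⟩ ⟨⟨θ'', ⟨c'', hc''⟩⟩, h1''⟩ ha hb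
      have hθ' : θ = θ' := congrArg Subtype.val ha
      have hθ'' : θ = θ'' := congrArg Subtype.val hb
      subst hθ' hθ''
      have g1 := congrArg Subtype.val h1
      have g2 := congrArg Subtype.val h1'
      have g3 := congrArg Subtype.val h1''
      simp only at g1 g2 g3
      rcases key θ c c' hc hc' g1 g2 with h | h
      · left; subst h; rfl
      · rcases key θ c c'' hc hc'' g1 g3 with h' | h'
        · right; left; subst h'; rfl
        · right; right
          have : c' = c'' := by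
            apply Subtype.ext
            ext v
            exact neg_injective ((h v).symm.trans (h' v))
          subst this; rfl
    rw [Nat.card_prod] at hT
    exact (Nat.mul_le_mul_right _ hNT).trans hT
  rw [hA, hB]
  calc N * (Nat.card (Y ω ν) * Nat.card {g : Sp ω // cj g.1 J = J}) ^ 2
      = (N * Nat.card {g : Sp ω // cj g.1 J = J}) * (Nat.card {g : Sp ω // cj g.1 J = J} *
        Nat.card (Y ω ν) ^ 2) := by ring
    _ ≤ ((2 * m) * Nat.card {J' // PY J'}) * (Nat.card {g : Sp ω // cj g.1 J = J} *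
        Nat.card (Y ω ν) ^ 2) := Nat.mul_le_mul_right _ hC
    _ = _ := by ring

end Pool.Agent.UD
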