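import Mathlib

/-!
# Numerics for MP_65787c_al
-/

namespace Pool.Agent.UD.Num

/-- twice the triangular number -/
lemma two_tri (s : ℕ) : 2 * (s * (s - 1) / 2) = s * (s - 1) :=
  Nat.two_mul_div_two_of_even (Nat.even_mul_pred_self s)

lemma cast_tri {s T : ℕ} (hT : s * (s - 1) / 2 = T) : (2 : ℤ) * (T : ℤ) = s * (s - 1) := by
  have h := two_tri s
  rw [hT] at h
  rcases Nat.eq_zero_or_pos s with rfl | hs
  · simp at h ⊢; exact h
  · have h' : ((2 * T : ℕ) : ℤ) = ((s * (s - 1) : ℕ) : ℤ) := by rw [h]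
    push_cast [Nat.cast_sub hs] at h'
    simpa using h'

/-- The two cases for the pair of degrees. -/
def Case (m d s₁ s₂ : ℕ) : Prop :=
  (3 ≤ d ∧ d ≤ m ∧ 10 * (s₁ + s₂) ≤ 7 * d) ∨
  (15 ≤ m ∧ 6 ≤ d ∧ d + 3 ≤ m ∧ 6 * (s₁ + s₂) = 5 * d)

lemma case_of {m e₁ e₂ s₁ s₂ d : ℕ} (hm : 11 ≤ m) (hodd : Odd m) (h1 : e₁.Prime) (h2 : e₂.Prime)
    (hd1 : d = e₁ * s₁) (hd2 : d = e₂ * s₂) (d1 : e₁ ∣ 2 * m) (d2 : e₂ ∣ 2 * m)
    (hne : ¬ (e₁ = 2 ∧ e₂ = 2)) (hd : 0 < d) (hdm : d ≤ m) : Case m d s₁ s₂ := by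
  have h15 : 3 ∣ m → 15 ≤ m := by
    intro h3
    obtain ⟨k, rfl⟩ := h3
    obtain ⟨j, hj⟩ := hodd
    omega
  -- symmetric treatment
  have key : ∀ e₁ e₂ s₁ s₂ : ℕ, e₁.Prime → e₂.Prime → d = e₁ * s₁ → d = e₂ * s₂ → e₁ ∣ 2 * m →
      e₂ ∣ 2 * m → ¬ (e₁ = 2 ∧ e₂ = 2) → e₁ ≤ e₂ → Case m d s₁ s₂ := by
    intro e₁ e₂ s₁ s₂ h1 h2 hd1 hd2 d1 d2 hne hle
    have he1 := h1.two_le
    have he2 := h2.two_le
    rcases Nat.lt_or_ge e₁ 3 with h | h
    · have e1 : e₁ = 2 := by omega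
      subst e1
      have he2' : e₂ ≠ 2 := fun h => hne ⟨rfl, h⟩
      have hodd2 : Odd e₂ := h2.odd_of_ne_two he2'
      have hdiv : e₂ ∣ m := by
        refine (Nat.Coprime.dvd_of_dvd_mul_left ?_ d2)
        exact (Nat.coprime_comm.mp (Nat.coprime_two_left.mpr hodd2))
      rcases Nat.lt_or_ge e₂ 4 with h' | h'
      · have e3 : e₂ = 3 := by omega
        subst e3
        right
        have h15' := h15 hdiv
        obtain ⟨k, hk⟩ := hdiv
        obtain ⟨j, hj⟩ := hodd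
        refine ⟨h15', by omega, ?_, by omega⟩
        omega
      · have h5 : 5 ≤ e₂ := by
          rcases Nat.lt_or_ge e₂ 5 with h'' | h''
          · have : e₂ = 4 := by omega
            subst this
            exact absurd h2 (by decide)
          · exact h''
        left
        have hs2 : 0 < s₂ := by
          rcases Nat.eq_zero_or_pos s₂ with h0 | h0
          · subst h0; omega
          · exact h0
        refine ⟨?_, hdm, ?_⟩
        · nlinarith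
        · have : 5 * s₂ ≤ d := by rw [hd2]; exact Nat.mul_le_mul_right _ h5
          omega
    · left
      have hs2 : 0 < s₂ := by
        rcases Nat.eq_zero_or_pos s₂ with h0 | h0
        · subst h0; omega
        · exact h0
      have h3 : 3 * s₁ ≤ d := by rw [hd1]; exact Nat.mul_le_mul_right _ h
      have h3' : 3 * s₂ ≤ d := by rw [hd2]; exact Nat.mul_le_mul_right _ (h.trans hle)
      refine ⟨by omega, hdm, by omega⟩
  rcases le_total e₁ e₂ with h | h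
  · exact key e₁ e₂ s₁ s₂ h1 h2 hd1 hd2 d1 d2 hne h
  · have := key e₂ e₁ s₂ s₁ h2 h1 hd2 hd1 d2 d1 (fun h => hne ⟨h.2, h.1⟩) h
    unfold Case at this ⊢
    rw [add_comm s₁ s₂]
    exact this

lemma exp_ti {m e₁ e₂ s₁ s₂ d : ℕ} (hm : 11 ≤ m) (hd1 : d = e₁ * s₁) (hd2 : d = e₂ * s₂)
    (hc : Case m d s₁ s₂) :
    2 * m * s₁ + 2 * m * s₂ + (d ^ 2 + d * (d - 1) / 2) + (m + 1) ≤
      2 * m * d + (d * s₁ + e₁ * (s₁ * (s₁ - 1) / 2)) + (d * s₂ + e₂ * (s₂ * (s₂ - 1) / 2)) := by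
  generalize hT1 : s₁ * (s₁ - 1) / 2 = T1
  generalize hT2 : s₂ * (s₂ - 1) / 2 = T2
  generalize hT3 : d * (d - 1) / 2 = T3
  have t1 := cast_tri hT1
  have t2 := cast_tri hT2
  have t3 := cast_tri hT3
  zify
  have hd1' : (d : ℤ) = e₁ * s₁ := by rw [hd1]; push_cast; ring
  have hd2' : (d : ℤ) = e₂ * s₂ := by rw [hd2]; push_cast; ring
  have u1 : 2 * ((e₁ : ℤ) * T1) = d * (s₁ - 1) := by
    calc 2 * ((e₁ : ℤ) * T1) = e₁ * (2 * T1) := by ring
      _ = e₁ * (s₁ * (s₁ - 1)) := by rw [t1]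
      _ = d * (s₁ - 1) := by rw [hd1']; ring
  have u2 : 2 * ((e₂ : ℤ) * T2) = d * (s₂ - 1) := by
    calc 2 * ((e₂ : ℤ) * T2) = e₂ * (2 * T2) := by ring
      _ = e₂ * (s₂ * (s₂ - 1)) := by rw [t2]
      _ = d * (s₂ - 1) := by rw [hd2']; ring
  have hm' : (11 : ℤ) ≤ m := by exact_mod_cast hm
  have key : (2 : ℤ) * m + 2 ≤ (d - s₁ - s₂) * (4 * m - 3 * d) - d := by
    rcases hc with ⟨a, b, c⟩ | ⟨a, b, c, e⟩
    · have a' : (3 : ℤ) ≤ d := by exact_mod_cast a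
      have b' : (d : ℤ) ≤ m := by exact_mod_cast b
      have c' : (10 : ℤ) * (s₁ + s₂) ≤ 7 * d := by exact_mod_cast c
      have h1 : (0 : ℤ) ≤ 4 * m - 3 * d := by linarith
      have h2 : (3 * d : ℤ) * (4 * m - 3 * d) ≤ (10 * (d - s₁ - s₂)) * (4 * m - 3 * d) :=
        mul_le_mul_of_nonneg_right (by linarith) h1
      have h3 : (0 : ℤ) ≤ (d - 3) * (m - d) := mul_nonneg (by linarith) (by linarith)
      have h4 : (20 : ℤ) * m + 20 ≤ 3 * d * (4 * m - 3 * d) - 10 * d := by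
        rcases lt_or_ge (m : ℤ) 13 with h | h
        · nlinarith
        · nlinarith
      nlinarith
    · have a' : (15 : ℤ) ≤ m := by exact_mod_cast a
      have b' : (6 : ℤ) ≤ d := by exact_mod_cast b
      have c' : (d : ℤ) + 3 ≤ m := by exact_mod_cast c
      have e' : (6 : ℤ) * (s₁ + s₂) = 5 * d := by exact_mod_cast e
      have h2 : (6 : ℤ) * ((d - s₁ - s₂) * (4 * m - 3 * d)) = d * (4 * m - 3 * d) := by
        have : (6 : ℤ) * (d - s₁ - s₂) = d := by linarith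
        rw [← mul_assoc, this]
      have h3 : (0 : ℤ) ≤ (d - 6) * (m - 3 - d) := mul_nonneg (by linarith) (by linarith)
      nlinarith
  nlinarith

lemma exp_nd {m s₁ s₂ d : ℕ} (hm : 11 ≤ m) (hc : Case m d s₁ s₂) :
    2 * m * s₁ + 2 * m * s₂ + d ^ 2 + (m + 1) ≤ 2 * m * d + d * s₁ + d * s₂ := by
  zify
  have hm' : (11 : ℤ) ≤ m := by exact_mod_cast hm
  have key : (m : ℤ) + 1 ≤ (d - s₁ - s₂) * (2 * m - d) := by
    rcases hc with ⟨a, b, c⟩ | ⟨a, b, c, e⟩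
    · have a' : (3 : ℤ) ≤ d := by exact_mod_cast a
      have b' : (d : ℤ) ≤ m := by exact_mod_cast b
      have c' : (10 : ℤ) * (s₁ + s₂) ≤ 7 * d := by exact_mod_cast c
      have h1 : (0 : ℤ) ≤ 2 * m - d := by linarith
      have h2 : (3 * d : ℤ) * (2 * m - d) ≤ (10 * (d - s₁ - s₂)) * (2 * m - d) :=
        mul_le_mul_of_nonneg_right (by linarith) h1
      have h3 : (0 : ℤ) ≤ (d - 3) * (m - d) := mul_nonneg (by linarith) (by linarith)
      nlinarith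
    · have a' : (15 : ℤ) ≤ m := by exact_mod_cast a
      have b' : (6 : ℤ) ≤ d := by exact_mod_cast b
      have c' : (d : ℤ) + 3 ≤ m := by exact_mod_cast c
      have e' : (6 : ℤ) * (s₁ + s₂) = 5 * d := by exact_mod_cast e
      have h2 : (6 : ℤ) * ((d - s₁ - s₂) * (2 * m - d)) = d * (2 * m - d) := by
        have : (6 : ℤ) * (d - s₁ - s₂) = d := by linarith
        rw [← mul_assoc, this]
      have h3 : (0 : ℤ) ≤ (d - 6) * (m - 3 - d) := mul_nonneg (by linarith) (by linarith)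
      nlinarith
  nlinarith

/-! ### absorbing constants -/

lemma absorb {c Y G q m a b K K' : ℕ} (hq : 1 ≤ q) (hY : 2 ^ m * q ^ (m ^ 2) ≤ Y)
    (h : K * c * Y * q ^ b ≤ K' * G * q ^ a) (hK : K' ≤ K * 2 ^ m) (hK0 : 0 < K)
    (ha : a + m ≤ m ^ 2 + b) : c * q ^ m ≤ G := by
  have h1 : (K * 2 ^ m * q ^ a) * (c * q ^ m) ≤ (K * 2 ^ m * q ^ a) * G := by
    calc (K * 2 ^ m * q ^ a) * (c * q ^ m) = K * c * 2 ^ m * q ^ (a + m) := by rw [pow_add]; ring
      _ ≤ K * c * 2 ^ m * q ^ (m ^ 2 + b) := by gcongr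
      _ = K * c * (2 ^ m * q ^ (m ^ 2)) * q ^ b := by rw [pow_add]; ring
      _ ≤ K * c * Y * q ^ b := by gcongr
      _ ≤ K' * G * q ^ a := h
      _ ≤ (K * 2 ^ m) * G * q ^ a := by gcongr
      _ = (K * 2 ^ m * q ^ a) * G := by ring
  exact Nat.le_of_mul_le_mul_left h1 (by positivity)

lemma absorb' {c G q m a b K K' : ℕ} (hq : 2 ≤ q) (hG : 7 * q ^ (2 * m ^ 2 + m) ≤ 8 * G)
    (h : K * c * q ^ b ≤ K' * q ^ a) (hK : 8 * K' ≤ 7 * K * 2 ^ m) (hK0 : 0 < K)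
    (ha : a + m ≤ 2 * m ^ 2 + b) : c * q ^ m ≤ G := by
  have h1 : (8 * K * q ^ b) * (c * q ^ m) ≤ (8 * K * q ^ b) * G := by
    calc (8 * K * q ^ b) * (c * q ^ m) = 8 * (K * c * q ^ b) * q ^ m := by ring
      _ ≤ 8 * (K' * q ^ a) * q ^ m := by gcongr
      _ = (8 * K') * q ^ (a + m) := by rw [pow_add]; ring
      _ ≤ (7 * K * 2 ^ m) * q ^ (a + m) := by gcongr
      _ ≤ (7 * K * q ^ m) * q ^ (2 * m ^ 2 + b) := by gcongr; omega
      _ = K * q ^ b * (7 * q ^ (2 * m ^ 2 + m)) := by rw [pow_add, pow_add]; ring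
      _ ≤ K * q ^ b * (8 * G) := by gcongr
      _ = (8 * K * q ^ b) * G := by ring
  exact Nat.le_of_mul_le_mul_left h1 (by positivity)

lemma absorb_ti {c G q m a b : ℕ} (hq : 3 ≤ q) (h : 343 * c * q ^ a ≤ 512 * G * q ^ b)
    (hab : b + (m + 1) ≤ a) : c * q ^ m ≤ G := by
  have h1 : (512 * q ^ b) * (c * q ^ m) ≤ (512 * q ^ b) * G := by
    calc (512 * q ^ b) * (c * q ^ m) ≤ 343 * 3 * q ^ b * (c * q ^ m) := by gcongr; norm_num
      _ ≤ 343 * q * q ^ b * (c * q ^ m) := by gcongr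
      _ = 343 * c * q ^ (b + (m + 1)) := by rw [pow_add, pow_add]; ring
      _ ≤ 343 * c * q ^ a := by gcongr; omega
      _ ≤ 512 * G * q ^ b := h
      _ = (512 * q ^ b) * G := by ring
  exact Nat.le_of_mul_le_mul_left h1 (by positivity)

/-! ### `2 ^ m` against linear and quadratic functions -/

lemma two_pow_ge {m : ℕ} (hm : 11 ≤ m) : 16 * m ^ 2 ≤ 2 ^ m := by
  induction m, hm using Nat.le_induction with
  | base => norm_num
  | succ n hn ih =>
    calc 16 * (n + 1) ^ 2 ≤ 16 * n ^ 2 * 2 := by nlinarith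
      _ ≤ 2 ^ n * 2 := by gcongr
      _ = 2 ^ (n + 1) := by rw [pow_succ]

/-! ### the divisor `l = m / r` -/

/-- `l ≤ m/3` and if `l > m/5` then `m = 3 l` and `l ≥ 5`. -/
lemma div_cases {m r l : ℕ} (hm : 11 ≤ m) (hodd : Odd m) (hr : r.Prime) (hro : Odd r)
    (hl : m = r * l) : 0 < l ∧ (5 * l ≤ m ∨ (r = 3 ∧ m = 3 * l ∧ 5 ≤ l)) := by
  have hr2 := hr.two_le
  have hl0 : 0 < l := by
    rcases Nat.eq_zero_or_pos l with h | h
    · subst h; omega
    · exact h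
  refine ⟨hl0, ?_⟩
  rcases Nat.lt_or_ge r 5 with h | h
  · have : r = 3 := by
      obtain ⟨j, hj⟩ := hro
      omega
    subst this
    right
    obtain ⟨j, hj⟩ := hodd
    refine ⟨rfl, hl, by omega⟩
  · left
    rw [hl]
    exact Nat.mul_le_mul_right _ h

lemma sum_le {q m : ℕ} (hq : 1 ≤ q) (hodd : Odd m) :
    ∑ j ∈ Finset.range (m + 1), q ^ (2 * j * (m - j)) ≤ (m + 1) * q ^ ((m ^ 2 - 1) / 2) := by
  have : ∀ j ∈ Finset.range (m + 1), q ^ (2 * j * (m - j)) ≤ q ^ ((m ^ 2 - 1) / 2) := by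
    intro j hj
    apply Nat.pow_le_pow_right hq
    rw [Nat.le_div_iff_mul_le (by norm_num)]
    have hjm : j ≤ m := by
      have := Finset.mem_range.mp hj
      omega
    obtain ⟨i, rfl⟩ := Nat.exists_eq_add_of_le hjm
    have hne : i ≠ j := by
      rintro rfl
      obtain ⟨a, ha⟩ := hodd
      omega
    have h1 : 1 + 4 * (i * j) ≤ (j + i) ^ 2 := by
      rcases Nat.lt_or_gt_of_ne hne with h | h
      · obtain ⟨a, rfl⟩ := Nat.exists_eq_add_of_lt h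
        nlinarith
      · obtain ⟨a, rfl⟩ := Nat.exists_eq_add_of_lt h
        nlinarith
    have h2 : j + i - j = i := by omega
    rw [h2]
    have h3 : 2 * j * i * 2 = 4 * (i * j) := by ring
    omega
  calc ∑ j ∈ Finset.range (m + 1), q ^ (2 * j * (m - j))
      ≤ ∑ j ∈ Finset.range (m + 1), q ^ ((m ^ 2 - 1) / 2) := Finset.sum_le_sum this
    _ = _ := by simp

/-! ### the individual events, `m ≥ 11` -/

section
variable {c Y G q m : ℕ}

lemma num_comm_odd (hq : 3 ≤ q) (hm : 11 ≤ m) (hodd : Odd m) (hY : 2 ^ m * q ^ (m ^ 2) ≤ Y)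
    {t r k l : ℕ} (ht : t.Prime) (hto : Odd t) (hk : m = t * k) (hr : r.Prime) (hro : Odd r)
    (hl : m = r * l) (h : c * Y ≤ G * q ^ (m * (k + 1) + m * (l + 1))) : c * q ^ m ≤ G := by
  obtain ⟨hk0, hk'⟩ := div_cases hm hodd ht hto hk
  obtain ⟨hl0, hl'⟩ := div_cases hm hodd hr hro hl
  have h1 : 1 * c * Y * q ^ 0 ≤ 1 * G * q ^ (m * (k + 1) + m * (l + 1)) := by simpa using h
  refine absorb (by omega) hY h1 ?_ (by norm_num) ?_
  · have := Nat.one_le_two_pow (n := m); omega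
  · have h3 : k + 1 + (l + 1) + 1 ≤ m := by omega
    calc m * (k + 1) + m * (l + 1) + m = m * (k + 1 + (l + 1) + 1) := by ring
      _ ≤ m * m := Nat.mul_le_mul_left _ h3
      _ = m ^ 2 + 0 := by ring

lemma num_comm_two (hq : 3 ≤ q) (hm : 11 ≤ m) (hodd : Odd m) (hY : 2 ^ m * q ^ (m ^ 2) ≤ Y)
    {r l : ℕ} (hr : r.Prime) (hro : Odd r)
    (hl : m = r * l)
    (h : 7 * c * Y ≤ 8 * G * ((∑ j ∈ Finset.range (m + 1), q ^ (2 * j * (m - j))) *
        q ^ (m * (l + 1)))) : c * q ^ m ≤ G := by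
  obtain ⟨hl0, hl'⟩ := div_cases hm hodd hr hro hl
  have h1 : 7 * c * Y * q ^ 0 ≤ (8 * (m + 1)) * G * q ^ ((m ^ 2 - 1) / 2 + m * (l + 1)) := by
    calc 7 * c * Y * q ^ 0 = 7 * c * Y := by ring
      _ ≤ _ := h
      _ ≤ 8 * G * (((m + 1) * q ^ ((m ^ 2 - 1) / 2)) * q ^ (m * (l + 1))) := by
          gcongr; exact sum_le (by omega) hodd
      _ = _ := by rw [pow_add]; ring
  refine absorb (by omega) hY h1 ?_ (by norm_num) ?_
  · have := two_pow_ge hm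
    nlinarith
  · have h3 : 2 * ((m ^ 2 - 1) / 2) ≤ m ^ 2 := by omega
    rcases hl' with h' | ⟨h', h'', h3'⟩
    · have : 5 * (m * l) ≤ m * m := by nlinarith
      nlinarith
    · have : 3 * (m * l) = m * m := by
        calc 3 * (m * l) = m * (3 * l) := by ring
          _ = m * m := by rw [← h'']
      nlinarith

lemma num_anti (hq : 3 ≤ q) (hm : 11 ≤ m) (hodd : Odd m) (hY : 2 ^ m * q ^ (m ^ 2) ≤ Y)
    {r l : ℕ} (hr : r.Prime) (hro : Odd r) (hl : m = r * l)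
    (h : 49 * c * Y ≤ 128 * G * q ^ (m * (l + 1) + m * (m + 1) / 2)) : c * q ^ m ≤ G := by
  obtain ⟨hl0, hl'⟩ := div_cases hm hodd hr hro hl
  have h1 : 49 * c * Y * q ^ 0 ≤ 128 * G * q ^ (m * (l + 1) + m * (m + 1) / 2) := by simpa using h
  refine absorb (by omega) hY h1 ?_ (by norm_num) ?_
  · have := two_pow_ge hm
    nlinarith
  · obtain ⟨j, hj⟩ := hodd
    have h3 : m * (m + 1) / 2 = m * (j + 1) := by
      rw [show m * (m + 1) = 2 * (m * (j + 1)) by rw [hj]; ring]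
      simp
    rw [h3]
    have h4 : l + 1 + (j + 1) + 1 ≤ m := by omega
    calc m * (l + 1) + m * (j + 1) + m = m * (l + 1 + (j + 1) + 1) := by ring
      _ ≤ m * m := Nat.mul_le_mul_left _ h4
      _ = m ^ 2 + 0 := by ring

lemma num_gal_two (hq : 3 ≤ q) (hm : 11 ≤ m) (hY : 2 ^ m * q ^ (m ^ 2) ≤ Y)
    {r l : ℕ} (hr5 : 5 ≤ r) (hl : m = r * l)
    (h : 7 * c * Y * q ^ (l * (2 * l + 1)) ≤
      8 * (r - 1) * G * q ^ (m * (2 * l + 1) + l * (2 * m + 1))) : c * q ^ m ≤ G := by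
  have hl0 : 0 < l := by
    rcases Nat.eq_zero_or_pos l with h | h
    · subst h; omega
    · exact h
  have hrm : r ≤ m := by rw [hl]; exact Nat.le_mul_of_pos_right _ hl0
  refine absorb (by omega) hY h ?_ (by norm_num) ?_
  · have := two_pow_ge hm
    have h2 : r - 1 ≤ m := by omega
    nlinarith
  · have h5 : 5 * l ≤ m := by rw [hl]; exact Nat.mul_le_mul_right _ hr5
    nlinarith

lemma num_gal_three (hq : 3 ≤ q) (hm : 11 ≤ m) (hodd : Odd m) (hY : 2 ^ m * q ^ (m ^ 2) ≤ Y)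
    {l : ℕ} (hl : m = 3 * l)
    (h : 49 * c * Y * q ^ (l * (2 * l + 1)) ≤
      128 * (2 * l + 1) * G * q ^ (m * (2 * l + 1) + m * (l + 1))) : c * q ^ m ≤ G := by
  have hl5 : 5 ≤ l := by
    obtain ⟨j, hj⟩ := hodd
    omega
  refine absorb (by omega) hY h ?_ (by norm_num) ?_
  · have := two_pow_ge hm
    nlinarith
  · subst hl
    nlinarith

lemma num_gal_odd (hq : 3 ≤ q) (hm : 11 ≤ m) (hodd : Odd m)
    (hG : 7 * q ^ (2 * m ^ 2 + m) ≤ 8 * G)
    {t r k l : ℕ} (ht : t.Prime) (hto : Odd t) (hk : m = t * k) (hr : r.Prime) (hro : Odd r)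
    (hl : m = r * l)
    (h : 7 * c * q ^ (k * (2 * k + 1)) ≤
      8 * (t - 1) * q ^ (m * (2 * k + 1) + k * (2 * m - 1) + m * (2 * l + 1))) :
    c * q ^ m ≤ G := by
  obtain ⟨hk0, hk'⟩ := div_cases hm hodd ht hto hk
  obtain ⟨hl0, hl'⟩ := div_cases hm hodd hr hro hl
  have htm : t ≤ m := by rw [hk]; exact Nat.le_mul_of_pos_right _ hk0
  refine absorb' (by omega) hG h ?_ (by norm_num) ?_
  · have := two_pow_ge hm
    have h2 : t - 1 ≤ m := by omega
    nlinarith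
  · have h3 : k * (2 * m - 1) + k = k * (2 * m) := by
      have : 2 * m - 1 + 1 = 2 * m := by omega
      calc k * (2 * m - 1) + k = k * (2 * m - 1 + 1) := by ring
        _ = _ := by rw [this]
    have h4 : 3 * (m * l) ≤ m * m := by
      rcases hl' with h' | ⟨h', h'', h3'⟩ <;> nlinarith
    rcases hk' with h' | ⟨h', h'', h3'⟩
    · nlinarith
    · subst h''
      nlinarith

lemma num_gal_gal (hq : 3 ≤ q) (hm : 11 ≤ m) (hodd : Odd m)
    (hG : 7 * q ^ (2 * m ^ 2 + m) ≤ 8 * G)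
    {t k : ℕ} (ht : t.Prime) (hto : Odd t) (hk : m = t * k)
    (h : 49 * c * q ^ (2 * (k * (2 * k + 1))) ≤
      64 * (t - 1) ^ 2 * q ^ (3 * (m * (2 * k + 1)))) :
    c * q ^ m ≤ G := by
  obtain ⟨hk0, hk'⟩ := div_cases hm hodd ht hto hk
  have htm : t ≤ m := by rw [hk]; exact Nat.le_mul_of_pos_right _ hk0
  refine absorb' (by omega) hG h ?_ (by norm_num) ?_
  · have := two_pow_ge hm
    have h2 : (t - 1) ^ 2 ≤ m ^ 2 := Nat.pow_le_pow_left (by omega) 2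
    nlinarith
  · rcases hk' with h' | ⟨h', h'', h3'⟩
    · nlinarith
    · subst h''
      nlinarith

end

end Pool.Agent.UD.Num
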