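import Pool.Agent.UD.Defs2
import Pool.Agent.UD.YBasic

/-!
# Block S : the subfields of a field of operators
-/

open Module

namespace Pool.Agent.UD.Sf

section Abstract

variable {F L : Type*} [Field F] [Finite F] [Field L] [Algebra F L] [Finite L]

omit [Finite F] in
lemma abs_isField (A : Subalgebra F L) : IsField A := by
  refine ⟨⟨0, 1, zero_ne_one⟩, fun x y => mul_comm x y, ?_⟩
  intro a ha
  have hinj : Function.Injective (fun b : A => a * b) := fun b c h => mul_left_cancel₀ ha h
  exact (Finite.injective_iff_surjective.1 hinj) 1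

omit [Finite F] in
lemma abs_pow (A : Subalgebra F L) (a : A) : a ^ Nat.card A = a := by
  let _ : Field A := (abs_isField A).toField
  have := Fintype.ofFinite A
  rw [Nat.card_eq_fintype_card]
  exact FiniteField.pow_card a

omit [Finite L] in
lemma abs_card_roots (N : ℕ) (hN : 1 < N) : {x : L | x ^ N = x}.ncard ≤ N := by
  classical
  have h1 : (Polynomial.X ^ N - Polynomial.X : Polynomial L) ≠ 0 :=
    FiniteField.X_pow_card_sub_X_ne_zero L hN
  have h2 : {x : L | x ^ N = x} ⊆
      ((Polynomial.X ^ N - Polynomial.X : Polynomial L).roots.toFinset : Set L) := by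
    intro x hx
    simp only [Set.mem_ofPred_eq] at hx
    simp [Multiset.mem_toFinset, Polynomial.mem_roots h1, hx]
  calc _ ≤ ((Polynomial.X ^ N - Polynomial.X : Polynomial L).roots.toFinset : Set L).ncard :=
        Set.ncard_le_ncard h2 (Finset.finite_toSet _)
    _ = _ := Set.ncard_coe_finset _
    _ ≤ _ := Multiset.toFinset_card_le _
    _ ≤ _ := Polynomial.card_roots' _
    _ = N := FiniteField.X_pow_card_sub_X_natDegree_eq L hN

omit [Finite F] in
lemma abs_eq_roots (A : Subalgebra F L) : (A : Set L) = {x : L | x ^ Nat.card A = x} := by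
  have hN : 1 < Nat.card A := Finite.one_lt_card
  refine Set.eq_of_subset_of_ncard_le ?_ ?_ (Set.toFinite _)
  · intro x hx
    have := abs_pow A ⟨x, hx⟩
    exact congrArg Subtype.val this
  · refine (abs_card_roots (Nat.card A) hN).trans ?_
    rfl

lemma abs_card (A : Subalgebra F L) : Nat.card A = Nat.card F ^ finrank F A := by
  have := Fintype.ofFinite A
  have := Fintype.ofFinite F
  rw [Nat.card_eq_fintype_card, Nat.card_eq_fintype_card]
  exact Module.card_eq_pow_finrank

lemma abs_eq {A B : Subalgebra F L} (h : finrank F A = finrank F B) : A = B := by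
  apply SetLike.coe_injective
  rw [abs_eq_roots A, abs_eq_roots B, abs_card, abs_card, h]

omit [Finite F] in
lemma abs_dvd (A : Subalgebra F L) : finrank F A ∣ finrank F L := by
  let _ : Field A := (abs_isField A).toField
  exact ⟨_, (Module.finrank_mul_finrank F A L).symm⟩

omit [Finite L] in
lemma abs_invol [FiniteDimensional F L] (hodd : Odd (finrank F L)) (σ : L →ₐ[F] L)
    (hσ : ∀ x, σ (σ x) = x) : ∀ x, σ x = x := by
  have : Finite L := Module.finite_of_finite F
  set e : L ≃ₐ[F] L := AlgEquiv.ofAlgHom σ σ (by ext x; exact hσ x) (by ext x; exact hσ x) with he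
  have h1 : orderOf e ∣ 2 := by
    apply orderOf_dvd_of_pow_eq_one
    ext x
    rw [pow_two, AlgEquiv.mul_apply]
    exact hσ x
  have h2 : orderOf e ∣ finrank F L := by
    rw [← IsGalois.card_aut_eq_finrank]
    exact orderOf_dvd_natCard e
  have h3 : orderOf e = 1 := by
    have h4 := Nat.dvd_gcd h1 h2
    rwa [(Nat.coprime_two_left.2 hodd).gcd_eq_one, Nat.dvd_one] at h4
  have h4 : e = 1 := orderOf_eq_one_iff.1 h3
  intro x
  have := DFunLike.congr_fun h4 x
  exact this

lemma abs_sqrt (h2 : (2 : F) ≠ 0) (hev : Even (finrank F L)) (ν : F) :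
    ∃ j : L, j * j = algebraMap F L ν := by
  by_cases h0 : ν = 0
  · exact ⟨0, by simp [h0]⟩
  have := Fintype.ofFinite F
  have := Fintype.ofFinite L
  have hcharF : ringChar F ≠ 2 := by
    intro h
    apply h2
    have := ringChar.Nat.cast_ringChar (R := F)
    rw [h] at this
    exact_mod_cast this
  have hcharL : ringChar L ≠ 2 := by
    intro h
    apply h2
    have := ringChar.Nat.cast_ringChar (R := L)
    rw [h] at this
    apply (algebraMap F L).injective
    rw [map_ofNat, map_zero]
    exact_mod_cast this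
  have h1 : algebraMap F L ν ≠ 0 := by
    rw [Ne, map_eq_zero]
    exact h0
  have key : IsSquare (algebraMap F L ν) := by
    rw [FiniteField.isSquare_iff hcharL h1, Module.card_eq_pow_finrank (K := F)]
    obtain ⟨k, hk⟩ := hev
    rw [hk]
    obtain ⟨c, hc⟩ : (Fintype.card F - 1) ∣ (Fintype.card F ^ (k + k) / 2) := by
      have hodd : Odd (Fintype.card F) := by
        rw [Nat.odd_iff]
        exact FiniteField.odd_card_of_char_ne_two hcharF
      obtain ⟨c, hc⟩ := hodd
      set Q := Fintype.card F with hQ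
      -- Q ^ 2k - 1 = (Q ^ 2 - 1) * S
      have h3 : (Q ^ 2 - 1) ∣ (Q ^ 2) ^ k - 1 := by
        have := Nat.sub_dvd_pow_sub_pow (Q ^ 2) 1 k
        rwa [one_pow] at this
      obtain ⟨S, hS⟩ := h3
      have h4 : Q ^ 2 - 1 = 2 * ((Q - 1) * (c + 1)) := by
        rw [hc]
        have : (2 * c + 1) ^ 2 = 4 * c * c + 4 * c + 1 := by ring
        rw [this]
        simp only [Nat.add_sub_cancel]
        ring
      have h5 : Q ^ (k + k) = 2 * ((Q - 1) * ((c + 1) * S)) + 1 := by
        have h6 : Q ^ (k + k) = (Q ^ 2) ^ k := by rw [← pow_mul]; congr 1; ring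
        have h7 : 1 ≤ (Q ^ 2) ^ k := Nat.one_le_iff_ne_zero.2 (by
          have : Q ≠ 0 := by omega
          positivity)
        have h8 : (Q ^ 2) ^ k = (Q ^ 2 - 1) * S + 1 := by omega
        rw [h6, h8, h4]
        ring
      refine ⟨(c + 1) * S, ?_⟩
      rw [h5]
      omega
    rw [hc, pow_mul, ← map_pow, FiniteField.pow_card_sub_one_eq_one ν h0, map_one, one_pow]
  obtain ⟨j, hj⟩ := key
  exact ⟨j, hj.symm⟩

end Abstract

variable {F V : Type*} [Field F] [Finite F] [AddCommGroup V] [Module F V] [Finite V]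
variable {ω : LinearMap.BilinForm F V}

instance finite_End : Finite (Module.End F V) :=
  Finite.of_injective (fun T : Module.End F V => (T : V → V)) DFunLike.coe_injective

omit [Finite F] in
/-- S1 -/
theorem _root_.Pool.Agent.UD.isField_of_le {L : Subalgebra F (Module.End F V)} (hL : IsField L)
    {A : Subalgebra F (Module.End F V)} (hA : A ≤ L) : IsField A := by
  refine ⟨⟨0, 1, ?_⟩, ?_, ?_⟩
  · intro h
    have h1 : ((0 : A) : Module.End F V) = (1 : A) := congrArg _ h
    have h2 : (0 : L) = 1 := Subtype.ext h1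
    let _ : Field L := hL.toField
    exact zero_ne_one (α := L) h2
  · intro x y
    apply Subtype.ext
    exact congrArg (fun z : L => (z : Module.End F V)) (hL.mul_comm (⟨x, hA x.2⟩ : L) ⟨y, hA y.2⟩)
  · intro a ha
    have hinj : Function.Injective (fun b : A => a * b) := by
      intro b c h
      have h1 : (⟨a, hA a.2⟩ : L) * ⟨b, hA b.2⟩ = ⟨a, hA a.2⟩ * ⟨c, hA c.2⟩ :=
        Subtype.ext (congrArg (fun z : A => (z : Module.End F V)) h)
      have h2 : (⟨a, hA a.2⟩ : L) ≠ 0 := by
        intro h2
        exact ha (Subtype.ext (congrArg (fun z : L => (z : Module.End F V)) h2))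
      obtain ⟨i, hi⟩ := hL.mul_inv_cancel h2
      have h4 : ∀ x : L, i * (⟨a, hA a.2⟩ * x) = x := by
        intro x
        rw [← mul_assoc, hL.mul_comm i, hi, one_mul]
      have h3 : (⟨b, hA b.2⟩ : L) = ⟨c, hA c.2⟩ := by
        rw [← h4 ⟨b, hA b.2⟩, h1, h4]
      exact Subtype.ext (congrArg (fun z : L => (z : Module.End F V)) h3)
    exact (Finite.injective_iff_surjective.1 hinj) 1

/-- a subalgebra of `L` as a subalgebra of the algebra `L` -/
def inL (L A : Subalgebra F (Module.End F V)) : Subalgebra F L := A.comap L.val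

omit [Finite F] [Finite V] in
lemma finrank_inL {L A : Subalgebra F (Module.End F V)} (hA : A ≤ L) :
    finrank F (inL L A) = finrank F A := by
  refine LinearEquiv.finrank_eq ?_
  exact
    { toFun := fun x => ⟨x.1.1, x.2⟩
      invFun := fun x => ⟨⟨x.1, hA x.2⟩, x.2⟩
      map_add' := fun _ _ => rfl
      map_smul' := fun _ _ => rfl
      left_inv := fun _ => rfl
      right_inv := fun _ => rfl }

/-- S2: a subfield of a finite field is determined by its degree. -/
theorem _root_.Pool.Agent.UD.eq_of_finrank {L : Subalgebra F (Module.End F V)} (hL : IsField L)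
    {A B : Subalgebra F (Module.End F V)} (hA : A ≤ L) (hB : B ≤ L)
    (h : finrank F A = finrank F B) : A = B := by
  let _ : Field L := hL.toField
  have h1 : inL L A = inL L B := by
    refine abs_eq ?_
    rw [finrank_inL hA, finrank_inL hB, h]
  ext x
  constructor
  · intro hx
    have : (⟨x, hA hx⟩ : L) ∈ inL L A := hx
    rw [h1] at this
    exact this
  · intro hx
    have : (⟨x, hB hx⟩ : L) ∈ inL L B := hx
    rw [← h1] at this
    exact this

omit [Finite F] in
/-- S3 -/
theorem _root_.Pool.Agent.UD.finrank_dvd {L : Subalgebra F (Module.End F V)} (hL : IsField L)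
    {A : Subalgebra F (Module.End F V)} (hA : A ≤ L) : finrank F A ∣ finrank F L := by
  let _ : Field L := hL.toField
  rw [← finrank_inL hA]
  exact abs_dvd (inL L A)

omit [Finite F] [Finite V] in
lemma symp_skew (hω : IsSymp ω) (x y : V) : ω x y = -ω y x := by
  have h := hω.alt (x + y)
  simp only [map_add, LinearMap.add_apply, hω.alt, zero_add, add_zero] at h
  exact eq_neg_of_add_eq_zero_right h

omit [Finite F] [Finite V] in
lemma symp_nd' (hω : IsSymp ω) (z : V) (h : ∀ x, ω x z = 0) : z = 0 := by
  refine hω.nd z fun y => ?_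
  rw [symp_skew hω, h, neg_zero]

omit [Finite F] [Finite V] in
lemma adj_unique (hω : IsSymp ω) {a b c : Module.End F V} (h : ∀ x y, ω (a x) y = ω x (b y))
    (h' : ∀ x y, ω (a x) y = ω x (c y)) : b = c := by
  ext y
  rw [← sub_eq_zero]
  refine symp_nd' hω _ fun x => ?_
  rw [map_sub, ← h, ← h', sub_self]

omit [Finite F] [Finite V] in
lemma adj_symm (hω : IsSymp ω) {a b : Module.End F V} (h : ∀ x y, ω (a x) y = ω x (b y)) (x y : V) :
    ω (b x) y = ω x (a y) := by
  rw [symp_skew hω, ← h, ← symp_skew hω]

/-- S4: `L` contains skew elements of square `ν`. -/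
theorem _root_.Pool.Agent.UD.exists_J (hω : IsSymp ω) (h2 : (2 : F) ≠ 0) {m : ℕ} (hm : finrank F V = 2 * m)
    (hodd : Odd m) {L : Subalgebra F (Module.End F V)} (hL : IsField L)
    (hLd : finrank F L = 2 * m) (hst : StarStable ω L) {ν : F} (hν : ¬ IsSquare ν) :
    ∃ J ∈ L, J ∈ Y ω ν := by
  let _ : Field L := hL.toField
  obtain ⟨j, hj⟩ := abs_sqrt (F := F) (L := L) h2 (by rw [hLd]; exact even_two_mul m) ν
  have hj2 : ∀ x, (j : Module.End F V) ((j : Module.End F V) x) = ν • x := by
    intro x
    have h1 : ((j * j : L) : Module.End F V) = ((algebraMap F L ν : L) : Module.End F V) :=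
      congrArg _ hj
    exact LinearMap.congr_fun h1 x
  obtain ⟨b, hbL, hb⟩ := hst j j.2
  have hb2 : ∀ y, b (b y) = ν • y := by
    intro y
    rw [← sub_eq_zero]
    refine symp_nd' hω _ fun x => ?_
    rw [map_sub, ← hb, ← hb, hj2, map_smul, map_smul, LinearMap.smul_apply, sub_self]
  have h3 : (⟨b, hbL⟩ : L) * ⟨b, hbL⟩ = j * j := by
    apply Subtype.ext
    ext y
    exact (hb2 y).trans (hj2 y).symm
  rcases mul_self_eq_mul_self_iff.1 h3 with h4 | h4
  · exfalso
    have h5 : b = j := congrArg Subtype.val h4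
    rw [h5] at hb
    exact not_SA_sq hω h2 hm hodd hν (j : Module.End F V) hb hj2
  · have h5 : b = -(j : Module.End F V) := congrArg Subtype.val h4
    rw [h5] at hb
    refine ⟨j, j.2, fun x y => ?_, hj2⟩
    rw [hb, LinearMap.neg_apply, map_neg]

omit [Finite F] [Finite V] in
/-- the subalgebra `F + F J` -/
def quadAlg (J : Module.End F V) {ν : F} (hJ : ∀ x, J (J x) = ν • x) :
    Subalgebra F (Module.End F V) where
  carrier := {T | ∃ b c : F, T = b • 1 + c • J}
  mul_mem' := by
    rintro _ _ ⟨b, c, rfl⟩ ⟨b', c', rfl⟩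
    refine ⟨b * b' + c * c' * ν, b * c' + c * b', ?_⟩
    ext x
    simp only [Module.End.mul_apply, LinearMap.add_apply, LinearMap.smul_apply,
      Module.End.one_apply, map_add, map_smul, hJ]
    module
  add_mem' := by
    rintro _ _ ⟨b, c, rfl⟩ ⟨b', c', rfl⟩
    refine ⟨b + b', c + c', ?_⟩
    module
  algebraMap_mem' := by
    intro r
    refine ⟨r, 0, ?_⟩
    ext x
    simp

omit [Finite F] [Finite V] in
lemma finrank_quadAlg [Nontrivial V] {ν : F} (hν : ¬ IsSquare ν) {J : Module.End F V}
    (hJ : ∀ x, J (J x) = ν • x) : finrank F (quadAlg J hJ) = 2 := by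
  obtain ⟨v, hv⟩ := exists_ne (0 : V)
  have hind : LinearIndependent F ![(1 : Module.End F V), J] := by
    rw [LinearIndependent.pair_iff]
    intro b c hbc
    have hc : c = 0 := by
      by_contra hc
      apply hν
      have h1 : ∀ x, J x = (-(b / c)) • x := by
        intro x
        have h2 := LinearMap.congr_fun hbc x
        simp only [LinearMap.add_apply, LinearMap.smul_apply, Module.End.one_apply,
          LinearMap.zero_apply] at h2
        have h3 : c • J x = (-b) • x := by
          rw [neg_smul]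
          exact eq_neg_of_add_eq_zero_right h2
        have h4 : J x = c⁻¹ • (c • J x) := by rw [smul_smul, inv_mul_cancel₀ hc, one_smul]
        rw [h4, h3, smul_smul]
        congr 1
        field_simp
      refine ⟨-(b / c), ?_⟩
      have h5 := hJ v
      rw [h1 v, map_smul, h1 v, smul_smul] at h5
      exact (smul_left_injective F hv h5).symm
    subst hc
    refine ⟨?_, rfl⟩
    have h2 := LinearMap.congr_fun hbc v
    simp only [zero_smul, add_zero, LinearMap.smul_apply, Module.End.one_apply,
      LinearMap.zero_apply] at h2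
    exact (smul_eq_zero.1 h2).resolve_right hv
  have hQ : (Subalgebra.toSubmodule (quadAlg J hJ)) =
      Submodule.span F (Set.range ![(1 : Module.End F V), J]) := by
    ext T
    rw [Matrix.range_cons, Matrix.range_cons, Matrix.range_empty, Set.union_empty,
      Set.singleton_union, Submodule.mem_span_pair, Subalgebra.mem_toSubmodule]
    constructor
    · rintro ⟨b, c, rfl⟩
      exact ⟨b, c, rfl⟩
    · rintro ⟨b, c, rfl⟩
      exact ⟨b, c, rfl⟩
  have h1 := finrank_span_eq_card hind
  rw [← hQ, Fintype.card_fin] at h1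
  exact h1

omit [Finite F] [Finite V] in
lemma nontrivial_of_isField {L : Subalgebra F (Module.End F V)} (hL : IsField L) :
    Nontrivial V := by
  by_contra hcon
  rw [not_nontrivial_iff_subsingleton] at hcon
  obtain ⟨a, b, hab⟩ := hL.exists_pair_ne
  apply hab
  apply Subtype.ext
  ext x
  exact Subsingleton.elim _ _

/-- S5: the subfield of degree 2 is `F + F J`. -/
theorem _root_.Pool.Agent.UD.quad_sub {L : Subalgebra F (Module.End F V)} (hL : IsField L)
    {ν : F} (hν : ¬ IsSquare ν) {J : Module.End F V} (hJL : J ∈ L) (hJ : J ∈ Y ω ν)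
    {A : Subalgebra F (Module.End F V)} (hA : A ≤ L) (h : finrank F A = 2) :
    J ∈ A ∧ ∀ a ∈ A, ∃ b c : F, ∀ x, a x = b • x + c • J x := by
  have := nontrivial_of_isField hL
  have hQd := finrank_quadAlg hν hJ.2
  have hQL : quadAlg J hJ.2 ≤ L := by
    rintro _ ⟨b, c, rfl⟩
    exact L.add_mem (L.smul_mem L.one_mem b) (L.smul_mem hJL c)
  have hAQ : A = quadAlg J hJ.2 := eq_of_finrank hL hA hQL (by rw [h, hQd])
  rw [hAQ]
  refine ⟨⟨0, 1, by module⟩, ?_⟩
  rintro _ ⟨b, c, rfl⟩
  exact ⟨b, c, fun x => rfl⟩

omit [Finite F] [Finite V] in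
/-- a nonsquare of `F` is a nonsquare in a field of odd degree -/
lemma nonsq_of_odd [Finite V] {A : Subalgebra F (Module.End F V)} (hA : IsField A)
    (hodd : Odd (finrank F A)) {δ : F} (hδ : ¬ IsSquare δ) {c : Module.End F V} (hc : c ∈ A)
    (h : ∀ x, c (c x) = δ • x) : False := by
  have := nontrivial_of_isField hA
  have h1 := finrank_quadAlg hδ h
  have hQ : quadAlg c h ≤ A := by
    rintro _ ⟨b, d, rfl⟩
    exact A.add_mem (A.smul_mem A.one_mem b) (A.smul_mem hc d)
  have h2 := finrank_dvd hA hQ
  rw [h1] at h2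
  exact (Nat.not_even_iff_odd.2 hodd) (even_iff_two_dvd.2 h2)

/-- S6: the subfields of odd degree are self-adjoint. -/
theorem _root_.Pool.Agent.UD.odd_sub_SA (hω : IsSymp ω) {L : Subalgebra F (Module.End F V)} (hL : IsField L)
    (hst : StarStable ω L) {A : Subalgebra F (Module.End F V)} (hA : A ≤ L)
    (h : Odd (finrank F A)) : ∀ a ∈ A, IsSA ω a := by
  -- the adjoint map on `L`
  have hst' : ∀ a : L, ∃ b : L, ∀ x y,
      ω ((a : Module.End F V) x) y = ω x ((b : Module.End F V) y) := by
    intro a
    obtain ⟨b, hb, h1⟩ := hst a a.2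
    exact ⟨⟨b, hb⟩, h1⟩
  choose st hst using hst'
  have huni : ∀ (a : L) (b : L), (∀ x y, ω ((a : Module.End F V) x) y =
      ω x ((b : Module.End F V) y)) → st a = b := by
    intro a b hb
    exact Subtype.ext (adj_unique hω (hst a) hb)
  set σ₀ : L →ₐ[F] L :=
    { toFun := st
      map_one' := huni 1 1 fun x y => rfl
      map_mul' := by
        intro a b
        refine huni (a * b) (st a * st b) fun x y => ?_
        rw [hL.mul_comm (st a)]
        change ω ((a : Module.End F V) ((b : Module.End F V) x)) y =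
          ω x ((st b : Module.End F V) ((st a : Module.End F V) y))
        rw [hst, hst]
      map_zero' := huni 0 0 fun x y => by simp
      map_add' := by
        intro a b
        refine huni (a + b) (st a + st b) fun x y => ?_
        change ω ((a : Module.End F V) x + (b : Module.End F V) x) y =
          ω x ((st a : Module.End F V) y + (st b : Module.End F V) y)
        rw [map_add, map_add, LinearMap.add_apply, hst, hst]
      commutes' := by
        intro r
        refine huni _ _ fun x y => ?_
        change ω (r • x) y = ω x (r • y)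
        rw [map_smul, map_smul, LinearMap.smul_apply] } with hσ₀
  have hinv : ∀ a : L, st (st a) = a := by
    intro a
    exact huni (st a) a fun x y => adj_symm hω (hst a) x y
  have hinj : Function.Injective σ₀ := by
    intro a b hab
    rw [← hinv a, ← hinv b]
    exact congrArg st hab
  have hmap : (inL L A).map σ₀ = inL L A := by
    let _ : Field L := hL.toField
    refine abs_eq ?_
    exact (LinearEquiv.finrank_eq ((inL L A).equivMapOfInjective σ₀ hinj).toLinearEquiv).symm
  have hmem : ∀ a : A, (st ⟨a, hA a.2⟩ : Module.End F V) ∈ A := by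
    intro a
    have h1 : σ₀ ⟨a, hA a.2⟩ ∈ (inL L A).map σ₀ := Subalgebra.mem_map.2 ⟨⟨a, hA a.2⟩, a.2, rfl⟩
    rw [hmap] at h1
    exact h1
  have hsub : ∀ a : A, ∀ b : L, (a : Module.End F V) = b → (⟨a, hA a.2⟩ : L) = b :=
    fun a b hab => Subtype.ext hab
  let _ : Field A := (isField_of_le hL hA).toField
  let σ : A →ₐ[F] A :=
    { toFun := fun a => ⟨st ⟨a, hA a.2⟩, hmem a⟩
      map_one' := Subtype.ext (congrArg (fun z : L => (z : Module.End F V)) (map_one σ₀))
      map_mul' := fun a b => Subtype.ext (congrArg (fun z : L => (z : Module.End F V))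
        (map_mul σ₀ ⟨a, hA a.2⟩ ⟨b, hA b.2⟩))
      map_zero' := Subtype.ext (congrArg (fun z : L => (z : Module.End F V)) (map_zero σ₀))
      map_add' := fun a b => Subtype.ext (congrArg (fun z : L => (z : Module.End F V))
        (map_add σ₀ ⟨a, hA a.2⟩ ⟨b, hA b.2⟩))
      commutes' := fun r => Subtype.ext (congrArg (fun z : L => (z : Module.End F V))
        (σ₀.commutes r)) }
  have hσσ : ∀ a, σ (σ a) = a := by
    intro a
    apply Subtype.ext
    exact congrArg (fun z : L => (z : Module.End F V)) (hinv ⟨a, hA a.2⟩)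
  have hσ := abs_invol (F := F) (L := A) h σ hσσ
  intro a ha x y
  have h1 : (st ⟨a, hA ha⟩ : Module.End F V) = a :=
    congrArg (fun z : A => (z : Module.End F V)) (hσ ⟨a, ha⟩)
  have h2 := hst ⟨a, hA ha⟩ x y
  rw [h1] at h2
  exact h2

end Pool.Agent.UD.Sf
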