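import Pool.Agent.UD.EventsThree
import Pool.Agent.UD.AlgStep
import Pool.Agent.UD.GoodSet
import Pool.Agent.UD.Subfields
import Pool.Agent.UD.Numerics

/-!
# MP_65787c_al : assembly, part 1 (events and conjugation)
-/

open Module

namespace Pool.Agent.UD


variable {F V : Type*} [Field F] [AddCommGroup V] [Module F V]

/-! ### conjugation lemmas -/

section conj
variable {ω : LinearMap.BilinForm F V}

lemma inv_apply_self' (g : V ≃ₗ[F] V) (v : V) : g⁻¹ (g v) = v := by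
  rw [← LinearEquiv.mul_apply, inv_mul_cancel, LinearEquiv.coe_one, id]

lemma apply_inv_self' (g : V ≃ₗ[F] V) (v : V) : g (g⁻¹ v) = v := by
  rw [← LinearEquiv.mul_apply, mul_inv_cancel, LinearEquiv.coe_one, id]

lemma cj_inv_cj_aux (g : V ≃ₗ[F] V) (T : Module.End F V) : cj g⁻¹ (cj g T) = T := by
  rw [← mul_cj, inv_mul_cancel, one_cj]

lemma cj_cj_inv_aux (g : V ≃ₗ[F] V) (T : Module.End F V) : cj g (cj g⁻¹ T) = T := by
  rw [← mul_cj, mul_inv_cancel, one_cj]

lemma Nrm_conj {x g : V ≃ₗ[F] V} {B : Subalgebra F (Module.End F V)} (h : Nrm x (cjA g B)) :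
    Nrm (g⁻¹ * x * g) B := by
  intro b hb
  have h1 := h (cj g b) (mem_cjA.mpr ⟨b, hb, rfl⟩)
  obtain ⟨b', hb', h2⟩ := mem_cjA.mp h1
  rw [mul_cj, mul_cj, ← h2, cj_inv_cj_aux]
  exact hb'

lemma Nrm_conj' {x g : V ≃ₗ[F] V} {A : Subalgebra F (Module.End F V)} (h : Nrm x A) :
    Nrm (g⁻¹ * x * g) (cjA g⁻¹ A) := by
  intro b hb
  obtain ⟨a, ha, rfl⟩ := mem_cjA.mp hb
  rw [mul_cj, mul_cj, cj_cj_inv_aux]
  exact mem_cjA.mpr ⟨cj x a, h a ha, rfl⟩

lemma Triv_of_conj {x g : V ≃ₗ[F] V} (h : Triv (g⁻¹ * x * g)) : Triv x := by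
  rcases h with h | h
  · left
    intro v
    have h1 := h (g⁻¹ v)
    simp only [LinearEquiv.mul_apply, apply_inv_self'] at h1
    have h2 : g (g⁻¹ (x v)) = g (g⁻¹ v) := by rw [h1]
    rwa [apply_inv_self', apply_inv_self'] at h2
  · right
    intro v
    have h1 := h (g⁻¹ v)
    simp only [LinearEquiv.mul_apply, apply_inv_self'] at h1
    have h2 : g (g⁻¹ (x v)) = g (-(g⁻¹ v)) := by rw [h1]
    rwa [apply_inv_self', map_neg, apply_inv_self'] at h2

lemma Gal_conj {x g : V ≃ₗ[F] V} (hg : g ∈ Sp ω) {B : Subalgebra F (Module.End F V)} {r : ℕ}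
    (h : x ∈ Gal ω (cjA g B) r) : g⁻¹ * x * g ∈ Gal ω B r := by
  obtain ⟨h1, h2, h3, a, ha, hne⟩ := h
  refine ⟨?_, ?_, Nrm_conj h3, ?_⟩
  · exact mul_mem (mul_mem (inv_mem hg) h1) hg
  · have : (g⁻¹ * x * g) ^ r = g⁻¹ * x ^ r * g := by
      have := conj_pow (i := r) (a := g⁻¹) (b := x)
      rw [inv_inv] at this
      exact this
    rw [this, h2, mul_one, inv_mul_cancel]
  · obtain ⟨b, hb, rfl⟩ := mem_cjA.mp ha
    refine ⟨b, hb, ?_⟩
    intro h
    apply hne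
    rw [mul_cj, mul_cj] at h
    have h' := congrArg (cj g) h
    rw [cj_cj_inv_aux] at h'
    exact h'

lemma Cm_conj {x g : V ≃ₗ[F] V} {T : Module.End F V} (h : Cm x T) :
    Cm (g⁻¹ * x * g) (cj g⁻¹ T) := by
  intro v
  have e : (g⁻¹).symm = g := by
    ext w; rfl
  simp only [LinearEquiv.mul_apply, cj_apply, e, apply_inv_self']
  rw [h]

lemma SA_conj {g : V ≃ₗ[F] V} (hg : g ∈ Sp ω) {T : Module.End F V} (h : IsSA ω T) :
    IsSA ω (cj g T) := by
  intro x y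
  simp only [cj_apply]
  have h1 : ω (g (T (g.symm x))) y = ω (T (g.symm x)) (g.symm y) := by
    conv_lhs => rw [← g.apply_symm_apply y]
    exact hg _ _
  have h2 : ω x (g (T (g.symm y))) = ω (g.symm x) (T (g.symm y)) := by
    conv_lhs => rw [← g.apply_symm_apply x]
    exact hg _ _
  rw [h1, h2, h]

lemma SK_conj {g : V ≃ₗ[F] V} (hg : g ∈ Sp ω) {T : Module.End F V} (h : IsSK ω T) :
    IsSK ω (cj g T) := by
  intro x y
  simp only [cj_apply]
  have h1 : ω (g (T (g.symm x))) y = ω (T (g.symm x)) (g.symm y) := by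
    conv_lhs => rw [← g.apply_symm_apply y]
    exact hg _ _
  have h2 : ω x (g (T (g.symm y))) = ω (g.symm x) (T (g.symm y)) := by
    conv_lhs => rw [← g.apply_symm_apply x]
    exact hg _ _
  rw [h1, h2, h]

lemma Y_conj {g : V ≃ₗ[F] V} (hg : g ∈ Sp ω) {δ : F} {T : Module.End F V} (h : T ∈ Y ω δ) :
    cj g T ∈ Y ω δ := by
  refine ⟨SK_conj hg h.1, ?_⟩
  intro x
  simp only [cj_apply, LinearEquiv.symm_apply_apply, h.2, map_smul, LinearEquiv.apply_symm_apply]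

lemma isField_cjA (g : V ≃ₗ[F] V) {B : Subalgebra F (Module.End F V)} (hB : IsField B) :
    IsField (cjA g B) := by
  have e := Subalgebra.equivMapOfInjective B (cjHom g) (cj_inj g)
  exact MulEquiv.isField hB e.symm.toMulEquiv

lemma finrank_cjA (g : V ≃ₗ[F] V) (B : Subalgebra F (Module.End F V)) :
    finrank F (cjA g B) = finrank F B := by
  have e := Subalgebra.equivMapOfInjective B (cjHom g) (cj_inj g)
  exact (LinearEquiv.finrank_eq e.toLinearEquiv).symm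

lemma SA_cjA {g : V ≃ₗ[F] V} (hg : g ∈ Sp ω) {B : Subalgebra F (Module.End F V)}
    (h : ∀ b ∈ B, IsSA ω b) : ∀ b ∈ cjA g B, IsSA ω b := by
  intro b hb
  obtain ⟨c, hc, rfl⟩ := mem_cjA.mp hb
  exact SA_conj hg (h c hc)

end conj

/-! ### the events -/

section events
variable (ω : LinearMap.BilinForm F V)

def EvTI (A B : Subalgebra F (Module.End F V)) (d : ℕ) : Set (Sp ω) :=
  {g | ∃ U : Submodule F V, finrank F U = d ∧ TI ω U ∧ Stab A U ∧ Stab (cjA g.1 B) U}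

def EvND (A B : Subalgebra F (Module.End F V)) (d : ℕ) : Set (Sp ω) :=
  {g | ∃ U : Submodule F V, finrank F U = d ∧ ND ω U ∧ Stab A U ∧ Stab (cjA g.1 B) U}

def EvC (ν : F) (A B : Subalgebra F (Module.End F V)) : Set (Sp ω) :=
  {g | ∃ J' ∈ Y ω ν, (∀ a ∈ A, Cm J' a) ∧ ∀ b ∈ cjA g.1 B, Cm J' b}

def EvC2 (ν : F) (J : Module.End F V) (B : Subalgebra F (Module.End F V)) : Set (Sp ω) :=
  {g | ∃ J' ∈ Y ω ν, Cm J' J ∧ ∀ b ∈ cjA g.1 B, Cm J' b}

def EvN (J : Module.End F V) (B : Subalgebra F (Module.End F V)) : Set (Sp ω) :=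
  {g | ∃ z ∈ Y ω (-1 : F), (∀ v, J (z v) = - z (J v)) ∧ ∀ b ∈ cjA g.1 B, Cm z b}

def EvG2 (J : Module.End F V) (B : Subalgebra F (Module.End F V)) (r : ℕ) : Set (Sp ω) :=
  {g | ∃ x' ∈ Gal ω (cjA g.1 B) r, Cm x' J}

def EvG (A B : Subalgebra F (Module.End F V)) (t : ℕ) : Set (Sp ω) :=
  {g | ∃ x' ∈ Gal ω A t, ∀ b ∈ cjA g.1 B, Cm x' b}

def EvG' (A B : Subalgebra F (Module.End F V)) (r : ℕ) : Set (Sp ω) :=
  {g | ∃ x' ∈ Gal ω (cjA g.1 B) r, ∀ a ∈ A, Cm x' a}

def EvGG (A B : Subalgebra F (Module.End F V)) (t : ℕ) : Set (Sp ω) :=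
  {g | ∃ x', x' ∈ Gal ω A t ∧ x' ∈ Gal ω (cjA g.1 B) t}

end events

section count
variable {G : Type*} [Finite G]

lemma ncard_le_of_inv [Group G] {S T : Set G} (h : ∀ g ∈ S, g⁻¹ ∈ T) : S.ncard ≤ T.ncard := by
  refine Set.ncard_le_ncard_of_injOn (fun g => g⁻¹) h ?_ (Set.toFinite _)
  intro a _ b _ hab
  exact inv_injective hab

lemma ncard_biUnion_le {ι : Type*} (t : Finset ι) (f : ι → Set G) :
    (⋃ i ∈ t, f i).ncard ≤ ∑ i ∈ t, (f i).ncard := by
  classical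
  induction t using Finset.induction_on with
  | empty => simp
  | insert a s ha ih =>
    rw [Finset.set_biUnion_insert, Finset.sum_insert ha]
    exact (Set.ncard_union_le _ _).trans (Nat.add_le_add_left ih _)

end count

section
variable [Finite F] [Finite V] {ω : LinearMap.BilinForm F V}


instance : Finite (V ≃ₗ[F] V) :=
  Finite.of_injective (fun g : V ≃ₗ[F] V => (g : V → V)) DFunLike.coe_injective

lemma Bad_symm (A B : Subalgebra F (Module.End F V)) :
    (Bad ω A B).ncard ≤ (Bad ω B A).ncard := by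
  apply ncard_le_of_inv
  rintro ⟨g, hg⟩ ⟨x, hx, hA, hB, hne⟩
  refine ⟨g⁻¹ * x * g, mul_mem (mul_mem (inv_mem hg) hx) hg, Nrm_conj hB, ?_,
    fun h => hne (Triv_of_conj h)⟩
  exact Nrm_conj' hA

lemma EvG'_le (A B : Subalgebra F (Module.End F V)) (r : ℕ) :
    (EvG' ω A B r).ncard ≤ (EvG ω B A r).ncard := by
  apply ncard_le_of_inv
  rintro ⟨g, hg⟩ ⟨x, hx, hA⟩
  refine ⟨g⁻¹ * x * g, Gal_conj hg hx, ?_⟩
  intro b hb
  obtain ⟨a, ha, rfl⟩ := mem_cjA.mp hb
  exact Cm_conj (hA a ha)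

lemma dvd_of_stab (A : Subalgebra F (Module.End F V)) (hA : IsField A) (U : Submodule F V)
    (hU : Stab A U) : finrank F A ∣ finrank F U := by
  let U' : Submodule A V := { U with smul_mem' := fun a x hx => hU a a.2 x hx }
  have hf : Module.Free A U' := by
    let _ : Field A := hA.toField
    exact Module.Free.of_divisionRing A U'
  have hf2 : Module.Free F A := inferInstance
  have : StrongRankCondition A := by
    let _ : Field A := hA.toField
    infer_instance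
  have h : finrank F A * finrank A U' = finrank F U' := Module.finrank_mul_finrank F A U'
  have h2 : finrank F U' = finrank F U := rfl
  exact ⟨_, by rw [← h2]; exact h.symm⟩

lemma EvTI_empty {A B : Subalgebra F (Module.End F V)} (hA : IsField A) (hB : IsField B) {d : ℕ}
    (h : ¬ (finrank F A ∣ d ∧ finrank F B ∣ d)) : (EvTI ω A B d).ncard = 0 := by
  rw [Set.ncard_eq_zero]
  apply Set.eq_empty_of_forall_notMem
  rintro g ⟨U, h1, -, h2, h3⟩
  apply h
  rw [← h1]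
  refine ⟨dvd_of_stab A hA U h2, ?_⟩
  rw [← finrank_cjA g.1 B]
  exact dvd_of_stab _ (isField_cjA _ hB) U h3

lemma EvND_empty {A B : Subalgebra F (Module.End F V)} (hA : IsField A) (hB : IsField B) {d : ℕ}
    (h : ¬ (finrank F A ∣ d ∧ finrank F B ∣ d)) : (EvND ω A B d).ncard = 0 := by
  rw [Set.ncard_eq_zero]
  apply Set.eq_empty_of_forall_notMem
  rintro g ⟨U, h1, -, h2, h3⟩
  apply h
  rw [← h1]
  refine ⟨dvd_of_stab A hA U h2, ?_⟩
  rw [← finrank_cjA g.1 B]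
  exact dvd_of_stab _ (isField_cjA _ hB) U h3

end

end Pool.Agent.UD
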