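import Pool.Agent.UD.Main1

/-!
# MP_65787c_al : assembly, part 2 (the bad events are covered)
-/

open Module

namespace Pool.Agent.UD


variable {F V : Type*} [Field F] [AddCommGroup V] [Module F V] [Finite F] [Finite V]
variable {ω : LinearMap.BilinForm F V}


lemma exists_omega_ne (hω : IsSymp ω) (hV : 0 < finrank F V) : ∃ x y, ω x y ≠ 0 := by
  have : Nontrivial V := Module.nontrivial_of_finrank_pos hV
  obtain ⟨x, hx⟩ := exists_ne (0 : V)
  by_contra h
  push Not at h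
  exact hx (hω.nd x (h x))

lemma pm_of_mem (hω : IsSymp ω) (h2 : (2 : F) ≠ 0) (hV : 0 < finrank F V) {ν : F}
    (hν : ¬ IsSquare ν) {J T : Module.End F V} (hJ : J ∈ Y ω ν) (hT : T ∈ Y ω ν)
    (h : ∃ b c : F, ∀ x, T x = b • x + c • J x) : T = J ∨ T = -J := by
  obtain ⟨b, c, hbc⟩ := h
  obtain ⟨x, y, hxy⟩ := exists_omega_ne hω hV
  have hb : b = 0 := by
    have h1 := hT.1 x y
    rw [hbc, hbc] at h1
    simp only [map_add, map_smul, LinearMap.add_apply, LinearMap.smul_apply, smul_eq_mul] at h1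
    rw [hJ.1] at h1
    have h3 : 2 * b * ω x y = 0 := by linear_combination h1
    rcases mul_eq_zero.mp h3 with h4 | h4
    · rcases mul_eq_zero.mp h4 with h5 | h5
      · exact absurd h5 h2
      · exact h5
    · exact absurd h4 hxy
  subst hb
  have hx0 : x ≠ 0 := by rintro rfl; simp at hxy
  have hν0 : ν ≠ 0 := by rintro rfl; exact hν ⟨0, by simp⟩
  have hc : c * c = 1 := by
    have h1 := hT.2 x
    rw [hbc (T x), hbc x] at h1
    simp only [zero_smul, zero_add, map_smul, hJ.2] at h1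
    rw [smul_smul, smul_smul] at h1
    have h3 : (c * (c * ν) - ν) • x = 0 := by
      rw [sub_smul, sub_eq_zero, ← mul_assoc]; exact h1
    rcases smul_eq_zero.mp h3 with h4 | h4
    · have : (c * c - 1) * ν = 0 := by linear_combination h4
      rcases mul_eq_zero.mp this with h5 | h5
      · linear_combination h5
      · exact absurd h5 hν0
    · exact absurd h4 hx0
  rcases mul_self_eq_one_iff.mp hc with h1 | h1
  · left
    ext v
    rw [hbc, h1]
    simp
  · right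
    ext v
    rw [hbc, h1]
    simp

/-- if `x` normalises the quadratic field then it maps `J` to `± J` -/
lemma cj_pm (hω : IsSymp ω) (h2 : (2 : F) ≠ 0) (hV : 0 < finrank F V) {ν : F}
    (hν : ¬ IsSquare ν) {J : Module.End F V} (hJ : J ∈ Y ω ν)
    {A : Subalgebra F (Module.End F V)} (hJA : J ∈ A)
    (hA : ∀ a ∈ A, ∃ b c : F, ∀ x, a x = b • x + c • J x) {x : V ≃ₗ[F] V} (hx : x ∈ Sp ω)
    (hn : Nrm x A) : cj x J = J ∨ cj x J = -J :=
  pm_of_mem hω h2 hV hν hJ (Y_conj hx hJ) (hA _ (hn _ hJA))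

lemma cj_neg (g : V ≃ₗ[F] V) (T : Module.End F V) : cj g (-T) = -cj g T := by
  ext v; simp

/-- elements of `Bad A A`, `A` quadratic, are not good -/
lemma not_good (hω : IsSymp ω) (h2 : (2 : F) ≠ 0) (hV : 0 < finrank F V) {ν : F}
    (hν : ¬ IsSquare ν) {J : Module.End F V} (hJ : J ∈ Y ω ν)
    {A B : Subalgebra F (Module.End F V)} (hJA : J ∈ A) (hJB : J ∈ B)
    (hA : ∀ a ∈ A, ∃ b c : F, ∀ x, a x = b • x + c • J x)
    (hB : ∀ a ∈ B, ∃ b c : F, ∀ x, a x = b • x + c • J x) {g : Sp ω}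
    (hg : g ∈ Bad ω A B) : g ∉ Good ω J := by
  obtain ⟨x, hx, hxA, hxB, hne⟩ := hg
  intro hgood
  apply hne
  refine hgood x hx (cj_pm hω h2 hV hν hJ hJA hA hx hxA) ?_
  have hy : g.1⁻¹ * x * g.1 ∈ Sp ω := mul_mem (mul_mem (inv_mem g.2) hx) g.2
  have h1 := cj_pm hω h2 hV hν hJ hJB hB hy (Nrm_conj hxB)
  have key : cj x (cj g.1 J) = cj g.1 (cj (g.1⁻¹ * x * g.1) J) := by
    rw [← mul_cj, ← mul_cj]
    congr 1
    group
  rw [key]
  rcases h1 with h1 | h1
  · left; rw [h1]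
  · right; rw [h1, cj_neg]

lemma stab_of_adjoin {J : Module.End F V} {A : Subalgebra F (Module.End F V)}
    (hA : ∀ a ∈ A, ∃ b c : F, ∀ x, a x = b • x + c • J x) {U : Submodule F V}
    (hU : Stab (Algebra.adjoin F {J}) U) : Stab A U := by
  intro a ha x hx
  obtain ⟨b, c, h⟩ := hA a ha
  rw [h]
  exact U.add_mem (U.smul_mem _ hx) (U.smul_mem _
    (hU J (Algebra.subset_adjoin (Set.mem_singleton _)) x hx))

lemma finrank_pos_of_ne {U : Submodule F V} (hU : U ≠ ⊥) : 0 < finrank F U := by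
  rw [Nat.pos_iff_ne_zero]
  intro h
  exact hU (Submodule.finrank_eq_zero.mp h)

lemma bad_two_subset (hω : IsSymp ω) (h2 : (2 : F) ≠ 0) {m : ℕ} (hm : finrank F V = 2 * m)
    (hodd : Odd m) {ν : F} (hν : ¬ IsSquare ν) {J : Module.End F V} (hJ : J ∈ Y ω ν)
    {A : Subalgebra F (Module.End F V)} (hJA : J ∈ A)
    (hA : ∀ a ∈ A, ∃ b c : F, ∀ x, a x = b • x + c • J x)
    (B : Subalgebra F (Module.End F V)) (hB : IsField B) (hsb : ∀ b ∈ B, IsSA ω b)
    {r : ℕ} (hr : r.Prime) (hro : Odd r) (hBr : finrank F B = r) :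
    Bad ω A B ⊆ (⋃ i ∈ Finset.range m, EvTI ω A B (i + 1)) ∪
      ((⋃ i ∈ Finset.range m, EvND ω A B (i + 1)) ∪
      (EvC2 ω ν J B ∪ (EvN ω J B ∪ EvG2 ω J B r))) := by
  rintro g ⟨x, hx, hxA, hxB, hne⟩
  have hV : 0 < finrank F V := by
    rw [hm]
    obtain ⟨j, hj⟩ := hodd
    omega
  have hxJ := cj_pm hω h2 hV hν hJ hJA hA hx hxA
  have hr' : finrank F (cjA g.1 B) = r := by rw [finrank_cjA, hBr]
  rcases bad_two hω h2 hm hodd hν hJ (cjA g.1 B) (isField_cjA _ hB) (SA_cjA g.2 hsb) hr hro hr'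
    hx hxJ hxB hne with ⟨U, hU0, hUm, hU, hUA, hUB⟩ | h | h | h
  · have hpos := finrank_pos_of_ne hU0
    rcases hU with hU | hU
    · left
      simp only [Set.mem_iUnion, Finset.mem_range]
      exact ⟨finrank F U - 1, by omega, U, by omega, hU, stab_of_adjoin hA hUA, hUB⟩
    · right; left
      simp only [Set.mem_iUnion, Finset.mem_range]
      exact ⟨finrank F U - 1, by omega, U, by omega, hU, stab_of_adjoin hA hUA, hUB⟩
  · right; right; left; exact h
  · right; right; right; left; exact h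
  · right; right; right; right; exact h

lemma bad_odd_subset (hω : IsSymp ω) (h2 : (2 : F) ≠ 0) {m : ℕ} (hm : finrank F V = 2 * m)
    (hodd : Odd m) {ν : F} (hν : ¬ IsSquare ν)
    (A B : Subalgebra F (Module.End F V)) (hA : IsField A) (hsa : ∀ a ∈ A, IsSA ω a)
    (hB : IsField B) (hsb : ∀ b ∈ B, IsSA ω b)
    {t r : ℕ} (ht : t.Prime) (hto : Odd t) (hAt : finrank F A = t)
    (hr : r.Prime) (hro : Odd r) (hBr : finrank F B = r) :
    Bad ω A B ⊆ (⋃ i ∈ Finset.range m, EvTI ω A B (i + 1)) ∪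
      ((⋃ i ∈ Finset.range m, EvND ω A B (i + 1)) ∪
      (EvC ω ν A B ∪ (EvG ω A B t ∪ (EvG' ω A B r ∪ {g | t = r ∧ g ∈ EvGG ω A B t})))) := by
  rintro g ⟨x, hx, hxA, hxB, hne⟩
  have hr' : finrank F (cjA g.1 B) = r := by rw [finrank_cjA, hBr]
  rcases bad_odd hω h2 hm hodd hν A (cjA g.1 B) hA hsa (isField_cjA _ hB) (SA_cjA g.2 hsb)
    ht hto hAt hr hro hr' hx hxA hxB hne with ⟨U, hU0, hUm, hU, hUA, hUB⟩ | h | h | h | h
  · have hpos := finrank_pos_of_ne hU0
    rcases hU with hU | hU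
    · left
      simp only [Set.mem_iUnion, Finset.mem_range]
      exact ⟨finrank F U - 1, by omega, U, by omega, hU, hUA, hUB⟩
    · right; left
      simp only [Set.mem_iUnion, Finset.mem_range]
      exact ⟨finrank F U - 1, by omega, U, by omega, hU, hUA, hUB⟩
  · right; right; left; exact h
  · right; right; right; left; exact h
  · right; right; right; right; left; exact h
  · right; right; right; right; right
    obtain ⟨h1, x', h3, h4⟩ := h
    exact ⟨h1, x', h3, by rw [h1]; exact h4⟩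

lemma ncard_two_le (hω : IsSymp ω) (h2 : (2 : F) ≠ 0) {m : ℕ} (hm : finrank F V = 2 * m)
    (hodd : Odd m) {ν : F} (hν : ¬ IsSquare ν) {J : Module.End F V} (hJ : J ∈ Y ω ν)
    {A : Subalgebra F (Module.End F V)} (hJA : J ∈ A)
    (hA : ∀ a ∈ A, ∃ b c : F, ∀ x, a x = b • x + c • J x)
    (B : Subalgebra F (Module.End F V)) (hB : IsField B) (hsb : ∀ b ∈ B, IsSA ω b)
    {r : ℕ} (hr : r.Prime) (hro : Odd r) (hBr : finrank F B = r) :
    (Bad ω A B).ncard ≤ (∑ i ∈ Finset.range m, (EvTI ω A B (i + 1)).ncard) +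
      ((∑ i ∈ Finset.range m, (EvND ω A B (i + 1)).ncard) +
      ((EvC2 ω ν J B).ncard + ((EvN ω J B).ncard + (EvG2 ω J B r).ncard))) := by
  refine (Set.ncard_le_ncard (bad_two_subset hω h2 hm hodd hν hJ hJA hA B hB hsb hr hro hBr)
    (Set.toFinite _)).trans ?_
  refine (Set.ncard_union_le _ _).trans (Nat.add_le_add (ncard_biUnion_le _ _) ?_)
  refine (Set.ncard_union_le _ _).trans (Nat.add_le_add (ncard_biUnion_le _ _) ?_)
  refine (Set.ncard_union_le _ _).trans (Nat.add_le_add le_rfl ?_)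
  exact Set.ncard_union_le _ _

lemma ncard_odd_le (hω : IsSymp ω) (h2 : (2 : F) ≠ 0) {m : ℕ} (hm : finrank F V = 2 * m)
    (hodd : Odd m) {ν : F} (hν : ¬ IsSquare ν)
    (A B : Subalgebra F (Module.End F V)) (hA : IsField A) (hsa : ∀ a ∈ A, IsSA ω a)
    (hB : IsField B) (hsb : ∀ b ∈ B, IsSA ω b)
    {t r : ℕ} (ht : t.Prime) (hto : Odd t) (hAt : finrank F A = t)
    (hr : r.Prime) (hro : Odd r) (hBr : finrank F B = r) :
    (Bad ω A B).ncard ≤ (∑ i ∈ Finset.range m, (EvTI ω A B (i + 1)).ncard) +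
      ((∑ i ∈ Finset.range m, (EvND ω A B (i + 1)).ncard) +
      ((EvC ω ν A B).ncard + ((EvG ω A B t).ncard + ((EvG ω B A r).ncard +
        {g | t = r ∧ g ∈ EvGG ω A B t}.ncard)))) := by
  refine (Set.ncard_le_ncard (bad_odd_subset hω h2 hm hodd hν A B hA hsa hB hsb ht hto hAt hr hro
    hBr) (Set.toFinite _)).trans ?_
  refine (Set.ncard_union_le _ _).trans (Nat.add_le_add (ncard_biUnion_le _ _) ?_)
  refine (Set.ncard_union_le _ _).trans (Nat.add_le_add (ncard_biUnion_le _ _) ?_)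
  refine (Set.ncard_union_le _ _).trans (Nat.add_le_add le_rfl ?_)
  refine (Set.ncard_union_le _ _).trans (Nat.add_le_add le_rfl ?_)
  exact (Set.ncard_union_le _ _).trans (Nat.add_le_add (EvG'_le A B r) le_rfl)

end Pool.Agent.UD
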