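import Pool.Agent.UD.Main2

/-!
# MP_65787c_al : assembly, part 3 (bounds for `m ≥ 11`)
-/

open Module

namespace Pool.Agent.UD

open Pool.Agent.UD.Num

variable {F V : Type*} [Field F] [AddCommGroup V] [Module F V] [Finite F] [Finite V]
variable {ω : LinearMap.BilinForm F V}


lemma prod_eq (x m : ℕ) : ∏ i ∈ Finset.range m, (x ^ (2 * (i + 1)) - x ^ (2 * i + 1)) =
    x ^ (m ^ 2) * (x - 1) ^ m := by
  induction m with
  | zero => simp
  | succ n ih =>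
    rw [Finset.prod_range_succ, ih]
    have h1 : x ^ (2 * (n + 1)) - x ^ (2 * n + 1) = x ^ (2 * n + 1) * (x - 1) := by
      rw [Nat.mul_sub, mul_one, ← pow_succ]
      rfl
    rw [h1, show (n + 1) ^ 2 = n ^ 2 + (2 * n + 1) by ring, pow_add, pow_succ (x - 1)]
    ring

lemma card_Y_ge' (hω : IsSymp ω) {m : ℕ} (hm : finrank F V = 2 * m) (δ : F) :
    (Nat.card F) ^ (m ^ 2) * (Nat.card F - 1) ^ m ≤ Nat.card (Y ω δ) := by
  rw [← prod_eq]
  exact card_Y_ge hω hm δ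

lemma card_Y_ge2 (hω : IsSymp ω) {m : ℕ} (hm : finrank F V = 2 * m) (hq : 3 ≤ (Nat.card F)) (δ : F) :
    2 ^ m * (Nat.card F) ^ (m ^ 2) ≤ Nat.card (Y ω δ) := by
  refine le_trans ?_ (card_Y_ge' hω hm δ)
  rw [mul_comm]
  gcongr
  omega

lemma ti_bound (hω : IsSymp ω) {m : ℕ} (hm : finrank F V = 2 * m) (hodd : Odd m) (h11 : 11 ≤ m)
    (hq : 3 ≤ (Nat.card F)) {A B : Subalgebra F (Module.End F V)} (hA : IsField A) (hB : IsField B)
    {e₁ e₂ : ℕ} (hA1 : finrank F A = e₁) (hB1 : finrank F B = e₂) (h1 : e₁.Prime) (h2 : e₂.Prime)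
    (d1 : e₁ ∣ 2 * m) (d2 : e₂ ∣ 2 * m) (hne : ¬ (e₁ = 2 ∧ e₂ = 2)) {d : ℕ} (hd : 0 < d)
    (hdm : d ≤ m) : (EvTI ω A B d).ncard * (Nat.card F) ^ m ≤ Nat.card (Sp ω) := by
  by_cases hdiv : finrank F A ∣ d ∧ finrank F B ∣ d
  · rw [hA1, hB1] at hdiv
    obtain ⟨⟨s₁, hs1⟩, ⟨s₂, hs2⟩⟩ := hdiv
    have h := ev_ti hω hm hq A B hA hB h1.two_le h2.two_le hA1 hB1 hs1 hs2
    exact absorb_ti hq h (exp_ti h11 hs1 hs2
      (case_of h11 hodd h1 h2 hs1 hs2 d1 d2 hne hd hdm))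
  · rw [EvTI_empty hA hB hdiv]
    simp

lemma nd_bound (hω : IsSymp ω) {m : ℕ} (hm : finrank F V = 2 * m) (hodd : Odd m) (h11 : 11 ≤ m)
    (hq : 3 ≤ (Nat.card F)) {A B : Subalgebra F (Module.End F V)} (hA : IsField A) (hB : IsField B)
    {e₁ e₂ : ℕ} (hA1 : finrank F A = e₁) (hB1 : finrank F B = e₂) (h1 : e₁.Prime) (h2 : e₂.Prime)
    (d1 : e₁ ∣ 2 * m) (d2 : e₂ ∣ 2 * m) (hne : ¬ (e₁ = 2 ∧ e₂ = 2)) {d : ℕ} (hd : 0 < d)
    (hdm : d ≤ m) : (EvND ω A B d).ncard * (Nat.card F) ^ m ≤ Nat.card (Sp ω) := by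
  by_cases hdiv : finrank F A ∣ d ∧ finrank F B ∣ d
  · rw [hA1, hB1] at hdiv
    obtain ⟨⟨s₁, hs1⟩, ⟨s₂, hs2⟩⟩ := hdiv
    have h := ev_nd hω hm hq A B hA hB h1.two_le h2.two_le hA1 hB1 hs1 hs2
    exact absorb_ti hq h (exp_nd h11
      (case_of h11 hodd h1 h2 hs1 hs2 d1 d2 hne hd hdm))
  · rw [EvND_empty hA hB hdiv]
    simp

lemma sum_bound {m N G : ℕ} {f : ℕ → ℕ} (h : ∀ i < m, f i * N ≤ G) :
    (∑ i ∈ Finset.range m, f i) * N ≤ m * G := by
  rw [Finset.sum_mul]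
  calc ∑ i ∈ Finset.range m, f i * N ≤ ∑ i ∈ Finset.range m, G :=
        Finset.sum_le_sum fun i hi => h i (Finset.mem_range.mp hi)
    _ = m * G := by simp

/-- bound for the pairs (2, r), `m ≥ 11` -/
lemma two_bound (hω : IsSymp ω) (h2 : (2 : F) ≠ 0) {m : ℕ} (hm : finrank F V = 2 * m)
    (hodd : Odd m) (h11 : 11 ≤ m) (hq : 3 ≤ (Nat.card F)) {ν : F} (hν : ¬ IsSquare ν)
    {J : Module.End F V} (hJ : J ∈ Y ω ν)
    {A : Subalgebra F (Module.End F V)} (hJA : J ∈ A) (hAf : IsField A) (hA2 : finrank F A = 2)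
    (hA : ∀ a ∈ A, ∃ b c : F, ∀ x, a x = b • x + c • J x)
    (B : Subalgebra F (Module.End F V)) (hB : IsField B) (hsb : ∀ b ∈ B, IsSA ω b)
    {r l : ℕ} (hr : r.Prime) (hro : Odd r) (hBr : finrank F B = r) (hl : m = r * l) :
    (Bad ω A B).ncard * (Nat.card F) ^ m ≤ (2 * m + 4) * Nat.card (Sp ω) := by
  have hne : ¬ (2 = 2 ∧ r = 2) := by
    rintro ⟨-, rfl⟩
    exact absurd hro (by decide)
  have hdr : r ∣ 2 * m := by rw [hl]; exact ⟨2 * l, by ring⟩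
  have hY := card_Y_ge2 hω hm hq ν
  have e1 := sum_bound (m := m) (N := (Nat.card F) ^ m) (G := Nat.card (Sp ω))
    (f := fun i => (EvTI ω A B (i + 1)).ncard)
    (fun i hi => ti_bound hω hm hodd h11 hq hAf hB hA2 hBr Nat.prime_two hr ⟨m, rfl⟩ hdr hne
      (Nat.succ_pos i) hi)
  have e2 := sum_bound (m := m) (N := (Nat.card F) ^ m) (G := Nat.card (Sp ω))
    (f := fun i => (EvND ω A B (i + 1)).ncard)
    (fun i hi => nd_bound hω hm hodd h11 hq hAf hB hA2 hBr Nat.prime_two hr ⟨m, rfl⟩ hdr hne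
      (Nat.succ_pos i) hi)
  have e3 : (EvC2 ω ν J B).ncard * (Nat.card F) ^ m ≤ Nat.card (Sp ω) :=
    num_comm_two hq h11 hodd hY hr hro hl
      (ev_comm_two hω h2 hq hν hm hJ B hB hsb hro hBr hl)
  have e4 : (EvN ω J B).ncard * (Nat.card F) ^ m ≤ Nat.card (Sp ω) := by
    have hr3 : 3 ≤ r := by
      have := hr.two_le
      obtain ⟨j, hj⟩ := hro
      omega
    exact num_anti hq h11 hodd hY hr hro hl
      (ev_anti hω h2 hq hν hm hJ B hB hsb hro hr3 hBr hl)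
  have e5 : (EvG2 ω J B r).ncard * (Nat.card F) ^ m ≤ Nat.card (Sp ω) := by
    rcases (div_cases h11 hodd hr hro hl).2 with h | ⟨h, h', -⟩
    · have hr5 : 5 ≤ r := by
        by_contra hlt
        have hr3 : r = 3 := by
          have := hr.two_le
          obtain ⟨j, hj⟩ := hro
          omega
        subst hr3
        omega
      exact num_gal_two hq h11 hY hr5 hl (ev_gal_two hω h2 hq hν hm hJ B hB hsb hr hro hBr hl)
    · subst h
      exact num_gal_three hq h11 hodd hY hl (ev_gal_three hω h2 hq hν hm hJ B hB hsb hBr hl)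
  have h := ncard_two_le hω h2 hm hodd hν hJ hJA hA B hB hsb hr hro hBr
  have h' := Nat.mul_le_mul_right ((Nat.card F) ^ m) h
  simp only [add_mul] at h'
  nlinarith

/-- bound for the odd pairs, `m ≥ 11` -/
lemma odd_bound (hω : IsSymp ω) (h2 : (2 : F) ≠ 0) {m : ℕ} (hm : finrank F V = 2 * m)
    (hodd : Odd m) (h11 : 11 ≤ m) (hq : 3 ≤ (Nat.card F)) {ν : F} (hν : ¬ IsSquare ν)
    (A B : Subalgebra F (Module.End F V)) (hA : IsField A) (hsa : ∀ a ∈ A, IsSA ω a)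
    (hB : IsField B) (hsb : ∀ b ∈ B, IsSA ω b)
    {t r k l : ℕ} (ht : t.Prime) (hto : Odd t) (hAt : finrank F A = t) (hk : m = t * k)
    (hr : r.Prime) (hro : Odd r) (hBr : finrank F B = r) (hl : m = r * l) :
    (Bad ω A B).ncard * (Nat.card F) ^ m ≤ (2 * m + 4) * Nat.card (Sp ω) := by
  have hne : ¬ (t = 2 ∧ r = 2) := by
    rintro ⟨-, rfl⟩
    exact absurd hro (by decide)
  have hdr : r ∣ 2 * m := by rw [hl]; exact ⟨2 * l, by ring⟩
  have hdt : t ∣ 2 * m := by rw [hk]; exact ⟨2 * k, by ring⟩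
  have hY := card_Y_ge2 hω hm hq ν
  have hG := card_Sp_ge hω hm hq
  have e1 := sum_bound (m := m) (N := (Nat.card F) ^ m) (G := Nat.card (Sp ω))
    (f := fun i => (EvTI ω A B (i + 1)).ncard)
    (fun i hi => ti_bound hω hm hodd h11 hq hA hB hAt hBr ht hr hdt hdr hne
      (Nat.succ_pos i) hi)
  have e2 := sum_bound (m := m) (N := (Nat.card F) ^ m) (G := Nat.card (Sp ω))
    (f := fun i => (EvND ω A B (i + 1)).ncard)
    (fun i hi => nd_bound hω hm hodd h11 hq hA hB hAt hBr ht hr hdt hdr hne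
      (Nat.succ_pos i) hi)
  have e3 : (EvC ω ν A B).ncard * (Nat.card F) ^ m ≤ Nat.card (Sp ω) :=
    num_comm_odd hq h11 hodd hY ht hto hk hr hro hl
      (ev_comm_odd hω h2 hν hm A B hA hsa hB hsb hto hAt hk hro hBr hl)
  have e4 : (EvG ω A B t).ncard * (Nat.card F) ^ m ≤ Nat.card (Sp ω) :=
    num_gal_odd hq h11 hodd hG ht hto hk hr hro hl
      (ev_gal_odd hω h2 hq hm A B hA hsa hB hsb ht hto hAt hk hBr hl)
  have e5 : (EvG ω B A r).ncard * (Nat.card F) ^ m ≤ Nat.card (Sp ω) :=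
    num_gal_odd hq h11 hodd hG hr hro hl ht hto hk
      (ev_gal_odd hω h2 hq hm B A hB hsb hA hsa hr hro hBr hl hAt hk)
  have e6 : {g | t = r ∧ g ∈ EvGG ω A B t}.ncard * (Nat.card F) ^ m ≤ Nat.card (Sp ω) := by
    by_cases htr : t = r
    · subst htr
      have : {g | t = t ∧ g ∈ EvGG ω A B t} = EvGG ω A B t := by
        ext g; simp
      rw [this]
      exact num_gal_gal hq h11 hodd hG ht hto hk
        (ev_gal_gal hω h2 hq hm A B hA hsa hB hsb ht hAt hBr hk)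
    · have : {g | t = r ∧ g ∈ EvGG ω A B t} = ∅ := by
        ext g; simp [htr]
      rw [this]
      simp
  have h := ncard_odd_le hω h2 hm hodd hν A B hA hsa hB hsb ht hto hAt hr hro hBr
  have h' := Nat.mul_le_mul_right ((Nat.card F) ^ m) h
  simp only [add_mul] at h'
  nlinarith

end Pool.Agent.UD
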