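import Pool.Agent.UD.Main3

/-!
# MP_65787c_al : assembly, part 4 (the good set, conclusion for `m ≥ 11`)
-/

open Module

namespace Pool.Agent.UD

open Pool.Agent.UD.Num

variable {F V : Type*} [Field F] [AddCommGroup V] [Module F V] [Finite F] [Finite V]
variable {ω : LinearMap.BilinForm F V}


/-- `⊥` is a field -/
lemma isField_bot [Nontrivial V] : IsField (⊥ : Subalgebra F (Module.End F V)) := by
  have e := Algebra.botEquivOfInjective (R := F) (A := Module.End F V)
    (FaithfulSMul.algebraMap_injective F (Module.End F V))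
  exact MulEquiv.isField (Field.toIsField F) e.toMulEquiv

lemma card_Y_le (hω : IsSymp ω) {m : ℕ} (hm : finrank F V = 2 * m) (hm0 : 0 < m) {δ : F}
    (hδ : ¬ IsSquare δ) : Nat.card (Y ω δ) ≤ (Nat.card F) ^ (m * (m + 1)) := by
  have : Nontrivial V := Module.nontrivial_of_finrank_pos (R := F) (by omega)
  have h := card_Y_comm_le hω hδ ⊥ isField_bot (t := 1) (k := m) (by
    intro a ha
    obtain ⟨c, rfl⟩ := Algebra.mem_bot.mp ha
    intro x y
    simp [Module.algebraMap_end_apply]) (by decide) Subalgebra.finrank_bot (by omega)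
  have e : Nat.card {J : Y ω δ // ∀ a ∈ (⊥ : Subalgebra F (Module.End F V)),
      ∀ x, J.1 (a x) = a (J.1 x)} = Nat.card (Y ω δ) := by
    refine Nat.card_congr (Equiv.subtypeUnivEquiv ?_)
    intro J a ha x
    obtain ⟨c, rfl⟩ := Algebra.mem_bot.mp ha
    simp [Module.algebraMap_end_apply]
  rw [e] at h
  simpa using h

/-- lower bound for the good set in terms of the number of parameters -/
lemma good_bound (hω : IsSymp ω) (h2 : (2 : F) ≠ 0) {m : ℕ} (hq : 3 ≤ (Nat.card F))
    (hm : finrank F V = 2 * m) (hodd : Odd m) (hm3 : 3 ≤ m)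
    {L : Subalgebra F (Module.End F V)} (hL : IsField L)
    (hLd : finrank F L = 2 * m) (hst : StarStable ω L) {ν : F} (hν : ¬ IsSquare ν)
    {J : Module.End F V} (hJL : J ∈ L) (hJ : J ∈ Y ω ν) {T : ℕ}
    (hT : T ≤ ((Nat.card F) ^ m - 3) / 2 - ∑ t ∈ m.primeFactors, (Nat.card F) ^ (m / t)) :
    7 * T * Nat.card (Sp ω) ≤ 16 * m * (Good ω J).ncard * (Nat.card F) ^ m := by
  have h1 := good_card hω h2 hm hodd hm3 hL hLd hst hν hJL hJ
  have h2' := card_Y_le hω hm (by omega) hν
  have h3 := card_Sp_ge hω hm hq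
  have h0 : Nat.card (Good ω J) = (Good ω J).ncard := rfl
  rw [h0] at h1
  set G := Nat.card (Sp ω) with hG
  set g := (Good ω J).ncard with hg
  set y := Nat.card (Y ω ν) with hy
  have h4 : T * G ^ 2 ≤ 2 * m * g * ((Nat.card F) ^ (m * (m + 1))) ^ 2 :=
    (Nat.mul_le_mul_right _ hT).trans (h1.trans (by gcongr))
  have h5 : (Nat.card F) ^ (2 * m ^ 2 + m) * (7 * T * G) ≤ (Nat.card F) ^ (2 * m ^ 2 + m) * (16 * m * g * (Nat.card F) ^ m) := by
    calc (Nat.card F) ^ (2 * m ^ 2 + m) * (7 * T * G) = (7 * (Nat.card F) ^ (2 * m ^ 2 + m)) * (T * G) := by ring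
      _ ≤ (8 * G) * (T * G) := by gcongr
      _ = 8 * (T * G ^ 2) := by ring
      _ ≤ 8 * (2 * m * g * ((Nat.card F) ^ (m * (m + 1))) ^ 2) := by gcongr
      _ = (Nat.card F) ^ (2 * m ^ 2 + m) * (16 * m * g * (Nat.card F) ^ m) := by
        rw [← pow_mul, show m * (m + 1) * 2 = (2 * m ^ 2 + m) + m by ring, pow_add]
        ring
  exact Nat.le_of_mul_le_mul_left h5 (by positivity)

/-! ### primes -/

lemma three_pow_card_le {m : ℕ} (hodd : Odd m) : 3 ^ m.primeFactors.card ≤ m := by
  have hm0 : 0 < m := hodd.pos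
  have h1 : 3 ^ m.primeFactors.card ≤ ∏ p ∈ m.primeFactors, p := by
    apply Finset.pow_card_le_prod
    intro p hp
    have hpp := Nat.prime_of_mem_primeFactors hp
    have hpd := Nat.dvd_of_mem_primeFactors hp
    have := hpp.two_le
    rcases Nat.lt_or_ge p 3 with h | h
    · have : p = 2 := by omega
      subst this
      obtain ⟨j, hj⟩ := hodd
      obtain ⟨i, hi⟩ := hpd
      omega
    · exact h
  exact h1.trans (Nat.le_of_dvd hm0 (Nat.prod_primeFactors_dvd m))

lemma sq_le_three_pow (c : ℕ) : 3 * (c + 1) ^ 2 ≤ 4 * 3 ^ c := by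
  induction c with
  | zero => norm_num
  | succ n ih =>
    rcases Nat.eq_zero_or_pos n with rfl | hn
    · norm_num
    · calc 3 * (n + 1 + 1) ^ 2 ≤ 3 * (3 * (n + 1) ^ 2) := by nlinarith
        _ ≤ 3 * (4 * 3 ^ n) := by gcongr
        _ = 4 * 3 ^ (n + 1) := by rw [pow_succ]; ring

lemma primeFactors_two_mul {m : ℕ} (hodd : Odd m) :
    (2 * m).primeFactors = insert 2 m.primeFactors := by
  have hm0 : m ≠ 0 := hodd.pos.ne'
  rw [Nat.primeFactors_mul (by norm_num) hm0, Nat.prime_two.primeFactors]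
  rfl

lemma card_pairs {m : ℕ} (hodd : Odd m) : 3 * (2 * m).primeFactors.card ^ 2 ≤ 4 * m := by
  rw [primeFactors_two_mul hodd]
  have h2 : 2 ∉ m.primeFactors := by
    intro h
    have hd := Nat.dvd_of_mem_primeFactors h
    obtain ⟨j, hj⟩ := hodd
    obtain ⟨i, hi⟩ := hd
    omega
  rw [Finset.card_insert_of_notMem h2]
  calc 3 * (m.primeFactors.card + 1) ^ 2 ≤ 4 * 3 ^ m.primeFactors.card := sq_le_three_pow _
    _ ≤ 4 * m := by have := three_pow_card_le hodd; omega

/-- number of parameters, `m ≥ 11` -/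
lemma param_bound {x m : ℕ} (hx : 3 ≤ x) (h11 : 11 ≤ m) (hodd : Odd m) :
    x ^ m ≤ 4 * ((x ^ m - 3) / 2 - ∑ t ∈ m.primeFactors, x ^ (m / t)) := by
  have h1 : ∀ t ∈ m.primeFactors, 8 * m * x ^ (m / t) ≤ x ^ m := by
    intro t ht
    have htp := Nat.prime_of_mem_primeFactors ht
    have htd := Nat.dvd_of_mem_primeFactors ht
    have ht3 : 3 ≤ t := by
      have := htp.two_le
      rcases Nat.lt_or_ge t 3 with h | h
      · have : t = 2 := by omega
        subst this
        obtain ⟨j, hj⟩ := hodd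
        obtain ⟨i, hi⟩ := htd
        omega
      · exact h
    have h3 : m / t ≤ m / 3 := Nat.div_le_div_left ht3 (by norm_num)
    have h4 : m / 3 + (m - m / 3) = m := by
      have := Nat.div_le_self m 3
      omega
    have h5 : 8 * m ≤ x ^ (m - m / 3) := by
      have h6 : 8 * m ≤ 3 ^ (m - m / 3) := by
        have h7 : ∀ n, 4 ≤ n → 8 * (3 * n + 2) ≤ 3 ^ (2 * n) := by
          intro n hn
          induction n, hn using Nat.le_induction with
          | base => norm_num
          | succ k hk ih =>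
            have : 3 ^ (2 * (k + 1)) = 9 * 3 ^ (2 * k) := by
              rw [show 2 * (k + 1) = 2 * k + 2 by ring, pow_add]; ring
            rw [this]
            omega
        rcases Nat.lt_or_ge m 12 with h | h
        · have : m = 11 := by omega
          subst this
          norm_num
        · have h8 := h7 (m / 3) (by omega)
          calc 8 * m ≤ 8 * (3 * (m / 3) + 2) := by omega
            _ ≤ 3 ^ (2 * (m / 3)) := h8
            _ ≤ 3 ^ (m - m / 3) := Nat.pow_le_pow_right (by norm_num) (by omega)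
      exact h6.trans (Nat.pow_le_pow_left hx _)
    calc 8 * m * x ^ (m / t) ≤ x ^ (m - m / 3) * x ^ (m / 3) :=
          Nat.mul_le_mul h5 (Nat.pow_le_pow_right (by omega) h3)
      _ = x ^ m := by rw [← pow_add, add_comm, h4]
  have h2 : 8 * m * ∑ t ∈ m.primeFactors, x ^ (m / t) ≤ m * x ^ m := by
    rw [Finset.mul_sum]
    calc ∑ t ∈ m.primeFactors, 8 * m * x ^ (m / t) ≤ ∑ t ∈ m.primeFactors, x ^ m :=
          Finset.sum_le_sum h1
      _ = m.primeFactors.card * x ^ m := by simp
      _ ≤ m * x ^ m := by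
        gcongr
        exact (Nat.lt_pow_self (by norm_num : 1 < 3)).le.trans (three_pow_card_le hodd)
  have h3 : 8 * ∑ t ∈ m.primeFactors, x ^ (m / t) ≤ x ^ m := by
    have : m * (8 * ∑ t ∈ m.primeFactors, x ^ (m / t)) ≤ m * x ^ m := by
      calc _ = 8 * m * ∑ t ∈ m.primeFactors, x ^ (m / t) := by ring
        _ ≤ _ := h2
    exact Nat.le_of_mul_le_mul_left this (by omega)
  have h4 : 32 ≤ x ^ m := by
    calc 32 ≤ 3 ^ 11 := by norm_num
      _ ≤ x ^ 11 := Nat.pow_le_pow_left hx _
      _ ≤ x ^ m := Nat.pow_le_pow_right (by omega) h11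
  omega

lemma final_num {m : ℕ} (h11 : 11 ≤ m) : 512 * m ^ 2 * (m + 2) < 21 * 3 ^ m := by
  induction m, h11 using Nat.le_induction with
  | base => norm_num
  | succ n hn ih =>
    calc 512 * (n + 1) ^ 2 * (n + 1 + 2) ≤ 3 * (512 * n ^ 2 * (n + 2)) := by nlinarith
      _ < 3 * (21 * 3 ^ n) := by omega
      _ = 21 * 3 ^ (n + 1) := by rw [pow_succ]; ring

end Pool.Agent.UD
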