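import Pool.Agent.UD.Main4

/-!
# MP_65787c_al : assembly, part 5 (covering of the good set; conclusion for `m ≥ 11`)
-/

open Module

namespace Pool.Agent.UD

open Pool.Agent.UD.Num

variable {F V : Type*} [Field F] [AddCommGroup V] [Module F V] [Finite F] [Finite V]
variable {ω : LinearMap.BilinForm F V}


/-- the set of bad elements for the pair of degrees `(a, b)` -/
def BadDeg (ω : LinearMap.BilinForm F V) (L : Subalgebra F (Module.End F V)) (p : ℕ × ℕ) :
    Set (Sp ω) :=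
  {g | ∃ A B : Subalgebra F (Module.End F V), A ≤ L ∧ B ≤ L ∧ finrank F A = p.1 ∧
    finrank F B = p.2 ∧ g ∈ Bad ω A B}

/-- `BadDeg` is either empty or one of the sets `Bad ω A B` -/
lemma badDeg_cases {L : Subalgebra F (Module.End F V)} (hL : IsField L) (p : ℕ × ℕ) :
    (BadDeg ω L p = ∅) ∨ ∃ A B : Subalgebra F (Module.End F V), A ≤ L ∧ B ≤ L ∧
      finrank F A = p.1 ∧ finrank F B = p.2 ∧ BadDeg ω L p = Bad ω A B := by
  by_cases h : ∃ A B : Subalgebra F (Module.End F V), A ≤ L ∧ B ≤ L ∧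
      finrank F A = p.1 ∧ finrank F B = p.2
  · right
    obtain ⟨A, B, hA, hB, h1, h2⟩ := h
    refine ⟨A, B, hA, hB, h1, h2, ?_⟩
    apply Set.eq_of_subset_of_subset
    · rintro g ⟨A', B', hA', hB', h1', h2', hg⟩
      have e1 : A' = A := eq_of_finrank hL hA' hA (by rw [h1, h1'])
      have e2 : B' = B := eq_of_finrank hL hB' hB (by rw [h2, h2'])
      rw [e1, e2] at hg
      exact hg
    · intro g hg
      exact ⟨A, B, hA, hB, h1, h2, hg⟩
  · left
    apply Set.eq_empty_of_forall_notMem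
    rintro g ⟨A, B, hA, hB, h1, h2, -⟩
    exact h ⟨A, B, hA, hB, h1, h2⟩

/-- if no `g` works, the good set is covered by the bad sets for the pairs of degrees -/
lemma good_subset (hω : IsSymp ω) (h2 : (2 : F) ≠ 0) {m : ℕ} (hm : finrank F V = 2 * m)
    (hm0 : 0 < m) {L : Subalgebra F (Module.End F V)} (hL : IsField L)
    (hLd : finrank F L = 2 * m) {ν : F} (hν : ¬ IsSquare ν)
    {J : Module.End F V} (hJL : J ∈ L) (hJ : J ∈ Y ω ν)
    (hall : ∀ g : Sp ω, ∃ A B : Subalgebra F (Module.End F V), A ≤ L ∧ B ≤ L ∧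
      (finrank F A).Prime ∧ (finrank F B).Prime ∧ g ∈ Bad ω A B) :
    Good ω J ⊆ ⋃ p ∈ ((2 * m).primeFactors ×ˢ (2 * m).primeFactors).erase (2, 2),
      BadDeg ω L p := by
  intro g hg
  obtain ⟨A, B, hA, hB, h1, h2', hgb⟩ := hall g
  simp only [Set.mem_iUnion]
  refine ⟨(finrank F A, finrank F B), ?_, A, B, hA, hB, rfl, rfl, hgb⟩
  rw [Finset.mem_erase, Finset.mem_product]
  refine ⟨?_, ?_, ?_⟩
  · intro h
    rw [Prod.mk.injEq] at h
    obtain ⟨hJA, hA'⟩ := quad_sub hL hν hJL hJ hA h.1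
    obtain ⟨hJB, hB'⟩ := quad_sub hL hν hJL hJ hB h.2
    exact not_good hω h2 (by omega) hν hJ hJA hJB hA' hB' hgb hg
  · rw [Nat.mem_primeFactors]
    refine ⟨h1, ?_, by omega⟩
    rw [← hLd]
    exact finrank_dvd hL hA
  · rw [Nat.mem_primeFactors]
    refine ⟨h2', ?_, by omega⟩
    rw [← hLd]
    exact finrank_dvd hL hB

lemma odd_of_prime_dvd {m p : ℕ} (hp : p.Prime) (hd : p ∣ 2 * m) (h2 : p ≠ 2) :
    Odd p ∧ ∃ k, m = p * k := by
  have hodd := hp.odd_of_ne_two h2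
  refine ⟨hodd, ?_⟩
  have h : p ∣ m := by
    refine (Nat.Coprime.dvd_of_dvd_mul_left ?_ hd)
    exact (Nat.coprime_comm.mp (Nat.coprime_two_left.mpr hodd))
  obtain ⟨k, hk⟩ := h
  exact ⟨k, hk⟩

/-- bound for one pair of degrees, `m ≥ 11` -/
lemma pair_bound (hω : IsSymp ω) (h2 : (2 : F) ≠ 0) {m : ℕ} (hm : finrank F V = 2 * m)
    (hodd : Odd m) (h11 : 11 ≤ m) (hq : 3 ≤ (Nat.card F)) {L : Subalgebra F (Module.End F V)} (hL : IsField L)
    (hst : StarStable ω L) {ν : F} (hν : ¬ IsSquare ν)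
    {J : Module.End F V} (hJL : J ∈ L) (hJ : J ∈ Y ω ν) {p : ℕ × ℕ}
    (hp : p ∈ ((2 * m).primeFactors ×ˢ (2 * m).primeFactors).erase (2, 2)) :
    (BadDeg ω L p).ncard * (Nat.card F) ^ m ≤ (2 * m + 4) * Nat.card (Sp ω) := by
  rw [Finset.mem_erase, Finset.mem_product, Nat.mem_primeFactors, Nat.mem_primeFactors] at hp
  obtain ⟨hne, ⟨p1, d1, -⟩, ⟨p2, d2, -⟩⟩ := hp
  rcases badDeg_cases (ω := ω) hL p with h | ⟨A, B, hA, hB, hAp, hBp, h⟩
  · rw [h]; simp
  rw [h]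
  have hAf := isField_of_le hL hA
  have hBf := isField_of_le hL hB
  by_cases c1 : p.1 = 2
  · have c2 : p.2 ≠ 2 := fun h => hne (Prod.ext c1 h)
    obtain ⟨hr, l, hl⟩ := odd_of_prime_dvd p2 d2 c2
    obtain ⟨hJA, hA'⟩ := quad_sub hL hν hJL hJ hA (hAp.trans c1)
    exact two_bound hω h2 hm hodd h11 hq hν hJ hJA hAf (hAp.trans c1) hA' B hBf
      (odd_sub_SA hω hL hst hB (by rw [hBp]; exact hr)) p2 hr hBp hl
  · obtain ⟨ht, k, hk⟩ := odd_of_prime_dvd p1 d1 c1
    by_cases c2 : p.2 = 2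
    · obtain ⟨hJB, hB'⟩ := quad_sub hL hν hJL hJ hB (hBp.trans c2)
      refine (Nat.mul_le_mul_right _ (Bad_symm A B)).trans ?_
      exact two_bound hω h2 hm hodd h11 hq hν hJ hJB hBf (hBp.trans c2) hB' A hAf
        (odd_sub_SA hω hL hst hA (by rw [hAp]; exact ht)) p1 ht hAp hk
    · obtain ⟨hr, l, hl⟩ := odd_of_prime_dvd p2 d2 c2
      exact odd_bound hω h2 hm hodd h11 hq hν A B hAf
        (odd_sub_SA hω hL hst hA (by rw [hAp]; exact ht)) hBf
        (odd_sub_SA hω hL hst hB (by rw [hBp]; exact hr)) p1 ht hAp hk p2 hr hBp hl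

/-- conclusion for `m ≥ 11` -/
theorem main_large (hω : IsSymp ω) (h2 : (2 : F) ≠ 0) {m : ℕ} (hm : finrank F V = 2 * m)
    (hodd : Odd m) (h11 : 11 ≤ m) (hq : 3 ≤ (Nat.card F)) {L : Subalgebra F (Module.End F V)}
    (hL : IsField L) (hLd : finrank F L = 2 * m) (hst : StarStable ω L) {ν : F}
    (hν : ¬ IsSquare ν) {J : Module.End F V} (hJL : J ∈ L) (hJ : J ∈ Y ω ν)
    (hall : ∀ g : Sp ω, ∃ A B : Subalgebra F (Module.End F V), A ≤ L ∧ B ≤ L ∧
      (finrank F A).Prime ∧ (finrank F B).Prime ∧ g ∈ Bad ω A B) : False := by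
  set P := ((2 * m).primeFactors ×ˢ (2 * m).primeFactors).erase (2, 2) with hP
  set G := Nat.card (Sp ω) with hG
  have hG0 : 0 < G := Nat.card_pos
  have h1 : (Good ω J).ncard ≤ ∑ p ∈ P, (BadDeg ω L p).ncard :=
    (Set.ncard_le_ncard (good_subset hω h2 hm (by omega) hL hLd hν hJL hJ hall)
      (Set.toFinite _)).trans (ncard_biUnion_le _ _)
  have h3 : (Good ω J).ncard * (Nat.card F) ^ m ≤ P.card * ((2 * m + 4) * G) := by
    calc (Good ω J).ncard * (Nat.card F) ^ m ≤ (∑ p ∈ P, (BadDeg ω L p).ncard) * (Nat.card F) ^ m := by gcongr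
      _ = ∑ p ∈ P, (BadDeg ω L p).ncard * (Nat.card F) ^ m := Finset.sum_mul _ _ _
      _ ≤ ∑ p ∈ P, (2 * m + 4) * G := Finset.sum_le_sum fun p hp =>
          pair_bound hω h2 hm hodd h11 hq hL hst hν hJL hJ hp
      _ = _ := by simp
  have h4 : 3 * P.card ≤ 4 * m := by
    have : P.card ≤ (2 * m).primeFactors.card ^ 2 := by
      refine (Finset.card_le_card (Finset.erase_subset _ _)).trans ?_
      rw [Finset.card_product, sq]
    have h5 := card_pairs hodd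
    omega
  have h5 := good_bound hω h2 hq hm hodd (by omega) hL hLd hst hν hJL hJ
    (T := ((Nat.card F) ^ m - 3) / 2 - ∑ t ∈ m.primeFactors, (Nat.card F) ^ (m / t)) le_rfl
  set T := ((Nat.card F) ^ m - 3) / 2 - ∑ t ∈ m.primeFactors, (Nat.card F) ^ (m / t) with hT
  have h6 : (Nat.card F) ^ m ≤ 4 * T := param_bound hq h11 hodd
  -- combine
  have h7 : G * (21 * (Nat.card F) ^ m) ≤ G * (512 * m ^ 2 * (m + 2)) := by
    calc G * (21 * (Nat.card F) ^ m) ≤ G * (21 * (4 * T)) := by gcongr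
      _ = 12 * (7 * T * G) := by ring
      _ ≤ 12 * (16 * m * (Good ω J).ncard * (Nat.card F) ^ m) := by gcongr
      _ = 192 * m * ((Good ω J).ncard * (Nat.card F) ^ m) := by ring
      _ ≤ 192 * m * (P.card * ((2 * m + 4) * G)) := by gcongr
      _ = 64 * m * ((2 * m + 4) * G) * (3 * P.card) := by ring
      _ ≤ 64 * m * ((2 * m + 4) * G) * (4 * m) := by gcongr
      _ = G * (512 * m ^ 2 * (m + 2)) := by ring
  have h8 := Nat.le_of_mul_le_mul_left h7 hG0
  have h9 := final_num h11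
  have h10 : 21 * 3 ^ m ≤ 21 * (Nat.card F) ^ m := by gcongr
  omega

end Pool.Agent.UD
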