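import Pool.Agent.UD.Main5

/-!
# MP_65787c_al : assembly, part 6 (the cases `m = 5, 7, 9`)
-/

open Module

namespace Pool.Agent.UD

open Pool.Agent.UD.Num

variable {F V : Type*} [Field F] [AddCommGroup V] [Module F V] [Finite F] [Finite V]
variable {ω : LinearMap.BilinForm F V}


lemma small1 {c Y G x x₀ m a b e K K' N X D : ℕ} (hx : x₀ ≤ x) (hx0 : 0 < x₀) (hD : 0 < D)
    (hK : 0 < K) (hY : x ^ (m ^ 2) * D ≤ Y) (h : K * c * Y * x ^ b ≤ K' * G * x ^ a)
    (he : a + e ≤ m ^ 2 + b) (hN : N * K' ≤ X * (K * D * x₀ ^ e)) : N * c ≤ X * G := by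
  have hxp : 0 < x := lt_of_lt_of_le hx0 hx
  have h1 : x ^ a * (K * c * D * x₀ ^ e) ≤ x ^ a * (K' * G) := by
    calc x ^ a * (K * c * D * x₀ ^ e) ≤ x ^ a * (K * c * D * x ^ e) := by gcongr
      _ = K * c * D * x ^ (a + e) := by rw [pow_add]; ring
      _ ≤ K * c * D * x ^ (m ^ 2 + b) := by gcongr
      _ = K * c * (x ^ (m ^ 2) * D) * x ^ b := by rw [pow_add]; ring
      _ ≤ K * c * Y * x ^ b := by gcongr
      _ ≤ K' * G * x ^ a := h
      _ = x ^ a * (K' * G) := by ring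
  have h2 := Nat.le_of_mul_le_mul_left h1 (by positivity)
  have h3 : (K * D * x₀ ^ e) * (N * c) ≤ (K * D * x₀ ^ e) * (X * G) := by
    calc (K * D * x₀ ^ e) * (N * c) = N * (K * c * D * x₀ ^ e) := by ring
      _ ≤ N * (K' * G) := by gcongr
      _ = (N * K') * G := by ring
      _ ≤ (X * (K * D * x₀ ^ e)) * G := by gcongr
      _ = _ := by ring
  exact Nat.le_of_mul_le_mul_left h3 (by positivity)

lemma small2 {c G x x₀ a b e N X : ℕ} (hx : x₀ ≤ x) (hx0 : 0 < x₀)
    (h : 343 * c * x ^ a ≤ 512 * G * x ^ b)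
    (he : b + e ≤ a) (hN : N * 512 ≤ X * (343 * x₀ ^ e)) : N * c ≤ X * G := by
  have hxp : 0 < x := lt_of_lt_of_le hx0 hx
  have h1 : x ^ b * (343 * c * x₀ ^ e) ≤ x ^ b * (512 * G) := by
    calc x ^ b * (343 * c * x₀ ^ e) ≤ x ^ b * (343 * c * x ^ e) := by gcongr
      _ = 343 * c * x ^ (b + e) := by rw [pow_add]; ring
      _ ≤ 343 * c * x ^ a := by gcongr
      _ ≤ 512 * G * x ^ b := h
      _ = x ^ b * (512 * G) := by ring
  have h2 := Nat.le_of_mul_le_mul_left h1 (by positivity)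
  have h3 : (343 * x₀ ^ e) * (N * c) ≤ (343 * x₀ ^ e) * (X * G) := by
    calc (343 * x₀ ^ e) * (N * c) = N * (343 * c * x₀ ^ e) := by ring
      _ ≤ N * (512 * G) := by gcongr
      _ = (N * 512) * G := by ring
      _ ≤ (X * (343 * x₀ ^ e)) * G := by gcongr
      _ = _ := by ring
  exact Nat.le_of_mul_le_mul_left h3 (by positivity)

lemma small3 {c G x x₀ m a b e K K' N X : ℕ} (hx : x₀ ≤ x) (hx0 : 0 < x₀) (hK : 0 < K)
    (hG : 7 * x ^ (2 * m ^ 2 + m) ≤ 8 * G) (h : K * c * x ^ b ≤ K' * x ^ a)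
    (he : a + e ≤ 2 * m ^ 2 + m + b) (hN : N * (8 * K') ≤ X * (7 * K * x₀ ^ e)) :
    N * c ≤ X * G := by
  have hxp : 0 < x := lt_of_lt_of_le hx0 hx
  have h1 : x ^ b * (7 * K * c * x₀ ^ e) ≤ x ^ b * (8 * K' * G) := by
    calc x ^ b * (7 * K * c * x₀ ^ e) ≤ x ^ b * (7 * K * c * x ^ e) := by gcongr
      _ = 7 * (K * c * x ^ b) * x ^ e := by ring
      _ ≤ 7 * (K' * x ^ a) * x ^ e := by gcongr
      _ = 7 * K' * x ^ (a + e) := by rw [pow_add]; ring
      _ ≤ 7 * K' * x ^ (2 * m ^ 2 + m + b) := by gcongr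
      _ = K' * (7 * x ^ (2 * m ^ 2 + m)) * x ^ b := by rw [pow_add _ _ b]; ring
      _ ≤ K' * (8 * G) * x ^ b := by gcongr
      _ = x ^ b * (8 * K' * G) := by ring
  have h2 := Nat.le_of_mul_le_mul_left h1 (by positivity)
  have h3 : (7 * K * x₀ ^ e) * (N * c) ≤ (7 * K * x₀ ^ e) * (X * G) := by
    calc (7 * K * x₀ ^ e) * (N * c) = N * (7 * K * c * x₀ ^ e) := by ring
      _ ≤ N * (8 * K' * G) := by gcongr
      _ = (N * (8 * K')) * G := by ring
      _ ≤ (X * (7 * K * x₀ ^ e)) * G := by gcongr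
      _ = _ := by ring
  exact Nat.le_of_mul_le_mul_left h3 (by positivity)

/-- conclusion in the prime power case from numerical bounds -/
lemma main_pp (hω : IsSymp ω) (h2 : (2 : F) ≠ 0) {m r : ℕ} (hm : finrank F V = 2 * m)
    (hodd : Odd m) (hr : r.Prime) (hmf : m.primeFactors = {r})
    {L : Subalgebra F (Module.End F V)}
    (hL : IsField L) (hLd : finrank F L = 2 * m) {ν : F}
    (hν : ¬ IsSquare ν) {J : Module.End F V} (hJL : J ∈ L) (hJ : J ∈ Y ω ν)
    (hall : ∀ g : Sp ω, ∃ A B : Subalgebra F (Module.End F V), A ≤ L ∧ B ≤ L ∧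
      (finrank F A).Prime ∧ (finrank F B).Prime ∧ g ∈ Bad ω A B) {N X2 X3 : ℕ}
    (hb2 : ∀ A B : Subalgebra F (Module.End F V), A ≤ L → B ≤ L → finrank F A = 2 →
      finrank F B = r → N * (Bad ω A B).ncard ≤ X2 * Nat.card (Sp ω))
    (hb3 : ∀ A B : Subalgebra F (Module.End F V), A ≤ L → B ≤ L → finrank F A = r →
      finrank F B = r → N * (Bad ω A B).ncard ≤ X3 * Nat.card (Sp ω))
    (hgood : (2 * X2 + X3 + 1) * Nat.card (Sp ω) ≤ N * (Good ω J).ncard) : False := by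
  have hm0 : 0 < m := hodd.pos
  set G := Nat.card (Sp ω) with hG
  have hG0 : 0 < G := Nat.card_pos
  have h1 := good_subset hω h2 hm hm0 hL hLd hν hJL hJ hall
  have hr2 : r ≠ 2 := by
    rintro rfl
    have : 2 ∈ m.primeFactors := by rw [hmf]; simp
    have hd := Nat.dvd_of_mem_primeFactors this
    obtain ⟨j, hj⟩ := hodd
    obtain ⟨i, hi⟩ := hd
    omega
  have hsub : Good ω J ⊆ BadDeg ω L (2, r) ∪ (BadDeg ω L (r, 2) ∪ BadDeg ω L (r, r)) := by
    intro g hg
    have h3 := h1 hg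
    simp only [Set.mem_iUnion] at h3
    obtain ⟨p, hp, hgp⟩ := h3
    rw [Finset.mem_erase, Finset.mem_product, primeFactors_two_mul hodd, hmf] at hp
    obtain ⟨hne, hp1, hp2⟩ := hp
    simp only [Finset.mem_insert, Finset.mem_singleton] at hp1 hp2
    obtain ⟨a, b⟩ := p
    simp only at hp1 hp2
    rcases hp1 with rfl | rfl <;> rcases hp2 with rfl | rfl
    · exact absurd rfl hne
    · left; exact hgp
    · right; left; exact hgp
    · right; right; exact hgp
  have e1 : N * (BadDeg ω L (2, r)).ncard ≤ X2 * G := by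
    rcases badDeg_cases (ω := ω) hL (2, r) with h | ⟨A, B, hA, hB, hAp, hBp, h⟩
    · rw [h]; simp
    · rw [h]; exact hb2 A B hA hB hAp hBp
  have e2 : N * (BadDeg ω L (r, 2)).ncard ≤ X2 * G := by
    rcases badDeg_cases (ω := ω) hL (r, 2) with h | ⟨A, B, hA, hB, hAp, hBp, h⟩
    · rw [h]; simp
    · rw [h]
      exact (Nat.mul_le_mul_left _ (Bad_symm A B)).trans (hb2 B A hB hA hBp hAp)
  have e3 : N * (BadDeg ω L (r, r)).ncard ≤ X3 * G := by
    rcases badDeg_cases (ω := ω) hL (r, r) with h | ⟨A, B, hA, hB, hAp, hBp, h⟩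
    · rw [h]; simp
    · rw [h]; exact hb3 A B hA hB hAp hBp
  have e4 : (Good ω J).ncard ≤ (BadDeg ω L (2, r)).ncard + ((BadDeg ω L (r, 2)).ncard +
      (BadDeg ω L (r, r)).ncard) := by
    refine (Set.ncard_le_ncard hsub (Set.toFinite _)).trans ?_
    refine (Set.ncard_union_le _ _).trans (Nat.add_le_add le_rfl ?_)
    exact Set.ncard_union_le _ _
  have e5 := Nat.mul_le_mul_left N e4
  simp only [mul_add] at e5
  nlinarith

section five

lemma bad2_five (hω : IsSymp ω) (h2 : (2 : F) ≠ 0) (hm : finrank F V = 2 * 5) (hq : 5 ≤ (Nat.card F))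
    {ν : F} (hν : ¬ IsSquare ν) {J : Module.End F V} (hJ : J ∈ Y ω ν)
    {A : Subalgebra F (Module.End F V)} (hJA : J ∈ A) (hAf : IsField A) (hA2 : finrank F A = 2)
    (hA : ∀ a ∈ A, ∃ b c : F, ∀ x, a x = b • x + c • J x)
    (B : Subalgebra F (Module.End F V)) (hB : IsField B) (hsb : ∀ b ∈ B, IsSA ω b)
    (hBr : finrank F B = 5) : 10000 * (Bad ω A B).ncard ≤ 29 * Nat.card (Sp ω) := by
  have hodd : Odd 5 := by decide
  have hq3 : 3 ≤ (Nat.card F) := by omega
  have hY : (Nat.card F) ^ (5 ^ 2) * 1024 ≤ Nat.card (Y ω ν) := by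
    refine le_trans ?_ (card_Y_ge' hω hm ν)
    gcongr
    calc 1024 = 4 ^ 5 := by norm_num
      _ ≤ (Nat.card F - 1) ^ 5 := Nat.pow_le_pow_left (by omega) 5
  have hti : ∀ i ∈ Finset.range 5, (EvTI ω A B (i + 1)).ncard = 0 := by
    intro i hi
    have := Finset.mem_range.mp hi
    apply EvTI_empty hAf hB
    rw [hA2, hBr]
    omega
  have hnd : ∀ i ∈ Finset.range 5, (EvND ω A B (i + 1)).ncard = 0 := by
    intro i hi
    have := Finset.mem_range.mp hi
    apply EvND_empty hAf hB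
    rw [hA2, hBr]
    omega
  have e1 : 10000 * (EvC2 ω ν J B).ncard ≤ 1 * Nat.card (Sp ω) := by
    have h := ev_comm_two hω h2 hq3 hν hm hJ B hB hsb hodd hBr (l := 1) (by norm_num)
    refine small1 (x₀ := 5) (m := 5) (a := 22) (b := 0) (e := 3) (K := 7) (K' := 48) (D := 1024)
      hq (by norm_num) (by norm_num) (by norm_num) hY ?_ (by norm_num) (by norm_num)
    calc 7 * (EvC2 ω ν J B).ncard * Nat.card (Y ω ν) * (Nat.card F) ^ 0
        = 7 * (EvC2 ω ν J B).ncard * Nat.card (Y ω ν) := by ring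
      _ ≤ _ := h
      _ ≤ 8 * Nat.card (Sp ω) * (((5 + 1) * (Nat.card F) ^ ((5 ^ 2 - 1) / 2)) * (Nat.card F) ^ (5 * (1 + 1))) := by
        gcongr
        exact sum_le (by omega) hodd
      _ = 48 * Nat.card (Sp ω) * (Nat.card F) ^ 22 := by
        norm_num
        ring
  have e2 : 10000 * (EvN ω J B).ncard ≤ 26 * Nat.card (Sp ω) := by
    have h := ev_anti hω h2 hq3 hν hm hJ B hB hsb hodd (by norm_num) hBr (l := 1) (by norm_num)
    refine small1 (x₀ := 5) (m := 5) (a := 25) (b := 0) (e := 0) (K := 49) (K' := 128)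
      (D := 1024) hq (by norm_num) (by norm_num) (by norm_num) hY ?_ (by norm_num) (by norm_num)
    rw [pow_zero, mul_one]
    exact h
  have e3 : 10000 * (EvG2 ω J B 5).ncard ≤ 2 * Nat.card (Sp ω) := by
    have h := ev_gal_two hω h2 hq3 hν hm hJ B hB hsb (by norm_num) hodd hBr (l := 1)
      (by norm_num)
    exact small1 (x₀ := 5) (m := 5) (e := 2) (D := 1024) hq (by norm_num) (by norm_num)
      (by norm_num) hY h (by norm_num) (by norm_num)
  have h := ncard_two_le hω h2 hm hodd hν hJ hJA hA B hB hsb (by norm_num) hodd hBr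
  rw [Finset.sum_eq_zero hti, Finset.sum_eq_zero hnd] at h
  omega

lemma bad3_five (hω : IsSymp ω) (h2 : (2 : F) ≠ 0) (hm : finrank F V = 2 * 5) (hq : 5 ≤ (Nat.card F))
    {ν : F} (hν : ¬ IsSquare ν)
    (A B : Subalgebra F (Module.End F V)) (hAf : IsField A) (hsa : ∀ a ∈ A, IsSA ω a)
    (hB : IsField B) (hsb : ∀ b ∈ B, IsSA ω b) (hAr : finrank F A = 5)
    (hBr : finrank F B = 5) : 10000 * (Bad ω A B).ncard ≤ 10 * Nat.card (Sp ω) := by
  have hodd : Odd 5 := by decide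
  have h5 : Nat.Prime 5 := by norm_num
  have hq3 : 3 ≤ (Nat.card F) := by omega
  have hG := card_Sp_ge hω hm hq3
  have hY : (Nat.card F) ^ (5 ^ 2) * 1024 ≤ Nat.card (Y ω ν) := by
    refine le_trans ?_ (card_Y_ge' hω hm ν)
    gcongr
    calc 1024 = 4 ^ 5 := by norm_num
      _ ≤ (Nat.card F - 1) ^ 5 := Nat.pow_le_pow_left (by omega) 5
  have hti : ∀ i ∈ Finset.range 4, (EvTI ω A B (i + 1)).ncard = 0 := by
    intro i hi
    have := Finset.mem_range.mp hi
    apply EvTI_empty hAf hB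
    rw [hAr, hBr]
    omega
  have hnd : ∀ i ∈ Finset.range 4, (EvND ω A B (i + 1)).ncard = 0 := by
    intro i hi
    have := Finset.mem_range.mp hi
    apply EvND_empty hAf hB
    rw [hAr, hBr]
    omega
  have e1 : 10000 * (EvTI ω A B (4 + 1)).ncard ≤ 5 * Nat.card (Sp ω) := by
    have h := ev_ti hω hm hq3 A B hAf hB (e₁ := 5) (e₂ := 5) (s₁ := 1) (s₂ := 1) (d := 5)
      (by norm_num) (by norm_num) hAr hBr (by norm_num) (by norm_num)
    exact small2 (x₀ := 5) (e := 5) hq (by norm_num) h (by norm_num) (by norm_num)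
  have e2 : 10000 * (EvND ω A B (4 + 1)).ncard ≤ 1 * Nat.card (Sp ω) := by
    have h := ev_nd hω hm hq3 A B hAf hB (e₁ := 5) (e₂ := 5) (s₁ := 1) (s₂ := 1) (d := 5)
      (by norm_num) (by norm_num) hAr hBr (by norm_num) (by norm_num)
    exact small2 (x₀ := 5) (e := 15) hq (by norm_num) h (by norm_num) (by norm_num)
  have e3 : 10000 * (EvC ω ν A B).ncard ≤ 1 * Nat.card (Sp ω) := by
    have h := ev_comm_odd hω h2 hν hm A B hAf hsa hB hsb hodd hAr (k := 1) (by norm_num) hodd hBr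
      (l := 1) (by norm_num)
    refine small1 (x₀ := 5) (m := 5) (a := 20) (b := 0) (e := 5) (K := 1) (K' := 1) (D := 1024)
      hq (by norm_num) (by norm_num) (by norm_num) hY ?_ (by norm_num) (by norm_num)
    rw [pow_zero, mul_one, one_mul, one_mul]
    exact h
  have e4 : 10000 * (EvG ω A B 5).ncard ≤ 1 * Nat.card (Sp ω) := by
    have h := ev_gal_odd hω h2 hq3 hm A B hAf hsa hB hsb h5 hodd hAr (k := 1) (by norm_num) hBr
      (l := 1) (by norm_num)
    exact small3 (x₀ := 5) (m := 5) (e := 19) hq (by norm_num) (by norm_num) hG h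
      (by norm_num) (by norm_num)
  have e5 : 10000 * (EvG ω B A 5).ncard ≤ 1 * Nat.card (Sp ω) := by
    have h := ev_gal_odd hω h2 hq3 hm B A hB hsb hAf hsa h5 hodd hBr (k := 1) (by norm_num) hAr
      (l := 1) (by norm_num)
    exact small3 (x₀ := 5) (m := 5) (e := 19) hq (by norm_num) (by norm_num) hG h
      (by norm_num) (by norm_num)
  have e6 : 10000 * {g | 5 = 5 ∧ g ∈ EvGG ω A B 5}.ncard ≤ 1 * Nat.card (Sp ω) := by
    have h := ev_gal_gal hω h2 hq3 hm A B hAf hsa hB hsb h5 hAr hBr (k := 1) (by norm_num)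
    have : {g | 5 = 5 ∧ g ∈ EvGG ω A B 5} = EvGG ω A B 5 := by ext g; simp
    rw [this]
    exact small3 (x₀ := 5) (m := 5) (e := 16) hq (by norm_num) (by norm_num) hG h
      (by norm_num) (by norm_num)
  have h := ncard_odd_le hω h2 hm hodd hν A B hAf hsa hB hsb h5 hodd hAr h5 hodd hBr
  rw [Finset.sum_range_succ _ 4, Finset.sum_range_succ _ 4, Finset.sum_eq_zero hti,
    Finset.sum_eq_zero hnd] at h
  omega

theorem main_five (hω : IsSymp ω) (h2 : (2 : F) ≠ 0) (hm : finrank F V = 2 * 5) (hq : 5 ≤ (Nat.card F))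
    {L : Subalgebra F (Module.End F V)}
    (hL : IsField L) (hLd : finrank F L = 2 * 5) (hst : StarStable ω L) {ν : F}
    (hν : ¬ IsSquare ν) {J : Module.End F V} (hJL : J ∈ L) (hJ : J ∈ Y ω ν)
    (hall : ∀ g : Sp ω, ∃ A B : Subalgebra F (Module.End F V), A ≤ L ∧ B ≤ L ∧
      (finrank F A).Prime ∧ (finrank F B).Prime ∧ g ∈ Bad ω A B) : False := by
  have hodd : Odd 5 := by decide
  have h5 : Nat.Prime 5 := by norm_num
  have hmf : Nat.primeFactors 5 = {5} := h5.primeFactors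
  refine main_pp hω h2 hm hodd h5 hmf hL hLd hν hJL hJ hall (N := 10000) (X2 := 29) (X3 := 10)
    ?_ ?_ ?_
  · intro A B hA hB h1 h3
    obtain ⟨hJA, hA'⟩ := quad_sub hL hν hJL hJ hA h1
    exact bad2_five hω h2 hm hq hν hJ hJA (isField_of_le hL hA) h1 hA' B (isField_of_le hL hB)
      (odd_sub_SA hω hL hst hB (by rw [h3]; exact hodd)) h3
  · intro A B hA hB h1 h3
    exact bad3_five hω h2 hm hq hν A B (isField_of_le hL hA)
      (odd_sub_SA hω hL hst hA (by rw [h1]; exact hodd)) (isField_of_le hL hB)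
      (odd_sub_SA hω hL hst hB (by rw [h3]; exact hodd)) h1 h3
  · have hT : (Nat.card F) ^ 5 ≤ 4 * (((Nat.card F) ^ 5 - 3) / 2 - ∑ t ∈ Nat.primeFactors 5, (Nat.card F) ^ (5 / t)) := by
      rw [hmf, Finset.sum_singleton]
      norm_num
      have h1 : 625 * (Nat.card F) ≤ (Nat.card F) ^ 5 := by
        calc 625 * (Nat.card F) = 5 ^ 4 * (Nat.card F) := by norm_num
          _ ≤ (Nat.card F) ^ 4 * (Nat.card F) := by gcongr
          _ = (Nat.card F) ^ 5 := by ring
      omega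
    have h1 := good_bound hω h2 (by omega) hm hodd (by norm_num) hL hLd hst hν hJL hJ
      (T := ((Nat.card F) ^ 5 - 3) / 2 - ∑ t ∈ Nat.primeFactors 5, (Nat.card F) ^ (5 / t)) le_rfl
    set T := ((Nat.card F) ^ 5 - 3) / 2 - ∑ t ∈ Nat.primeFactors 5, (Nat.card F) ^ (5 / t) with hTd
    have hqp : 0 < (Nat.card F) ^ 5 := by positivity
    have h3 : (Nat.card F) ^ 5 * ((2 * 29 + 10 + 1) * Nat.card (Sp ω)) ≤
        (Nat.card F) ^ 5 * (10000 * (Good ω J).ncard) := by
      calc (Nat.card F) ^ 5 * ((2 * 29 + 10 + 1) * Nat.card (Sp ω))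
          ≤ (4 * T) * ((2 * 29 + 10 + 1) * Nat.card (Sp ω)) := by gcongr
        _ ≤ 100 * (7 * T * Nat.card (Sp ω)) := by ring_nf; gcongr; norm_num
        _ ≤ 100 * (16 * 5 * (Good ω J).ncard * (Nat.card F) ^ 5) := by gcongr
        _ ≤ (Nat.card F) ^ 5 * (10000 * (Good ω J).ncard) := by ring_nf; gcongr; norm_num
    exact Nat.le_of_mul_le_mul_left h3 hqp

end five

end Pool.Agent.UD
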