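import Pool.Agent.UD.Main6

/-!
# MP_65787c_al : assembly, part 7 (the cases `m = 7, 9` and the conclusion)
-/

open Module

namespace Pool.Agent.UD

open Pool.Agent.UD.Num

variable {F V : Type*} [Field F] [AddCommGroup V] [Module F V] [Finite F] [Finite V]
variable {ω : LinearMap.BilinForm F V}


section seven

lemma bad2_seven (hω : IsSymp ω) (h2 : (2 : F) ≠ 0) (hm : finrank F V = 2 * 7) (hq : 3 ≤ (Nat.card F))
    {ν : F} (hν : ¬ IsSquare ν) {J : Module.End F V} (hJ : J ∈ Y ω ν)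
    {A : Subalgebra F (Module.End F V)} (hJA : J ∈ A) (hAf : IsField A) (hA2 : finrank F A = 2)
    (hA : ∀ a ∈ A, ∃ b c : F, ∀ x, a x = b • x + c • J x)
    (B : Subalgebra F (Module.End F V)) (hB : IsField B) (hsb : ∀ b ∈ B, IsSA ω b)
    (hBr : finrank F B = 7) : 10000 * (Bad ω A B).ncard ≤ 3 * Nat.card (Sp ω) := by
  have hodd : Odd 7 := by decide
  have hY : (Nat.card F) ^ (7 ^ 2) * 128 ≤ Nat.card (Y ω ν) := by
    refine le_trans ?_ (card_Y_ge' hω hm ν)
    gcongr
    calc 128 = 2 ^ 7 := by norm_num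
      _ ≤ (Nat.card F - 1) ^ 7 := Nat.pow_le_pow_left (by omega) 7
  have hti : ∀ i ∈ Finset.range 7, (EvTI ω A B (i + 1)).ncard = 0 := by
    intro i hi
    have := Finset.mem_range.mp hi
    apply EvTI_empty hAf hB
    rw [hA2, hBr]
    omega
  have hnd : ∀ i ∈ Finset.range 7, (EvND ω A B (i + 1)).ncard = 0 := by
    intro i hi
    have := Finset.mem_range.mp hi
    apply EvND_empty hAf hB
    rw [hA2, hBr]
    omega
  have e1 : 10000 * (EvC2 ω ν J B).ncard ≤ 1 * Nat.card (Sp ω) := by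
    have h := ev_comm_two hω h2 hq hν hm hJ B hB hsb hodd hBr (l := 1) (by norm_num)
    refine small1 (x₀ := 3) (m := 7) (a := 38) (b := 0) (e := 11) (K := 7) (K' := 64) (D := 128)
      hq (by norm_num) (by norm_num) (by norm_num) hY ?_ (by norm_num) (by norm_num)
    calc 7 * (EvC2 ω ν J B).ncard * Nat.card (Y ω ν) * (Nat.card F) ^ 0
        = 7 * (EvC2 ω ν J B).ncard * Nat.card (Y ω ν) := by ring
      _ ≤ _ := h
      _ ≤ 8 * Nat.card (Sp ω) * (((7 + 1) * (Nat.card F) ^ ((7 ^ 2 - 1) / 2)) * (Nat.card F) ^ (7 * (1 + 1))) := by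
        gcongr
        exact sum_le (by omega) hodd
      _ = 64 * Nat.card (Sp ω) * (Nat.card F) ^ 38 := by
        norm_num
        ring
  have e2 : 10000 * (EvN ω J B).ncard ≤ 1 * Nat.card (Sp ω) := by
    have h := ev_anti hω h2 hq hν hm hJ B hB hsb hodd (by norm_num) hBr (l := 1) (by norm_num)
    refine small1 (x₀ := 3) (m := 7) (a := 42) (b := 0) (e := 7) (K := 49) (K' := 128)
      (D := 128) hq (by norm_num) (by norm_num) (by norm_num) hY ?_ (by norm_num) (by norm_num)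
    rw [pow_zero, mul_one]
    exact h
  have e3 : 10000 * (EvG2 ω J B 7).ncard ≤ 1 * Nat.card (Sp ω) := by
    have h := ev_gal_two hω h2 hq hν hm hJ B hB hsb (by norm_num) hodd hBr (l := 1)
      (by norm_num)
    exact small1 (x₀ := 3) (m := 7) (e := 16) (D := 128) hq (by norm_num) (by norm_num)
      (by norm_num) hY h (by norm_num) (by norm_num)
  have h := ncard_two_le hω h2 hm hodd hν hJ hJA hA B hB hsb (by norm_num) hodd hBr
  rw [Finset.sum_eq_zero hti, Finset.sum_eq_zero hnd] at h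
  omega

lemma bad3_seven (hω : IsSymp ω) (h2 : (2 : F) ≠ 0) (hm : finrank F V = 2 * 7) (hq : 3 ≤ (Nat.card F))
    {ν : F} (hν : ¬ IsSquare ν)
    (A B : Subalgebra F (Module.End F V)) (hAf : IsField A) (hsa : ∀ a ∈ A, IsSA ω a)
    (hB : IsField B) (hsb : ∀ b ∈ B, IsSA ω b) (hAr : finrank F A = 7)
    (hBr : finrank F B = 7) : 10000 * (Bad ω A B).ncard ≤ 6 * Nat.card (Sp ω) := by
  have hodd : Odd 7 := by decide
  have h5 : Nat.Prime 7 := by norm_num
  have hG := card_Sp_ge hω hm hq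
  have hY : (Nat.card F) ^ (7 ^ 2) * 128 ≤ Nat.card (Y ω ν) := by
    refine le_trans ?_ (card_Y_ge' hω hm ν)
    gcongr
    calc 128 = 2 ^ 7 := by norm_num
      _ ≤ (Nat.card F - 1) ^ 7 := Nat.pow_le_pow_left (by omega) 7
  have hti : ∀ i ∈ Finset.range 6, (EvTI ω A B (i + 1)).ncard = 0 := by
    intro i hi
    have := Finset.mem_range.mp hi
    apply EvTI_empty hAf hB
    rw [hAr, hBr]
    omega
  have hnd : ∀ i ∈ Finset.range 6, (EvND ω A B (i + 1)).ncard = 0 := by
    intro i hi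
    have := Finset.mem_range.mp hi
    apply EvND_empty hAf hB
    rw [hAr, hBr]
    omega
  have e1 : 10000 * (EvTI ω A B (6 + 1)).ncard ≤ 1 * Nat.card (Sp ω) := by
    have h := ev_ti hω hm hq A B hAf hB (e₁ := 7) (e₂ := 7) (s₁ := 1) (s₂ := 1) (d := 7)
      (by norm_num) (by norm_num) hAr hBr (by norm_num) (by norm_num)
    exact small2 (x₀ := 3) (e := 14) hq (by norm_num) h (by norm_num) (by norm_num)
  have e2 : 10000 * (EvND ω A B (6 + 1)).ncard ≤ 1 * Nat.card (Sp ω) := by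
    have h := ev_nd hω hm hq A B hAf hB (e₁ := 7) (e₂ := 7) (s₁ := 1) (s₂ := 1) (d := 7)
      (by norm_num) (by norm_num) hAr hBr (by norm_num) (by norm_num)
    exact small2 (x₀ := 3) (e := 15) hq (by norm_num) h (by norm_num) (by norm_num)
  have e3 : 10000 * (EvC ω ν A B).ncard ≤ 1 * Nat.card (Sp ω) := by
    have h := ev_comm_odd hω h2 hν hm A B hAf hsa hB hsb hodd hAr (k := 1) (by norm_num) hodd hBr
      (l := 1) (by norm_num)
    refine small1 (x₀ := 3) (m := 7) (a := 28) (b := 0) (e := 21) (K := 1) (K' := 1) (D := 128)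
      hq (by norm_num) (by norm_num) (by norm_num) hY ?_ (by norm_num) (by norm_num)
    rw [pow_zero, mul_one, one_mul, one_mul]
    exact h
  have e4 : 10000 * (EvG ω A B 7).ncard ≤ 1 * Nat.card (Sp ω) := by
    have h := ev_gal_odd hω h2 hq hm A B hAf hsa hB hsb h5 hodd hAr (k := 1) (by norm_num) hBr
      (l := 1) (by norm_num)
    exact small3 (x₀ := 3) (m := 7) (e := 20) hq (by norm_num) (by norm_num) hG h
      (by norm_num) (by norm_num)
  have e5 : 10000 * (EvG ω B A 7).ncard ≤ 1 * Nat.card (Sp ω) := by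
    have h := ev_gal_odd hω h2 hq hm B A hB hsb hAf hsa h5 hodd hBr (k := 1) (by norm_num) hAr
      (l := 1) (by norm_num)
    exact small3 (x₀ := 3) (m := 7) (e := 20) hq (by norm_num) (by norm_num) hG h
      (by norm_num) (by norm_num)
  have e6 : 10000 * {g | 7 = 7 ∧ g ∈ EvGG ω A B 7}.ncard ≤ 1 * Nat.card (Sp ω) := by
    have h := ev_gal_gal hω h2 hq hm A B hAf hsa hB hsb h5 hAr hBr (k := 1) (by norm_num)
    have : {g | 7 = 7 ∧ g ∈ EvGG ω A B 7} = EvGG ω A B 7 := by ext g; simp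
    rw [this]
    exact small3 (x₀ := 3) (m := 7) (e := 20) hq (by norm_num) (by norm_num) hG h
      (by norm_num) (by norm_num)
  have h := ncard_odd_le hω h2 hm hodd hν A B hAf hsa hB hsb h5 hodd hAr h5 hodd hBr
  rw [Finset.sum_range_succ _ 6, Finset.sum_range_succ _ 6, Finset.sum_eq_zero hti,
    Finset.sum_eq_zero hnd] at h
  omega

theorem main_seven (hω : IsSymp ω) (h2 : (2 : F) ≠ 0) (hm : finrank F V = 2 * 7) (hq : 3 ≤ (Nat.card F))
    {L : Subalgebra F (Module.End F V)}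
    (hL : IsField L) (hLd : finrank F L = 2 * 7) (hst : StarStable ω L) {ν : F}
    (hν : ¬ IsSquare ν) {J : Module.End F V} (hJL : J ∈ L) (hJ : J ∈ Y ω ν)
    (hall : ∀ g : Sp ω, ∃ A B : Subalgebra F (Module.End F V), A ≤ L ∧ B ≤ L ∧
      (finrank F A).Prime ∧ (finrank F B).Prime ∧ g ∈ Bad ω A B) : False := by
  have hodd : Odd 7 := by decide
  have h5 : Nat.Prime 7 := by norm_num
  have hmf : Nat.primeFactors 7 = {7} := h5.primeFactors
  refine main_pp hω h2 hm hodd h5 hmf hL hLd hν hJL hJ hall (N := 10000) (X2 := 3) (X3 := 6)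
    ?_ ?_ ?_
  · intro A B hA hB h1 h3
    obtain ⟨hJA, hA'⟩ := quad_sub hL hν hJL hJ hA h1
    exact bad2_seven hω h2 hm hq hν hJ hJA (isField_of_le hL hA) h1 hA' B (isField_of_le hL hB)
      (odd_sub_SA hω hL hst hB (by rw [h3]; exact hodd)) h3
  · intro A B hA hB h1 h3
    exact bad3_seven hω h2 hm hq hν A B (isField_of_le hL hA)
      (odd_sub_SA hω hL hst hA (by rw [h1]; exact hodd)) (isField_of_le hL hB)
      (odd_sub_SA hω hL hst hB (by rw [h3]; exact hodd)) h1 h3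
  · have hT : (Nat.card F) ^ 7 ≤ 4 * (((Nat.card F) ^ 7 - 3) / 2 - ∑ t ∈ Nat.primeFactors 7, (Nat.card F) ^ (7 / t)) := by
      rw [hmf, Finset.sum_singleton]
      norm_num
      have h1 : 729 * (Nat.card F) ≤ (Nat.card F) ^ 7 := by
        calc 729 * (Nat.card F) = 3 ^ 6 * (Nat.card F) := by norm_num
          _ ≤ (Nat.card F) ^ 6 * (Nat.card F) := by gcongr
          _ = (Nat.card F) ^ 7 := by ring
      omega
    have h1 := good_bound hω h2 (by omega) hm hodd (by norm_num) hL hLd hst hν hJL hJ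
      (T := ((Nat.card F) ^ 7 - 3) / 2 - ∑ t ∈ Nat.primeFactors 7, (Nat.card F) ^ (7 / t)) le_rfl
    set T := ((Nat.card F) ^ 7 - 3) / 2 - ∑ t ∈ Nat.primeFactors 7, (Nat.card F) ^ (7 / t) with hTd
    have hqp : 0 < (Nat.card F) ^ 7 := by positivity
    have h3 : (Nat.card F) ^ 7 * ((2 * 3 + 6 + 1) * Nat.card (Sp ω)) ≤
        (Nat.card F) ^ 7 * (10000 * (Good ω J).ncard) := by
      calc (Nat.card F) ^ 7 * ((2 * 3 + 6 + 1) * Nat.card (Sp ω))
          ≤ (4 * T) * ((2 * 3 + 6 + 1) * Nat.card (Sp ω)) := by gcongr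
        _ ≤ 20 * (7 * T * Nat.card (Sp ω)) := by ring_nf; gcongr; norm_num
        _ ≤ 20 * (16 * 7 * (Good ω J).ncard * (Nat.card F) ^ 7) := by gcongr
        _ ≤ (Nat.card F) ^ 7 * (10000 * (Good ω J).ncard) := by ring_nf; gcongr; norm_num
    exact Nat.le_of_mul_le_mul_left h3 hqp

end seven

section nine

lemma bad2_nine (hω : IsSymp ω) (h2 : (2 : F) ≠ 0) (hm : finrank F V = 2 * 9) (hq : 3 ≤ (Nat.card F))
    {ν : F} (hν : ¬ IsSquare ν) {J : Module.End F V} (hJ : J ∈ Y ω ν)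
    {A : Subalgebra F (Module.End F V)} (hJA : J ∈ A) (hAf : IsField A) (hA2 : finrank F A = 2)
    (hA : ∀ a ∈ A, ∃ b c : F, ∀ x, a x = b • x + c • J x)
    (B : Subalgebra F (Module.End F V)) (hB : IsField B) (hsb : ∀ b ∈ B, IsSA ω b)
    (hBr : finrank F B = 3) : 100000 * (Bad ω A B).ncard ≤ 860 * Nat.card (Sp ω) := by
  have hodd : Odd 9 := by decide
  have hY : (Nat.card F) ^ (9 ^ 2) * 512 ≤ Nat.card (Y ω ν) := by
    refine le_trans ?_ (card_Y_ge' hω hm ν)
    gcongr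
    calc 512 = 2 ^ 9 := by norm_num
      _ ≤ (Nat.card F - 1) ^ 9 := Nat.pow_le_pow_left (by omega) 9
  have hti : ∀ i, ¬ (2 ∣ (i + 1) ∧ 3 ∣ (i + 1)) → (EvTI ω A B (i + 1)).ncard = 0 := by
    intro i hi
    apply EvTI_empty hAf hB
    rw [hA2, hBr]
    exact hi
  have hnd : ∀ i, ¬ (2 ∣ (i + 1) ∧ 3 ∣ (i + 1)) → (EvND ω A B (i + 1)).ncard = 0 := by
    intro i hi
    apply EvND_empty hAf hB
    rw [hA2, hBr]
    exact hi
  have f1 : 100000 * (EvTI ω A B (5 + 1)).ncard ≤ 205 * Nat.card (Sp ω) := by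
    have h := ev_ti hω hm hq A B hAf hB (e₁ := 2) (e₂ := 3) (s₁ := 3) (s₂ := 2) (d := 6)
      (by norm_num) (by norm_num) hA2 hBr (by norm_num) (by norm_num)
    exact small2 (x₀ := 3) (e := 6) hq (by norm_num) h (by norm_num) (by norm_num)
  have f2 : 100000 * (EvND ω A B (5 + 1)).ncard ≤ 1 * Nat.card (Sp ω) := by
    have h := ev_nd hω hm hq A B hAf hB (e₁ := 2) (e₂ := 3) (s₁ := 3) (s₂ := 2) (d := 6)
      (by norm_num) (by norm_num) hA2 hBr (by norm_num) (by norm_num)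
    exact small2 (x₀ := 3) (e := 12) hq (by norm_num) h (by norm_num) (by norm_num)
  have e1 : 100000 * (EvC2 ω ν J B).ncard ≤ 10 * Nat.card (Sp ω) := by
    have h := ev_comm_two hω h2 hq hν hm hJ B hB hsb (by decide) hBr (l := 3) (by norm_num)
    refine small1 (x₀ := 3) (m := 9) (a := 76) (b := 0) (e := 5) (K := 7) (K' := 80) (D := 512)
      hq (by norm_num) (by norm_num) (by norm_num) hY ?_ (by norm_num) (by norm_num)
    calc 7 * (EvC2 ω ν J B).ncard * Nat.card (Y ω ν) * (Nat.card F) ^ 0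
        = 7 * (EvC2 ω ν J B).ncard * Nat.card (Y ω ν) := by ring
      _ ≤ _ := h
      _ ≤ 8 * Nat.card (Sp ω) * (((9 + 1) * (Nat.card F) ^ ((9 ^ 2 - 1) / 2)) * (Nat.card F) ^ (9 * (3 + 1))) := by
        gcongr
        exact sum_le (by omega) hodd
      _ = 80 * Nat.card (Sp ω) * (Nat.card F) ^ 76 := by
        norm_num
        ring
  have e2 : 100000 * (EvN ω J B).ncard ≤ 511 * Nat.card (Sp ω) := by
    have h := ev_anti hω h2 hq hν hm hJ B hB hsb (by decide) (by norm_num) hBr (l := 3)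
      (by norm_num)
    refine small1 (x₀ := 3) (m := 9) (a := 81) (b := 0) (e := 0) (K := 49) (K' := 128)
      (D := 512) hq (by norm_num) (by norm_num) (by norm_num) hY ?_ (by norm_num) (by norm_num)
    rw [pow_zero, mul_one]
    exact h
  have e3 : 100000 * (EvG2 ω J B 3).ncard ≤ 133 * Nat.card (Sp ω) := by
    have h := ev_gal_three hω h2 hq hν hm hJ B hB hsb hBr (l := 3) (by norm_num)
    exact small1 (x₀ := 3) (m := 9) (e := 3) (D := 512) hq (by norm_num) (by norm_num)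
      (by norm_num) hY h (by norm_num) (by norm_num)
  have h := ncard_two_le hω h2 hm hodd hν hJ hJA hA B hB hsb (by norm_num) (by decide) hBr
  simp only [Finset.sum_range_succ, Finset.sum_range_zero] at h
  rw [hti 0 (by omega), hti 1 (by omega), hti 2 (by omega), hti 3 (by omega), hti 4 (by omega),
    hti 6 (by omega), hti 7 (by omega), hti 8 (by omega),
    hnd 0 (by omega), hnd 1 (by omega), hnd 2 (by omega), hnd 3 (by omega), hnd 4 (by omega),
    hnd 6 (by omega), hnd 7 (by omega), hnd 8 (by omega)] at h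
  omega

lemma bad3_nine (hω : IsSymp ω) (h2 : (2 : F) ≠ 0) (hm : finrank F V = 2 * 9) (hq : 3 ≤ (Nat.card F))
    {ν : F} (hν : ¬ IsSquare ν)
    (A B : Subalgebra F (Module.End F V)) (hAf : IsField A) (hsa : ∀ a ∈ A, IsSA ω a)
    (hB : IsField B) (hsb : ∀ b ∈ B, IsSA ω b) (hAr : finrank F A = 3)
    (hBr : finrank F B = 3) : 100000 * (Bad ω A B).ncard ≤ 17 * Nat.card (Sp ω) := by
  have hodd : Odd 9 := by decide
  have ho3 : Odd 3 := by decide
  have h5 : Nat.Prime 3 := by norm_num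
  have hG := card_Sp_ge hω hm hq
  have hY : (Nat.card F) ^ (9 ^ 2) * 512 ≤ Nat.card (Y ω ν) := by
    refine le_trans ?_ (card_Y_ge' hω hm ν)
    gcongr
    calc 512 = 2 ^ 9 := by norm_num
      _ ≤ (Nat.card F - 1) ^ 9 := Nat.pow_le_pow_left (by omega) 9
  have hti : ∀ i, ¬ (3 ∣ (i + 1)) → (EvTI ω A B (i + 1)).ncard = 0 := by
    intro i hi
    apply EvTI_empty hAf hB
    rw [hAr, hBr]
    exact fun h => hi h.1
  have hnd : ∀ i, ¬ (3 ∣ (i + 1)) → (EvND ω A B (i + 1)).ncard = 0 := by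
    intro i hi
    apply EvND_empty hAf hB
    rw [hAr, hBr]
    exact fun h => hi h.1
  have f3 : 100000 * (EvTI ω A B (2 + 1)).ncard ≤ 1 * Nat.card (Sp ω) := by
    have h := ev_ti hω hm hq A B hAf hB (e₁ := 3) (e₂ := 3) (s₁ := 1) (s₂ := 1) (d := 3)
      (by norm_num) (by norm_num) hAr hBr (by norm_num) (by norm_num)
    exact small2 (x₀ := 3) (e := 12) hq (by norm_num) h (by norm_num) (by norm_num)
  have f6 : 100000 * (EvTI ω A B (5 + 1)).ncard ≤ 1 * Nat.card (Sp ω) := by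
    have h := ev_ti hω hm hq A B hAf hB (e₁ := 3) (e₂ := 3) (s₁ := 2) (s₂ := 2) (d := 6)
      (by norm_num) (by norm_num) hAr hBr (by norm_num) (by norm_num)
    exact small2 (x₀ := 3) (e := 15) hq (by norm_num) h (by norm_num) (by norm_num)
  have f9 : 100000 * (EvTI ω A B (8 + 1)).ncard ≤ 8 * Nat.card (Sp ω) := by
    have h := ev_ti hω hm hq A B hAf hB (e₁ := 3) (e₂ := 3) (s₁ := 3) (s₂ := 3) (d := 9)
      (by norm_num) (by norm_num) hAr hBr (by norm_num) (by norm_num)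
    exact small2 (x₀ := 3) (e := 9) hq (by norm_num) h (by norm_num) (by norm_num)
  have g3 : 100000 * (EvND ω A B (2 + 1)).ncard ≤ 1 * Nat.card (Sp ω) := by
    have h := ev_nd hω hm hq A B hAf hB (e₁ := 3) (e₂ := 3) (s₁ := 1) (s₂ := 1) (d := 3)
      (by norm_num) (by norm_num) hAr hBr (by norm_num) (by norm_num)
    exact small2 (x₀ := 3) (e := 15) hq (by norm_num) h (by norm_num) (by norm_num)
  have g6 : 100000 * (EvND ω A B (5 + 1)).ncard ≤ 1 * Nat.card (Sp ω) := by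
    have h := ev_nd hω hm hq A B hAf hB (e₁ := 3) (e₂ := 3) (s₁ := 2) (s₂ := 2) (d := 6)
      (by norm_num) (by norm_num) hAr hBr (by norm_num) (by norm_num)
    exact small2 (x₀ := 3) (e := 15) hq (by norm_num) h (by norm_num) (by norm_num)
  have g9 : 100000 * (EvND ω A B (8 + 1)).ncard ≤ 1 * Nat.card (Sp ω) := by
    have h := ev_nd hω hm hq A B hAf hB (e₁ := 3) (e₂ := 3) (s₁ := 3) (s₂ := 3) (d := 9)
      (by norm_num) (by norm_num) hAr hBr (by norm_num) (by norm_num)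
    exact small2 (x₀ := 3) (e := 15) hq (by norm_num) h (by norm_num) (by norm_num)
  have e3 : 100000 * (EvC ω ν A B).ncard ≤ 1 * Nat.card (Sp ω) := by
    have h := ev_comm_odd hω h2 hν hm A B hAf hsa hB hsb ho3 hAr (k := 3) (by norm_num) ho3 hBr
      (l := 3) (by norm_num)
    refine small1 (x₀ := 3) (m := 9) (a := 72) (b := 0) (e := 9) (K := 1) (K' := 1) (D := 512)
      hq (by norm_num) (by norm_num) (by norm_num) hY ?_ (by norm_num) (by norm_num)
    rw [pow_zero, mul_one, one_mul, one_mul]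
    exact h
  have e4 : 100000 * (EvG ω A B 3).ncard ≤ 1 * Nat.card (Sp ω) := by
    have h := ev_gal_odd hω h2 hq hm A B hAf hsa hB hsb h5 ho3 hAr (k := 3) (by norm_num) hBr
      (l := 3) (by norm_num)
    exact small3 (x₀ := 3) (m := 9) (e := 15) hq (by norm_num) (by norm_num) hG h
      (by norm_num) (by norm_num)
  have e5 : 100000 * (EvG ω B A 3).ncard ≤ 1 * Nat.card (Sp ω) := by
    have h := ev_gal_odd hω h2 hq hm B A hB hsb hAf hsa h5 ho3 hBr (k := 3) (by norm_num) hAr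
      (l := 3) (by norm_num)
    exact small3 (x₀ := 3) (m := 9) (e := 15) hq (by norm_num) (by norm_num) hG h
      (by norm_num) (by norm_num)
  have e6 : 100000 * {g | 3 = 3 ∧ g ∈ EvGG ω A B 3}.ncard ≤ 1 * Nat.card (Sp ω) := by
    have h := ev_gal_gal hω h2 hq hm A B hAf hsa hB hsb h5 hAr hBr (k := 3) (by norm_num)
    have : {g | 3 = 3 ∧ g ∈ EvGG ω A B 3} = EvGG ω A B 3 := by ext g; simp
    rw [this]
    exact small3 (x₀ := 3) (m := 9) (e := 24) hq (by norm_num) (by norm_num) hG h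
      (by norm_num) (by norm_num)
  have h := ncard_odd_le hω h2 hm hodd hν A B hAf hsa hB hsb h5 ho3 hAr h5 ho3 hBr
  generalize hX : ({g | 3 = 3 ∧ g ∈ EvGG ω A B 3} : Set (Sp ω)).ncard = X at h e6
  simp only [Finset.sum_range_succ, Finset.sum_range_zero] at h
  rw [hti 0 (by omega), hti 1 (by omega), hti 3 (by omega), hti 4 (by omega),
    hti 6 (by omega), hti 7 (by omega),
    hnd 0 (by omega), hnd 1 (by omega), hnd 3 (by omega), hnd 4 (by omega),
    hnd 6 (by omega), hnd 7 (by omega)] at h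
  omega

theorem main_nine (hω : IsSymp ω) (h2 : (2 : F) ≠ 0) (hm : finrank F V = 2 * 9) (hq : 3 ≤ (Nat.card F))
    {L : Subalgebra F (Module.End F V)}
    (hL : IsField L) (hLd : finrank F L = 2 * 9) (hst : StarStable ω L) {ν : F}
    (hν : ¬ IsSquare ν) {J : Module.End F V} (hJL : J ∈ L) (hJ : J ∈ Y ω ν)
    (hall : ∀ g : Sp ω, ∃ A B : Subalgebra F (Module.End F V), A ≤ L ∧ B ≤ L ∧
      (finrank F A).Prime ∧ (finrank F B).Prime ∧ g ∈ Bad ω A B) : False := by
  have hodd : Odd 9 := by decide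
  have ho3 : Odd 3 := by decide
  have h5 : Nat.Prime 3 := by norm_num
  have hmf : Nat.primeFactors 9 = {3} := by
    rw [show 9 = 3 ^ 2 by norm_num, Nat.primeFactors_prime_pow (by norm_num) h5]
  refine main_pp hω h2 hm hodd h5 hmf hL hLd hν hJL hJ hall (N := 100000) (X2 := 860) (X3 := 17)
    ?_ ?_ ?_
  · intro A B hA hB h1 h3
    obtain ⟨hJA, hA'⟩ := quad_sub hL hν hJL hJ hA h1
    exact bad2_nine hω h2 hm hq hν hJ hJA (isField_of_le hL hA) h1 hA' B (isField_of_le hL hB)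
      (odd_sub_SA hω hL hst hB (by rw [h3]; exact ho3)) h3
  · intro A B hA hB h1 h3
    exact bad3_nine hω h2 hm hq hν A B (isField_of_le hL hA)
      (odd_sub_SA hω hL hst hA (by rw [h1]; exact ho3)) (isField_of_le hL hB)
      (odd_sub_SA hω hL hst hB (by rw [h3]; exact ho3)) h1 h3
  · have hT : 2 * (Nat.card F) ^ 9 ≤ 5 * (((Nat.card F) ^ 9 - 3) / 2 - ∑ t ∈ Nat.primeFactors 9, (Nat.card F) ^ (9 / t)) := by
      rw [hmf, Finset.sum_singleton]
      norm_num
      have h1 : 729 * (Nat.card F) ^ 3 ≤ (Nat.card F) ^ 9 := by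
        calc 729 * (Nat.card F) ^ 3 = 3 ^ 6 * (Nat.card F) ^ 3 := by norm_num
          _ ≤ (Nat.card F) ^ 6 * (Nat.card F) ^ 3 := by gcongr
          _ = (Nat.card F) ^ 9 := by ring
      have h2 : 27 ≤ (Nat.card F) ^ 3 := by
        calc 27 = 3 ^ 3 := by norm_num
          _ ≤ (Nat.card F) ^ 3 := by gcongr
      omega
    have h1 := good_bound hω h2 (by omega) hm hodd (by norm_num) hL hLd hst hν hJL hJ
      (T := ((Nat.card F) ^ 9 - 3) / 2 - ∑ t ∈ Nat.primeFactors 9, (Nat.card F) ^ (9 / t)) le_rfl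
    set T := ((Nat.card F) ^ 9 - 3) / 2 - ∑ t ∈ Nat.primeFactors 9, (Nat.card F) ^ (9 / t) with hTd
    have hqp : 0 < 2 * (Nat.card F) ^ 9 := by positivity
    have h3 : (2 * (Nat.card F) ^ 9) * ((2 * 860 + 17 + 1) * Nat.card (Sp ω)) ≤
        (2 * (Nat.card F) ^ 9) * (100000 * (Good ω J).ncard) := by
      calc (2 * (Nat.card F) ^ 9) * ((2 * 860 + 17 + 1) * Nat.card (Sp ω))
          ≤ (5 * T) * ((2 * 860 + 17 + 1) * Nat.card (Sp ω)) := by gcongr
        _ ≤ 1250 * (7 * T * Nat.card (Sp ω)) := by ring_nf; gcongr; norm_num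
        _ ≤ 1250 * (16 * 9 * (Good ω J).ncard * (Nat.card F) ^ 9) := by gcongr
        _ ≤ (2 * (Nat.card F) ^ 9) * (100000 * (Good ω J).ncard) := by ring_nf; gcongr; norm_num
    exact Nat.le_of_mul_le_mul_left h3 hqp

end nine

lemma two_ne_zero_of_odd (hqo : Odd (Nat.card F)) : (2 : F) ≠ 0 := by
  intro h
  have hfin : Fintype F := Fintype.ofFinite F
  have h1 : ringChar F = 2 := by
    have h2 : ringChar F ∣ 2 := ringChar.dvd (by exact_mod_cast h)
    rcases (Nat.dvd_prime Nat.prime_two).mp h2 with h3 | h3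
    · exact absurd h3 (by
        intro h4
        have : CharP F 1 := by rw [← h4]; exact ringChar.charP F
        exact CharP.false_of_nontrivial_of_char_one (R := F))
    · exact h3
  have h2 : 2 ∣ Nat.card F := by
    have : CharP F 2 := by rw [← h1]; exact ringChar.charP F
    rw [Nat.card_eq_fintype_card]
    exact (FiniteField.even_card_iff_char_two.mp h1) |> Nat.dvd_of_mod_eq_zero
  obtain ⟨j, hj⟩ := hqo
  omega

/-- MAIN -/
theorem main (hω : IsSymp ω) {m : ℕ} (hm : finrank F V = 2 * m) (hodd : Odd m) (h5 : 5 ≤ m)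
    (hqo : Odd (Nat.card F)) (hne : ¬ (m = 5 ∧ (Nat.card F) = 3)) {L : Subalgebra F (Module.End F V)} (hL : IsField L)
    (hLd : finrank F L = 2 * m) (hst : StarStable ω L) :
    ∃ g : Sp ω, ∀ A B : Subalgebra F (Module.End F V), A ≤ L → B ≤ L → (finrank F A).Prime →
      (finrank F B).Prime → g ∉ Bad ω A B := by
  by_contra hcon
  push Not at hcon
  have h2 := two_ne_zero_of_odd hqo
  have hq1 : 1 < (Nat.card F) := Finite.one_lt_card
  have hq : 3 ≤ (Nat.card F) := by
    obtain ⟨j, hj⟩ := hqo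
    omega
  have hfin : Fintype F := Fintype.ofFinite F
  obtain ⟨ν, hν⟩ := FiniteField.exists_nonsquare (F := F) (by
    intro h1
    have : CharP F 2 := by rw [← h1]; exact ringChar.charP F
    exact h2 (by exact_mod_cast CharP.cast_eq_zero F 2))
  obtain ⟨J, hJL, hJ⟩ := exists_J hω h2 hm hodd hL hLd hst hν
  rcases Nat.lt_or_ge m 11 with h | h
  · obtain ⟨j, hj⟩ := hodd
    have : m = 5 ∨ m = 7 ∨ m = 9 := by omega
    rcases this with rfl | rfl | rfl
    · have hq5 : 5 ≤ (Nat.card F) := by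
        have : (Nat.card F) ≠ 3 := fun h => hne ⟨rfl, h⟩
        obtain ⟨i, hi⟩ := hqo
        omega
      exact main_five hω h2 hm hq5 hL hLd hst hν hJL hJ hcon
    · exact main_seven hω h2 hm hq hL hLd hst hν hJL hJ hcon
    · exact main_nine hω h2 hm hq hL hLd hst hν hJL hJ hcon
  · exact main_large hω h2 hm hodd h hq hL hLd hst hν hJL hJ hcon

end Pool.Agent.UD
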