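import Mathlib

/-!
# Definitions for the final statement of MP_65787c_al, over matrices
-/

open Module

namespace Pool.Agent.UD.Mx

/-- `2m × 2m` matrices over `F`. -/
abbrev Mat (m : ℕ) (F : Type*) : Type _ := Matrix (Fin m ⊕ Fin m) (Fin m ⊕ Fin m) F

/-- The symplectic group `Sp(2m, F)`: Mathlib's group of the matrices `g` with `g J gᵀ = J`. -/
abbrev Sp (m : ℕ) (F : Type*) [Field F] : Type _ := Matrix.symplecticGroup (Fin m) F

/-- The projective symplectic group `PSp(2m, F)`: the quotient of `Sp(2m, F)` by its centre. -/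
def PSp (m : ℕ) (F : Type*) [Field F] : Type _ := Sp m F ⧸ Subgroup.center (Sp m F)

instance (m : ℕ) (F : Type*) [Field F] : Group (PSp m F) :=
  QuotientGroup.Quotient.group (Subgroup.center (Sp m F))

section
variable {m : ℕ} {F : Type*} [Field F]

/-- The projection `Sp(2m, F) → PSp(2m, F)`. -/
def toPSp (g : Sp m F) : PSp m F := QuotientGroup.mk g

/-- `s` acts irreducibly on the natural module `F^{2m}`. -/
def ActsIrreducibly (s : Sp m F) : Prop :=
  ∀ U : Submodule F (Fin m ⊕ Fin m → F), (∀ u ∈ U, s.1.mulVec u ∈ U) → U = ⊥ ∨ U = ⊤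

/-- The algebra `F[s]` of matrices. -/
def alg (s : Sp m F) : Subalgebra F (Mat m F) := Algebra.adjoin F {s.1}

/-- The degree (dimension over `F`) of the algebra `A`. -/
noncomputable def degree (A : Subalgebra F (Mat m F)) : ℕ := finrank F A

/-- `A` is a subalgebra of `F[s]` of prime degree over `F`. -/
def PrimeSub (s : Sp m F) (A : Subalgebra F (Mat m F)) : Prop :=
  A ≤ alg s ∧ (degree A).Prime

/-- The matrix `g X g⁻¹`. -/
def conjMat (g : Sp m F) (X : Mat m F) : Mat m F := g.1 * X * g⁻¹.1

/-- The element `g` of `Sp(2m, F)` normalises the algebra `A`: `g X g⁻¹ ∈ A` for all `X ∈ A`. -/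
def Normalises (g : Sp m F) (A : Subalgebra F (Mat m F)) : Prop :=
  ∀ X ∈ A, conjMat g X ∈ A

/-- The field extension subgroup attached to `A`: the image in `PSp(2m, F)` of the normaliser of
`A` in `Sp(2m, F)`. -/
def FieldExt (A : Subalgebra F (Mat m F)) : Set (PSp m F) :=
  {x | ∃ g : Sp m F, toPSp g = x ∧ Normalises g A}

/-- `H_A ∩ g H_B g⁻¹ = 1` for all subfields `A`, `B` of prime degree of `F[s]`, where `H_A` is the
field extension subgroup attached to `A`. -/
def TrivialMeets (s : Sp m F) (g : PSp m F) : Prop :=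
  ∀ A B : Subalgebra F (Mat m F), PrimeSub s A → PrimeSub s B →
    ∀ x ∈ FieldExt A, g⁻¹ * x * g ∈ FieldExt B → x = 1

/-- The maximal subgroups of `PSp(2m, F)` containing the image of `s` are field extension
subgroups attached to subfields of `F[s]` of prime degree. -/
def Overgroups (s : Sp m F) : Prop :=
  ∀ M : Subgroup (PSp m F), IsCoatom M → toPSp s ∈ M →
    ∃ A : Subalgebra F (Mat m F), PrimeSub s A ∧ (M : Set (PSp m F)) = FieldExt A

end

/-- A total dominating set for the generating graph of `G`: a set of nonidentity elements such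
that every nonidentity element generates `G` together with some element of the set. -/
def TotalDominating {G : Type*} [Group G] (S : Set G) : Prop :=
  (∀ s ∈ S, s ≠ 1) ∧ ∀ x : G, x ≠ 1 → ∃ s ∈ S, Subgroup.closure {x, s} = ⊤

/-- The uniform domination number: the least size of a total dominating set consisting of
conjugate elements. -/
noncomputable def gammaU (G : Type*) [Group G] : ℕ :=
  sInf {n | ∃ S : Finset G, S.card = n ∧ TotalDominating (S : Set G) ∧
    ∀ s ∈ S, ∀ s' ∈ S, IsConj s s'}

end Pool.Agent.UD.Mx
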