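import Pool.Agent.UD.Transfer

/-!
# MP_65787c_al : the final statement over matrices
-/

open Module Matrix

namespace Pool.Agent.UD.Mx

variable {m : ℕ} {F : Type*} [Field F]

lemma toPSp_surj (x : PSp m F) : ∃ a : Sp m F, toPSp a = x :=
  QuotientGroup.mk_surjective x

instance [Finite F] : Finite (PSp m F) := by
  have : Finite (Sp m F) := inferInstanceAs (Finite (Matrix.symplecticGroup (Fin m) F))
  exact Finite.of_surjective toPSp toPSp_surj

lemma psp_noncomm' [Finite F] (h2 : (2 : F) ≠ 0) (hq : 3 ≤ Nat.card F) (hm : 0 < m) :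
    ∃ a b : PSp m F, a * b ≠ b * a := by
  obtain ⟨a, b, hab⟩ := psp_noncomm (om_symp (m := m) (F := F) h2) hq (by
    rw [finrank_NM]; omega)
  obtain ⟨a', rfl⟩ := QuotientGroup.mk_surjective a
  obtain ⟨b', rfl⟩ := QuotientGroup.mk_surjective b
  obtain ⟨α, rfl⟩ := phi_surjective a'
  obtain ⟨β, rfl⟩ := phi_surjective b'
  refine ⟨toPSp α, toPSp β, ?_⟩
  intro h
  apply hab
  have h1 : toPSp (α * β) = toPSp (β * α) := h
  have h3 := QuotientGroup.eq.mp h1
  have h4 := triv_of_center h2 h3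
  have h5 : (phi m F α * phi m F β)⁻¹ * (phi m F β * phi m F α) ∈ PM (om m F) := by
    rw [← map_mul, ← map_mul, ← map_inv, ← map_mul]
    exact h4
  exact QuotientGroup.eq.mpr h5

lemma toPSp_ne_one' (h2 : (2 : F) ≠ 0) (hm : 0 < m) {s : Sp m F}
    (hs : ActsIrreducibly s) : toPSp s ≠ 1 := by
  intro h
  have h1 := triv_of_center h2 ((QuotientGroup.eq_one_iff s).mp h)
  refine toPSp_ne_one (ω := om m F) (s := phi m F s) (by rw [finrank_NM]; omega) hs ?_
  exact (QuotientGroup.eq_one_iff _).mpr h1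

/-- The final statement over matrices. -/
theorem final (m : ℕ) (hodd : Odd m) (h5 : 5 ≤ m) (F : Type*) [Field F] [Finite F]
    (hq : Odd (Nat.card F)) (hne : ¬ (m = 5 ∧ Nat.card F = 3)) :
    (∃ s : Sp m F, ActsIrreducibly s ∧ orderOf s = Nat.card F ^ m + 1) ∧
    ∀ s : Sp m F, ActsIrreducibly s → ∃ g : PSp m F, TrivialMeets s g ∧
      (Overgroups s → TotalDominating {toPSp s, g * toPSp s * g⁻¹} ∧ gammaU (PSp m F) = 2) := by
  have h2 := two_ne_zero_of_odd hq
  have hω := om_symp (m := m) (F := F) h2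
  refine ⟨?_, ?_⟩
  · obtain ⟨s, hs, ho⟩ := exists_singer hω h2 finrank_NM (by omega)
    obtain ⟨σ, rfl⟩ := phi_surjective s
    refine ⟨σ, hs, ?_⟩
    rw [← ho, orderOf_injective (phi m F) phi_injective]
  · intro s hs
    obtain ⟨hf, hd, hst⟩ := alg_field hω (by rw [finrank_NM]; omega) (phi m F s).2 hs
    obtain ⟨γ, hγ⟩ := main hω finrank_NM hodd h5 hq hne hf (hd.trans finrank_NM) hst
    obtain ⟨g, rfl⟩ := phi_surjective γ
    have hmeet := trivialMeets_of h2 hγ
    refine ⟨toPSp g, hmeet, ?_⟩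
    intro ho
    have ht : TotalDominating {toPSp s, toPSp g * toPSp s * (toPSp g)⁻¹} := by
      refine tds_generic (toPSp_ne_one' h2 (by omega) hs)
        (H := {S | ∃ A : Subalgebra F (Mat m F), PrimeSub s A ∧ S = FieldExt A}) ?_ ?_
      · intro M hM hsM
        exact ho M hM hsM
      · rintro _ ⟨A, hA, rfl⟩ _ ⟨B, hB, rfl⟩ x hx hxB
        exact hmeet A B hA hB x hx hxB
    refine ⟨ht, ?_⟩
    have hq3 : 3 ≤ Nat.card F := by
      have : 1 < Nat.card F := Finite.one_lt_card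
      obtain ⟨j, hj⟩ := hq
      omega
    exact gammaU_eq_two (psp_noncomm' h2 hq3 (by omega))
      (isConj_iff.mpr ⟨toPSp g, rfl⟩) ht

end Pool.Agent.UD.Mx
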