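import Pool.Agent.UD.Defs3
import Pool.Agent.UD.Frames

/-!
# MP_65787c_al, Block Z : Singer cycles
-/

open Module

namespace Pool.Agent.UD

namespace Sing

variable {F V : Type*} [Field F] [AddCommGroup V] [Module F V]
variable {ω : LinearMap.BilinForm F V}

lemma swap (hω : IsSymp ω) (x y : V) : ω x y = - ω y x := by
  have h := hω.alt (x + y)
  simp only [map_add, LinearMap.add_apply, hω.alt, zero_add, add_zero] at h
  linear_combination h

lemma nd' (hω : IsSymp ω) (x : V) (h : ∀ y, ω y x = 0) : x = 0 := by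
  refine hω.nd x fun y => ?_
  rw [swap hω, h, neg_zero]

lemma self_mem (s : V ≃ₗ[F] V) : (s : V →ₗ[F] V) ∈ alg s :=
  Algebra.subset_adjoin rfl

lemma alg_comm (s : V ≃ₗ[F] V) {a b : Module.End F V} (ha : a ∈ alg s) (hb : b ∈ alg s) :
    a * b = b * a := by
  rw [alg, Algebra.adjoin_singleton_eq_range_aeval] at ha hb
  obtain ⟨p, rfl⟩ := ha
  obtain ⟨r, rfl⟩ := hb
  rw [← map_mul, ← map_mul, mul_comm]

/-- an `s`-stable subspace is stable under `alg s` -/
lemma stable_alg (s : V ≃ₗ[F] V) (U : Submodule F V) (hU : ∀ u ∈ U, s u ∈ U)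
    {a : Module.End F V} (ha : a ∈ alg s) : ∀ u ∈ U, a u ∈ U := by
  induction ha using Algebra.adjoin_induction with
  | mem x hx =>
    rw [Set.mem_singleton_iff] at hx
    subst hx
    exact hU
  | algebraMap r =>
    intro u hu
    rw [Module.algebraMap_end_apply]
    exact U.smul_mem r hu
  | add x y _ _ hx hy =>
    intro u hu
    exact U.add_mem (hx u hu) (hy u hu)
  | mul x y _ _ hx hy =>
    intro u hu
    exact hx _ (hy u hu)

lemma ker_alg (s : V ≃ₗ[F] V) (hi : Irred s) {a : Module.End F V} (ha : a ∈ alg s)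
    (h0 : a ≠ 0) : LinearMap.ker a = ⊥ := by
  rcases hi (LinearMap.ker a) (fun u hu => by
    rw [LinearMap.mem_ker] at hu ⊢
    have h1 := alg_comm s ha (self_mem s)
    have h2 := congrArg (fun T : Module.End F V => T u) h1
    simp only [Module.End.mul_apply, LinearEquiv.coe_coe] at h2
    rw [h2, hu, map_zero]) with h | h
  · exact h
  · exact absurd (LinearMap.ker_eq_top.mp h) h0

lemma inj_alg (s : V ≃ₗ[F] V) (hi : Irred s) {a : Module.End F V} (ha : a ∈ alg s)
    (h0 : a ≠ 0) {x : V} (hx : a x = 0) : x = 0 := by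
  have := ker_alg s hi ha h0
  rw [LinearMap.ker_eq_bot'] at this
  exact this x hx

lemma exists_inv [Finite F] [Finite V] (s : V ≃ₗ[F] V) (hi : Irred s) {a : Module.End F V}
    (ha : a ∈ alg s) (h0 : a ≠ 0) : ∃ b ∈ alg s, a * b = 1 := by
  haveI : Finite (Module.End F V) :=
    Finite.of_injective (fun f : Module.End F V => (f : V → V)) DFunLike.coe_injective
  have hinj : Function.Injective (fun b : alg s => (⟨a, ha⟩ : alg s) * b) := by
    intro b c hbc
    have h1 : a * (b : Module.End F V) = a * (c : Module.End F V) := congrArg Subtype.val hbc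
    apply Subtype.ext
    ext x
    have h2 := congrArg (fun T : Module.End F V => T x) h1
    simp only [Module.End.mul_apply] at h2
    have h3 : a (b.1 x - c.1 x) = 0 := by rw [map_sub, h2, sub_self]
    exact sub_eq_zero.mp (inj_alg s hi ha h0 h3)
  obtain ⟨b, hb⟩ := Finite.surjective_of_injective hinj 1
  exact ⟨b.1, b.2, congrArg Subtype.val hb⟩

end Sing

open Sing

variable {F V : Type*} [Field F] [Finite F] [AddCommGroup V] [Module F V] [Finite V]
variable {ω : LinearMap.BilinForm F V}

/-- Z1 : for an irreducible `s ∈ Sp`, `F[s]` is a field of degree `dim V`, stable under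
adjoints. -/
theorem alg_field (hω : IsSymp ω) (hV : 0 < finrank F V) {s : V ≃ₗ[F] V} (hs : s ∈ Sp ω)
    (hi : Irred s) : IsField (alg s) ∧ finrank F (alg s) = finrank F V ∧ StarStable ω (alg s) := by
  classical
  haveI : Nontrivial V := Module.nontrivial_of_finrank_pos hV
  obtain ⟨v, hv⟩ := exists_ne (0 : V)
  refine ⟨?_, ?_, ?_⟩
  · refine ⟨⟨0, 1, ?_⟩, ?_, ?_⟩
    · intro h
      have h1 : (0 : Module.End F V) = 1 := congrArg Subtype.val h
      have h2 := congrArg (fun T : Module.End F V => T v) h1
      simp only [LinearMap.zero_apply, Module.End.one_apply] at h2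
      exact hv h2.symm
    · rintro ⟨a, ha⟩ ⟨b, hb⟩
      exact Subtype.ext (alg_comm s ha hb)
    · rintro ⟨a, ha⟩ h0
      have h0' : a ≠ 0 := fun h => h0 (Subtype.ext h)
      obtain ⟨b, hb, hab⟩ := exists_inv s hi ha h0'
      exact ⟨⟨b, hb⟩, Subtype.ext hab⟩
  · let f : alg s →ₗ[F] V :=
      { toFun := fun a => a.1 v
        map_add' := fun a b => rfl
        map_smul' := fun c a => rfl }
    have hf1 : Function.Injective f := by
      rw [← LinearMap.ker_eq_bot, LinearMap.ker_eq_bot']
      rintro ⟨a, ha⟩ h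
      by_contra h0
      have h0' : a ≠ 0 := fun h => h0 (Subtype.ext h)
      exact hv (inj_alg s hi ha h0' h)
    have hf2 : LinearMap.range f = ⊤ := by
      rcases hi (LinearMap.range f) (by
        rintro _ ⟨a, rfl⟩
        exact ⟨⟨(s : V →ₗ[F] V), self_mem s⟩ * a, rfl⟩) with h | h
      · exfalso
        rw [LinearMap.range_eq_bot] at h
        have h1 : f 1 = 0 := by rw [h]; rfl
        exact hv h1
      · exact h
    have := LinearMap.finrank_range_of_inj hf1
    rw [hf2, finrank_top] at this
    exact this.symm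
  · have hs0 : (s : V →ₗ[F] V) ≠ 0 := by
      intro h
      have h2 := congrArg (fun T : V →ₗ[F] V => T v) h
      simp only [LinearEquiv.coe_coe, LinearMap.zero_apply] at h2
      exact hv (by simpa using h2)
    obtain ⟨b, hb, hsb⟩ := exists_inv s hi (self_mem s) hs0
    have hsb' : ∀ y, s (b y) = y := fun y => congrArg (fun T : Module.End F V => T y) hsb
    intro a ha
    induction ha using Algebra.adjoin_induction with
    | mem x hx =>
      rw [Set.mem_singleton_iff] at hx
      subst hx
      refine ⟨b, hb, fun x y => ?_⟩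
      have := mem_Sp.mp hs x (b y)
      rw [hsb'] at this
      exact this
    | algebraMap r =>
      refine ⟨algebraMap F _ r, Subalgebra.algebraMap_mem _ r, fun x y => ?_⟩
      simp only [Module.algebraMap_end_apply, map_smul, LinearMap.smul_apply]
    | add x y _ _ hx hy =>
      obtain ⟨b1, h1, h1'⟩ := hx
      obtain ⟨b2, h2, h2'⟩ := hy
      refine ⟨b1 + b2, Subalgebra.add_mem _ h1 h2, fun u w => ?_⟩
      simp only [LinearMap.add_apply, map_add, h1', h2']
    | mul x y _ _ hx hy =>
      obtain ⟨b1, h1, h1'⟩ := hx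
      obtain ⟨b2, h2, h2'⟩ := hy
      refine ⟨b2 * b1, Subalgebra.mul_mem _ h2 h1, fun u w => ?_⟩
      simp only [Module.End.mul_apply, h1', h2']

/-- Z3 : the order of an irreducible element of `Sp` divides `q^m + 1`. -/
theorem orderOf_dvd (hω : IsSymp ω) (h2 : (2 : F) ≠ 0) {m : ℕ} (hm : finrank F V = 2 * m)
    (hm0 : 0 < m) (s : Sp ω) (hi : Irred s.1) : orderOf s ∣ Nat.card F ^ m + 1 := by
  classical
  obtain ⟨hfield, hdeg, hstar⟩ := alg_field hω (by omega) s.2 hi
  haveI : Finite (Module.End F V) :=
    Finite.of_injective (fun f : Module.End F V => (f : V → V)) DFunLike.coe_injective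
  haveI : Fintype F := Fintype.ofFinite F
  letI : Field (alg s.1) := hfield.toField
  -- the adjoint
  choose σ hσ1 hσ2 using fun a : alg s.1 => hstar a.1 a.2
  have uniq : ∀ b c : Module.End F V, (∀ x y, ω x (b y) = ω x (c y)) → b = c := by
    intro b c h
    ext y
    apply sub_eq_zero.mp
    apply nd' hω
    intro x
    rw [map_sub, h, sub_self]
  have hσadd : ∀ a b, σ (a + b) = σ a + σ b := by
    intro a b
    apply uniq
    intro x y
    rw [← hσ2, LinearMap.add_apply, map_add, ← hσ2, ← hσ2]
    simp
  have hσmul : ∀ a b, σ (a * b) = σ a * σ b := by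
    intro a b
    rw [alg_comm s.1 (hσ1 a) (hσ1 b)]
    apply uniq
    intro x y
    rw [← hσ2, Module.End.mul_apply, ← hσ2, ← hσ2]
    simp
  have hσalg : ∀ r : F, σ (algebraMap F (alg s.1) r) = algebraMap F (Module.End F V) r := by
    intro r
    apply uniq
    intro x y
    rw [← hσ2]
    simp [Module.algebraMap_end_apply]
  let τ : alg s.1 →ₐ[F] alg s.1 :=
    { toFun := fun a => ⟨σ a, hσ1 a⟩
      map_one' := by
        apply Subtype.ext
        have := hσalg 1
        simpa using this
      map_mul' := fun a b => Subtype.ext (hσmul a b)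
      map_zero' := by
        apply Subtype.ext
        have := hσalg 0
        simpa using this
      map_add' := fun a b => Subtype.ext (hσadd a b)
      commutes' := fun r => Subtype.ext (hσalg r) }
  haveI : Finite (alg s.1) := inferInstance
  obtain ⟨⟨n, hn⟩, hτn⟩ := (FiniteField.bijective_frobeniusAlgHom_pow F (alg s.1)).2 τ
  simp only at hτn
  have hfr : ∀ (k : ℕ) (a : alg s.1),
      (FiniteField.frobeniusAlgHom F (alg s.1) ^ k) a = a ^ (Fintype.card F ^ k) := by
    intro k a
    induction k generalizing a with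
    | zero => simp
    | succ k ih =>
      rw [pow_succ, AlgHom.mul_apply, ih, FiniteField.coe_frobeniusAlgHom, ← pow_mul, pow_succ']
  -- `τ² = 1`
  have hττ : τ * τ = 1 := by
    ext a
    have : σ (τ a) = a.1 := by
      apply uniq
      intro x y
      rw [← hσ2 (τ a) x y]
      change ω (σ a x) y = _
      rw [swap hω, ← hσ2, ← swap hω]
    rw [AlgHom.mul_apply]
    exact congrArg (fun T : Module.End F V => T _) this
  have hord := FiniteField.orderOf_frobeniusAlgHom F (alg s.1)
  have hdvd : 2 * m ∣ 2 * n := by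
    rw [← hm, ← hdeg, ← hord]
    apply orderOf_dvd_of_pow_eq_one
    rw [two_mul, pow_add, hτn, hττ]
  have hn2 : n < 2 * m := by rw [← hm, ← hdeg]; exact hn
  obtain ⟨c, hc⟩ := hdvd
  have hnc : n = m * c := by
    have : 2 * n = 2 * (m * c) := by rw [hc]; ring
    omega
  -- the relation `s* s = 1`
  let ss : alg s.1 := ⟨_, self_mem s.1⟩
  have hs1 : τ ss * ss = 1 := by
    apply Subtype.ext
    apply uniq
    intro x y
    change ω x (σ ss (s.1 y)) = ω x y
    rw [← hσ2]
    exact mem_Sp.mp s.2 x y
  have hnm : n = m := by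
    have hc2 : c < 2 := by
      by_contra hcon
      have : m * 2 ≤ m * c := Nat.mul_le_mul_left m (by omega)
      omega
    interval_cases c
    · exfalso
      rw [mul_zero] at hnc
      subst hnc
      rw [pow_zero] at hτn
      rw [← hτn] at hs1
      rw [AlgHom.one_apply] at hs1
      have hpm : ss = 1 ∨ ss = -1 := by
        rw [← mul_self_eq_one_iff]; exact hs1
      obtain ⟨c, hc⟩ : ∃ c : F, ∀ x, s.1 x = c • x := by
        rcases hpm with h | h
        · refine ⟨1, fun x => ?_⟩
          have h3 : (s.1 : V →ₗ[F] V) = (1 : Module.End F V) := congrArg Subtype.val h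
          have h4 := congrArg (fun T : V →ₗ[F] V => T x) h3
          simpa using h4
        · refine ⟨-1, fun x => ?_⟩
          have h3 : (s.1 : V →ₗ[F] V) = (-1 : Module.End F V) := congrArg Subtype.val h
          have h4 := congrArg (fun T : V →ₗ[F] V => T x) h3
          simpa using h4
      haveI : Nontrivial V := by
        apply Module.nontrivial_of_finrank_pos (R := F); omega
      obtain ⟨v, hv⟩ := exists_ne (0 : V)
      rcases hi (Submodule.span F {v}) (by
        intro u hu
        rw [hc]
        exact Submodule.smul_mem _ _ hu) with h | h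
      · exact hv (Submodule.span_singleton_eq_bot.mp h)
      · have h5 := finrank_span_singleton (K := F) hv
        rw [h, finrank_top] at h5
        omega
    · rw [hnc, mul_one]
  subst hnm
  apply orderOf_dvd_of_pow_eq_one
  have h6 : ss ^ (Nat.card F ^ n + 1) = 1 := by
    rw [pow_succ, Nat.card_eq_fintype_card, ← hfr, hτn]
    exact hs1
  have h7 : ∀ k : ℕ, ((ss ^ k : alg s.1) : Module.End F V) = ((s ^ k : Sp ω).1 : V →ₗ[F] V) := by
    intro k
    induction k with
    | zero => ext x; simp
    | succ k ih =>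
      rw [pow_succ, pow_succ]
      ext x
      have h8 := congrArg (fun T : Module.End F V => T (s.1 x)) ih
      exact h8
  apply Subtype.ext
  apply LinearEquiv.toLinearMap_injective
  have h9 := h7 (Nat.card F ^ n + 1)
  rw [h6] at h9
  rw [← h9]
  ext x
  simp

namespace Sing

section isometry

variable {F V M : Type*} [Field F] [Finite F] [AddCommGroup V] [Module F V] [Finite V]
  [AddCommGroup M] [Module F M] [Finite M]

omit [Finite F] [Finite V] in
lemma hyp_indep {ω : LinearMap.BilinForm F V} (hω : IsSymp ω) {m : ℕ}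
    (p : (Fin m → V) × (Fin m → V)) (hp : p ∈ HypFrame ω m) :
    LinearIndependent F (Sum.elim p.1 p.2) := by
  classical
  obtain ⟨h1, h2, h3⟩ := hp
  have h4 : ∀ i j, ω (p.2 i) (p.1 j) = if i = j then -1 else 0 := by
    intro i j
    rw [swap hω, h3]
    by_cases h : i = j
    · rw [if_pos h, if_pos h.symm]
    · rw [if_neg h, if_neg (fun h' => h h'.symm), neg_zero]
  rw [Fintype.linearIndependent_iff]
  intro g hg
  rw [Fintype.sum_sum_type] at hg
  simp only [Sum.elim_inl, Sum.elim_inr] at hg
  rintro (i | i)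
  · have h := congrArg (fun x => ω (p.2 i) x) hg
    simp only [map_add, map_sum, map_smul, h2, h4, map_zero,
      smul_eq_mul, mul_zero, Finset.sum_const_zero, add_zero, mul_ite, mul_neg, mul_one,
      Finset.sum_ite_eq, Finset.mem_univ, if_true] at h
    simpa using h
  · have h := congrArg (fun x => ω (p.1 i) x) hg
    simp only [map_add, map_sum, map_smul, h1, h3, map_zero,
      smul_eq_mul, mul_zero, Finset.sum_const_zero, zero_add, mul_ite, mul_one,
      Finset.sum_ite_eq, Finset.mem_univ, if_true] at h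
    simpa using h

/-- two symplectic spaces of the same dimension are isometric -/
lemma exists_isometry {ω : LinearMap.BilinForm F V} (hω : IsSymp ω)
    {B : LinearMap.BilinForm F M} (hB : IsSymp B) {m : ℕ} (hm : finrank F V = 2 * m)
    (hm' : finrank F M = 2 * m) (hm0 : 0 < m) :
    ∃ φ : V ≃ₗ[F] M, ∀ x y, B (φ x) (φ y) = ω x y := by
  classical
  obtain ⟨p, hp⟩ := exists_hyp hω hm le_rfl
  obtain ⟨r, hr⟩ := exists_hyp hB hm' le_rfl
  have hc : Fintype.card (Fin m ⊕ Fin m) = finrank F V := by
    rw [Fintype.card_sum, Fintype.card_fin]; omega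
  have hc' : Fintype.card (Fin m ⊕ Fin m) = finrank F M := by
    rw [Fintype.card_sum, Fintype.card_fin]; omega
  haveI : Nonempty (Fin m ⊕ Fin m) := ⟨Sum.inl ⟨0, hm0⟩⟩
  let b := basisOfLinearIndependentOfCardEqFinrank (hyp_indep hω p hp) hc
  let b' := basisOfLinearIndependentOfCardEqFinrank (hyp_indep hB r hr) hc'
  have hb : ∀ i, b i = Sum.elim p.1 p.2 i := by
    intro i; simp [b]
  have hb' : ∀ i, b' i = Sum.elim r.1 r.2 i := by
    intro i; simp [b']
  let g : V ≃ₗ[F] M := b.equiv b' (Equiv.refl _)
  have hg : ∀ i, g (b i) = b' i := by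
    intro i; simp [g, Basis.equiv_apply]
  refine ⟨g, ?_⟩
  have h4 : ∀ i j, ω (p.2 i) (p.1 j) = B (r.2 i) (r.1 j) := by
    intro i j
    rw [swap hω, swap hB, hp.2.2, hr.2.2]
  have : B.comp (g : V →ₗ[F] M) (g : V →ₗ[F] M) = ω := by
    apply LinearMap.BilinForm.ext_basis b
    intro i j
    rw [LinearMap.BilinForm.comp_apply, LinearEquiv.coe_coe, hg, hg]
    rcases i with i | i <;> rcases j with j | j <;>
      simp only [hb, hb', Sum.elim_inl, Sum.elim_inr]
    · rw [hp.1, hr.1]
    · rw [hp.2.2, hr.2.2]
    · rw [h4]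
    · rw [hp.2.1, hr.2.1]
  intro x y
  have := congrArg (fun B : LinearMap.BilinForm F V => B x y) this
  simpa using this

end isometry

section field

variable {F : Type*} [Field F] [Finite F]

/-- The model: a field `M` of degree `2m` with an alternating form invariant under an element
`ζ` of order `q^m+1` generating `M`. -/
lemma model_of (h2 : (2 : F) ≠ 0) {m : ℕ} (hm0 : 0 < m) (M : Type*) [Field M] [Finite M]
    [Algebra F M] (hfin : finrank F M = 2 * m) (conj : M ≃ₐ[F] M)
    (hconj : ∀ x : M, conj x = x ^ (Nat.card F ^ m)) :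
    ∃ (B : LinearMap.BilinForm F M) (ζ : M), IsSymp B ∧
      orderOf ζ = Nat.card F ^ m + 1 ∧ (∀ x y, B (ζ * x) (ζ * y) = B x y) ∧
      Algebra.adjoin F {ζ} = ⊤ := by
  classical
  haveI : Fintype F := Fintype.ofFinite F
  have hcard : Nat.card M = Nat.card F ^ (2 * m) := by
    rw [Module.natCard_eq_pow_finrank (K := F) (V := M), hfin]
  have hq : 1 < Nat.card F := Finite.one_lt_card
  set Q := Nat.card F ^ m with hQ
  have hQ1 : 1 < Q := Nat.one_lt_pow (by omega) hq
  have hcard2 : Nat.card M = Q * Q := by rw [hcard, two_mul, pow_add]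
  haveI : Fintype M := Fintype.ofFinite M
  -- the generator
  obtain ⟨g, hg⟩ := IsCyclic.exists_ofOrder_eq_natCard (α := Mˣ)
  have hu : Nat.card Mˣ = Q * Q - 1 := by rw [Nat.card_units, hcard2]
  have hfac : Q * Q - 1 = (Q - 1) * (Q + 1) := by
    obtain ⟨t, ht⟩ : ∃ t, Q = t + 1 := ⟨Q - 1, by omega⟩
    rw [ht]
    simp only [Nat.add_sub_cancel]
    have : (t + 1) * (t + 1) = t * (t + 1 + 1) + 1 := by ring
    omega
  set z : Mˣ := g ^ (Q - 1) with hz
  have hzo : orderOf z = Q + 1 := by
    rw [hz, orderOf_pow_of_dvd (by omega) (by rw [hg, hu, hfac]; exact dvd_mul_right _ _), hg, hu,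
      hfac]
    exact Nat.mul_div_cancel_left _ (by omega)
  have hcc : ∀ x : M, conj (conj x) = x := by
    intro x
    rw [hconj, hconj, ← pow_mul, ← hcard2, Nat.card_eq_fintype_card, FiniteField.pow_card]
  let ζ : M := (z : M)
  have hζo : orderOf ζ = Q + 1 := by rw [orderOf_units, hzo]
  have hζ0 : ζ ≠ 0 := z.ne_zero
  have hζc : ζ * conj ζ = 1 := by
    rw [hconj, ← pow_succ', ← hζo, pow_orderOf_eq_one]
  -- epsilon
  let ε : M := ζ - conj ζ
  have hεc : conj ε = - ε := by
    simp only [ε, map_sub, hcc]; ring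
  have hε0 : ε ≠ 0 := by
    intro h
    have h3 : ζ = conj ζ := sub_eq_zero.mp h
    rw [← h3, ← sq] at hζc
    have h4 := orderOf_dvd_of_pow_eq_one hζc
    rw [hζo] at h4
    have := Nat.le_of_dvd (by norm_num) h4
    omega
  -- the form
  haveI : FiniteDimensional F M := FiniteDimensional.of_finrank_pos (by omega)
  let B : LinearMap.BilinForm F M :=
    (Algebra.traceForm F M).comp (LinearMap.mulLeft F ε) (conj : M →ₐ[F] M).toLinearMap
  have hB : ∀ x y, B x y = Algebra.trace F M (ε * x * conj y) := fun x y => rfl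
  refine ⟨B, ζ, ⟨?_, ?_⟩, hζo, ?_, ?_⟩
  · intro x
    have h3 : Algebra.trace F M (conj (ε * x * conj x)) = Algebra.trace F M (ε * x * conj x) :=
      Algebra.trace_eq_of_algEquiv conj _
    have h4 : conj (ε * x * conj x) = - (ε * x * conj x) := by
      rw [map_mul, map_mul, hcc, hεc]; ring
    rw [h4, map_neg] at h3
    rw [hB]
    have : 2 * Algebra.trace F M (ε * x * conj x) = 0 := by linear_combination -h3
    exact (mul_eq_zero.mp this).resolve_left h2
  · intro x hx
    have hnd := traceForm_nondegenerate F M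
    have h3 : ε * x = 0 := by
      apply hnd.1
      intro y
      have := hx (conj y)
      rw [hB, hcc] at this
      exact this
    exact (mul_eq_zero.mp h3).resolve_left hε0
  · intro x y
    rw [hB, hB, map_mul conj]
    have : ε * (ζ * x) * (conj ζ * conj y) = ε * x * conj y := by
      linear_combination (ε * x * conj y) * hζc
    rw [this]
  · have h3 : IntermediateField.adjoin F {ζ} = ⊤ := by
      set K := IntermediateField.adjoin F {ζ} with hK
      have hζK : ζ ∈ K := IntermediateField.mem_adjoin_simple_self F ζ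
      have hd : finrank F K ∣ 2 * m := by
        rw [← hfin]; exact ⟨_, (finrank_mul_finrank F K M).symm⟩
      have hKc : Nat.card K = Nat.card F ^ finrank F K :=
        Module.natCard_eq_pow_finrank (K := F) (V := K)
      have h4 : (⟨ζ, hζK⟩ : K) ^ (Nat.card K - 1) = 1 := by
        haveI : Fintype K := Fintype.ofFinite K
        rw [Nat.card_eq_fintype_card]
        apply FiniteField.pow_card_sub_one_eq_one
        intro h
        exact hζ0 (congrArg Subtype.val h)
      have h5 : ζ ^ (Nat.card K - 1) = 1 := congrArg Subtype.val h4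
      have h6 := orderOf_dvd_of_pow_eq_one h5
      rw [hζo, hKc] at h6
      have hd0 : 0 < finrank F K := Module.finrank_pos
      have h7 : 1 < Nat.card F ^ finrank F K := Nat.one_lt_pow (by omega) hq
      have h8 := Nat.le_of_dvd (by omega) h6
      have h9 : Nat.card F ^ m < Nat.card F ^ finrank F K := by omega
      have h10 : m < finrank F K := (Nat.pow_lt_pow_iff_right hq).mp h9
      have h11 : finrank F K = 2 * m := by
        obtain ⟨c, hc⟩ := hd
        have hc2 : c < 2 := by
          by_contra hcon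
          have : finrank F K * 2 ≤ finrank F K * c := Nat.mul_le_mul_left _ (by omega)
          omega
        interval_cases c <;> omega
      apply IntermediateField.eq_of_le_of_finrank_le le_top
      rw [IntermediateField.finrank_top', hfin, h11]
    have h4 := IntermediateField.adjoin_simple_toSubalgebra_of_isAlgebraic
      (Algebra.IsAlgebraic.isAlgebraic (R := F) ζ)
    rw [← h4, h3]
    rfl

lemma exists_model (h2 : (2 : F) ≠ 0) {m : ℕ} (hm0 : 0 < m) :
    ∃ (M : Type) (_ : Field M) (_ : Finite M) (_ : Algebra F M)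
      (B : LinearMap.BilinForm F M) (ζ : M), finrank F M = 2 * m ∧ IsSymp B ∧
      orderOf ζ = Nat.card F ^ m + 1 ∧ (∀ x y, B (ζ * x) (ζ * y) = B x y) ∧
      Algebra.adjoin F {ζ} = ⊤ := by
  obtain ⟨p, hpF⟩ := CharP.exists F
  haveI : Fact p.Prime := ⟨CharP.char_is_prime F p⟩
  haveI : NeZero (2 * m) := ⟨by omega⟩
  obtain ⟨B, ζ, h3, h4, h5, h6⟩ := model_of h2 hm0 (FiniteField.Extension F p (2 * m))
    (FiniteField.finrank_extension F p (2 * m)) (FiniteField.Extension.frob F p (2 * m) ^ m)
    (fun x => FiniteField.Extension.frob_iterate_apply F p (2 * m) m)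
  exact ⟨_, inferInstance, inferInstance, inferInstance, B, ζ,
    FiniteField.finrank_extension F p (2 * m), h3, h4, h5, h6⟩

end field

end Sing

/-- Z2 : Singer cycles exist. -/
theorem exists_singer (hω : IsSymp ω) (h2 : (2 : F) ≠ 0) {m : ℕ} (hm : finrank F V = 2 * m)
    (hm0 : 0 < m) : ∃ s : Sp ω, Irred s.1 ∧ orderOf s = Nat.card F ^ m + 1 := by
  classical
  obtain ⟨M, iM, iFin, iAlg, B, ζ, hfin, hB, hζo, hζB, hadj⟩ := exists_model (F := F) h2 hm0
  obtain ⟨φ, hφ⟩ := exists_isometry hω hB hm hfin hm0
  have hζ0 : ζ ≠ 0 := by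
    rintro rfl
    have h3 : orderOf (0 : M) = 0 := by
      rw [orderOf_eq_zero_iff']
      intro n hn
      rw [zero_pow hn.ne']
      exact zero_ne_one
    omega
  let mz : M ≃ₗ[F] M := LinearEquiv.smulOfNeZero M M ζ hζ0 |>.restrictScalars F
  have hmz : ∀ x, mz x = ζ * x := fun x => rfl
  let s₀ : V ≃ₗ[F] V := (φ.trans mz).trans φ.symm
  have hs₀ : ∀ x, s₀ x = φ.symm (ζ * φ x) := fun x => rfl
  have hsp : s₀ ∈ Sp ω := by
    rw [mem_Sp]
    intro x y
    rw [← hφ, hs₀, hs₀, LinearEquiv.apply_symm_apply, LinearEquiv.apply_symm_apply, hζB, hφ]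
  refine ⟨⟨s₀, hsp⟩, ?_, ?_⟩
  · intro U hU
    by_cases hU0 : U = ⊥
    · exact Or.inl hU0
    · right
      obtain ⟨u, hu, hu0⟩ := Submodule.exists_mem_ne_zero_of_ne_bot hU0
      have hmem : ∀ a : M, a ∈ Algebra.adjoin F {ζ} → ∀ x ∈ U, φ.symm (a * φ x) ∈ U := by
        intro a ha
        induction ha using Algebra.adjoin_induction with
        | mem x hx =>
          rw [Set.mem_singleton_iff] at hx
          subst hx
          exact hU
        | algebraMap r =>
          intro x hx
          rw [← Algebra.smul_def, map_smul, LinearEquiv.symm_apply_apply]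
          exact U.smul_mem r hx
        | add a b _ _ ha hb =>
          intro x hx
          rw [add_mul, map_add]
          exact U.add_mem (ha x hx) (hb x hx)
        | mul a b _ _ ha hb =>
          intro x hx
          have := ha _ (hb x hx)
          rwa [LinearEquiv.apply_symm_apply, ← mul_assoc] at this
      rw [eq_top_iff]
      intro y _
      have h0 : φ u ≠ 0 := by
        intro h
        exact hu0 (by simpa using h)
      have := hmem (φ y * (φ u)⁻¹) (by rw [hadj]; exact Algebra.mem_top) u hu
      rwa [mul_assoc, inv_mul_cancel₀ h0, mul_one, LinearEquiv.symm_apply_apply] at this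
  · rw [← hζo, orderOf_eq_orderOf_iff]
    have hpow : ∀ n : ℕ, ∀ x, ((⟨s₀, hsp⟩ : Sp ω) ^ n).1 x = φ.symm (ζ ^ n * φ x) := by
      intro n
      induction n with
      | zero => intro x; simp
      | succ n ih =>
        intro x
        rw [pow_succ, pow_succ]
        change ((⟨s₀, hsp⟩ : Sp ω) ^ n).1 (s₀ x) = _
        rw [ih, hs₀, LinearEquiv.apply_symm_apply, mul_assoc]
    intro n
    constructor
    · intro h
      have h3 := hpow n (φ.symm 1)
      rw [h, LinearEquiv.apply_symm_apply, mul_one] at h3
      have h4 := congrArg φ h3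
      simp only [LinearEquiv.apply_symm_apply] at h4
      rw [← h4]
      simp
    · intro h
      apply Subtype.ext
      apply LinearEquiv.ext
      intro x
      rw [hpow, h, one_mul, LinearEquiv.symm_apply_apply]
      rfl

end Pool.Agent.UD
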