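import Pool.Agent.UD.MatDefs
import Pool.Agent.UD.Main7
import Pool.Agent.UD.Final
import Pool.Agent.UD.Singer

/-!
# MP_65787c_al : transfer to matrices
-/

open Module Matrix

namespace Pool.Agent.UD.Mx

section
variable {m : ℕ} {F : Type*} [Field F]

/-- the natural module -/
abbrev NM (m : ℕ) (F : Type*) : Type _ := Fin m ⊕ Fin m → F

/-- the symplectic form -/
noncomputable def om (m : ℕ) (F : Type*) [Field F] : LinearMap.BilinForm F (NM m F) :=
  Matrix.toBilin' (Matrix.J (Fin m) F)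

lemma om_apply (x y : NM m F) : om m F x y = x ⬝ᵥ (Matrix.J (Fin m) F *ᵥ y) :=
  Matrix.toBilin'_apply' _ _ _

lemma om_symp (h2 : (2 : F) ≠ 0) : IsSymp (om m F) where
  alt x := by
    have h1 : om m F x x = - om m F x x := by
      rw [om_apply]
      conv_lhs => rw [Matrix.dotProduct_mulVec, ← Matrix.mulVec_transpose, Matrix.J_transpose,
        Matrix.neg_mulVec, neg_dotProduct, dotProduct_comm]
    have h3 : 2 * om m F x x = 0 := by linear_combination h1
    exact (mul_eq_zero.mp h3).resolve_left h2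
  nd x hx := by
    have h1 : ∀ y, x ⬝ᵥ y = 0 := by
      intro y
      have h := hx (Matrix.J (Fin m) F *ᵥ y)
      rw [om_apply, Matrix.mulVec_mulVec, Matrix.J_squared, Matrix.neg_mulVec, Matrix.one_mulVec,
        dotProduct_neg, neg_eq_zero] at h
      exact h
    exact dotProduct_eq_zero_iff.mp h1

lemma finrank_NM : finrank F (NM m F) = 2 * m := by
  rw [Module.finrank_fintype_fun_eq_card, Fintype.card_sum, Fintype.card_fin]
  ring

lemma inv_mul_val (g : Sp m F) : (g⁻¹).1 * g.1 = 1 := by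
  have := congrArg Subtype.val (inv_mul_cancel g)
  exact this

lemma mul_inv_val (g : Sp m F) : g.1 * (g⁻¹).1 = 1 := by
  have := congrArg Subtype.val (mul_inv_cancel g)
  exact this

/-- the linear automorphism of an element of `Sp(2m, F)` -/
noncomputable def toEq (g : Sp m F) : NM m F ≃ₗ[F] NM m F :=
  Matrix.toLin'OfInv (inv_mul_val g) (mul_inv_val g)

lemma toEq_apply (g : Sp m F) (x : NM m F) : toEq g x = g.1 *ᵥ x := rfl

lemma toEq_mem (g : Sp m F) : toEq g ∈ Pool.Agent.UD.Sp (om m F) := by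
  intro x y
  rw [toEq_apply, toEq_apply, om_apply, om_apply]
  have h := SymplecticGroup.mem_iff'.mp g.2
  conv_rhs => rw [← h]
  rw [← Matrix.mulVec_mulVec, ← Matrix.mulVec_mulVec]
  conv_rhs => rw [Matrix.dotProduct_mulVec, Matrix.vecMul_transpose]

/-- the homomorphism to the isometry group -/
noncomputable def phi (m : ℕ) (F : Type*) [Field F] : Sp m F →* Pool.Agent.UD.Sp (om m F) where
  toFun g := ⟨toEq g, toEq_mem g⟩
  map_one' := by
    apply Subtype.ext
    ext1 x
    change (1 : Mat m F) *ᵥ x = x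
    rw [Matrix.one_mulVec]
  map_mul' a b := by
    apply Subtype.ext
    ext1 x
    change (a.1 * b.1) *ᵥ x = a.1 *ᵥ (b.1 *ᵥ x)
    rw [Matrix.mulVec_mulVec]

lemma phi_apply (g : Sp m F) (x : NM m F) : (phi m F g).1 x = g.1 *ᵥ x := rfl


lemma phi_injective : Function.Injective (phi m F) := by
  intro a b h
  apply Subtype.ext
  have h1 : ∀ x : NM m F, a.1 *ᵥ x = b.1 *ᵥ x := by
    intro x
    rw [← phi_apply, ← phi_apply, h]
  apply Matrix.toLin'.injective
  ext1 i
  ext1
  simp only [LinearMap.comp_apply, Matrix.toLin'_apply]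
  rw [h1]

lemma phi_surjective : Function.Surjective (phi m F) := by
  intro γ
  set g : Mat m F := LinearMap.toMatrix' (γ.1 : NM m F →ₗ[F] NM m F) with hg
  have hgx : ∀ x, g *ᵥ x = γ.1 x := by
    intro x
    rw [hg, ← Matrix.toLin'_apply, Matrix.toLin'_toMatrix']
    rfl
  have hmem : g ∈ Matrix.symplecticGroup (Fin m) F := by
    rw [SymplecticGroup.mem_iff']
    apply (Matrix.toBilin' (R₁ := F) (n := Fin m ⊕ Fin m)).injective
    refine LinearMap.ext fun x => LinearMap.ext fun y => ?_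
    rw [Matrix.toBilin'_apply', ← Matrix.mulVec_mulVec, ← Matrix.mulVec_mulVec]
    rw [Matrix.dotProduct_mulVec, Matrix.vecMul_transpose, hgx, hgx]
    have := γ.2 x y
    rw [om_apply] at this
    exact this
  refine ⟨⟨g, hmem⟩, ?_⟩
  apply Subtype.ext
  ext1 x
  rw [phi_apply]
  exact hgx x

/-- operators from matrices -/
noncomputable def ee (m : ℕ) (F : Type*) [Field F] : Mat m F ≃ₐ[F] Module.End F (NM m F) :=
  Matrix.toLinAlgEquiv'

lemma ee_apply (X : Mat m F) (x : NM m F) : ee m F X x = X *ᵥ x :=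
  Matrix.toLinAlgEquiv'_apply X x

/-- the algebra of operators of an algebra of matrices -/
noncomputable def mp (A : Subalgebra F (Mat m F)) : Subalgebra F (Module.End F (NM m F)) :=
  A.map (ee m F : Mat m F →ₐ[F] Module.End F (NM m F))

lemma mem_mp {A : Subalgebra F (Mat m F)} {T : Module.End F (NM m F)} :
    T ∈ mp A ↔ ∃ X ∈ A, ee m F X = T := by
  simp [mp, Subalgebra.mem_map]

lemma ee_val (s : Sp m F) : ee m F s.1 = ((phi m F s).1 : NM m F →ₗ[F] NM m F) := by
  ext1 i
  ext1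
  simp only [LinearMap.comp_apply]
  rw [ee_apply]
  rfl

lemma mp_alg (s : Sp m F) : mp (alg s) = Pool.Agent.UD.alg (phi m F s).1 := by
  rw [mp, alg, AlgHom.map_adjoin, Set.image_singleton, Pool.Agent.UD.alg, ← ee_val]
  rfl

lemma finrank_mp (A : Subalgebra F (Mat m F)) : finrank F (mp A) = degree A := by
  have e := Subalgebra.equivMapOfInjective A (ee m F : Mat m F →ₐ[F] Module.End F (NM m F))
    (ee m F).injective
  exact (LinearEquiv.finrank_eq e.toLinearEquiv).symm

lemma cj_ee (g : Sp m F) (X : Mat m F) :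
    cj (phi m F g).1 (ee m F X) = ee m F (conjMat g X) := by
  ext1 i
  ext1
  simp only [LinearMap.comp_apply]
  rw [ee_apply, cj_apply, ee_apply, conjMat, ← Matrix.mulVec_mulVec, ← Matrix.mulVec_mulVec]
  rfl

lemma nrm_mp {g : Sp m F} {A : Subalgebra F (Mat m F)} (h : Normalises g A) :
    Nrm (phi m F g).1 (mp A) := by
  intro T hT
  obtain ⟨X, hX, rfl⟩ := mem_mp.mp hT
  rw [cj_ee]
  exact mem_mp.mpr ⟨_, h X hX, rfl⟩

/-- an isometry commuting with all isometries is `± 1` -/
lemma triv_of_central {V : Type*} [AddCommGroup V] [Module F V] {ω : LinearMap.BilinForm F V}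
    (hω : IsSymp ω) {γ : V ≃ₗ[F] V} (hγ : γ ∈ Pool.Agent.UD.Sp ω)
    (h : ∀ β ∈ Pool.Agent.UD.Sp ω, β * γ = γ * β) : Triv γ := by
  classical
  by_cases hV : ∀ v : V, v = 0
  · left
    intro v
    rw [hV (γ v), hV v]
  push Not at hV
  obtain ⟨v₀, hv₀⟩ := hV
  -- `γ u` is a multiple of `u`
  have h1 : ∀ u x : V, ω x u • γ u = ω (γ x) u • u := by
    intro u x
    have h2 := h _ (stv_mem hω u)
    have h3 := congrArg (fun f : V ≃ₗ[F] V => f x) h2
    simp only [LinearEquiv.mul_apply, stv_apply, map_add, map_smul] at h3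
    exact (add_left_cancel h3).symm
  have h2 : ∀ u : V, ∃ c : F, γ u = c • u := by
    intro u
    by_cases hu : u = 0
    · exact ⟨1, by rw [hu]; simp⟩
    · obtain ⟨y, hy⟩ : ∃ y, ω y u ≠ 0 := by
        by_contra hcon
        push Not at hcon
        apply hu
        apply hω.nd
        intro y
        rw [symp_neg hω, hcon, neg_zero]
      refine ⟨(ω y u)⁻¹ * ω (γ y) u, ?_⟩
      rw [mul_smul, ← h1 u y, smul_smul, inv_mul_cancel₀ hy, one_smul]
  obtain ⟨c, hc⟩ := h2 v₀
  -- the same scalar for all vectors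
  have h3 : ∀ u, γ u = c • u := by
    intro u
    obtain ⟨d, hd⟩ := h2 u
    obtain ⟨y, hy⟩ : ∃ y, ω v₀ y ≠ 0 := by
      by_contra hcon
      push Not at hcon
      exact hv₀ (hω.nd v₀ hcon)
    by_cases hu : u = 0
    · rw [hu]; simp
    obtain ⟨z, hz⟩ : ∃ z, ω u z ≠ 0 := by
      by_contra hcon
      push Not at hcon
      exact hu (hω.nd u hcon)
    -- compare with a vector pairing nontrivially with both
    have key : ∀ a b : V, ω a b ≠ 0 → ∀ ca cb : F, γ a = ca • a → γ b = cb • b →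
        ca * cb = 1 := by
      intro a b hab ca cb ha hb
      have h4 := hγ a b
      rw [ha, hb, map_smul, map_smul, LinearMap.smul_apply, smul_eq_mul, smul_eq_mul] at h4
      have h5 : (ca * cb - 1) * ω a b = 0 := by linear_combination h4
      rcases mul_eq_zero.mp h5 with h6 | h6
      · linear_combination h6
      · exact absurd h6 hab
    -- find w with ω v₀ w ≠ 0 and ω u w ≠ 0
    obtain ⟨w, hw1, hw2⟩ : ∃ w, ω v₀ w ≠ 0 ∧ ω u w ≠ 0 := by
      by_cases h5 : ω u y ≠ 0
      · exact ⟨y, hy, h5⟩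
      · push Not at h5
        by_cases h6 : ω v₀ z ≠ 0
        · exact ⟨z, h6, hz⟩
        · push Not at h6
          refine ⟨y + z, ?_, ?_⟩
          · rw [map_add, h6, add_zero]; exact hy
          · rw [map_add, h5, zero_add]; exact hz
    obtain ⟨e, he⟩ := h2 w
    have k1 := key v₀ w hw1 c e hc he
    have k2 := key u w hw2 d e hd he
    have he0 : e ≠ 0 := by
      rintro rfl
      simp at k1
    have hcd : d = c := by
      have : (d - c) * e = 0 := by linear_combination k2 - k1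
      rcases mul_eq_zero.mp this with h6 | h6
      · linear_combination h6
      · exact absurd h6 he0
    rw [hd, hcd]
  have h4 : c * c = 1 := by
    obtain ⟨y, hy⟩ : ∃ y, ω v₀ y ≠ 0 := by
      by_contra hcon
      push Not at hcon
      exact hv₀ (hω.nd v₀ hcon)
    have h5 := hγ v₀ y
    rw [h3, h3, map_smul, map_smul, LinearMap.smul_apply, smul_eq_mul, smul_eq_mul] at h5
    have h6 : (c * c - 1) * ω v₀ y = 0 := by linear_combination h5
    rcases mul_eq_zero.mp h6 with h7 | h7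
    · linear_combination h7
    · exact absurd h7 hy
  rcases mul_self_eq_one_iff.mp h4 with h5 | h5
  · left
    intro v
    rw [h3, h5, one_smul]
  · right
    intro v
    rw [h3, h5, neg_smul, one_smul]

lemma triv_of_center (h2 : (2 : F) ≠ 0) {z : Sp m F} (hz : z ∈ Subgroup.center (Sp m F)) :
    Triv (phi m F z).1 := by
  apply triv_of_central (om_symp h2) (phi m F z).2
  intro β hβ
  obtain ⟨b, hb⟩ := phi_surjective (m := m) (F := F) ⟨β, hβ⟩
  have h1 := Subgroup.mem_center_iff.mp hz b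
  have h2 := congrArg (fun x => (phi m F x).1) h1
  simp only [map_mul, hb] at h2
  exact h2

lemma center_of_triv {a : Sp m F} (ha : Triv (phi m F a).1) : a ∈ Subgroup.center (Sp m F) := by
  rw [Subgroup.mem_center_iff]
  intro b
  apply phi_injective
  apply Subtype.ext
  ext1 x
  rw [map_mul, map_mul]
  change (phi m F b).1 ((phi m F a).1 x) = (phi m F a).1 ((phi m F b).1 x)
  rcases ha with h | h
  · rw [h, h]
  · rw [h, h, map_neg]

lemma toPSp_eq_one {a : Sp m F} (ha : Triv (phi m F a).1) : toPSp a = 1 :=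
  (QuotientGroup.eq_one_iff a).mpr (center_of_triv ha)

lemma cj_of_center (h2 : (2 : F) ≠ 0) {z : Sp m F} (hz : z ∈ Subgroup.center (Sp m F))
    (T : Module.End F (NM m F)) : cj (phi m F z).1 T = T :=
  cj_of_triv (triv_of_center h2 hz) T

lemma toPSp_mul (a b : Sp m F) : toPSp (a * b) = toPSp a * toPSp b := rfl

lemma toPSp_inv (a : Sp m F) : toPSp a⁻¹ = (toPSp a)⁻¹ := rfl

/-- the main step: an element that is not bad separates -/
lemma trivialMeets_of (h2 : (2 : F) ≠ 0) {s g : Sp m F}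
    (hg : ∀ A B : Subalgebra F (Module.End F (NM m F)), A ≤ Pool.Agent.UD.alg (phi m F s).1 →
      B ≤ Pool.Agent.UD.alg (phi m F s).1 → (finrank F A).Prime → (finrank F B).Prime →
      phi m F g ∉ Bad (om m F) A B) : TrivialMeets s (toPSp g) := by
  rintro A B ⟨hA, hAp⟩ ⟨hB, hBp⟩ x ⟨a, rfl, ha⟩ ⟨b, hb, hbn⟩
  have hle : ∀ C : Subalgebra F (Mat m F), C ≤ alg s →
      mp C ≤ Pool.Agent.UD.alg (phi m F s).1 := by
    intro C hC
    rw [← mp_alg]
    exact Subalgebra.map_mono hC
  by_contra hne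
  apply hg (mp A) (mp B) (hle A hA) (hle B hB) (by rw [finrank_mp]; exact hAp)
    (by rw [finrank_mp]; exact hBp)
  refine ⟨(phi m F a).1, (phi m F a).2, nrm_mp ha, ?_, fun h => hne (toPSp_eq_one h)⟩
  -- `g⁻¹ a g = b z`
  have h1 : toPSp b = toPSp (g⁻¹ * a * g) := by
    rw [hb, toPSp_mul, toPSp_mul, toPSp_inv]
  have hz : b⁻¹ * (g⁻¹ * a * g) ∈ Subgroup.center (Sp m F) := QuotientGroup.eq.mp h1
  intro T hT
  obtain ⟨T₀, hT₀, rfl⟩ := mem_cjA.mp hT
  have e1 : cj (phi m F a).1 (cj (phi m F g).1 T₀) =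
      cj (phi m F g).1 (cj (phi m F b).1 (cj (phi m F (b⁻¹ * (g⁻¹ * a * g))).1 T₀)) := by
    rw [← mul_cj, ← mul_cj, ← mul_cj]
    congr 1
    rw [← Subgroup.coe_mul, ← Subgroup.coe_mul, ← Subgroup.coe_mul, ← map_mul, ← map_mul,
      ← map_mul]
    congr 2
    group
  rw [e1, cj_of_center h2 hz]
  exact mem_cjA.mpr ⟨_, nrm_mp hbn T₀ hT₀, rfl⟩

end

/-- generic lemma: total dominating pairs -/
lemma tds_generic {G : Type*} [Group G] [Finite G] {s g : G} (hs : s ≠ 1) {H : Set (Set G)}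
    (hmax : ∀ M : Subgroup G, IsCoatom M → s ∈ M → (M : Set G) ∈ H)
    (hint : ∀ A ∈ H, ∀ B ∈ H, ∀ x ∈ A, g⁻¹ * x * g ∈ B → x = 1) :
    TotalDominating {s, g * s * g⁻¹} := by
  refine ⟨?_, ?_⟩
  · intro t ht
    rcases ht with rfl | ht
    · exact hs
    · rw [Set.mem_singleton_iff] at ht
      rw [ht]
      intro h
      apply hs
      have : s = g⁻¹ * (g * s * g⁻¹) * g := by group
      rw [this, h]
      group
  · intro x hx
    by_contra hcon
    push Not at hcon
    have h1 := hcon s (Or.inl rfl)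
    have h2 := hcon (g * s * g⁻¹) (Or.inr rfl)
    obtain ⟨M₁, hM₁, hle₁⟩ := (eq_top_or_exists_le_coatom (Subgroup.closure {x, s})).resolve_left h1
    obtain ⟨M₂, hM₂, hle₂⟩ :=
      (eq_top_or_exists_le_coatom (Subgroup.closure {x, g * s * g⁻¹})).resolve_left h2
    have hx1 : x ∈ M₁ := hle₁ (Subgroup.subset_closure (Or.inl rfl))
    have hs1 : s ∈ M₁ := hle₁ (Subgroup.subset_closure (Or.inr rfl))
    have hx2 : x ∈ M₂ := hle₂ (Subgroup.subset_closure (Or.inl rfl))
    have hs2 : g * s * g⁻¹ ∈ M₂ := hle₂ (Subgroup.subset_closure (Or.inr rfl))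
    have hM₃ : IsCoatom (M₂.map (MulAut.conj g⁻¹).toMonoidHom) := by
      exact ((MulEquiv.mapSubgroup (MulAut.conj g⁻¹)).isCoatom_iff M₂).mpr hM₂
    have hs3 : s ∈ M₂.map (MulAut.conj g⁻¹).toMonoidHom := by
      refine ⟨g * s * g⁻¹, hs2, ?_⟩
      change g⁻¹ * (g * s * g⁻¹) * g⁻¹⁻¹ = s
      group
    have hx3 : g⁻¹ * x * g ∈ M₂.map (MulAut.conj g⁻¹).toMonoidHom := by
      refine ⟨x, hx2, ?_⟩
      change g⁻¹ * x * g⁻¹⁻¹ = g⁻¹ * x * g
      rw [inv_inv]
    exact hx (hint _ (hmax M₁ hM₁ hs1) _ (hmax _ hM₃ hs3) x hx1 hx3)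

end Pool.Agent.UD.Mx
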