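import Pool.Agent.UD.Subfields
import Pool.Agent.UD.Frames

/-!
# Block E : upper bounds for the sets `Y`
-/

open Module

namespace Pool.Agent.UD.Yu

open Pool.Agent.UD.Sf

variable {F V : Type*} [Field F] [AddCommGroup V] [Module F V]

open Classical in
/-- a chosen vector outside `U` -/
noncomputable def pick (U : Submodule F V) : V := if h : ∃ v, v ∉ U then h.choose else 0

lemma pick_notMem {U : Submodule F V} (h : U ≠ ⊤) : pick U ∉ U := by
  have h1 : ∃ v, v ∉ U := by
    by_contra hcon
    push Not at hcon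
    exact h (eq_top_iff.2 fun x _ => hcon x)
  unfold pick
  rw [dif_pos h1]
  exact h1.choose_spec

/-- the subspace `A w` -/
def orb (A : Subalgebra F (Module.End F V)) (w : V) : Submodule F V :=
  (Subalgebra.toSubmodule A).map (LinearMap.applyₗ w)

lemma mem_orb {A : Subalgebra F (Module.End F V)} {w x : V} :
    x ∈ orb A w ↔ ∃ a ∈ A, a w = x := by
  simp [orb, Submodule.mem_map]

lemma finrank_orb_le [FiniteDimensional F V] (A : Subalgebra F (Module.End F V)) (w : V) :
    finrank F (orb A w) ≤ finrank F A :=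
  Submodule.finrank_map_le _ _

/-- the subspaces spanned by the first vectors of the construction -/
noncomputable def sub (A : Subalgebra F (Module.End F V)) (J : Module.End F V) :
    ℕ → Submodule F V
  | 0 => ⊥
  | l + 1 => sub A J l ⊔ (orb A (pick (sub A J l)) ⊔ orb A (J (pick (sub A J l))))

lemma sub_succ (A : Subalgebra F (Module.End F V)) (J : Module.End F V) (l : ℕ) :
    sub A J (l + 1) = sub A J l ⊔ (orb A (pick (sub A J l)) ⊔ orb A (J (pick (sub A J l)))) := rfl

lemma sub_congr {A : Subalgebra F (Module.End F V)} {J J' : Module.End F V} (l : ℕ)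
    (h : ∀ i < l, J (pick (sub A J i)) = J' (pick (sub A J' i))) : sub A J l = sub A J' l := by
  induction l with
  | zero => rfl
  | succ l ih =>
    have h1 := ih fun i hi => h i (by omega)
    have h2 := h l (by omega)
    rw [sub_succ, sub_succ, h2, h1]

lemma sub_mono {A : Subalgebra F (Module.End F V)} {J : Module.End F V} {i l : ℕ} (h : i ≤ l) :
    sub A J i ≤ sub A J l := by
  induction l with
  | zero =>
    have : i = 0 := by omega
    rw [this]
  | succ l ih =>
    rcases Nat.lt_or_ge i (l + 1) with h1 | h1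
    · exact (ih (by omega)).trans le_sup_left
    · have : i = l + 1 := by omega
      rw [this]

lemma orb_pick_le {A : Subalgebra F (Module.End F V)} {J : Module.End F V} {i l : ℕ} (h : i < l) :
    orb A (pick (sub A J i)) ≤ sub A J l := by
  refine le_trans ?_ (sub_mono (i := i + 1) h)
  rw [sub_succ]
  exact le_sup_left.trans le_sup_right

lemma orb_Jpick_le {A : Subalgebra F (Module.End F V)} {J : Module.End F V} {i l : ℕ} (h : i < l) :
    orb A (J (pick (sub A J i))) ≤ sub A J l := by
  refine le_trans ?_ (sub_mono (i := i + 1) h)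
  rw [sub_succ]
  exact le_sup_right.trans le_sup_right

lemma finrank_sub_le [FiniteDimensional F V] (A : Subalgebra F (Module.End F V))
    (J : Module.End F V) (l : ℕ) : finrank F (sub A J l) ≤ 2 * finrank F A * l := by
  induction l with
  | zero =>
    change finrank F (⊥ : Submodule F V) ≤ _
    rw [finrank_bot]
    exact Nat.zero_le _
  | succ l ih =>
    rw [sub_succ]
    refine (Submodule.finrank_add_le_finrank_add_finrank _ _).trans ?_
    have h1 := Submodule.finrank_add_le_finrank_add_finrank (orb A (pick (sub A J l)))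
      (orb A (J (pick (sub A J l))))
    have h2 := finrank_orb_le A (pick (sub A J l))
    have h3 := finrank_orb_le A (J (pick (sub A J l)))
    have h4 : 2 * finrank F A * (l + 1) = 2 * finrank F A * l + 2 * finrank F A := by ring
    omega

lemma sub_stable {A : Subalgebra F (Module.End F V)} {J : Module.End F V} {δ : F}
    (hc : ∀ a ∈ A, ∀ x, J (a x) = a (J x)) (hJ2 : ∀ x, J (J x) = δ • x) (l : ℕ) :
    (∀ a ∈ A, ∀ x ∈ sub A J l, a x ∈ sub A J l) ∧ ∀ x ∈ sub A J l, J x ∈ sub A J l := by
  have horb : ∀ w, ∀ a ∈ A, ∀ x ∈ orb A w, a x ∈ orb A w := by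
    intro w a ha x hx
    obtain ⟨b, hb, rfl⟩ := mem_orb.1 hx
    exact mem_orb.2 ⟨a * b, A.mul_mem ha hb, rfl⟩
  induction l with
  | zero =>
    simp only [sub, Submodule.mem_bot, forall_eq, map_zero, implies_true, and_self]
  | succ l ih =>
    rw [sub_succ]
    constructor
    · intro a ha x hx
      obtain ⟨x1, h1, x2, h2, rfl⟩ := Submodule.mem_sup.1 hx
      obtain ⟨x3, h3, x4, h4, rfl⟩ := Submodule.mem_sup.1 h2
      rw [map_add, map_add]
      refine Submodule.add_mem_sup (ih.1 a ha x1 h1) (Submodule.add_mem_sup ?_ ?_)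
      · exact horb _ a ha x3 h3
      · exact horb _ a ha x4 h4
    · intro x hx
      obtain ⟨x1, h1, x2, h2, rfl⟩ := Submodule.mem_sup.1 hx
      obtain ⟨x3, h3, x4, h4, rfl⟩ := Submodule.mem_sup.1 h2
      obtain ⟨a, ha, rfl⟩ := mem_orb.1 h3
      obtain ⟨b, hb, rfl⟩ := mem_orb.1 h4
      rw [map_add, map_add, hc a ha, hc b hb, hJ2, add_comm (a _)]
      refine Submodule.add_mem_sup (ih.2 x1 h1) (Submodule.add_mem_sup ?_ ?_)
      · exact mem_orb.2 ⟨δ • b, A.smul_mem hb δ, by simp⟩
      · exact mem_orb.2 ⟨a, ha, rfl⟩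

/-- inverses of `a + b J` -/
lemma exists_inv [Finite V] {A : Subalgebra F (Module.End F V)} (hA : IsField A)
    (hodd : Odd (finrank F A)) {J : Module.End F V} {δ : F} (hδ : ¬ IsSquare δ)
    (hc : ∀ a ∈ A, ∀ x, J (a x) = a (J x)) (hJ2 : ∀ x, J (J x) = δ • x)
    {a b : Module.End F V} (ha : a ∈ A) (hb : b ∈ A) (h : ¬ (a = 0 ∧ b = 0)) :
    ∃ p ∈ A, ∃ r ∈ A, ∀ x, p (a x + b (J x)) + r (J (a x + b (J x))) = x := by
  have hcomm : ∀ c ∈ A, ∀ d ∈ A, ∀ x, c (d x) = d (c x) := by
    intro c hc d hd x
    have h1 := hA.mul_comm ⟨c, hc⟩ ⟨d, hd⟩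
    have h2 : c * d = d * c := congrArg (fun z : A => (z : Module.End F V)) h1
    exact LinearMap.congr_fun h2 x
  have hinv : ∀ c ∈ A, c ≠ 0 → ∃ d ∈ A, ∀ x, d (c x) = x := by
    intro c hc h0
    obtain ⟨⟨d, hd⟩, h1⟩ := hA.mul_inv_cancel (a := ⟨c, hc⟩) (by
      intro h2
      exact h0 (congrArg (fun z : A => (z : Module.End F V)) h2))
    refine ⟨d, hd, fun x => ?_⟩
    have h2 : c * d = 1 := congrArg (fun z : A => (z : Module.End F V)) h1
    rw [← hcomm c hc d hd]
    exact LinearMap.congr_fun h2 x
  set n : Module.End F V := a * a - δ • (b * b) with hn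
  have hnA : n ∈ A := A.sub_mem (A.mul_mem ha ha) (A.smul_mem (A.mul_mem hb hb) δ)
  have hn0 : n ≠ 0 := by
    intro hn0
    have h1 : ∀ x, a (a x) = δ • b (b x) := by
      intro x
      have h2 := LinearMap.congr_fun hn0 x
      simp only [hn, LinearMap.sub_apply, Module.End.mul_apply, LinearMap.smul_apply,
        LinearMap.zero_apply] at h2
      exact sub_eq_zero.1 h2
    by_cases hb0 : b = 0
    · apply h
      refine ⟨?_, hb0⟩
      by_contra ha0
      obtain ⟨d, -, hd⟩ := hinv a ha ha0
      apply ha0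
      ext x
      have h2 := h1 x
      rw [hb0] at h2
      simp only [LinearMap.zero_apply, smul_zero] at h2
      have h3 := hd (a x)
      rw [h2, map_zero] at h3
      rw [LinearMap.zero_apply]
      exact h3.symm
    · obtain ⟨d, hdA, hd⟩ := hinv b hb hb0
      refine nonsq_of_odd hA hodd hδ (A.mul_mem ha hdA) (c := a * d) fun x => ?_
      change a (d (a (d x))) = δ • x
      rw [← hcomm a ha d hdA, h1, hcomm b hb d hdA (d x), hd, hcomm b hb d hdA x, hd]
  obtain ⟨n', hn'A, hn'⟩ := hinv n hnA hn0
  refine ⟨n' * a, A.mul_mem hn'A ha, -(n' * b), A.neg_mem (A.mul_mem hn'A hb), fun x => ?_⟩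
  have h3 : n x = a (a x) - δ • b (b x) := rfl
  have h4 := hn' x
  rw [h3] at h4
  simp only [Module.End.mul_apply, LinearMap.neg_apply, map_add]
  rw [hc a ha, hc b hb, hJ2, map_smul, map_smul, map_smul, hcomm b hb a ha]
  rw [map_sub, map_smul] at h4
  calc _ = n' (a (a x)) - δ • n' (b (b x)) := by module
    _ = x := by simpa using h4

/-- independence of the chosen vectors, in terms of coefficients -/
lemma indep_coeff [Finite V] {A : Subalgebra F (Module.End F V)} (hA : IsField A)
    (hodd : Odd (finrank F A)) {J : Module.End F V} {δ : F} (hδ : ¬ IsSquare δ)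
    (hc : ∀ a ∈ A, ∀ x, J (a x) = a (J x)) (hJ2 : ∀ x, J (J x) = δ • x) {k : ℕ}
    (hV : finrank F V = 2 * finrank F A * k) (a b : ℕ → Module.End F V) (ha : ∀ i, a i ∈ A)
    (hb : ∀ i, b i ∈ A) (l : ℕ) (hl : l ≤ k)
    (h : ∑ i ∈ Finset.range l, (a i (pick (sub A J i)) + b i (J (pick (sub A J i)))) = 0) :
    ∀ i < l, a i = 0 ∧ b i = 0 := by
  have : FiniteDimensional F V := Module.Finite.of_finite
  induction l with
  | zero =>
    intro i hi
    omega
  | succ l ih =>
    rw [Finset.sum_range_succ] at h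
    have key : a l = 0 ∧ b l = 0 := by
      by_contra hne
      obtain ⟨p, hp, r, hr, hpr⟩ := exists_inv hA hodd hδ hc hJ2 (ha l) (hb l) hne
      have h1 := hpr (pick (sub A J l))
      have h2 : a l (pick (sub A J l)) + b l (J (pick (sub A J l))) ∈ sub A J l := by
        have h3 : a l (pick (sub A J l)) + b l (J (pick (sub A J l))) =
            -∑ i ∈ Finset.range l, (a i (pick (sub A J i)) + b i (J (pick (sub A J i)))) :=
          eq_neg_of_add_eq_zero_right h
        rw [h3]
        refine Submodule.neg_mem _ (Submodule.sum_mem _ fun i hi => ?_)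
        rw [Finset.mem_range] at hi
        refine Submodule.add_mem _ ?_ ?_
        · exact orb_pick_le hi (mem_orb.2 ⟨a i, ha i, rfl⟩)
        · exact orb_Jpick_le hi (mem_orb.2 ⟨b i, hb i, rfl⟩)
      have hst := sub_stable hc hJ2 l
      have h4 : pick (sub A J l) ∈ sub A J l := by
        rw [← h1]
        exact Submodule.add_mem _ (hst.1 p hp _ h2) (hst.1 r hr _ (hst.2 _ h2))
      refine pick_notMem ?_ h4
      intro htop
      have h5 := finrank_sub_le A J l
      rw [htop, finrank_top, hV] at h5
      have h6 : 0 < finrank F A := hodd.pos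
      have h7 : 2 * finrank F A * l < 2 * finrank F A * k := by
        apply Nat.mul_lt_mul_of_pos_left (by omega) (by omega)
      omega
    intro i hi
    rcases Nat.lt_or_ge i l with h1 | h1
    · refine ih (by omega) ?_ i h1
      rw [key.1, key.2] at h
      simpa using h
    · have : i = l := by omega
      rw [this]
      exact key

/-- the family of the first `l` chosen vectors -/
noncomputable def fam {ι : Type*} (A : Subalgebra F (Module.End F V)) (b : ι → Module.End F V)
    (J : Module.End F V) (l : ℕ) (p : Fin l × (Bool × ι)) : V :=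
  b p.2.2 (if p.2.1 then J (pick (sub A J p.1)) else pick (sub A J p.1))

lemma fam_indep [Finite V] {A : Subalgebra F (Module.End F V)} (hA : IsField A)
    (hodd : Odd (finrank F A)) {J : Module.End F V} {δ : F} (hδ : ¬ IsSquare δ)
    (hc : ∀ a ∈ A, ∀ x, J (a x) = a (J x)) (hJ2 : ∀ x, J (J x) = δ • x) {k : ℕ}
    (hV : finrank F V = 2 * finrank F A * k) {ι : Type*} [Fintype ι] (b : Basis ι F A)
    (l : ℕ) (hl : l ≤ k) :
    LinearIndependent F (fam A (fun j => (b j : Module.End F V)) J l) := by
  classical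
  rw [Fintype.linearIndependent_iff]
  intro g hg
  set G : ℕ → Bool → ι → F := fun i e j => if h : i < l then g (⟨i, h⟩, (e, j)) else 0 with hG
  have hsum := indep_coeff hA hodd hδ hc hJ2 hV
    (fun i => ∑ j, G i false j • (b j : Module.End F V))
    (fun i => ∑ j, G i true j • (b j : Module.End F V))
    (fun i => A.sum_mem fun j _ => A.smul_mem (b j).2 _)
    (fun i => A.sum_mem fun j _ => A.smul_mem (b j).2 _) l hl (by
      rw [Finset.sum_range, ← hg, Fintype.sum_prod_type]
      refine Finset.sum_congr rfl fun i _ => ?_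
      rw [Fintype.sum_prod_type, Fintype.sum_bool, add_comm]
      simp only [LinearMap.sum_apply, LinearMap.smul_apply, fam, hG, i.2, dif_pos, Fin.eta,
        if_true, Bool.false_eq_true, if_false])
  have hz : ∀ i < l, ∀ e j, G i e j = 0 := by
    intro i hi e j
    have h1 : ∀ e, ∑ j, G i e j • (b j : Module.End F V) = 0 := by
      intro e
      rcases e with _ | _
      · exact (hsum i hi).1
      · exact (hsum i hi).2
    have h2 : ∑ j, G i e j • b j = 0 := by
      apply Subtype.ext
      rw [AddSubmonoidClass.coe_finsetSum]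
      simpa using h1 e
    exact (Fintype.linearIndependent_iff.1 b.linearIndependent _ h2) j
  rintro ⟨i, e, j⟩
  have := hz i i.2 e j
  simpa [hG] using this

lemma sum_exp (t k : ℕ) :
    ∑ l ∈ Finset.range k, (2 * t * k - l * (2 * t)) = t * k * (k + 1) := by
  induction k with
  | zero => simp
  | succ k ih =>
    rw [Finset.sum_range_succ']
    have h1 : ∀ l ∈ Finset.range k, 2 * t * (k + 1) - (l + 1) * (2 * t) =
        2 * t * k - l * (2 * t) := by
      intro l _
      have e1 : 2 * t * (k + 1) = 2 * t * k + 2 * t := by ring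
      have e2 : (l + 1) * (2 * t) = l * (2 * t) + 2 * t := by ring
      rw [e1, e2, Nat.add_sub_add_right]
    rw [Finset.sum_congr rfl h1, ih]
    simp only [zero_mul, Nat.sub_zero]
    ring

end Pool.Agent.UD.Yu

namespace Pool.Agent.UD

open Yu Sf

variable {F V : Type*} [Field F] [Finite F] [AddCommGroup V] [Module F V] [Finite V]
variable {ω : LinearMap.BilinForm F V}

omit [Finite F] in
/-- E1 : skew operators with nonsquare square `δ`, commuting with a self-adjoint field `A` of odd
degree `t`. -/
theorem card_Y_comm_le (hω : IsSymp ω) {δ : F} (hδ : ¬ IsSquare δ)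
    (A : Subalgebra F (Module.End F V)) (hA : IsField A) (_hsa : ∀ a ∈ A, IsSA ω a)
    {t k : ℕ} (ht : Odd t) (he : finrank F A = t) (hV : finrank F V = 2 * t * k) :
    Nat.card {J : Y ω δ // ∀ a ∈ A, ∀ x, J.1 (a x) = a (J.1 x)} ≤
      Nat.card F ^ (t * k * (k + 1)) := by
  classical
  subst he
  have : FiniteDimensional F V := Module.Finite.of_finite
  have : Module.Finite F A := Module.Finite.of_finite
  set b := finBasis F A with hb
  set S := {J : Y ω δ // ∀ a ∈ A, ∀ x, J.1 (a x) = a (J.1 x)} with hS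
  have h1 := card_le_tree (S := S) (X := V) k
    (fun l J => (J.1.1 : Module.End F V) (pick (sub A J.1.1 l)))
    (fun l => Nat.card F ^ (2 * finrank F A * k - l * (2 * finrank F A))) ?_ ?_
  · refine h1.trans_eq ?_
    rw [Finset.prod_pow_eq_pow_sum, sum_exp]
  · intro l hl J
    have hind := fam_indep hA ht hδ J.2 J.1.2.2 hV b l hl.le
    have h2 := card_solutions hω _ hind fun p => if p.2.1 then
      - ω (δ • (b p.2.2 : Module.End F V) (pick (sub A J.1.1 p.1))) (pick (sub A J.1.1 l))
      else - ω ((b p.2.2 : Module.End F V) (J.1.1 (pick (sub A J.1.1 p.1))))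
        (pick (sub A J.1.1 l))
    rw [Fintype.card_prod, Fintype.card_prod, Fintype.card_bool, Fintype.card_fin,
      Fintype.card_fin, hV] at h2
    rw [← h2]
    have h3 : ∀ v : V, (∃ J' : S, (∀ i < l, (J'.1.1 : Module.End F V) (pick (sub A J'.1.1 i)) =
        J.1.1 (pick (sub A J.1.1 i))) ∧ (J'.1.1 : Module.End F V) (pick (sub A J'.1.1 l)) = v) →
        ∀ p : Fin l × (Bool × Fin (finrank F A)),
          ω (fam A (fun j => (b j : Module.End F V)) J.1.1 l p) v = if p.2.1 then
      - ω (δ • (b p.2.2 : Module.End F V) (pick (sub A J.1.1 p.1))) (pick (sub A J.1.1 l))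
      else - ω ((b p.2.2 : Module.End F V) (J.1.1 (pick (sub A J.1.1 p.1))))
        (pick (sub A J.1.1 l)) := by
      rintro v ⟨J', hJ', rfl⟩ ⟨i, e, j⟩
      have hsub : ∀ i ≤ l, sub A J'.1.1 i = sub A J.1.1 i := fun i hi =>
        sub_congr i fun i' hi' => hJ' i' (by omega)
      rw [hsub l le_rfl]
      have hi1 := hJ' i i.2
      have hi2 := hsub i i.2.le
      rw [hi2] at hi1
      have hsk : ∀ x y, ω x (J'.1.1 y) = - ω (J'.1.1 x) y := by
        intro x y
        rw [J'.1.2.1 x y, neg_neg]
      rcases e with _ | _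
      · simp only [fam, Bool.false_eq_true, if_false]
        rw [hsk, J'.2 _ (b j).2, hi1]
      · simp only [fam, if_true]
        rw [hsk, J'.2 _ (b j).2, ← hi1, J'.1.2.2, map_smul]
    apply Nat.card_le_card_of_injective (fun v => (⟨v.1, h3 v.1 v.2⟩ :
      {y : V // ∀ p : Fin l × (Bool × Fin (finrank F A)),
          ω (fam A (fun j => (b j : Module.End F V)) J.1.1 l p) y = if p.2.1 then
      - ω (δ • (b p.2.2 : Module.End F V) (pick (sub A J.1.1 p.1))) (pick (sub A J.1.1 l))
      else - ω ((b p.2.2 : Module.End F V) (J.1.1 (pick (sub A J.1.1 p.1))))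
        (pick (sub A J.1.1 l))}))
    intro v v' hvv
    apply Subtype.ext
    simpa using congrArg Subtype.val hvv
  · intro J J' hJJ
    have hsub : ∀ i ≤ k, sub A J.1.1 i = sub A J'.1.1 i := fun i hi =>
      sub_congr i fun i' hi' => hJJ i' (by omega)
    have hind := fam_indep hA ht hδ J.2 J.1.2.2 hV b k le_rfl
    have hspan := hind.span_eq_top_of_card_eq_finrank' (by
      rw [Fintype.card_prod, Fintype.card_prod, Fintype.card_bool, Fintype.card_fin,
        Fintype.card_fin, hV]
      ring)
    apply Subtype.ext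
    apply Subtype.ext
    refine LinearMap.ext_on_range hspan ?_
    rintro ⟨i, e, j⟩
    have hi1 := hJJ i i.2
    have hi2 := hsub i i.2.le
    rcases e with _ | _
    · simp only [fam, Bool.false_eq_true, if_false]
      rw [J.2 _ (b j).2, J'.2 _ (b j).2, hi1, hi2]
    · simp only [fam, if_true]
      rw [J.2 _ (b j).2, J.1.2.2, J'.2 _ (b j).2, hi1, J'.1.2.2, hi2]

end Pool.Agent.UD
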